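import Pool.Agent.Lunar.BSys

/-!
# Different components of the board use different rows and columns
-/

namespace Pool.Agent.Lunar

namespace BApart

/-- Rows used by the blocks. -/
def rowOk (y : ℕ) : Bool :=
  decide ((y ≤ 16 ∧ y ≠ 4 ∧ y ≠ 8) ∨ y = 20 ∨ y = 23 ∨ y = 26)

/-- Canonical cells used by the rest configurations of blocks. -/
def zZ (p : Cell) : Bool :=
  decide (4 ≤ p.1 ∧ p.1 ≤ 33 ∧ p.1 ≠ 27 ∧ p.1 ≠ 21 ∧ p.1 ≠ 9 ∧ (p.1 = 28 → p.2 = 20) ∧
    (p.1 = 20 → p.2 = 23) ∧ (p.1 = 10 → p.2 = 26)) && rowOk p.2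

/-- Canonical cells used by the active configurations of blocks. -/
def zA (e : Bool) (p : Cell) : Bool :=
  (decide (4 ≤ p.1 ∧ p.1 ≤ 33) && rowOk p.2) ||
    (bif e then decide (p = (1, 5) ∨ p = (2, 5)) else decide (p = (36, 9) ∨ p = (35, 9)))

theorem all_zZ (κ : Kind) (s : Bool) : ((κ.dat.Z s).all fun d => d.all zZ) = true := by
  cases κ <;> cases s <;> decide +kernel

theorem all_zA (κ : Kind) (s e : Bool) : ((κ.dat.A s e).all fun d => d.all (zA e)) = true := by
  cases κ <;> cases s <;> cases e <;> decide +kernel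

/-- Rows of the block `β` on the board. -/
def RowB (m β y : ℕ) : Prop :=
  (17 * β ≤ y ∧ y ≤ 17 * β + 16 ∧ y ≠ 17 * β + 4 ∧ y ≠ 17 * β + 8) ∨ y = 17 * m + 1 + 9 * β + 2 ∨
    y = 17 * m + 1 + 9 * β + 5 ∨ y = 17 * m + 1 + 9 * β + 8

theorem rowB_of (m β y : ℕ) (h : rowOk y = true) : RowB m β (map2 (by' β) (17 * m + 1 + 9 * β) 18 y) := by
  simp only [rowOk, decide_eq_true_eq] at h
  unfold RowB map2 by'
  split
  · left; omega
  · right; omega

/-- Cells of the rest configurations of a block. -/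
theorem zone_Z {B : List Blk} {β : Fin B.length} {s : Bool} {c : Finset Cell}
    (hc : c ∈ (bSys B).Z (.inl β) s) {p : Cell} (hp : p ∈ c) :
    RowB B.length β p.2 ∧ ∃ u, p.1 = 9 * B.length + 1 + 30 * β + u ∧ u ≤ 29 ∧ u ≠ 23 ∧ u ≠ 17 ∧
      u ≠ 5 ∧ (u = 24 → p.2 = 17 * B.length + 1 + 9 * β + 2) ∧
      (u = 16 → p.2 = 17 * B.length + 1 + 9 * β + 5) ∧
      (u = 6 → p.2 = 17 * B.length + 1 + 9 * β + 8) := by
  obtain ⟨d, hd, hω⟩ := hc
  rw [hω (β, 0)] at hp
  simp only [im, img, List.mem_toFinset, List.mem_map] at hp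
  obtain ⟨q, hq, rfl⟩ := hp
  have h := all_zZ (B.get β).kind s
  rw [List.all_eq_true] at h
  have h := h d hd
  rw [List.all_eq_true] at h
  have h := h q hq
  simp only [zZ, Bool.and_eq_true, decide_eq_true_eq] at h
  obtain ⟨⟨h1, h2, h3, h4, h5, h6, h7, h8⟩, h9⟩ := h
  refine ⟨rowB_of _ _ _ h9, q.1 - 4, ?_, ?_, ?_, ?_, ?_, ?_, ?_, ?_⟩
  · simp only [fx, mapB, bx]
    rw [if_neg (by omega), if_pos (by omega)]
  · omega
  · omega
  · omega
  · omega
  · intro h; rw [h6 (by omega)]; simp [gy, map2]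
  · intro h; rw [h7 (by omega)]; simp [gy, map2]
  · intro h; rw [h8 (by omega)]; simp [gy, map2]

/-- Cells of the active configurations of a block. -/
theorem zone_A {B : List Blk} {β : Fin B.length} {s : Bool} {ω : Wr B} {c : Finset Cell}
    (hc : c ∈ (bSys B).A (.inl β) s ω) {p : Cell} (hp : p ∈ c) :
    tw B ω = some β.1 ∧
    ((RowB B.length β p.2 ∧ ∃ u, p.1 = 9 * B.length + 1 + 30 * β + u ∧ u ≤ 29) ∨
    (ω.2.1 = 1 ∧ (p = (wx B.length ω.1 ω.2, 17 * β.1 + 9) ∨
      p = (wx B.length ω.1 ω.2 + 1, 17 * β.1 + 9))) ∨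
    (ω.2.1 ≠ 1 ∧ (p = (wx B.length ω.1 ω.2 + 2, 17 * β.1 + 5) ∨
      p = (wx B.length ω.1 ω.2 + 1, 17 * β.1 + 5)))) := by
  obtain ⟨hact, d, hd, rfl⟩ := hc
  refine ⟨hact, ?_⟩
  simp only [im, img, List.mem_toFinset, List.mem_map] at hp
  obtain ⟨q, hq, rfl⟩ := hp
  have h := all_zA (B.get β).kind s (entOf ω.2)
  rw [List.all_eq_true] at h
  have h := h d hd
  rw [List.all_eq_true] at h
  have h := h q hq
  simp only [zA, Bool.and_eq_true, Bool.or_eq_true, decide_eq_true_eq] at h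
  rcases h with ⟨⟨h1, h2⟩, h3⟩ | h
  · left
    refine ⟨rowB_of _ _ _ h3, q.1 - 4, ?_, ?_⟩
    · simp only [fx, mapB, bx]
      rw [if_neg (by omega), if_pos (by omega)]
    · omega
  · right
    by_cases hk : ω.2.1 = 1
    · left
      refine ⟨hk, ?_⟩
      simp only [entOf, hk, ne_eq, not_true_eq_false, decide_false, cond_false,
        decide_eq_true_eq] at h
      rcases h with rfl | rfl
      · right; simp [fx, mapB, gy, map2, by', hk]
      · left; simp [fx, mapB, gy, map2, by', hk]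
    · right
      refine ⟨hk, ?_⟩
      simp only [entOf, hk, ne_eq, not_false_eq_true, decide_true, cond_true,
        decide_eq_true_eq] at h
      rcases h with rfl | rfl
      · right; simp [fx, mapB, gy, map2, by', hk]
      · left; simp [fx, mapB, gy, map2, by', hk]

theorem fx_some {B : List Blk} {β : Fin B.length} {k : Fin 3} {γ : ℕ} (ω : Wr B)
    (ht : tg B β k = some γ) : fx B (.inr (β, k)) ω =
      if k.1 = 1 then map2 (bx B.length β + xcol k) (wx B.length β k) 3
      else map2 (wx B.length β k) (bx B.length β + xcol k - 1) 4 := by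
  simp only [fx, ht]

theorem gy_some {B : List Blk} {β : Fin B.length} {k : Fin 3} {γ : ℕ}
    (ht : tg B β k = some γ) : gy B (.inr (β, k)) =
      map2 (by' γ + (if k.1 = 1 then 8 else 4)) (wy B.length β k) 3 := by
  simp only [gy, ht]

theorem fx_none {B : List Blk} {β : Fin B.length} {k : Fin 3} (ω : Wr B)
    (ht : tg B β k = none) : fx B (.inr (β, k)) ω = fun x => bx B.length β + xcol k + x := by
  simp only [fx, ht]

theorem gy_none {B : List Blk} {β : Fin B.length} {k : Fin 3}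
    (ht : tg B β k = none) : gy B (.inr (β, k)) = fun y => wy B.length β k + 1 + y := by
  simp only [gy, ht]

theorem kd_some {B : List Blk} {β : Fin B.length} {k : Fin 3} {γ : ℕ}
    (ht : tg B β k = some γ) : kd B (.inr (β, k)) = if k.1 = 1 then kRelC else kRelA := by
  simp only [kd, tw, ht]

theorem kd_none {B : List Blk} {β : Fin B.length} {k : Fin 3}
    (ht : tg B β k = none) : kd B (.inr (β, k)) = kSink := by
  simp only [kd, tw, ht]

/-- Cells of the rest configurations of a wire. -/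
theorem zone_ZW {B : List Blk} {β : Fin B.length} {k : Fin 3} {s : Bool} {c : Finset Cell}
    (hc : c ∈ (bSys B).Z (.inr (β, k)) s) {p : Cell} (hp : p ∈ c) :
    ∃ γ, tg B β k = some γ ∧
      ((k.1 = 1 ∧ (p = (wx B.length β k + 2, wy B.length β k + 1) ∨
        p = (wx B.length β k + 1, 17 * γ + 8))) ∨
      (k.1 ≠ 1 ∧ (p = (wx B.length β k, wy B.length β k + 1) ∨
        p = (wx B.length β k + 1, 17 * γ + 4)))) := by
  obtain ⟨d, hd, hω⟩ := hc
  rw [hω (β, k)] at hp
  simp only [im, img, List.mem_toFinset, List.mem_map] at hp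
  obtain ⟨q, hq, rfl⟩ := hp
  cases ht : tg B β k with
  | none =>
    exfalso
    rw [kd_none ht] at hd
    have : d = [] := by simpa [kSink, kSink_Z] using hd
    subst this
    simp at hq
  | some γ =>
    refine ⟨γ, rfl, ?_⟩
    rw [kd_some ht] at hd
    rw [fx_some _ ht, gy_some ht]
    by_cases hk : k.1 = 1
    · left
      refine ⟨hk, ?_⟩
      rw [if_pos hk] at hd
      rw [if_pos hk, if_pos hk]
      have : d = [(4, 0), (5, 4)] := by simpa [kRelC, kRelC_Z] using hd
      subst this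
      simp only [List.mem_cons, List.not_mem_nil, or_false] at hq
      rcases hq with rfl | rfl
      · right; simp [map2, by']
      · left; simp [map2]
    · right
      refine ⟨hk, ?_⟩
      rw [if_neg hk] at hd
      rw [if_neg hk, if_neg hk]
      have : d = [(0, 4), (1, 0)] := by simpa [kRelA, kRelA_Z] using hd
      subst this
      simp only [List.mem_cons, List.not_mem_nil, or_false] at hq
      rcases hq with rfl | rfl
      · left; simp [map2]
      · right; simp [map2, by']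

/-- Canonical cells of the active configurations of the relays. -/
theorem all_AC (s : Bool) : ((kRelC.A s false).all fun d => d.all fun p =>
    decide (p = (0, 4) ∨ p = (1, 4) ∨ p = (4, 0) ∨ p = (5, 4) ∨ p = (4, 4) ∨ p = (4, 3))) =
      true := by
  cases s <;> decide +kernel

theorem all_AA (s : Bool) : ((kRelA.A s false).all fun d => d.all fun p =>
    decide (p = (5, 4) ∨ p = (4, 4) ∨ p = (1, 0) ∨ p = (0, 4) ∨ p = (1, 4) ∨ p = (1, 3))) =
      true := by
  cases s <;> decide +kernel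

/-- Cells of the active configurations of a wire. -/
theorem zone_AW {B : List Blk} {β : Fin B.length} {k : Fin 3} {s : Bool} {ω : Wr B}
    {c : Finset Cell} (hc : c ∈ (bSys B).A (.inr (β, k)) s ω) {p : Cell} (hp : p ∈ c) :
    ω = (β, k) ∧ HasEx B β k ∧
    (p = (bx B.length β + xcol k, wy B.length β k + 1) ∨
      ∃ γ, tg B β k = some γ ∧
      ((k.1 = 1 ∧ (p = (bx B.length β + xcol k + 1, wy B.length β k + 1) ∨
        p = (wx B.length β k + 1, 17 * γ + 8) ∨
        p = (wx B.length β k + 2, wy B.length β k + 1) ∨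
        p = (wx B.length β k + 1, wy B.length β k + 1) ∨
        p = (wx B.length β k + 1, wy B.length β k))) ∨
      (k.1 ≠ 1 ∧ (p = (bx B.length β + xcol k - 1, wy B.length β k + 1) ∨
        p = (wx B.length β k + 1, 17 * γ + 4) ∨
        p = (wx B.length β k, wy B.length β k + 1) ∨
        p = (wx B.length β k + 1, wy B.length β k + 1) ∨
        p = (wx B.length β k + 1, wy B.length β k))))) := by
  obtain ⟨⟨hact, hex⟩, d, hd, rfl⟩ := hc
  subst hact
  refine ⟨rfl, hex, ?_⟩
  simp only [im, img, List.mem_toFinset, List.mem_map] at hp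
  obtain ⟨q, hq, rfl⟩ := hp
  simp only [en] at hd
  cases ht : tg B β k with
  | none =>
    left
    rw [kd_none ht] at hd
    rw [fx_none _ ht, gy_none ht]
    have : d = [(0, 0)] := by simpa [kSink, kSink_A0] using hd
    subst this
    simp only [List.mem_cons, List.not_mem_nil, or_false] at hq
    subst hq
    simp
  | some γ =>
    rw [kd_some ht] at hd
    rw [fx_some _ ht, gy_some ht]
    by_cases hk : k.1 = 1
    · rw [if_pos hk] at hd
      rw [if_pos hk, if_pos hk]
      have h := all_AC s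
      rw [List.all_eq_true] at h
      have h := h d hd
      rw [List.all_eq_true] at h
      have h := h q hq
      simp only [decide_eq_true_eq] at h
      rcases h with rfl | h
      · left; simp [map2]
      · right
        refine ⟨γ, rfl, Or.inl ⟨hk, ?_⟩⟩
        rcases h with rfl | rfl | rfl | rfl | rfl
        · left; simp [map2]
        · right; left; simp [map2, by']
        · right; right; left; simp [map2]
        · right; right; right; left; simp [map2]
        · right; right; right; right; simp [map2]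
    · rw [if_neg hk] at hd
      rw [if_neg hk, if_neg hk]
      have hx : 1 ≤ xcol k := by
        unfold xcol; split <;> omega
      have h := all_AA s
      rw [List.all_eq_true] at h
      have h := h d hd
      rw [List.all_eq_true] at h
      have h := h q hq
      simp only [decide_eq_true_eq] at h
      rcases h with rfl | h
      · left; simp [map2]; omega
      · right
        refine ⟨γ, rfl, Or.inr ⟨hk, ?_⟩⟩
        rcases h with rfl | rfl | rfl | rfl | rfl
        · left; simp [map2]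
        · right; left; simp [map2, by']
        · right; right; left; simp [map2]
        · right; right; right; left; simp [map2]
        · right; right; right; right; simp [map2]

theorem wx1 {m β k : ℕ} (hk : k = 1) : wx m β k = 39 * m + 2 + 9 * β + 3 := by
  subst hk; simp [wx]

theorem wx0 {m β k : ℕ} (hk : k ≠ 1) : wx m β k = 9 * β + 3 * k := by
  simp [wx, hk]

theorem wy' (m β k : ℕ) : wy m β k = 17 * m + 1 + 9 * β + 3 * k := rfl

theorem Apart.symm' {p q : Cell} (h : Apart p q) : Apart q p := ⟨h.1.symm, h.2.symm⟩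

theorem apart_bb {B : List Blk} {β β' : Fin B.length} (h : β ≠ β') {s s' : Bool}
    {d d' : Finset Cell} (hd : d ∈ (bSys B).Z (.inl β) s) (hd' : d' ∈ (bSys B).Z (.inl β') s')
    {p q : Cell} (hp : p ∈ d) (hq : q ∈ d') : Apart p q := by
  have hne : β.1 ≠ β'.1 := fun e => h (Fin.ext e)
  have b1 := β.2
  have b2 := β'.2
  obtain ⟨r1, u, h1, h2, -⟩ := zone_Z hd hp
  obtain ⟨r2, u', h1', h2', -⟩ := zone_Z hd' hq
  unfold RowB at r1 r2
  constructor
  · omega
  · omega

theorem apart_bw {B : List Blk} (hB : BNormal B) {β β' : Fin B.length} {k : Fin 3} {s s' : Bool}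
    {d d' : Finset Cell} (hd : d ∈ (bSys B).Z (.inl β) s)
    (hd' : d' ∈ (bSys B).Z (.inr (β', k)) s')
    {p q : Cell} (hp : p ∈ d) (hq : q ∈ d') : Apart p q := by
  have b1 := β.2
  have b2 := β'.2
  have b3 := k.2
  obtain ⟨r1, u, h1, h2, -⟩ := zone_Z hd hp
  obtain ⟨γ, hγ, h⟩ := zone_ZW hd' hq
  have hγ' := hB.range _ _ _ hγ
  unfold RowB at r1
  rcases h with ⟨hk, rfl | rfl⟩ | ⟨hk, rfl | rfl⟩
  · rw [wx1 hk, wy']; constructor <;> simp only <;> omega
  · rw [wx1 hk]; constructor <;> simp only <;> omega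
  · rw [wx0 hk, wy']; constructor <;> simp only <;> omega
  · rw [wx0 hk]; constructor <;> simp only <;> omega

theorem apart_ww {B : List Blk} (hB : BNormal B) {ω ω' : Wr B} (hne : ω ≠ ω') {s s' : Bool}
    {d d' : Finset Cell} (hd : d ∈ (bSys B).Z (.inr ω) s) (hd' : d' ∈ (bSys B).Z (.inr ω') s')
    {p q : Cell} (hp : p ∈ d) (hq : q ∈ d') : Apart p q := by
  obtain ⟨β, k⟩ := ω
  obtain ⟨β', k'⟩ := ω'
  have b1 := β.2
  have b2 := β'.2
  have b3 := k.2
  have b4 := k'.2
  obtain ⟨γ, hγ, h⟩ := zone_ZW hd hp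
  obtain ⟨γ', hγ', h'⟩ := zone_ZW hd' hq
  have g1 := hB.range _ _ _ hγ
  have g2 := hB.range _ _ _ hγ'
  have hne' : ¬ (β.1 = β'.1 ∧ k.1 = k'.1) := by
    rintro ⟨e1, e2⟩
    exact hne (by rw [Fin.ext e1, Fin.ext e2])
  have hin : γ = γ' → ¬ (k.1 = 1 ↔ k'.1 = 1) := by
    intro e e2
    subst e
    apply hne'
    refine hB.inj _ _ _ _ _ hγ hγ' ?_
    unfold entOf
    rw [decide_eq_decide]
    simp only [ne_eq, e2]
  rcases h with ⟨hk, rfl | rfl⟩ | ⟨hk, rfl | rfl⟩ <;>
    rcases h' with ⟨hk', rfl | rfl⟩ | ⟨hk', rfl | rfl⟩ <;>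
    simp only [hk, hk', iff_true, not_true_eq_false, imp_false, not_false_eq_true,
      imp_true_iff, iff_self, iff_false] at hin <;>
    first
      | rw [wx1 hk]
      | rw [wx0 hk]
  all_goals
    first
      | rw [wx1 hk']
      | rw [wx0 hk']
  all_goals
    try simp only [wy']
    constructor <;> simp only <;> omega

/-- The entry cell of a block. -/
theorem w_blk (B : List Blk) (β : Fin B.length) (ω : Wr B) : (bSys B).w (.inl β) ω =
    (wx B.length ω.1 ω.2 + 1, 17 * β.1 + if ω.2.1 = 1 then 9 else 5) := by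
  have h : ∀ κ : Kind, ∀ e, κ.dat.w e = bif e then (1, 5) else (36, 9) := by
    intro κ e; cases κ <;> cases e <;> rfl
  simp only [bSys, cel, kd, h, en]
  by_cases hk : ω.2.1 = 1
  · simp [entOf, hk, fx, mapB, gy, map2, by']
  · simp [entOf, hk, fx, mapB, gy, map2, by']

/-- The entry cell of a wire. -/
theorem w_wire (B : List Blk) (β : Fin B.length) (k : Fin 3) : (bSys B).w (.inr (β, k)) (β, k) =
    (bx B.length β + xcol k, wy B.length β k + 1) := by
  simp only [bSys, cel, en]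
  cases ht : tg B β k with
  | none => rw [kd_none ht, fx_none _ ht, gy_none ht]; simp [kSink]
  | some γ =>
    rw [kd_some ht, fx_some _ ht, gy_some ht]
    have hx : 1 ≤ xcol k := by
      unfold xcol; split <;> omega
    by_cases hk : k.1 = 1
    · rw [if_pos hk, if_pos hk, if_pos hk]; simp [kRelC, map2]
    · rw [if_neg hk, if_neg hk, if_neg hk]; simp [kRelA, map2]; omega

/-- The local column of an exit. -/
theorem xcol_cases {k : ℕ} (hk : k < 3) :
    (k = 0 ∧ xcol k = 24) ∨ (k = 1 ∧ xcol k = 16) ∨ (k = 2 ∧ xcol k = 6) := by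
  have : k = 0 ∨ k = 1 ∨ k = 2 := by omega
  rcases this with rfl | rfl | rfl <;> simp [xcol]

theorem apartA_bb {B : List Blk} {β β' : Fin B.length} (h : β ≠ β') {s s' : Bool} {ω : Wr B}
    {d c : Finset Cell} (hd : d ∈ (bSys B).Z (.inl β) s) (hc : c ∈ (bSys B).A (.inl β') s' ω)
    {p q : Cell} (hp : p ∈ d) (hq : q ∈ c) : Apart p q := by
  have hne : β.1 ≠ β'.1 := fun e => h (Fin.ext e)
  have b1 := β.2
  have b2 := β'.2
  have b3 := ω.1.2
  have b4 := ω.2.2
  obtain ⟨r1, u, h1, h2, -⟩ := zone_Z hd hp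
  obtain ⟨-, h'⟩ := zone_A hc hq
  unfold RowB at r1 h'
  rcases h' with ⟨r2, u', h1', h2'⟩ | ⟨hk, rfl | rfl⟩ | ⟨hk, rfl | rfl⟩
  · constructor
    · omega
    · omega
  · rw [wx1 hk]; constructor <;> simp only <;> omega
  · rw [wx1 hk]; constructor <;> simp only <;> omega
  · rw [wx0 hk]; constructor <;> simp only <;> omega
  · rw [wx0 hk]; constructor <;> simp only <;> omega

theorem apartA_bw {B : List Blk} (hB : BNormal B) {β β' : Fin B.length} {k : Fin 3} {s s' : Bool}
    {ω : Wr B} {d c : Finset Cell} (hd : d ∈ (bSys B).Z (.inl β) s)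
    (hc : c ∈ (bSys B).A (.inr (β', k)) s' ω) {p q : Cell} (hp : p ∈ d) (hq : q ∈ c) :
    Apart p q ∨ (q = (bSys B).w (.inr (β', k)) ω ∧ Adj p q) := by
  have b1 := β.2
  have b2 := β'.2
  have b3 := k.2
  obtain ⟨r1, u, h1, h2, h3, h4, h5, h6, h7, h8⟩ := zone_Z hd hp
  obtain ⟨rfl, -, h'⟩ := zone_AW hc hq
  unfold RowB at r1
  rcases h' with hq' | ⟨γ, hγ, ⟨hk, h'⟩ | ⟨hk, h'⟩⟩
  · rw [w_wire]
    simp only [hq', Apart, Adj, wy', bx]
    rcases xcol_cases b3 with ⟨e1, e2⟩ | ⟨e1, e2⟩ | ⟨e1, e2⟩ <;> rw [e2] <;> simp only [e1] <;>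
      simp only [true_and] <;> omega
  · left
    have g := hB.range _ _ _ hγ
    rcases xcol_cases b3 with ⟨e1, e2⟩ | ⟨e1, e2⟩ | ⟨e1, e2⟩ <;>
    rcases h' with rfl | rfl | rfl | rfl | rfl <;>
      simp only [Apart, wy', wx1 hk, bx, e2] <;> omega
  · left
    have g := hB.range _ _ _ hγ
    rcases xcol_cases b3 with ⟨e1, e2⟩ | ⟨e1, e2⟩ | ⟨e1, e2⟩ <;>
    rcases h' with rfl | rfl | rfl | rfl | rfl <;>
      simp only [Apart, wy', wx0 hk, bx, e2] <;> omega

theorem apartA_wb {B : List Blk} (hB : BNormal B) {β' : Fin B.length} {ω ω' : Wr B} {s s' : Bool}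
    {d c : Finset Cell} (hd : d ∈ (bSys B).Z (.inr ω) s)
    (hc : c ∈ (bSys B).A (.inl β') s' ω') {p q : Cell} (hp : p ∈ d) (hq : q ∈ c) :
    Apart p q ∨ (q = (bSys B).w (.inl β') ω' ∧ Adj p q) := by
  obtain ⟨β, k⟩ := ω
  obtain ⟨β₁, k₁⟩ := ω'
  have b1 := β.2
  have b2 := β'.2
  have b3 := k.2
  have b4 := β₁.2
  have b5 := k₁.2
  obtain ⟨γ, hγ, h⟩ := zone_ZW hd hp
  have g := hB.range _ _ _ hγ
  obtain ⟨hact, h'⟩ := zone_A hc hq
  have hin : γ = β'.1 → (k.1 = 1 ↔ k₁.1 = 1) → β.1 = β₁.1 ∧ k.1 = k₁.1 := by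
    intro e e2
    subst e
    refine hB.inj _ _ _ _ _ hγ hact ?_
    unfold entOf
    rw [decide_eq_decide]
    simp only [ne_eq, e2]
  have hfun : β.1 = β₁.1 → k.1 = k₁.1 → γ = β'.1 := by
    intro e e2
    simp only [tw] at hact
    rw [e, e2, hact] at hγ
    exact (Option.some.inj hγ).symm
  rw [w_blk]
  unfold RowB at h'
  simp only at h' hin ⊢
  rcases h' with ⟨r2, u', h1', h2'⟩ | ⟨hk', rfl | rfl⟩ | ⟨hk', rfl | rfl⟩
  · left
    rcases h with ⟨hk, rfl | rfl⟩ | ⟨hk, rfl | rfl⟩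
    · simp only [Apart, wy', wx1 hk]; omega
    · simp only [Apart, wx1 hk]; omega
    · simp only [Apart, wy', wx0 hk]; omega
    · simp only [Apart, wx0 hk]; omega
  · rw [if_pos hk']
    rcases h with ⟨hk, rfl | rfl⟩ | ⟨hk, rfl | rfl⟩
    · simp only [Apart, Adj, wy', wx1 hk, wx1 hk']; omega
    · simp only [Apart, Adj, wx1 hk, wx1 hk']; omega
    · simp only [Apart, Adj, wy', wx0 hk, wx1 hk']; omega
    · simp only [Apart, Adj, wx0 hk, wx1 hk']; omega
  · rw [if_pos hk']
    rcases h with ⟨hk, rfl | rfl⟩ | ⟨hk, rfl | rfl⟩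
    · simp only [Apart, Adj, wy', wx1 hk, wx1 hk']; omega
    · simp only [Apart, Adj, true_and, wx1 hk, wx1 hk']; omega
    · simp only [Apart, Adj, wy', wx0 hk, wx1 hk']; omega
    · simp only [Apart, Adj, wx0 hk, wx1 hk']; omega
  · rw [if_neg hk']
    rcases h with ⟨hk, rfl | rfl⟩ | ⟨hk, rfl | rfl⟩
    · simp only [Apart, Adj, wy', wx1 hk, wx0 hk']; omega
    · simp only [Apart, Adj, wx1 hk, wx0 hk']; omega
    · simp only [Apart, Adj, wy', wx0 hk, wx0 hk']; omega
    · simp only [Apart, Adj, wx0 hk, wx0 hk']; omega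
  · rw [if_neg hk']
    rcases h with ⟨hk, rfl | rfl⟩ | ⟨hk, rfl | rfl⟩
    · simp only [Apart, Adj, wy', wx1 hk, wx0 hk']; omega
    · simp only [Apart, Adj, wx1 hk, wx0 hk']; omega
    · simp only [Apart, Adj, wy', wx0 hk, wx0 hk']; omega
    · simp only [Apart, Adj, true_and, wx0 hk, wx0 hk']; omega

theorem apartA_ww {B : List Blk} (hB : BNormal B) {ω ω' ω₁ : Wr B} (hne : ω ≠ ω') {s s' : Bool}
    {d c : Finset Cell} (hd : d ∈ (bSys B).Z (.inr ω) s) (hc : c ∈ (bSys B).A (.inr ω') s' ω₁)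
    {p q : Cell} (hp : p ∈ d) (hq : q ∈ c) : Apart p q := by
  obtain ⟨β, k⟩ := ω
  obtain ⟨β', k'⟩ := ω'
  have b1 := β.2
  have b2 := β'.2
  have b3 := k.2
  have b4 := k'.2
  obtain ⟨γ, hγ, h⟩ := zone_ZW hd hp
  obtain ⟨rfl, -, h'⟩ := zone_AW hc hq
  have g1 := hB.range _ _ _ hγ
  have hne' : ¬ (β.1 = β'.1 ∧ k.1 = k'.1) := by
    rintro ⟨e1, e2⟩
    exact hne (by rw [Fin.ext e1, Fin.ext e2])
  rcases h' with rfl | ⟨γ', hγ', h'⟩
  · rcases xcol_cases b4 with ⟨e1, e2⟩ | ⟨e1, e2⟩ | ⟨e1, e2⟩ <;>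
    rcases h with ⟨hk, rfl | rfl⟩ | ⟨hk, rfl | rfl⟩ <;>
      first
        | (simp only [Apart, wy', wx1 hk, bx, e2]; omega)
        | (simp only [Apart, wy', wx0 hk, bx, e2]; omega)
  have g2 := hB.range _ _ _ hγ'
  have hin : γ = γ' → ¬ (k.1 = 1 ↔ k'.1 = 1) := by
    intro e e2
    subst e
    apply hne'
    refine hB.inj _ _ _ _ _ hγ hγ' ?_
    unfold entOf
    rw [decide_eq_decide]
    simp only [ne_eq, e2]
  rcases h with ⟨hk, h⟩ | ⟨hk, h⟩ <;> rcases h' with ⟨hk', h'⟩ | ⟨hk', h'⟩ <;>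
    simp only [hk, hk', iff_true, not_true_eq_false, imp_false, not_false_eq_true,
      imp_true_iff, iff_self, iff_false] at hin <;>
    rcases h with rfl | rfl <;> rcases h' with rfl | rfl | rfl | rfl | rfl <;>
    rcases xcol_cases b4 with ⟨e1, e2⟩ | ⟨e1, e2⟩ | ⟨e1, e2⟩ <;>
    simp only [Apart, wy', bx, e2]
  all_goals
    try first
      | rw [wx1 hk]
      | rw [wx0 hk]
  all_goals
    try first
      | rw [wx1 hk']
      | rw [wx0 hk']
  all_goals omega

end BApart

open BApart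

theorem bApartZ_proof : Stmt_BApartZ := by
  intro B hB i j hij s s' d d' hd hd' p hp q hq
  rcases i with β | ω <;> rcases j with β' | ω'
  · exact apart_bb (fun e => hij (by rw [e])) hd hd' hp hq
  · exact apart_bw (k := ω'.2) (β' := ω'.1) hB hd hd' hp hq
  · exact Apart.symm' (apart_bw (k := ω.2) (β' := ω.1) hB hd' hd hq hp)
  · exact apart_ww hB (fun e => hij (by rw [e])) hd hd' hp hq

theorem bApartA_proof : Stmt_BApartA := by
  intro B hB i j hij s s' e d c hd hc p hp q hq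
  rcases i with β | ω <;> rcases j with β' | ω'
  · exact Or.inl (apartA_bb (fun e => hij (by rw [e])) hd hc hp hq)
  · exact apartA_bw (k := ω'.2) (β' := ω'.1) hB hd hc hp hq
  · exact apartA_wb hB hd hc hp hq
  · exact Or.inl (apartA_ww hB (fun e => hij (by rw [e])) hd hc hp hq)

end Pool.Agent.Lunar
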