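import Pool.Agent.Lunar.KCheck

/-!
# The image of a closed canonical component is closed
-/

namespace Pool.Agent.Lunar

open KD

namespace Transport

theorem mem_cells_Z {K : KData} {s : Bool} {d : List Cell} (hd : d ∈ K.Z s) {p : Cell}
    (hp : p ∈ d) : p ∈ K.cells := by
  simp only [KData.cells, List.mem_append, List.mem_flatMap, List.mem_flatten]
  left; left
  exact ⟨s, by cases s <;> simp, Or.inl ⟨d, hd, hp⟩⟩

theorem mem_cells_A {K : KData} {s e : Bool} {d : List Cell} (hd : d ∈ K.A s e) {p : Cell}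
    (hp : p ∈ d) : p ∈ K.cells := by
  simp only [KData.cells, List.mem_append, List.mem_flatMap, List.mem_flatten]
  left; left
  exact ⟨s, by cases s <;> simp, Or.inr ⟨e, by cases e <;> simp, d, hd, hp⟩⟩

theorem mem_cells_x {K : KData} {s e s' : Bool} {k : Fin 3} (h : K.rel s e s' k = true) :
    K.x k ∈ K.cells := by
  simp only [KData.cells, List.mem_append]
  right
  simp only [List.mem_map, List.mem_filter, List.any_eq_true]
  refine ⟨k, ⟨by fin_cases k <;> simp, s, by cases s <;> simp, e, by cases e <;> simp,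
    s', by cases s' <;> simp, h⟩, rfl⟩

/-- The unit steps of `f`. -/
def uu (f : ℕ → ℕ) (i : ℕ) : Bool := decide (f (i + 1) = f i + 1)

theorem fine_uu {f : ℕ → ℕ} {U : List ℕ} (h : UnitOn f U) : Fine (uu f) f :=
  ⟨h.mono, fun i hi => by simpa [uu] using hi⟩

theorem img_eq (f g : ℕ → ℕ) (c : List Cell) : Pool.Agent.Lunar.img f g c = KD.img f g c := rfl

theorem img_image (f g : ℕ → ℕ) (c : List Cell) :
    KD.img f g c = c.toFinset.image fun p => (f p.1, g p.2) := by
  ext q
  simp [KD.img]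

theorem img_congr (f g : ℕ → ℕ) {c d : List Cell} (h : c.toFinset = d.toFinset) :
    KD.img f g c = KD.img f g d := by
  rw [img_image, img_image, h]

theorem image_insert (f g : ℕ → ℕ) (q : Cell) (S : Finset Cell) :
    (insert q S).image (fun p => (f p.1, g p.2)) =
      insert (f q.1, g q.2) (S.image fun p => (f p.1, g p.2)) := Finset.image_insert _ _ _

/-- All slides from `c` end inside `U`. -/
theorem good_of {U : List Cell} {f g : ℕ → ℕ} (hf : UnitOn f (U.map Prod.fst))
    (hg : UnitOn g (U.map Prod.snd)) {c : List Cell} (hc : ∀ p ∈ c, p ∈ U)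
    (hs : ∀ T, Step c.toFinset T → ∀ p ∈ T, p ∈ U) : good (uu f) (uu g) c = true := by
  have hu1 : ∀ a b : Cell, a ∈ U → b ∈ U → b.1 = a.1 + 1 → uu f a.1 = true := by
    intro a b ha hb e
    have := hf.unit a.1 (List.mem_map.2 ⟨a, ha, rfl⟩) (List.mem_map.2 ⟨b, hb, e⟩)
    simpa [uu] using this
  have hu2 : ∀ a b : Cell, a ∈ U → b ∈ U → b.2 = a.2 + 1 → uu g a.2 = true := by
    intro a b ha hb e
    have := hg.unit a.2 (List.mem_map.2 ⟨a, ha, rfl⟩) (List.mem_map.2 ⟨b, hb, e⟩)
    simpa [uu] using this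
  have key : ∀ t ∈ succs c, ∀ q ∈ t, q ∈ U := by
    intro t ht q hq
    exact hs _ (step_toFinset_complete ht) q (List.mem_toFinset.2 hq)
  simp only [good, List.all_eq_true, Bool.and_eq_true, Bool.or_eq_true, Bool.not_eq_true']
  intro p hp a ha
  constructor
  · cases h : seeR c p a
    · exact Or.inl rfl
    · right
      have h' := (seeR_iff c p a).1 h
      have m1 : (a.1 - 1, a.2) ∈ U := key _ ((mem_succs c _).2 ⟨p, hp, a, ha,
        Or.inl ⟨h, Or.inl rfl⟩⟩) _ ((mem_mv c p _ _).2 (Or.inl rfl))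
      have m2 : (p.1 + 1, p.2) ∈ U := key _ ((mem_succs c _).2 ⟨p, hp, a, ha,
        Or.inl ⟨h, Or.inr rfl⟩⟩) _ ((mem_mv c a _ _).2 (Or.inl rfl))
      exact ⟨hu1 _ a m1 (hc a ha) (by simp only; omega), hu1 p _ (hc p hp) m2 rfl⟩
  · cases h : seeU c p a
    · exact Or.inl rfl
    · right
      have h' := (seeU_iff c p a).1 h
      have m1 : (a.1, a.2 - 1) ∈ U := key _ ((mem_succs c _).2 ⟨p, hp, a, ha,
        Or.inr ⟨h, Or.inl rfl⟩⟩) _ ((mem_mv c p _ _).2 (Or.inl rfl))
      have m2 : (p.1, p.2 + 1) ∈ U := key _ ((mem_succs c _).2 ⟨p, hp, a, ha,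
        Or.inr ⟨h, Or.inr rfl⟩⟩) _ ((mem_mv c a _ _).2 (Or.inl rfl))
      exact ⟨hu2 _ a m1 (hc a ha) (by simp only; omega), hu2 p _ (hc p hp) m2 rfl⟩

end Transport

open Transport

/-- The image of a closed canonical component is closed. -/
theorem transport_proof : Stmt_Transport := by
  intro K hK f g hf hg
  have fx := fine_uu hf
  have fy := fine_uu hg
  have goodZ : ∀ s, ∀ d ∈ K.Z s, good (uu f) (uu g) d = true := by
    intro s d hd
    refine good_of hf hg (fun p hp => mem_cells_Z hd hp) ?_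
    intro T hT p hp
    obtain ⟨d', hd', rfl⟩ := hK.zstep s d hd T hT
    exact mem_cells_Z hd' (List.mem_toFinset.1 hp)
  have goodA : ∀ s e, K.ent e = true → ∀ c ∈ K.A s e, good (uu f) (uu g) c = true := by
    intro s e he c hc
    refine good_of hf hg (fun p hp => mem_cells_A hc hp) ?_
    intro T hT p hp
    rcases hK.astep s e he c hc T hT with ⟨c', hc', rfl⟩ | ⟨s', k, hr, d, hd, rfl⟩
    · exact mem_cells_A hc' (List.mem_toFinset.1 hp)
    · rcases Finset.mem_insert.1 hp with rfl | hp
      · exact mem_cells_x hr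
      · exact mem_cells_Z hd (List.mem_toFinset.1 hp)
  refine ⟨?_, ?_, ?_, ?_⟩
  · intro s d hd T hT
    obtain ⟨t, ht, rfl⟩ := step_sound fx fy (goodZ s d hd) hT
    obtain ⟨d', hd', e⟩ := hK.zstep s d hd _ (step_toFinset_complete ht)
    exact ⟨d', hd', img_congr f g e⟩
  · intro s e he d hd
    obtain ⟨c, hc, h⟩ := hK.enter s e he d hd
    refine ⟨c, hc, ?_⟩
    rw [img_eq, img_eq, img_image, img_image, ← h, image_insert]
  · intro s e he c hc T hT
    obtain ⟨t, ht, rfl⟩ := step_sound fx fy (goodA s e he c hc) hT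
    rcases hK.astep s e he c hc _ (step_toFinset_complete ht) with
      ⟨c', hc', h⟩ | ⟨s', k, hr, d, hd, h⟩
    · exact Or.inl ⟨c', hc', img_congr f g h⟩
    · refine Or.inr ⟨s', k, hr, d, hd, ?_⟩
      rw [img_eq, img_image, h, image_insert, ← img_image]
  · intro s e s' k he hr
    have h := hK.path s e s' k he hr
    have := Relation.ReflTransGen.lift
      (p := fun c c' => (∃ l ∈ K.A s e, c = Pool.Agent.Lunar.img f g l) ∧ Step c c')
      (fun S : Finset Cell => S.image fun p => (f p.1, g p.2)) ?_ _ _ h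
    · simp only [Function.onFun] at this
      rw [image_insert, image_insert, ← img_image, ← img_image] at this
      exact this
    · rintro c c' ⟨⟨l, hl, rfl⟩, hs⟩
      obtain ⟨t, ht, rfl⟩ := step_toFinset_sound hs
      refine ⟨⟨l, hl, (img_image f g l).symm⟩, ?_⟩
      have := step_complete fx fy (goodA s e he l hl) ht
      rwa [img_image, img_image] at this

end Pool.Agent.Lunar
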