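import Pool.Agent.Lunar.BSys
import Pool.Agent.Lunar.Transport

/-!
# The system of blocks satisfies the local conditions
-/

namespace Pool.Agent.Lunar

namespace BOk

theorem map2_unit {a b k : ℕ} {U : List ℕ} (h : a + k ≤ b) (hk : ∀ x ∈ U, x + 1 ≠ k) :
    UnitOn (map2 a b k) U := by
  constructor
  · intro x y hxy
    unfold map2
    split_ifs <;> omega
  · intro x hx _
    have := hk x hx
    unfold map2
    split_ifs <;> omega

theorem mapB_unit {a c b : ℕ} {U : List ℕ} (h1 : a + 3 < c) (h2 : c + 30 < b)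
    (hk : ∀ x ∈ U, x ≠ 3 ∧ x ≠ 34) : UnitOn (mapB a c b) U := by
  constructor
  · intro x y hxy
    unfold mapB
    split_ifs <;> omega
  · intro x hx _
    have := hk x hx
    unfold mapB
    split_ifs <;> omega

theorem add_unit (a : ℕ) (U : List ℕ) : UnitOn (fun x => a + x) U :=
  ⟨fun x y h => by simpa using h, fun x _ _ => by omega⟩

/-- boolean check of the cells of the block kinds -/
theorem cells_main (κ : Kind) : ∀ p ∈ κ.dat.cells, p.1 ≠ 3 ∧ p.1 ≠ 34 ∧ p.2 ≠ 17 := by
  have h : (κ.dat.cells.all fun p => !(p.1 == 3) && !(p.1 == 34) && !(p.2 == 17)) = true := by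
    cases κ <;> decide +kernel
  intro p hp
  have := List.all_eq_true.1 h p hp
  simpa [and_assoc] using this

theorem cells_relC : ∀ p ∈ kRelC.cells, p.1 ≠ 2 ∧ p.2 ≠ 2 := by
  have h : (kRelC.cells.all fun p => !(p.1 == 2) && !(p.2 == 2)) = true := by decide +kernel
  intro p hp
  have := List.all_eq_true.1 h p hp
  simpa [and_assoc] using this

theorem cells_relA : ∀ p ∈ kRelA.cells, p.1 ≠ 3 ∧ p.2 ≠ 2 := by
  have h : (kRelA.cells.all fun p => !(p.1 == 3) && !(p.2 == 2)) = true := by decide +kernel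
  intro p hp
  have := List.all_eq_true.1 h p hp
  simpa [and_assoc] using this

theorem z_main (κ : Kind) (s : Bool) : ∀ d ∈ κ.dat.Z s, ∀ p ∈ d, 4 ≤ p.1 ∧ p.1 ≤ 33 := by
  have h : ((κ.dat.Z s).all fun d => d.all fun p => Nat.ble 4 p.1 && Nat.ble p.1 33) = true := by
    cases κ <;> cases s <;> decide +kernel
  intro d hd p hp
  have := List.all_eq_true.1 (List.all_eq_true.1 h d hd) p hp
  simpa using this

theorem closed_main (κ : Kind) : κ.dat.Closed := by
  cases κ
  · exact closed_kCell
  · exact closed_kMergeA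
  · exact closed_kMergeC
  · exact closed_kStart
  · exact closed_kGoal

theorem closed_kd (B : List Blk) (i : Ix B) : (kd B i).Closed := by
  cases i with
  | inl β => exact closed_main _
  | inr ω =>
    simp only [kd]
    split
    · exact closed_kSink
    · split
      · exact closed_kRelC
      · exact closed_kRelA

theorem rel_main (κ : Kind) (s e s' : Bool) (k : Fin 3) (h : κ.dat.rel s e s' k = true) :
    κ.dat.x k = (xcol k.1 + 4, 19 + 3 * k.1) ∧ k.1 ∈ κ.ex := by
  revert h
  cases κ <;> cases s <;> cases e <;> cases s' <;> fin_cases k <;> decide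

theorem w_main (κ : Kind) (e : Bool) (h : κ.dat.ent e = true) :
    κ.dat.w e = if e then (1, 5) else (36, 9) := by
  revert h
  cases κ <;> cases e <;> decide

end BOk

open BOk

theorem bImZ_proof : Stmt_BImZ := by
  intro B i s d hd ω ω'
  cases i with
  | inl β =>
    unfold im img
    congr 1
    apply List.map_congr_left
    intro p hp
    have := z_main _ s d hd p hp
    simp only [fx, mapB]
    split_ifs <;> first | rfl | omega
  | inr ω0 => rfl

namespace BOk

variable {B : List Blk} (hB : BNormal B)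

include hB in
theorem kd_ent {i : Ix B} {ω : Wr B} (h : act B i ω) : (kd B i).ent (en B i ω) = true := by
  cases i with
  | inl β =>
    exact hB.ent ω.1 ω.2 β (B.get β) h (by simp)
  | inr ω' =>
    simp only [kd, en]
    split
    · rfl
    · split <;> rfl

theorem xcol_pos (k : ℕ) : 6 ≤ xcol k ∧ xcol k ≤ 24 := by
  unfold xcol; split <;> omega

theorem fx_unit (i : Ix B) (ω : Wr B) : UnitOn (fx B i ω) ((kd B i).cells.map Prod.fst) := by
  cases i with
  | inl β =>
    simp only [fx]
    have h1 := β.2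
    have h2 := ω.1.2
    have h3 := ω.2.2
    apply mapB_unit
    · unfold wx bx
      split_ifs <;> omega
    · unfold wx bx
      split_ifs <;> omega
    · intro x hx
      obtain ⟨p, hp, rfl⟩ := List.mem_map.1 hx
      have := cells_main _ p hp
      exact ⟨this.1, this.2.1⟩
  | inr ω' =>
    obtain ⟨β, k⟩ := ω'
    simp only [fx, kd, tw]
    have h1 := β.2
    have h3 := k.2
    have h4 := xcol_pos k
    split
    · exact add_unit _ _
    · split
      · apply map2_unit
        · unfold bx wx
          split_ifs <;> omega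
        · intro x hx
          obtain ⟨p, hp, rfl⟩ := List.mem_map.1 hx
          have := cells_relC p hp
          omega
      · apply map2_unit
        · unfold bx wx
          split_ifs <;> omega
        · intro x hx
          obtain ⟨p, hp, rfl⟩ := List.mem_map.1 hx
          have := cells_relA p hp
          omega

include hB in
theorem gy_unit (i : Ix B) : UnitOn (gy B i) ((kd B i).cells.map Prod.snd) := by
  cases i with
  | inl β =>
    simp only [gy]
    have h1 := β.2
    apply map2_unit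
    · unfold by'
      omega
    · intro x hx
      obtain ⟨p, hp, rfl⟩ := List.mem_map.1 hx
      have := cells_main _ p hp
      omega
  | inr ω' =>
    obtain ⟨β, k⟩ := ω'
    simp only [gy, kd, tw]
    have h1 := β.2
    have h3 := k.2
    split
    · exact add_unit _ _
    · rename_i γ hγ
      have hγ' := hB.range _ _ _ hγ
      split
      · apply map2_unit
        · unfold by' wy
          omega
        · intro x hx
          obtain ⟨p, hp, rfl⟩ := List.mem_map.1 hx
          have := cells_relC p hp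
          omega
      · apply map2_unit
        · unfold by' wy
          omega
        · intro x hx
          obtain ⟨p, hp, rfl⟩ := List.mem_map.1 hx
          have := cells_relA p hp
          omega

/-- A wire at a component. -/
def w0 (B : List Blk) : Ix B → Wr B
  | .inl β => (β, 0)
  | .inr ω => ω

theorem bCz_eq (i : Ix B) (s : Bool) : bCz B i s = im B i (w0 B i) ((kd B i).cz s) := by
  cases i <;> rfl

theorem mem_Z {i : Ix B} {s : Bool} {c : Finset Cell} :
    c ∈ (bSys B).Z i s ↔ ∃ d ∈ (kd B i).Z s, ∀ ω, c = im B i ω d := Iff.rfl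

theorem mem_Z' {i : Ix B} {s : Bool} {c : Finset Cell} (ω : Wr B) {d : List Cell}
    (hd : d ∈ (kd B i).Z s) (h : c = im B i ω d) : c ∈ (bSys B).Z i s :=
  ⟨d, hd, fun ω' => by rw [h]; exact bImZ_proof B i s d hd ω ω'⟩

theorem mem_A {i : Ix B} {s : Bool} {ω : Wr B} {c : Finset Cell} :
    c ∈ (bSys B).A i s ω ↔ act B i ω ∧ ∃ d ∈ (kd B i).A s (en B i ω), c = im B i ω d := Iff.rfl

theorem mem_rel {i : Ix B} {s s' : Bool} {ω : Wr B} {k : Fin 3} :
    (bSys B).rel i s ω s' k ↔ act B i ω ∧ (kd B i).rel s (en B i ω) s' k = true := Iff.rfl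

/-- A relay or sink component with a transition is a relay. -/
theorem rel_inr {ω' ω : Wr B} {s s' : Bool} {k : Fin 3} (h : (bSys B).rel (.inr ω') s ω s' k) :
    ω' = ω ∧ s = s' ∧ k = 0 ∧ ∃ γ, tw B ω = some γ := by
  obtain ⟨⟨rfl, _⟩, h2⟩ := h
  refine ⟨rfl, ?_⟩
  simp only [kd, en] at h2
  split at h2
  · exact absurd h2 (by simp [kSink])
  · rename_i γ hγ
    split at h2
    · revert h2
      cases s <;> cases s' <;> fin_cases k <;> simp [kRelC, hγ]
    · revert h2
      cases s <;> cases s' <;> fin_cases k <;> simp [kRelA, hγ]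

include hB in
theorem nx_inr {ω' ω : Wr B} {s s' : Bool} {k : Fin 3} (h : (bSys B).rel (.inr ω') s ω s' k) :
    ∃ γ, ∃ hγ : γ < B.length, tw B ω = some γ ∧ (bSys B).nx (.inr ω') k = (.inl ⟨γ, hγ⟩, ω) := by
  obtain ⟨rfl, _, _, γ, hγ⟩ := rel_inr h
  have hγ' : γ < B.length := hB.range _ _ _ hγ
  refine ⟨γ, hγ', hγ, ?_⟩
  simp only [bSys, hγ, hγ', dif_pos]

include hB in
theorem link (i : Ix B) (s : Bool) (e : Wr B) (s' : Bool) (o : Fin 3)
    (h : (bSys B).rel i s e s' o) :
    (bSys B).w ((bSys B).nx i o).1 ((bSys B).nx i o).2 = (bSys B).x i o := by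
  cases i with
  | inl β =>
    have h4 := xcol_pos o
    simp only [bSys, cel, fx, gy, kd, en, exitCell, tw]
    cases hT : tg B β o with
    | none => simp [kSink]
    | some γ =>
      simp only
      split
      · simp [kRelC, map2]
      · simp [kRelA, map2]
        omega
  | inr ω =>
    obtain ⟨γ, hγ, hT, hn⟩ := nx_inr hB h
    obtain ⟨rfl, _⟩ := rel_inr h
    rw [hn]
    have he : (kd B (.inl ⟨γ, hγ⟩)).ent (en B (.inl ⟨γ, hγ⟩) ω) = true := kd_ent hB hT
    have hw := w_main _ _ he
    obtain ⟨β, k⟩ := ω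
    have hT' : tg B β k = some γ := hT
    have hw' : (kd B (.inl ⟨γ, hγ⟩)).w (en B (.inl ⟨γ, hγ⟩) (β, k)) =
      if en B (.inl ⟨γ, hγ⟩) (β, k) = true then (1, 5) else (36, 9) := hw
    simp only [bSys, cel, hw', hT']
    by_cases hk : k.1 = 1
    · simp [en, entOf, hk, fx, gy, mapB, map2, wx]
    · simp [en, entOf, hk, fx, gy, mapB, map2, wx]

theorem x_eq {i : Ix B} {s : Bool} {ω : Wr B} {s' : Bool} {k : Fin 3}
    (h : (bSys B).rel i s ω s' k) :
    (fx B i ω ((kd B i).x k).1, gy B i ((kd B i).x k).2) = (bSys B).x i k := by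
  cases i with
  | inl β =>
    have hx : (kd B (.inl β)).x k = (xcol k.1 + 4, 19 + 3 * k.1) := (rel_main _ _ _ _ _ h.2).1
    rw [hx]
    have h4 := xcol_pos k
    simp only [bSys, exitCell, fx, gy, mapB, map2, Prod.mk.injEq]
    constructor
    · split_ifs <;> omega
    · rw [if_neg (by omega)]
      unfold wy
      omega
  | inr ω' =>
    obtain ⟨rfl, _, rfl, γ, hγ⟩ := rel_inr h
    obtain ⟨β, k⟩ := ω'
    have hT' : tg B β k = some γ := hγ
    simp only [bSys, kd, tw, hT', fx, gy]
    by_cases hk : k.1 = 1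
    · simp [hk, kRelC, map2]
    · simp [hk, kRelA, map2]

include hB in
theorem enter (i : Ix B) (s : Bool) (e : Wr B) (s' : Bool) (o : Fin 3)
    (h : (bSys B).rel i s e s' o) (r : Bool) (d : Finset Cell)
    (hd : d ∈ (bSys B).Z ((bSys B).nx i o).1 r) :
    insert ((bSys B).x i o) d ∈ (bSys B).A ((bSys B).nx i o).1 r ((bSys B).nx i o).2 := by
  have hact : act B ((bSys B).nx i o).1 ((bSys B).nx i o).2 := by
    cases i with
    | inl β =>
      refine ⟨rfl, B.get β, by simp [bSys], ?_⟩
      exact (rel_main _ _ _ _ _ h.2).2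
    | inr ω =>
      obtain ⟨γ, hγ, hT, hn⟩ := nx_inr hB h
      rw [hn]
      exact hT
  rw [← link hB i s e s' o h]
  obtain ⟨l, hl, hd⟩ := hd
  refine ⟨hact, ?_⟩
  obtain ⟨c, hc, hc'⟩ := (transport_proof _ (closed_kd B _) _ _ (fx_unit _ ((bSys B).nx i o).2)
    (gy_unit hB _)).2.1 r _ (kd_ent hB hact) l hl
  refine ⟨c, hc, ?_⟩
  rw [hd ((bSys B).nx i o).2]
  exact hc'

end BOk

theorem bOk_proof : Stmt_BOk := by
  intro B hB
  refine ⟨?_, link hB, enter hB, ?_, ?_⟩
  · rintro i s d T ⟨l, hl, hd⟩ hT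
    rw [hd (w0 B i)] at hT
    obtain ⟨d', hd', hT'⟩ := (transport_proof _ (closed_kd B i) _ _ (fx_unit i (w0 B i))
      (gy_unit hB i)).1 s l hl T hT
    exact mem_Z' (w0 B i) hd' hT'
  · rintro i s e c T ⟨ha, l, hl, rfl⟩ hT
    obtain h | ⟨s', k, hk, d, hd, hT'⟩ := (transport_proof _ (closed_kd B i) _ _ (fx_unit i e)
      (gy_unit hB i)).2.2.1 s _ (kd_ent hB ha) l hl T hT
    · left
      obtain ⟨c', hc', rfl⟩ := h
      exact ⟨ha, c', hc', rfl⟩
    · right
      have hr : (bSys B).rel i s e s' k := ⟨ha, hk⟩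
      refine ⟨s', k, im B i e d, hr, mem_Z' e hd rfl, ?_⟩
      rw [← x_eq hr]
      exact hT'
  · intro i s e s' o h
    cases i with
    | inl β => simp [bSys]
    | inr ω =>
      obtain ⟨γ, hγ, hT, hn⟩ := nx_inr hB h
      rw [hn]
      simp

theorem bFull_proof : Stmt_BFull := by
  intro B hB
  constructor
  · intro i s
    rw [bCz_eq]
    exact mem_Z' (w0 B i) ((closed_kd B i).cz s) rfl
  · intro i s e s' o h _
    have hz : ∀ r, bCz B i r = im B i e ((kd B i).cz r) := by
      intro r
      rw [bCz_eq]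
      exact bImZ_proof B i r _ ((closed_kd B i).cz r) _ _
    rw [hz, hz, ← x_eq h]
    have := (transport_proof _ (closed_kd B i) _ _ (fx_unit i e)
      (gy_unit hB i)).2.2.2 s _ s' o (kd_ent hB h.1) h.2
    refine Relation.ReflTransGen.mono ?_ _ _ this
    rintro c c' ⟨⟨l, hl, rfl⟩, hs⟩
    exact ⟨⟨h.1, l, hl, rfl⟩, hs⟩

end Pool.Agent.Lunar
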