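import Pool.Agent.Lunar.KCheck

/-!
# The eight kinds of canonical components

Rest and active configurations, entries, exits, transitions and paths; all of them are checked by
the kernel.
-/

namespace Pool.Agent.Lunar

open KD

/-- Rest configurations of `kCell` in state `false`. -/
def kCell_Z0 : List (List Cell) :=
  [[(4, 14), (5, 0), (10, 26), (11, 1), (16, 9), (17, 16), (18, 16), (20, 23), (28, 20), (29, 15), (30, 15), (31, 15), (32, 5)],
  [(4, 14), (5, 0), (10, 26), (11, 1), (16, 9), (17, 16), (20, 23), (28, 20), (29, 15), (30, 15), (31, 15), (31, 16), (32, 5)],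
  [(4, 14), (5, 0), (10, 26), (11, 1), (16, 9), (20, 23), (28, 20), (29, 15), (30, 15), (30, 16), (31, 15), (31, 16), (32, 5)]]

/-- Rest configurations of `kCell` in state `true`. -/
def kCell_Z1 : List (List Cell) :=
  [[(4, 14), (5, 0), (10, 26), (11, 1), (16, 9), (17, 15), (17, 16), (18, 15), (18, 16), (19, 15), (20, 23), (28, 20), (32, 5)],
  [(4, 14), (5, 0), (10, 26), (11, 1), (16, 9), (17, 15), (17, 16), (18, 15), (19, 15), (20, 23), (28, 20), (31, 16), (32, 5)],
  [(4, 14), (5, 0), (10, 26), (11, 1), (16, 9), (17, 15), (18, 15), (19, 15), (20, 23), (28, 20), (30, 16), (31, 16), (32, 5)]]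

/-- Active configurations of `kCell`, state `false`, entry `false`. -/
def kCell_A00 : List (List Cell) :=
  [[(4, 14), (5, 0), (10, 26), (11, 1), (16, 9), (17, 9), (17, 10), (18, 16), (20, 23), (28, 20), (29, 15), (30, 15), (31, 15), (32, 5)],
  [(4, 14), (5, 0), (10, 26), (11, 1), (16, 9), (17, 9), (17, 10), (20, 23), (28, 20), (29, 15), (30, 15), (31, 15), (31, 16), (32, 5)],
  [(4, 14), (5, 0), (10, 26), (11, 1), (16, 9), (17, 9), (17, 16), (18, 16), (20, 23), (28, 20), (29, 15), (30, 15), (31, 15), (32, 5)],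
  [(4, 14), (5, 0), (10, 26), (11, 1), (16, 9), (17, 9), (17, 16), (20, 23), (28, 20), (29, 15), (30, 15), (31, 15), (31, 16), (32, 5)],
  [(4, 14), (5, 0), (10, 26), (11, 1), (16, 9), (17, 9), (20, 23), (28, 20), (29, 15), (30, 15), (30, 16), (31, 15), (31, 16), (32, 5)],
  [(4, 14), (5, 0), (10, 26), (11, 1), (16, 9), (17, 15), (17, 16), (18, 15), (18, 16), (19, 15), (19, 16), (20, 15), (28, 20), (32, 5)],
  [(4, 14), (5, 0), (10, 26), (11, 1), (16, 9), (17, 15), (17, 16), (18, 15), (18, 16), (19, 15), (20, 15), (20, 16), (28, 20), (32, 5)],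
  [(4, 14), (5, 0), (10, 26), (11, 1), (16, 9), (17, 15), (17, 16), (18, 15), (18, 16), (19, 15), (20, 15), (20, 23), (28, 20), (32, 5)],
  [(4, 14), (5, 0), (10, 26), (11, 1), (16, 9), (17, 15), (17, 16), (18, 15), (18, 16), (19, 15), (20, 15), (21, 16), (28, 20), (32, 5)],
  [(4, 14), (5, 0), (10, 26), (11, 1), (16, 9), (17, 15), (17, 16), (18, 15), (18, 16), (19, 15), (20, 15), (28, 20), (31, 16), (32, 5)],
  [(4, 14), (5, 0), (10, 26), (11, 1), (16, 9), (17, 15), (17, 16), (18, 15), (18, 16), (19, 15), (20, 23), (28, 20), (31, 15), (32, 5)],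
  [(4, 14), (5, 0), (10, 26), (11, 1), (16, 9), (17, 15), (17, 16), (18, 15), (18, 16), (20, 23), (28, 20), (30, 15), (31, 15), (32, 5)],
  [(4, 14), (5, 0), (10, 26), (11, 1), (16, 9), (17, 15), (17, 16), (18, 15), (19, 15), (19, 16), (20, 15), (20, 16), (28, 20), (32, 5)],
  [(4, 14), (5, 0), (10, 26), (11, 1), (16, 9), (17, 15), (17, 16), (18, 15), (19, 15), (20, 15), (20, 16), (21, 16), (28, 20), (32, 5)],
  [(4, 14), (5, 0), (10, 26), (11, 1), (16, 9), (17, 15), (17, 16), (18, 15), (19, 15), (20, 15), (20, 16), (28, 20), (31, 16), (32, 5)],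
  [(4, 14), (5, 0), (10, 26), (11, 1), (16, 9), (17, 15), (17, 16), (18, 15), (19, 15), (20, 15), (20, 23), (28, 20), (31, 16), (32, 5)],
  [(4, 14), (5, 0), (10, 26), (11, 1), (16, 9), (17, 15), (17, 16), (18, 15), (19, 15), (20, 15), (28, 20), (30, 16), (31, 16), (32, 5)],
  [(4, 14), (5, 0), (10, 26), (11, 1), (16, 9), (17, 15), (17, 16), (18, 15), (19, 15), (20, 23), (28, 20), (31, 15), (31, 16), (32, 5)],
  [(4, 14), (5, 0), (10, 26), (11, 1), (16, 9), (17, 15), (17, 16), (18, 15), (20, 23), (28, 20), (30, 15), (31, 15), (31, 16), (32, 5)],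
  [(4, 14), (5, 0), (10, 26), (11, 1), (16, 9), (17, 15), (17, 16), (18, 16), (20, 23), (28, 20), (29, 15), (30, 15), (31, 15), (32, 5)],
  [(4, 14), (5, 0), (10, 26), (11, 1), (16, 9), (17, 15), (17, 16), (20, 23), (28, 20), (29, 15), (30, 15), (31, 15), (31, 16), (32, 5)],
  [(4, 14), (5, 0), (10, 26), (11, 1), (16, 9), (17, 15), (18, 15), (18, 16), (19, 15), (19, 16), (20, 15), (20, 16), (28, 20), (32, 5)],
  [(4, 14), (5, 0), (10, 26), (11, 1), (16, 9), (17, 15), (18, 15), (19, 15), (19, 16), (20, 15), (20, 16), (21, 16), (28, 20), (32, 5)],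
  [(4, 14), (5, 0), (10, 26), (11, 1), (16, 9), (17, 15), (18, 15), (19, 15), (19, 16), (20, 15), (20, 16), (28, 20), (31, 16), (32, 5)],
  [(4, 14), (5, 0), (10, 26), (11, 1), (16, 9), (17, 15), (18, 15), (19, 15), (19, 16), (20, 15), (28, 20), (30, 16), (31, 16), (32, 5)],
  [(4, 14), (5, 0), (10, 26), (11, 1), (16, 9), (17, 15), (18, 15), (19, 15), (20, 15), (20, 16), (21, 16), (22, 16), (28, 20), (32, 5)],
  [(4, 14), (5, 0), (10, 26), (11, 1), (16, 9), (17, 15), (18, 15), (19, 15), (20, 15), (20, 16), (21, 16), (28, 20), (31, 16), (32, 5)],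
  [(4, 14), (5, 0), (10, 26), (11, 1), (16, 9), (17, 15), (18, 15), (19, 15), (20, 15), (20, 16), (28, 20), (30, 16), (31, 16), (32, 5)],
  [(4, 14), (5, 0), (10, 26), (11, 1), (16, 9), (17, 15), (18, 15), (19, 15), (20, 15), (20, 23), (28, 20), (30, 16), (31, 16), (32, 5)],
  [(4, 14), (5, 0), (10, 26), (11, 1), (16, 9), (17, 15), (18, 15), (19, 15), (20, 15), (28, 20), (29, 16), (30, 16), (31, 16), (32, 5)],
  [(4, 14), (5, 0), (10, 26), (11, 1), (16, 9), (17, 15), (18, 15), (19, 15), (20, 23), (28, 20), (30, 16), (31, 15), (31, 16), (32, 5)],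
  [(4, 14), (5, 0), (10, 26), (11, 1), (16, 9), (17, 15), (18, 15), (20, 23), (28, 20), (30, 15), (30, 16), (31, 15), (31, 16), (32, 5)],
  [(4, 14), (5, 0), (10, 26), (11, 1), (16, 9), (17, 15), (20, 23), (28, 20), (29, 15), (30, 15), (30, 16), (31, 15), (31, 16), (32, 5)],
  [(4, 14), (5, 0), (10, 26), (11, 1), (16, 9), (17, 16), (18, 16), (19, 16), (20, 23), (28, 15), (29, 15), (30, 15), (31, 15), (32, 5)],
  [(4, 14), (5, 0), (10, 26), (11, 1), (16, 9), (17, 16), (18, 16), (20, 23), (28, 15), (28, 16), (29, 15), (30, 15), (31, 15), (32, 5)],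
  [(4, 14), (5, 0), (10, 26), (11, 1), (16, 9), (17, 16), (18, 16), (20, 23), (28, 15), (28, 20), (29, 15), (30, 15), (31, 15), (32, 5)],
  [(4, 14), (5, 0), (10, 26), (11, 1), (16, 9), (17, 16), (18, 16), (20, 23), (28, 15), (29, 15), (29, 16), (30, 15), (31, 15), (32, 5)],
  [(4, 14), (5, 0), (10, 26), (11, 1), (16, 9), (17, 16), (18, 16), (20, 23), (28, 15), (29, 15), (30, 15), (31, 15), (31, 16), (32, 5)],
  [(4, 14), (5, 0), (10, 26), (11, 1), (16, 9), (17, 16), (18, 16), (20, 23), (28, 20), (29, 15), (30, 15), (31, 15), (32, 5), (36, 9)],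
  [(4, 14), (5, 0), (10, 26), (11, 1), (16, 9), (17, 16), (20, 23), (27, 16), (28, 15), (28, 16), (29, 15), (30, 15), (31, 15), (32, 5)],
  [(4, 14), (5, 0), (10, 26), (11, 1), (16, 9), (17, 16), (20, 23), (28, 15), (28, 16), (29, 15), (29, 16), (30, 15), (31, 15), (32, 5)],
  [(4, 14), (5, 0), (10, 26), (11, 1), (16, 9), (17, 16), (20, 23), (28, 15), (28, 16), (29, 15), (30, 15), (31, 15), (31, 16), (32, 5)],
  [(4, 14), (5, 0), (10, 26), (11, 1), (16, 9), (17, 16), (20, 23), (28, 15), (28, 20), (29, 15), (30, 15), (31, 15), (31, 16), (32, 5)],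
  [(4, 14), (5, 0), (10, 26), (11, 1), (16, 9), (17, 16), (20, 23), (28, 15), (29, 15), (30, 15), (30, 16), (31, 15), (31, 16), (32, 5)],
  [(4, 14), (5, 0), (10, 26), (11, 1), (16, 9), (17, 16), (20, 23), (28, 20), (29, 15), (30, 15), (31, 15), (31, 16), (32, 5), (36, 9)],
  [(4, 14), (5, 0), (10, 26), (11, 1), (16, 9), (20, 23), (26, 16), (27, 16), (28, 15), (28, 16), (29, 15), (30, 15), (31, 15), (32, 5)],
  [(4, 14), (5, 0), (10, 26), (11, 1), (16, 9), (20, 23), (27, 16), (28, 15), (28, 16), (29, 15), (29, 16), (30, 15), (31, 15), (32, 5)],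
  [(4, 14), (5, 0), (10, 26), (11, 1), (16, 9), (20, 23), (27, 16), (28, 15), (28, 16), (29, 15), (30, 15), (31, 15), (31, 16), (32, 5)],
  [(4, 14), (5, 0), (10, 26), (11, 1), (16, 9), (20, 23), (27, 16), (28, 15), (29, 15), (30, 15), (30, 16), (31, 15), (31, 16), (32, 5)],
  [(4, 14), (5, 0), (10, 26), (11, 1), (16, 9), (20, 23), (28, 15), (28, 16), (29, 15), (29, 16), (30, 15), (30, 16), (31, 15), (32, 5)],
  [(4, 14), (5, 0), (10, 26), (11, 1), (16, 9), (20, 23), (28, 15), (28, 16), (29, 15), (29, 16), (30, 15), (31, 15), (31, 16), (32, 5)],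
  [(4, 14), (5, 0), (10, 26), (11, 1), (16, 9), (20, 23), (28, 15), (28, 16), (29, 15), (30, 15), (30, 16), (31, 15), (31, 16), (32, 5)],
  [(4, 14), (5, 0), (10, 26), (11, 1), (16, 9), (20, 23), (28, 15), (28, 20), (29, 15), (30, 15), (30, 16), (31, 15), (31, 16), (32, 5)],
  [(4, 14), (5, 0), (10, 26), (11, 1), (16, 9), (20, 23), (28, 15), (29, 15), (29, 16), (30, 15), (30, 16), (31, 15), (31, 16), (32, 5)],
  [(4, 14), (5, 0), (10, 26), (11, 1), (16, 9), (20, 23), (28, 20), (29, 15), (30, 15), (30, 16), (31, 15), (31, 16), (32, 5), (36, 9)],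
  [(4, 14), (5, 0), (10, 26), (11, 1), (17, 16), (18, 16), (20, 23), (28, 20), (29, 15), (30, 15), (31, 15), (32, 5), (35, 9), (36, 9)],
  [(4, 14), (5, 0), (10, 26), (11, 1), (17, 16), (20, 23), (28, 20), (29, 15), (30, 15), (31, 15), (31, 16), (32, 5), (35, 9), (36, 9)],
  [(4, 14), (5, 0), (10, 26), (11, 1), (20, 23), (28, 20), (29, 15), (30, 15), (30, 16), (31, 15), (31, 16), (32, 5), (35, 9), (36, 9)]]

/-- Active configurations of `kCell`, state `false`, entry `true`. -/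
def kCell_A01 : List (List Cell) :=
  [[(1, 5), (2, 5), (4, 14), (5, 0), (10, 26), (11, 1), (16, 9), (17, 16), (18, 16), (20, 23), (28, 20), (29, 15), (30, 15), (31, 15)],
  [(1, 5), (2, 5), (4, 14), (5, 0), (10, 26), (11, 1), (16, 9), (17, 16), (20, 23), (28, 20), (29, 15), (30, 15), (31, 15), (31, 16)],
  [(1, 5), (2, 5), (4, 14), (5, 0), (10, 26), (11, 1), (16, 9), (20, 23), (28, 20), (29, 15), (30, 15), (30, 16), (31, 15), (31, 16)],
  [(1, 5), (4, 14), (5, 0), (10, 26), (11, 1), (16, 9), (17, 16), (18, 16), (20, 23), (28, 20), (29, 15), (30, 15), (31, 15), (32, 5)],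
  [(1, 5), (4, 14), (5, 0), (10, 26), (11, 1), (16, 9), (17, 16), (20, 23), (28, 20), (29, 15), (30, 15), (31, 15), (31, 16), (32, 5)],
  [(1, 5), (4, 14), (5, 0), (10, 26), (11, 1), (16, 9), (20, 23), (28, 20), (29, 15), (30, 15), (30, 16), (31, 15), (31, 16), (32, 5)],
  [(4, 14), (5, 0), (5, 1), (6, 1), (10, 26), (16, 9), (17, 16), (18, 16), (20, 23), (28, 20), (29, 15), (30, 15), (31, 15), (32, 5)],
  [(4, 14), (5, 0), (5, 1), (6, 1), (10, 26), (16, 9), (17, 16), (20, 23), (28, 20), (29, 15), (30, 15), (31, 15), (31, 16), (32, 5)],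
  [(4, 14), (5, 0), (5, 1), (6, 1), (10, 26), (16, 9), (20, 23), (28, 20), (29, 15), (30, 15), (30, 16), (31, 15), (31, 16), (32, 5)],
  [(4, 14), (5, 0), (5, 1), (10, 26), (11, 1), (16, 9), (17, 16), (18, 16), (20, 23), (28, 20), (29, 15), (30, 15), (31, 15), (32, 5)],
  [(4, 14), (5, 0), (5, 1), (10, 26), (11, 1), (16, 9), (17, 16), (20, 23), (28, 20), (29, 15), (30, 15), (31, 15), (31, 16), (32, 5)],
  [(4, 14), (5, 0), (5, 1), (10, 26), (11, 1), (16, 9), (20, 23), (28, 20), (29, 15), (30, 15), (30, 16), (31, 15), (31, 16), (32, 5)],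
  [(4, 14), (5, 0), (5, 14), (10, 26), (11, 1), (16, 9), (17, 16), (18, 16), (20, 23), (28, 20), (29, 15), (30, 15), (31, 15), (32, 5)],
  [(4, 14), (5, 0), (5, 14), (10, 26), (11, 1), (16, 9), (17, 16), (20, 23), (28, 20), (29, 15), (30, 15), (31, 15), (31, 16), (32, 5)],
  [(4, 14), (5, 0), (5, 14), (10, 26), (11, 1), (16, 9), (20, 23), (28, 20), (29, 15), (30, 15), (30, 16), (31, 15), (31, 16), (32, 5)],
  [(4, 14), (5, 0), (10, 1), (10, 2), (11, 1), (16, 9), (17, 16), (18, 16), (20, 23), (28, 20), (29, 15), (30, 15), (31, 15), (32, 5)],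
  [(4, 14), (5, 0), (10, 1), (10, 2), (11, 1), (16, 9), (17, 16), (20, 23), (28, 20), (29, 15), (30, 15), (31, 15), (31, 16), (32, 5)],
  [(4, 14), (5, 0), (10, 1), (10, 2), (11, 1), (16, 9), (20, 23), (28, 20), (29, 15), (30, 15), (30, 16), (31, 15), (31, 16), (32, 5)],
  [(4, 14), (5, 0), (10, 1), (10, 26), (11, 1), (16, 9), (17, 16), (18, 16), (20, 23), (28, 20), (29, 15), (30, 15), (31, 15), (32, 5)],
  [(4, 14), (5, 0), (10, 1), (10, 26), (11, 1), (16, 9), (17, 16), (20, 23), (28, 20), (29, 15), (30, 15), (31, 15), (31, 16), (32, 5)],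
  [(4, 14), (5, 0), (10, 1), (10, 26), (11, 1), (16, 9), (20, 23), (28, 20), (29, 15), (30, 15), (30, 16), (31, 15), (31, 16), (32, 5)],
  [(4, 14), (5, 0), (10, 26), (11, 1), (16, 9), (17, 16), (18, 16), (20, 23), (28, 20), (29, 15), (30, 15), (31, 5), (31, 6), (32, 5)],
  [(4, 14), (5, 0), (10, 26), (11, 1), (16, 9), (17, 16), (18, 16), (20, 23), (28, 20), (29, 15), (30, 15), (31, 5), (31, 15), (32, 5)],
  [(4, 14), (5, 0), (10, 26), (11, 1), (16, 9), (17, 16), (18, 16), (20, 23), (28, 20), (29, 15), (30, 15), (31, 14), (31, 15), (32, 5)],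
  [(4, 14), (5, 0), (10, 26), (11, 1), (16, 9), (17, 16), (20, 23), (28, 20), (29, 15), (30, 15), (31, 5), (31, 6), (31, 7), (32, 5)],
  [(4, 14), (5, 0), (10, 26), (11, 1), (16, 9), (17, 16), (20, 23), (28, 20), (29, 15), (30, 15), (31, 5), (31, 6), (31, 16), (32, 5)],
  [(4, 14), (5, 0), (10, 26), (11, 1), (16, 9), (17, 16), (20, 23), (28, 20), (29, 15), (30, 15), (31, 5), (31, 15), (31, 16), (32, 5)],
  [(4, 14), (5, 0), (10, 26), (11, 1), (16, 9), (17, 16), (20, 23), (28, 20), (29, 15), (30, 15), (31, 14), (31, 15), (31, 16), (32, 5)],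
  [(4, 14), (5, 0), (10, 26), (11, 1), (16, 9), (20, 23), (28, 20), (29, 15), (30, 15), (30, 16), (31, 5), (31, 6), (31, 7), (32, 5)],
  [(4, 14), (5, 0), (10, 26), (11, 1), (16, 9), (20, 23), (28, 20), (29, 15), (30, 15), (30, 16), (31, 5), (31, 6), (31, 16), (32, 5)],
  [(4, 14), (5, 0), (10, 26), (11, 1), (16, 9), (20, 23), (28, 20), (29, 15), (30, 15), (30, 16), (31, 5), (31, 15), (31, 16), (32, 5)],
  [(4, 14), (5, 0), (10, 26), (11, 1), (16, 9), (20, 23), (28, 20), (29, 15), (30, 15), (30, 16), (31, 14), (31, 15), (31, 16), (32, 5)],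
  [(4, 14), (5, 13), (5, 14), (10, 26), (11, 1), (16, 9), (17, 16), (18, 16), (20, 23), (28, 20), (29, 15), (30, 15), (31, 15), (32, 5)],
  [(4, 14), (5, 13), (5, 14), (10, 26), (11, 1), (16, 9), (17, 16), (20, 23), (28, 20), (29, 15), (30, 15), (31, 15), (31, 16), (32, 5)],
  [(4, 14), (5, 13), (5, 14), (10, 26), (11, 1), (16, 9), (20, 23), (28, 20), (29, 15), (30, 15), (30, 16), (31, 15), (31, 16), (32, 5)],
  [(5, 0), (10, 26), (11, 1), (16, 9), (17, 16), (18, 16), (20, 23), (28, 20), (29, 15), (30, 14), (30, 15), (31, 14), (31, 15), (32, 5)],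
  [(5, 0), (10, 26), (11, 1), (16, 9), (17, 16), (20, 23), (28, 20), (29, 15), (30, 14), (30, 15), (31, 14), (31, 15), (31, 16), (32, 5)],
  [(5, 0), (10, 26), (11, 1), (16, 9), (20, 23), (28, 20), (29, 15), (30, 14), (30, 15), (30, 16), (31, 14), (31, 15), (31, 16), (32, 5)]]

/-- Active configurations of `kCell`, state `true`, entry `false`. -/
def kCell_A10 : List (List Cell) :=
  [[(4, 14), (5, 0), (5, 1), (6, 1), (10, 26), (16, 9), (17, 15), (17, 16), (18, 15), (18, 16), (19, 15), (20, 23), (28, 20), (32, 5)],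
  [(4, 14), (5, 0), (5, 1), (6, 1), (10, 26), (16, 9), (17, 15), (17, 16), (18, 15), (19, 15), (20, 23), (28, 20), (31, 16), (32, 5)],
  [(4, 14), (5, 0), (5, 1), (6, 1), (10, 26), (16, 9), (17, 15), (18, 15), (19, 15), (20, 23), (28, 20), (30, 16), (31, 16), (32, 5)],
  [(4, 14), (5, 0), (5, 1), (10, 26), (11, 1), (16, 9), (17, 15), (17, 16), (18, 15), (18, 16), (19, 15), (20, 23), (28, 20), (32, 5)],
  [(4, 14), (5, 0), (5, 1), (10, 26), (11, 1), (16, 9), (17, 15), (17, 16), (18, 15), (19, 15), (20, 23), (28, 20), (31, 16), (32, 5)],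
  [(4, 14), (5, 0), (5, 1), (10, 26), (11, 1), (16, 9), (17, 15), (18, 15), (19, 15), (20, 23), (28, 20), (30, 16), (31, 16), (32, 5)],
  [(4, 14), (5, 0), (5, 14), (10, 26), (11, 1), (16, 9), (17, 15), (17, 16), (18, 15), (18, 16), (19, 15), (20, 23), (28, 20), (32, 5)],
  [(4, 14), (5, 0), (5, 14), (10, 26), (11, 1), (16, 9), (17, 15), (17, 16), (18, 15), (19, 15), (20, 23), (28, 20), (31, 16), (32, 5)],
  [(4, 14), (5, 0), (5, 14), (10, 26), (11, 1), (16, 9), (17, 15), (18, 15), (19, 15), (20, 23), (28, 20), (30, 16), (31, 16), (32, 5)],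
  [(4, 14), (5, 0), (10, 1), (10, 2), (11, 1), (16, 9), (17, 15), (17, 16), (18, 15), (18, 16), (19, 15), (20, 23), (28, 20), (32, 5)],
  [(4, 14), (5, 0), (10, 1), (10, 2), (11, 1), (16, 9), (17, 15), (17, 16), (18, 15), (19, 15), (20, 23), (28, 20), (31, 16), (32, 5)],
  [(4, 14), (5, 0), (10, 1), (10, 2), (11, 1), (16, 9), (17, 15), (18, 15), (19, 15), (20, 23), (28, 20), (30, 16), (31, 16), (32, 5)],
  [(4, 14), (5, 0), (10, 1), (10, 26), (11, 1), (16, 9), (17, 15), (17, 16), (18, 15), (18, 16), (19, 15), (20, 23), (28, 20), (32, 5)],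
  [(4, 14), (5, 0), (10, 1), (10, 26), (11, 1), (16, 9), (17, 15), (17, 16), (18, 15), (19, 15), (20, 23), (28, 20), (31, 16), (32, 5)],
  [(4, 14), (5, 0), (10, 1), (10, 26), (11, 1), (16, 9), (17, 15), (18, 15), (19, 15), (20, 23), (28, 20), (30, 16), (31, 16), (32, 5)],
  [(4, 14), (5, 0), (10, 26), (11, 1), (16, 9), (17, 9), (17, 10), (17, 11), (18, 15), (18, 16), (19, 15), (20, 23), (28, 20), (32, 5)],
  [(4, 14), (5, 0), (10, 26), (11, 1), (16, 9), (17, 9), (17, 10), (17, 11), (18, 15), (19, 15), (20, 23), (28, 20), (31, 16), (32, 5)],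
  [(4, 14), (5, 0), (10, 26), (11, 1), (16, 9), (17, 9), (17, 10), (17, 16), (18, 15), (18, 16), (19, 15), (20, 23), (28, 20), (32, 5)],
  [(4, 14), (5, 0), (10, 26), (11, 1), (16, 9), (17, 9), (17, 10), (17, 16), (18, 15), (19, 15), (20, 23), (28, 20), (31, 16), (32, 5)],
  [(4, 14), (5, 0), (10, 26), (11, 1), (16, 9), (17, 9), (17, 10), (18, 15), (19, 15), (20, 23), (28, 20), (30, 16), (31, 16), (32, 5)],
  [(4, 14), (5, 0), (10, 26), (11, 1), (16, 9), (17, 9), (17, 15), (17, 16), (18, 15), (18, 16), (19, 15), (20, 23), (28, 20), (32, 5)],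
  [(4, 14), (5, 0), (10, 26), (11, 1), (16, 9), (17, 9), (17, 15), (17, 16), (18, 15), (19, 15), (20, 23), (28, 20), (31, 16), (32, 5)],
  [(4, 14), (5, 0), (10, 26), (11, 1), (16, 9), (17, 9), (17, 15), (18, 15), (19, 15), (20, 23), (28, 20), (30, 16), (31, 16), (32, 5)],
  [(4, 14), (5, 0), (10, 26), (11, 1), (16, 9), (17, 14), (17, 15), (17, 16), (18, 15), (18, 16), (19, 15), (20, 23), (28, 20), (32, 5)],
  [(4, 14), (5, 0), (10, 26), (11, 1), (16, 9), (17, 14), (17, 15), (17, 16), (18, 15), (19, 15), (20, 23), (28, 20), (31, 16), (32, 5)],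
  [(4, 14), (5, 0), (10, 26), (11, 1), (16, 9), (17, 14), (17, 15), (18, 15), (19, 15), (20, 23), (28, 20), (30, 16), (31, 16), (32, 5)],
  [(4, 14), (5, 0), (10, 26), (11, 1), (16, 9), (17, 15), (17, 16), (18, 15), (18, 16), (19, 15), (20, 23), (28, 20), (32, 5), (36, 9)],
  [(4, 14), (5, 0), (10, 26), (11, 1), (16, 9), (17, 15), (17, 16), (18, 15), (19, 15), (20, 23), (28, 20), (31, 16), (32, 5), (36, 9)],
  [(4, 14), (5, 0), (10, 26), (11, 1), (16, 9), (17, 15), (18, 15), (19, 15), (20, 23), (28, 20), (30, 16), (31, 16), (32, 5), (36, 9)],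
  [(4, 14), (5, 0), (10, 26), (11, 1), (17, 15), (17, 16), (18, 15), (18, 16), (19, 15), (20, 23), (28, 20), (32, 5), (35, 9), (36, 9)],
  [(4, 14), (5, 0), (10, 26), (11, 1), (17, 15), (17, 16), (18, 15), (19, 15), (20, 23), (28, 20), (31, 16), (32, 5), (35, 9), (36, 9)],
  [(4, 14), (5, 0), (10, 26), (11, 1), (17, 15), (18, 15), (19, 15), (20, 23), (28, 20), (30, 16), (31, 16), (32, 5), (35, 9), (36, 9)],
  [(4, 14), (5, 13), (5, 14), (10, 26), (11, 1), (16, 9), (17, 15), (17, 16), (18, 15), (18, 16), (19, 15), (20, 23), (28, 20), (32, 5)],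
  [(4, 14), (5, 13), (5, 14), (10, 26), (11, 1), (16, 9), (17, 15), (17, 16), (18, 15), (19, 15), (20, 23), (28, 20), (31, 16), (32, 5)],
  [(4, 14), (5, 13), (5, 14), (10, 26), (11, 1), (16, 9), (17, 15), (18, 15), (19, 15), (20, 23), (28, 20), (30, 16), (31, 16), (32, 5)],
  [(5, 0), (10, 26), (11, 1), (16, 9), (16, 10), (17, 14), (17, 15), (17, 16), (18, 15), (18, 16), (19, 15), (20, 23), (28, 20), (32, 5)],
  [(5, 0), (10, 26), (11, 1), (16, 9), (16, 10), (17, 14), (17, 15), (17, 16), (18, 15), (19, 15), (20, 23), (28, 20), (31, 16), (32, 5)],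
  [(5, 0), (10, 26), (11, 1), (16, 9), (16, 10), (17, 14), (17, 15), (18, 15), (19, 15), (20, 23), (28, 20), (30, 16), (31, 16), (32, 5)],
  [(5, 0), (10, 26), (11, 1), (16, 9), (16, 14), (17, 14), (17, 15), (17, 16), (18, 15), (18, 16), (19, 15), (20, 23), (28, 20), (32, 5)],
  [(5, 0), (10, 26), (11, 1), (16, 9), (16, 14), (17, 14), (17, 15), (17, 16), (18, 15), (19, 15), (20, 23), (28, 20), (31, 16), (32, 5)],
  [(5, 0), (10, 26), (11, 1), (16, 9), (16, 14), (17, 14), (17, 15), (18, 15), (19, 15), (20, 23), (28, 20), (30, 16), (31, 16), (32, 5)],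
  [(5, 0), (10, 26), (11, 1), (16, 13), (16, 14), (17, 14), (17, 15), (17, 16), (18, 15), (18, 16), (19, 15), (20, 23), (28, 20), (32, 5)],
  [(5, 0), (10, 26), (11, 1), (16, 13), (16, 14), (17, 14), (17, 15), (17, 16), (18, 15), (19, 15), (20, 23), (28, 20), (31, 16), (32, 5)],
  [(5, 0), (10, 26), (11, 1), (16, 13), (16, 14), (17, 14), (17, 15), (18, 15), (19, 15), (20, 23), (28, 20), (30, 16), (31, 16), (32, 5)]]

/-- Active configurations of `kCell`, state `true`, entry `true`. -/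
def kCell_A11 : List (List Cell) :=
  [[(1, 5), (2, 5), (4, 14), (5, 0), (10, 26), (11, 1), (16, 9), (17, 15), (17, 16), (18, 15), (18, 16), (19, 15), (20, 23), (28, 20)],
  [(1, 5), (2, 5), (4, 14), (5, 0), (10, 26), (11, 1), (16, 9), (17, 15), (17, 16), (18, 15), (19, 15), (20, 23), (28, 20), (31, 16)],
  [(1, 5), (2, 5), (4, 14), (5, 0), (10, 26), (11, 1), (16, 9), (17, 15), (18, 15), (19, 15), (20, 23), (28, 20), (30, 16), (31, 16)],
  [(1, 5), (4, 14), (5, 0), (10, 26), (11, 1), (16, 9), (17, 15), (17, 16), (18, 15), (18, 16), (19, 15), (20, 23), (28, 20), (32, 5)],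
  [(1, 5), (4, 14), (5, 0), (10, 26), (11, 1), (16, 9), (17, 15), (17, 16), (18, 15), (19, 15), (20, 23), (28, 20), (31, 16), (32, 5)],
  [(1, 5), (4, 14), (5, 0), (10, 26), (11, 1), (16, 9), (17, 15), (18, 15), (19, 15), (20, 23), (28, 20), (30, 16), (31, 16), (32, 5)],
  [(4, 14), (5, 0), (10, 26), (11, 1), (16, 9), (17, 15), (17, 16), (18, 15), (18, 16), (19, 15), (19, 16), (20, 15), (28, 20), (32, 5)],
  [(4, 14), (5, 0), (10, 26), (11, 1), (16, 9), (17, 15), (17, 16), (18, 15), (18, 16), (19, 15), (20, 15), (20, 16), (28, 20), (32, 5)],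
  [(4, 14), (5, 0), (10, 26), (11, 1), (16, 9), (17, 15), (17, 16), (18, 15), (18, 16), (19, 15), (20, 15), (20, 23), (28, 20), (32, 5)],
  [(4, 14), (5, 0), (10, 26), (11, 1), (16, 9), (17, 15), (17, 16), (18, 15), (18, 16), (19, 15), (20, 15), (21, 16), (28, 20), (32, 5)],
  [(4, 14), (5, 0), (10, 26), (11, 1), (16, 9), (17, 15), (17, 16), (18, 15), (18, 16), (19, 15), (20, 15), (28, 20), (31, 16), (32, 5)],
  [(4, 14), (5, 0), (10, 26), (11, 1), (16, 9), (17, 15), (17, 16), (18, 15), (18, 16), (19, 15), (20, 23), (28, 20), (31, 5), (32, 5)],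
  [(4, 14), (5, 0), (10, 26), (11, 1), (16, 9), (17, 15), (17, 16), (18, 15), (18, 16), (19, 15), (20, 23), (28, 20), (31, 15), (32, 5)],
  [(4, 14), (5, 0), (10, 26), (11, 1), (16, 9), (17, 15), (17, 16), (18, 15), (18, 16), (20, 23), (28, 20), (30, 15), (31, 15), (32, 5)],
  [(4, 14), (5, 0), (10, 26), (11, 1), (16, 9), (17, 15), (17, 16), (18, 15), (19, 15), (19, 16), (20, 15), (20, 16), (28, 20), (32, 5)],
  [(4, 14), (5, 0), (10, 26), (11, 1), (16, 9), (17, 15), (17, 16), (18, 15), (19, 15), (20, 15), (20, 16), (21, 16), (28, 20), (32, 5)],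
  [(4, 14), (5, 0), (10, 26), (11, 1), (16, 9), (17, 15), (17, 16), (18, 15), (19, 15), (20, 15), (20, 16), (28, 20), (31, 16), (32, 5)],
  [(4, 14), (5, 0), (10, 26), (11, 1), (16, 9), (17, 15), (17, 16), (18, 15), (19, 15), (20, 15), (20, 23), (28, 20), (31, 16), (32, 5)],
  [(4, 14), (5, 0), (10, 26), (11, 1), (16, 9), (17, 15), (17, 16), (18, 15), (19, 15), (20, 15), (28, 20), (30, 16), (31, 16), (32, 5)],
  [(4, 14), (5, 0), (10, 26), (11, 1), (16, 9), (17, 15), (17, 16), (18, 15), (19, 15), (20, 23), (28, 20), (31, 5), (31, 6), (32, 5)],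
  [(4, 14), (5, 0), (10, 26), (11, 1), (16, 9), (17, 15), (17, 16), (18, 15), (19, 15), (20, 23), (28, 20), (31, 5), (31, 16), (32, 5)],
  [(4, 14), (5, 0), (10, 26), (11, 1), (16, 9), (17, 15), (17, 16), (18, 15), (19, 15), (20, 23), (28, 20), (31, 15), (31, 16), (32, 5)],
  [(4, 14), (5, 0), (10, 26), (11, 1), (16, 9), (17, 15), (17, 16), (18, 15), (20, 23), (28, 20), (30, 15), (31, 15), (31, 16), (32, 5)],
  [(4, 14), (5, 0), (10, 26), (11, 1), (16, 9), (17, 15), (17, 16), (18, 16), (20, 23), (28, 20), (29, 15), (30, 15), (31, 15), (32, 5)],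
  [(4, 14), (5, 0), (10, 26), (11, 1), (16, 9), (17, 15), (17, 16), (20, 23), (28, 20), (29, 15), (30, 15), (31, 15), (31, 16), (32, 5)],
  [(4, 14), (5, 0), (10, 26), (11, 1), (16, 9), (17, 15), (18, 15), (18, 16), (19, 15), (19, 16), (20, 15), (20, 16), (28, 20), (32, 5)],
  [(4, 14), (5, 0), (10, 26), (11, 1), (16, 9), (17, 15), (18, 15), (19, 15), (19, 16), (20, 15), (20, 16), (21, 16), (28, 20), (32, 5)],
  [(4, 14), (5, 0), (10, 26), (11, 1), (16, 9), (17, 15), (18, 15), (19, 15), (19, 16), (20, 15), (20, 16), (28, 20), (31, 16), (32, 5)],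
  [(4, 14), (5, 0), (10, 26), (11, 1), (16, 9), (17, 15), (18, 15), (19, 15), (19, 16), (20, 15), (28, 20), (30, 16), (31, 16), (32, 5)],
  [(4, 14), (5, 0), (10, 26), (11, 1), (16, 9), (17, 15), (18, 15), (19, 15), (20, 15), (20, 16), (21, 16), (22, 16), (28, 20), (32, 5)],
  [(4, 14), (5, 0), (10, 26), (11, 1), (16, 9), (17, 15), (18, 15), (19, 15), (20, 15), (20, 16), (21, 16), (28, 20), (31, 16), (32, 5)],
  [(4, 14), (5, 0), (10, 26), (11, 1), (16, 9), (17, 15), (18, 15), (19, 15), (20, 15), (20, 16), (28, 20), (30, 16), (31, 16), (32, 5)],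
  [(4, 14), (5, 0), (10, 26), (11, 1), (16, 9), (17, 15), (18, 15), (19, 15), (20, 15), (20, 23), (28, 20), (30, 16), (31, 16), (32, 5)],
  [(4, 14), (5, 0), (10, 26), (11, 1), (16, 9), (17, 15), (18, 15), (19, 15), (20, 15), (28, 20), (29, 16), (30, 16), (31, 16), (32, 5)],
  [(4, 14), (5, 0), (10, 26), (11, 1), (16, 9), (17, 15), (18, 15), (19, 15), (20, 23), (28, 20), (30, 16), (31, 5), (31, 6), (32, 5)],
  [(4, 14), (5, 0), (10, 26), (11, 1), (16, 9), (17, 15), (18, 15), (19, 15), (20, 23), (28, 20), (30, 16), (31, 5), (31, 16), (32, 5)],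
  [(4, 14), (5, 0), (10, 26), (11, 1), (16, 9), (17, 15), (18, 15), (19, 15), (20, 23), (28, 20), (30, 16), (31, 15), (31, 16), (32, 5)],
  [(4, 14), (5, 0), (10, 26), (11, 1), (16, 9), (17, 15), (18, 15), (20, 23), (28, 20), (30, 15), (30, 16), (31, 15), (31, 16), (32, 5)],
  [(4, 14), (5, 0), (10, 26), (11, 1), (16, 9), (17, 15), (20, 23), (28, 20), (29, 15), (30, 15), (30, 16), (31, 15), (31, 16), (32, 5)],
  [(4, 14), (5, 0), (10, 26), (11, 1), (16, 9), (17, 16), (18, 16), (19, 16), (20, 23), (28, 15), (29, 15), (30, 15), (31, 15), (32, 5)],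
  [(4, 14), (5, 0), (10, 26), (11, 1), (16, 9), (17, 16), (18, 16), (20, 23), (28, 15), (28, 16), (29, 15), (30, 15), (31, 15), (32, 5)],
  [(4, 14), (5, 0), (10, 26), (11, 1), (16, 9), (17, 16), (18, 16), (20, 23), (28, 15), (28, 20), (29, 15), (30, 15), (31, 15), (32, 5)],
  [(4, 14), (5, 0), (10, 26), (11, 1), (16, 9), (17, 16), (18, 16), (20, 23), (28, 15), (29, 15), (29, 16), (30, 15), (31, 15), (32, 5)],
  [(4, 14), (5, 0), (10, 26), (11, 1), (16, 9), (17, 16), (18, 16), (20, 23), (28, 15), (29, 15), (30, 15), (31, 15), (31, 16), (32, 5)],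
  [(4, 14), (5, 0), (10, 26), (11, 1), (16, 9), (17, 16), (20, 23), (27, 16), (28, 15), (28, 16), (29, 15), (30, 15), (31, 15), (32, 5)],
  [(4, 14), (5, 0), (10, 26), (11, 1), (16, 9), (17, 16), (20, 23), (28, 15), (28, 16), (29, 15), (29, 16), (30, 15), (31, 15), (32, 5)],
  [(4, 14), (5, 0), (10, 26), (11, 1), (16, 9), (17, 16), (20, 23), (28, 15), (28, 16), (29, 15), (30, 15), (31, 15), (31, 16), (32, 5)],
  [(4, 14), (5, 0), (10, 26), (11, 1), (16, 9), (17, 16), (20, 23), (28, 15), (28, 20), (29, 15), (30, 15), (31, 15), (31, 16), (32, 5)],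
  [(4, 14), (5, 0), (10, 26), (11, 1), (16, 9), (17, 16), (20, 23), (28, 15), (29, 15), (30, 15), (30, 16), (31, 15), (31, 16), (32, 5)],
  [(4, 14), (5, 0), (10, 26), (11, 1), (16, 9), (20, 23), (26, 16), (27, 16), (28, 15), (28, 16), (29, 15), (30, 15), (31, 15), (32, 5)],
  [(4, 14), (5, 0), (10, 26), (11, 1), (16, 9), (20, 23), (27, 16), (28, 15), (28, 16), (29, 15), (29, 16), (30, 15), (31, 15), (32, 5)],
  [(4, 14), (5, 0), (10, 26), (11, 1), (16, 9), (20, 23), (27, 16), (28, 15), (28, 16), (29, 15), (30, 15), (31, 15), (31, 16), (32, 5)],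
  [(4, 14), (5, 0), (10, 26), (11, 1), (16, 9), (20, 23), (27, 16), (28, 15), (29, 15), (30, 15), (30, 16), (31, 15), (31, 16), (32, 5)],
  [(4, 14), (5, 0), (10, 26), (11, 1), (16, 9), (20, 23), (28, 15), (28, 16), (29, 15), (29, 16), (30, 15), (30, 16), (31, 15), (32, 5)],
  [(4, 14), (5, 0), (10, 26), (11, 1), (16, 9), (20, 23), (28, 15), (28, 16), (29, 15), (29, 16), (30, 15), (31, 15), (31, 16), (32, 5)],
  [(4, 14), (5, 0), (10, 26), (11, 1), (16, 9), (20, 23), (28, 15), (28, 16), (29, 15), (30, 15), (30, 16), (31, 15), (31, 16), (32, 5)],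
  [(4, 14), (5, 0), (10, 26), (11, 1), (16, 9), (20, 23), (28, 15), (28, 20), (29, 15), (30, 15), (30, 16), (31, 15), (31, 16), (32, 5)],
  [(4, 14), (5, 0), (10, 26), (11, 1), (16, 9), (20, 23), (28, 15), (29, 15), (29, 16), (30, 15), (30, 16), (31, 15), (31, 16), (32, 5)]]

/-- The cell with two states: `false` = R, `true` = L. -/
def kCell : KData where
  Z := fun s => bif s then kCell_Z1 else kCell_Z0
  A := fun s e => bif s then (bif e then kCell_A11 else kCell_A10) else (bif e then kCell_A01 else kCell_A00)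
  ent := fun _ => true
  w := fun e => bif e then (1, 5) else (36, 9)
  x := fun k => match k with
    | 0 => (28, 19)
    | 1 => (20, 22)
    | 2 => (10, 25)
  rel := fun s e s' k =>
    (!s && !e && !s' && k == 0) ||
    (!s && !e && s' && k == 1) ||
    (s && e && s' && k == 1) ||
    (s && e && !s' && k == 0) ||
    (s && !e && s' && k == 2) ||
    (!s && e && !s' && k == 2)
  cz := fun s => bif s then
      [(4, 14), (5, 0), (10, 26), (11, 1), (16, 9), (17, 15), (17, 16), (18, 15), (19, 15), (20, 23), (28, 20), (31, 16), (32, 5)]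
    else
      [(4, 14), (5, 0), (10, 26), (11, 1), (16, 9), (17, 16), (20, 23), (28, 20), (29, 15), (30, 15), (31, 15), (31, 16), (32, 5)]

/-- Paths through `kCell`. -/
def kCell_P : Bool → Bool → Bool → Fin 3 → List Cfg
  | false, false, false, 0 => [[(4, 14), (5, 0), (10, 26), (11, 1), (16, 9), (17, 9), (17, 16), (20, 23), (28, 20), (29, 15), (30, 15), (31, 15), (31, 16), (32, 5)],
      [(4, 14), (5, 0), (10, 26), (11, 1), (16, 9), (17, 15), (17, 16), (20, 23), (28, 20), (29, 15), (30, 15), (31, 15), (31, 16), (32, 5)],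
      [(4, 14), (5, 0), (10, 26), (11, 1), (16, 9), (17, 16), (20, 23), (28, 15), (28, 20), (29, 15), (30, 15), (31, 15), (31, 16), (32, 5)],
      [(4, 14), (5, 0), (10, 26), (11, 1), (16, 9), (17, 16), (20, 23), (28, 19), (28, 20), (29, 15), (30, 15), (31, 15), (31, 16), (32, 5)]]
  | false, false, true, 1 => [[(4, 14), (5, 0), (10, 26), (11, 1), (16, 9), (17, 9), (17, 16), (20, 23), (28, 20), (29, 15), (30, 15), (31, 15), (31, 16), (32, 5)],
      [(4, 14), (5, 0), (10, 26), (11, 1), (16, 9), (17, 15), (17, 16), (20, 23), (28, 20), (29, 15), (30, 15), (31, 15), (31, 16), (32, 5)],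
      [(4, 14), (5, 0), (10, 26), (11, 1), (16, 9), (17, 15), (17, 16), (18, 15), (20, 23), (28, 20), (30, 15), (31, 15), (31, 16), (32, 5)],
      [(4, 14), (5, 0), (10, 26), (11, 1), (16, 9), (17, 15), (17, 16), (18, 15), (19, 15), (20, 23), (28, 20), (31, 15), (31, 16), (32, 5)],
      [(4, 14), (5, 0), (10, 26), (11, 1), (16, 9), (17, 15), (17, 16), (18, 15), (19, 15), (20, 15), (20, 23), (28, 20), (31, 16), (32, 5)],
      [(4, 14), (5, 0), (10, 26), (11, 1), (16, 9), (17, 15), (17, 16), (18, 15), (19, 15), (20, 22), (20, 23), (28, 20), (31, 16), (32, 5)]]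
  | true, true, true, 1 => [[(4, 14), (5, 0), (10, 26), (11, 1), (16, 9), (17, 15), (17, 16), (18, 15), (19, 15), (20, 23), (28, 20), (31, 5), (31, 16), (32, 5)],
      [(4, 14), (5, 0), (10, 26), (11, 1), (16, 9), (17, 15), (17, 16), (18, 15), (19, 15), (20, 23), (28, 20), (31, 15), (31, 16), (32, 5)],
      [(4, 14), (5, 0), (10, 26), (11, 1), (16, 9), (17, 15), (17, 16), (18, 15), (19, 15), (20, 15), (20, 23), (28, 20), (31, 16), (32, 5)],
      [(4, 14), (5, 0), (10, 26), (11, 1), (16, 9), (17, 15), (17, 16), (18, 15), (19, 15), (20, 22), (20, 23), (28, 20), (31, 16), (32, 5)]]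
  | true, true, false, 0 => [[(4, 14), (5, 0), (10, 26), (11, 1), (16, 9), (17, 15), (17, 16), (18, 15), (19, 15), (20, 23), (28, 20), (31, 5), (31, 16), (32, 5)],
      [(4, 14), (5, 0), (10, 26), (11, 1), (16, 9), (17, 15), (17, 16), (18, 15), (19, 15), (20, 23), (28, 20), (31, 15), (31, 16), (32, 5)],
      [(4, 14), (5, 0), (10, 26), (11, 1), (16, 9), (17, 15), (17, 16), (18, 15), (20, 23), (28, 20), (30, 15), (31, 15), (31, 16), (32, 5)],
      [(4, 14), (5, 0), (10, 26), (11, 1), (16, 9), (17, 15), (17, 16), (20, 23), (28, 20), (29, 15), (30, 15), (31, 15), (31, 16), (32, 5)],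
      [(4, 14), (5, 0), (10, 26), (11, 1), (16, 9), (17, 16), (20, 23), (28, 15), (28, 20), (29, 15), (30, 15), (31, 15), (31, 16), (32, 5)],
      [(4, 14), (5, 0), (10, 26), (11, 1), (16, 9), (17, 16), (20, 23), (28, 19), (28, 20), (29, 15), (30, 15), (31, 15), (31, 16), (32, 5)]]
  | true, false, true, 2 => [[(4, 14), (5, 0), (10, 26), (11, 1), (16, 9), (17, 9), (17, 15), (17, 16), (18, 15), (19, 15), (20, 23), (28, 20), (31, 16), (32, 5)],
      [(4, 14), (5, 0), (10, 26), (11, 1), (16, 9), (17, 14), (17, 15), (17, 16), (18, 15), (19, 15), (20, 23), (28, 20), (31, 16), (32, 5)],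
      [(4, 14), (5, 0), (5, 14), (10, 26), (11, 1), (16, 9), (17, 15), (17, 16), (18, 15), (19, 15), (20, 23), (28, 20), (31, 16), (32, 5)],
      [(4, 14), (5, 0), (5, 1), (10, 26), (11, 1), (16, 9), (17, 15), (17, 16), (18, 15), (19, 15), (20, 23), (28, 20), (31, 16), (32, 5)],
      [(4, 14), (5, 0), (10, 1), (10, 26), (11, 1), (16, 9), (17, 15), (17, 16), (18, 15), (19, 15), (20, 23), (28, 20), (31, 16), (32, 5)],
      [(4, 14), (5, 0), (10, 25), (10, 26), (11, 1), (16, 9), (17, 15), (17, 16), (18, 15), (19, 15), (20, 23), (28, 20), (31, 16), (32, 5)]]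
  | false, true, false, 2 => [[(4, 14), (5, 0), (10, 26), (11, 1), (16, 9), (17, 16), (20, 23), (28, 20), (29, 15), (30, 15), (31, 5), (31, 15), (31, 16), (32, 5)],
      [(4, 14), (5, 0), (10, 26), (11, 1), (16, 9), (17, 16), (20, 23), (28, 20), (29, 15), (30, 15), (31, 14), (31, 15), (31, 16), (32, 5)],
      [(4, 14), (5, 0), (5, 14), (10, 26), (11, 1), (16, 9), (17, 16), (20, 23), (28, 20), (29, 15), (30, 15), (31, 15), (31, 16), (32, 5)],
      [(4, 14), (5, 0), (5, 1), (10, 26), (11, 1), (16, 9), (17, 16), (20, 23), (28, 20), (29, 15), (30, 15), (31, 15), (31, 16), (32, 5)],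
      [(4, 14), (5, 0), (10, 1), (10, 26), (11, 1), (16, 9), (17, 16), (20, 23), (28, 20), (29, 15), (30, 15), (31, 15), (31, 16), (32, 5)],
      [(4, 14), (5, 0), (10, 25), (10, 26), (11, 1), (16, 9), (17, 16), (20, 23), (28, 20), (29, 15), (30, 15), (31, 15), (31, 16), (32, 5)]]
  | _, _, _, _ => []

theorem closed_kCell : kCell.Closed :=
  closed_of_ok kCell kCell_P (by decide +kernel) (by decide +kernel) (by decide +kernel)
    (by decide +kernel) (by decide +kernel)

/-- Rest configurations of `kMergeA`. -/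
def kMergeA_Z : List (List Cell) :=
  [[(4, 13), (5, 0), (10, 26), (11, 1), (16, 9), (17, 14), (18, 5)]]

/-- Active configurations of `kMergeA`, entry `false`. -/
def kMergeA_A0 : List (List Cell) :=
  [[(4, 13), (5, 0), (5, 1), (6, 1), (10, 26), (16, 9), (17, 14), (18, 5)],
  [(4, 13), (5, 0), (5, 1), (10, 26), (11, 1), (16, 9), (17, 14), (18, 5)],
  [(4, 13), (5, 0), (5, 13), (10, 26), (11, 1), (16, 9), (17, 14), (18, 5)],
  [(4, 13), (5, 0), (10, 1), (10, 2), (11, 1), (16, 9), (17, 14), (18, 5)],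
  [(4, 13), (5, 0), (10, 1), (10, 26), (11, 1), (16, 9), (17, 14), (18, 5)],
  [(4, 13), (5, 0), (10, 26), (11, 1), (16, 9), (17, 9), (17, 10), (18, 5)],
  [(4, 13), (5, 0), (10, 26), (11, 1), (16, 9), (17, 9), (17, 14), (18, 5)],
  [(4, 13), (5, 0), (10, 26), (11, 1), (16, 9), (17, 13), (17, 14), (18, 5)],
  [(4, 13), (5, 0), (10, 26), (11, 1), (16, 9), (17, 14), (18, 5), (36, 9)],
  [(4, 13), (5, 0), (10, 26), (11, 1), (17, 14), (18, 5), (35, 9), (36, 9)],
  [(4, 13), (5, 12), (5, 13), (10, 26), (11, 1), (16, 9), (17, 14), (18, 5)],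
  [(5, 0), (10, 26), (11, 1), (16, 9), (16, 10), (17, 13), (17, 14), (18, 5)],
  [(5, 0), (10, 26), (11, 1), (16, 9), (16, 13), (17, 13), (17, 14), (18, 5)],
  [(5, 0), (10, 26), (11, 1), (16, 12), (16, 13), (17, 13), (17, 14), (18, 5)]]

/-- Active configurations of `kMergeA`, entry `true`. -/
def kMergeA_A1 : List (List Cell) :=
  [[(1, 5), (2, 5), (4, 13), (5, 0), (10, 26), (11, 1), (16, 9), (17, 14)],
  [(1, 5), (4, 13), (5, 0), (10, 26), (11, 1), (16, 9), (17, 14), (18, 5)],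
  [(4, 13), (5, 0), (5, 1), (6, 1), (10, 26), (16, 9), (17, 14), (18, 5)],
  [(4, 13), (5, 0), (5, 1), (10, 26), (11, 1), (16, 9), (17, 14), (18, 5)],
  [(4, 13), (5, 0), (5, 13), (10, 26), (11, 1), (16, 9), (17, 14), (18, 5)],
  [(4, 13), (5, 0), (10, 1), (10, 2), (11, 1), (16, 9), (17, 14), (18, 5)],
  [(4, 13), (5, 0), (10, 1), (10, 26), (11, 1), (16, 9), (17, 14), (18, 5)],
  [(4, 13), (5, 0), (10, 26), (11, 1), (16, 9), (17, 5), (17, 6), (18, 5)],
  [(4, 13), (5, 0), (10, 26), (11, 1), (16, 9), (17, 5), (17, 14), (18, 5)],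
  [(4, 13), (5, 0), (10, 26), (11, 1), (16, 9), (17, 13), (17, 14), (18, 5)],
  [(4, 13), (5, 12), (5, 13), (10, 26), (11, 1), (16, 9), (17, 14), (18, 5)],
  [(5, 0), (10, 26), (11, 1), (16, 9), (16, 10), (17, 13), (17, 14), (18, 5)],
  [(5, 0), (10, 26), (11, 1), (16, 9), (16, 13), (17, 13), (17, 14), (18, 5)],
  [(5, 0), (10, 26), (11, 1), (16, 12), (16, 13), (17, 13), (17, 14), (18, 5)]]

/-- The merge with an anticlockwise exit. -/
def kMergeA : KData where
  Z := fun _ => kMergeA_Z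
  A := fun _ e => bif e then kMergeA_A1 else kMergeA_A0
  ent := fun _ => true
  w := fun e => bif e then (1, 5) else (36, 9)
  x := fun k => match k with
    | 0 => (28, 19)
    | 1 => (20, 22)
    | 2 => (10, 25)
  rel := fun s _ s' k => (s == s') && k == 2
  cz := fun _ => [(4, 13), (5, 0), (10, 26), (11, 1), (16, 9), (17, 14), (18, 5)]

/-- Paths through `kMergeA`. -/
def kMergeA_P : Bool → Bool → Bool → Fin 3 → List Cfg
  | _, false, _, 2 => [[(4, 13), (5, 0), (10, 26), (11, 1), (16, 9), (17, 9), (17, 14), (18, 5)],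
      [(4, 13), (5, 0), (10, 26), (11, 1), (16, 9), (17, 13), (17, 14), (18, 5)],
      [(4, 13), (5, 0), (5, 13), (10, 26), (11, 1), (16, 9), (17, 14), (18, 5)],
      [(4, 13), (5, 0), (5, 1), (10, 26), (11, 1), (16, 9), (17, 14), (18, 5)],
      [(4, 13), (5, 0), (10, 1), (10, 26), (11, 1), (16, 9), (17, 14), (18, 5)],
      [(4, 13), (5, 0), (10, 25), (10, 26), (11, 1), (16, 9), (17, 14), (18, 5)]]
  | _, true, _, 2 => [[(4, 13), (5, 0), (10, 26), (11, 1), (16, 9), (17, 5), (17, 14), (18, 5)],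
      [(4, 13), (5, 0), (10, 26), (11, 1), (16, 9), (17, 13), (17, 14), (18, 5)],
      [(4, 13), (5, 0), (5, 13), (10, 26), (11, 1), (16, 9), (17, 14), (18, 5)],
      [(4, 13), (5, 0), (5, 1), (10, 26), (11, 1), (16, 9), (17, 14), (18, 5)],
      [(4, 13), (5, 0), (10, 1), (10, 26), (11, 1), (16, 9), (17, 14), (18, 5)],
      [(4, 13), (5, 0), (10, 25), (10, 26), (11, 1), (16, 9), (17, 14), (18, 5)]]
  | _, _, _, _ => []

theorem closed_kMergeA : kMergeA.Closed :=
  closed_of_ok kMergeA kMergeA_P (by decide +kernel) (by decide +kernel) (by decide +kernel)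
    (by decide +kernel) (by decide +kernel)

/-- Rest configurations of `kMergeC`. -/
def kMergeC_Z : List (List Cell) :=
  [[(16, 9), (17, 14), (18, 5), (19, 1), (20, 23), (31, 0), (32, 13)]]

/-- Active configurations of `kMergeC`, entry `false`. -/
def kMergeC_A0 : List (List Cell) :=
  [[(16, 9), (17, 9), (17, 10), (18, 5), (19, 1), (20, 23), (31, 0), (32, 13)],
  [(16, 9), (17, 9), (17, 14), (18, 5), (19, 1), (20, 23), (31, 0), (32, 13)],
  [(16, 9), (17, 13), (17, 14), (18, 5), (18, 6), (19, 1), (20, 23), (31, 0)],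
  [(16, 9), (17, 13), (17, 14), (18, 5), (18, 13), (19, 1), (20, 23), (31, 0)],
  [(16, 9), (17, 13), (17, 14), (18, 5), (19, 1), (20, 23), (31, 0), (32, 13)],
  [(16, 9), (17, 13), (17, 14), (18, 12), (18, 13), (19, 1), (20, 23), (31, 0)],
  [(16, 9), (17, 14), (18, 5), (19, 1), (20, 1), (20, 2), (31, 0), (32, 13)],
  [(16, 9), (17, 14), (18, 5), (19, 1), (20, 1), (20, 23), (31, 0), (32, 13)],
  [(16, 9), (17, 14), (18, 5), (19, 1), (20, 23), (31, 0), (31, 1), (32, 13)],
  [(16, 9), (17, 14), (18, 5), (19, 1), (20, 23), (31, 0), (31, 13), (32, 13)],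
  [(16, 9), (17, 14), (18, 5), (19, 1), (20, 23), (31, 0), (32, 13), (36, 9)],
  [(16, 9), (17, 14), (18, 5), (19, 1), (20, 23), (31, 12), (31, 13), (32, 13)],
  [(16, 9), (17, 14), (18, 5), (20, 23), (30, 1), (31, 0), (31, 1), (32, 13)],
  [(17, 14), (18, 5), (19, 1), (20, 23), (31, 0), (32, 13), (35, 9), (36, 9)]]

/-- Active configurations of `kMergeC`, entry `true`. -/
def kMergeC_A1 : List (List Cell) :=
  [[(1, 5), (2, 5), (16, 9), (17, 14), (19, 1), (20, 23), (31, 0), (32, 13)],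
  [(1, 5), (16, 9), (17, 14), (18, 5), (19, 1), (20, 23), (31, 0), (32, 13)],
  [(16, 9), (17, 5), (17, 6), (18, 5), (19, 1), (20, 23), (31, 0), (32, 13)],
  [(16, 9), (17, 5), (17, 14), (18, 5), (19, 1), (20, 23), (31, 0), (32, 13)],
  [(16, 9), (17, 13), (17, 14), (18, 5), (18, 6), (19, 1), (20, 23), (31, 0)],
  [(16, 9), (17, 13), (17, 14), (18, 5), (18, 13), (19, 1), (20, 23), (31, 0)],
  [(16, 9), (17, 13), (17, 14), (18, 5), (19, 1), (20, 23), (31, 0), (32, 13)],
  [(16, 9), (17, 13), (17, 14), (18, 12), (18, 13), (19, 1), (20, 23), (31, 0)],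
  [(16, 9), (17, 14), (18, 5), (19, 1), (20, 1), (20, 2), (31, 0), (32, 13)],
  [(16, 9), (17, 14), (18, 5), (19, 1), (20, 1), (20, 23), (31, 0), (32, 13)],
  [(16, 9), (17, 14), (18, 5), (19, 1), (20, 23), (31, 0), (31, 1), (32, 13)],
  [(16, 9), (17, 14), (18, 5), (19, 1), (20, 23), (31, 0), (31, 13), (32, 13)],
  [(16, 9), (17, 14), (18, 5), (19, 1), (20, 23), (31, 12), (31, 13), (32, 13)],
  [(16, 9), (17, 14), (18, 5), (20, 23), (30, 1), (31, 0), (31, 1), (32, 13)]]

/-- The merge with a clockwise exit. -/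
def kMergeC : KData where
  Z := fun _ => kMergeC_Z
  A := fun _ e => bif e then kMergeC_A1 else kMergeC_A0
  ent := fun _ => true
  w := fun e => bif e then (1, 5) else (36, 9)
  x := fun k => match k with
    | 0 => (28, 19)
    | 1 => (20, 22)
    | 2 => (10, 25)
  rel := fun s _ s' k => (s == s') && k == 1
  cz := fun _ => [(16, 9), (17, 14), (18, 5), (19, 1), (20, 23), (31, 0), (32, 13)]

/-- Paths through `kMergeC`. -/
def kMergeC_P : Bool → Bool → Bool → Fin 3 → List Cfg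
  | _, false, _, 1 => [[(16, 9), (17, 9), (17, 14), (18, 5), (19, 1), (20, 23), (31, 0), (32, 13)],
      [(16, 9), (17, 13), (17, 14), (18, 5), (19, 1), (20, 23), (31, 0), (32, 13)],
      [(16, 9), (17, 14), (18, 5), (19, 1), (20, 23), (31, 0), (31, 13), (32, 13)],
      [(16, 9), (17, 14), (18, 5), (19, 1), (20, 23), (31, 0), (31, 1), (32, 13)],
      [(16, 9), (17, 14), (18, 5), (19, 1), (20, 1), (20, 23), (31, 0), (32, 13)],
      [(16, 9), (17, 14), (18, 5), (19, 1), (20, 22), (20, 23), (31, 0), (32, 13)]]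
  | _, true, _, 1 => [[(16, 9), (17, 5), (17, 14), (18, 5), (19, 1), (20, 23), (31, 0), (32, 13)],
      [(16, 9), (17, 13), (17, 14), (18, 5), (19, 1), (20, 23), (31, 0), (32, 13)],
      [(16, 9), (17, 14), (18, 5), (19, 1), (20, 23), (31, 0), (31, 13), (32, 13)],
      [(16, 9), (17, 14), (18, 5), (19, 1), (20, 23), (31, 0), (31, 1), (32, 13)],
      [(16, 9), (17, 14), (18, 5), (19, 1), (20, 1), (20, 23), (31, 0), (32, 13)],
      [(16, 9), (17, 14), (18, 5), (19, 1), (20, 22), (20, 23), (31, 0), (32, 13)]]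
  | _, _, _, _ => []

theorem closed_kMergeC : kMergeC.Closed :=
  closed_of_ok kMergeC kMergeC_P (by decide +kernel) (by decide +kernel) (by decide +kernel)
    (by decide +kernel) (by decide +kernel)

/-- Rest configurations of `kGoal`. -/
def kGoal_Z : List (List Cell) :=
  [[(16, 9), (17, 13)]]

/-- Active configurations of `kGoal`, entry `false`. -/
def kGoal_A0 : List (List Cell) :=
  [[(16, 9), (17, 9), (17, 10)],
  [(16, 9), (17, 9), (17, 13)],
  [(16, 9), (17, 12), (17, 13)],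
  [(16, 9), (17, 13), (36, 9)],
  [(17, 13), (35, 9), (36, 9)]]

/-- The goal component; the target token rests in the cell `(17, 13)`. -/
def kGoal : KData where
  Z := fun _ => kGoal_Z
  A := fun _ e => bif e then [] else kGoal_A0
  ent := fun e => !e
  w := fun e => bif e then (1, 5) else (36, 9)
  x := fun k => match k with
    | 0 => (28, 19)
    | 1 => (20, 22)
    | 2 => (10, 25)
  rel := fun _ _ _ _ => false
  cz := fun _ => [(16, 9), (17, 13)]

theorem closed_kGoal : kGoal.Closed :=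
  closed_of_ok kGoal (fun _ _ _ _ => []) (by decide +kernel) (by decide +kernel) (by decide +kernel)
    (by decide +kernel) (by decide +kernel)

/-- Rest configurations of `kStart`. -/
def kStart_Z : List (List Cell) :=
  [[(20, 23)]]

/-- The stopper of the start wire. -/
def kStart : KData where
  Z := fun _ => kStart_Z
  A := fun _ _ => []
  ent := fun _ => false
  w := fun e => bif e then (1, 5) else (36, 9)
  x := fun k => match k with
    | 0 => (28, 19)
    | 1 => (20, 22)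
    | 2 => (10, 25)
  rel := fun _ _ _ _ => false
  cz := fun _ => [(20, 23)]

theorem closed_kStart : kStart.Closed :=
  closed_of_ok kStart (fun _ _ _ _ => []) (by decide +kernel) (by decide +kernel) (by decide +kernel)
    (by decide +kernel) (by decide +kernel)

/-- Rest configurations of `kRelC`. -/
def kRelC_Z : List (List Cell) :=
  [[(4, 0), (5, 4)]]

/-- Active configurations of `kRelC`, entry `false`. -/
def kRelC_A0 : List (List Cell) :=
  [[(0, 4), (1, 4), (4, 0)],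
  [(0, 4), (4, 0), (5, 4)],
  [(4, 0), (4, 4), (5, 4)],
  [(4, 3), (4, 4), (5, 4)]]

/-- The relay of a clockwise wire. -/
def kRelC : KData where
  Z := fun _ => kRelC_Z
  A := fun _ e => bif e then [] else kRelC_A0
  ent := fun e => !e
  w := fun _ => (0, 4)
  x := fun _ => (4, 1)
  rel := fun s e s' k => !e && (s == s') && k == 0
  cz := fun _ => [(4, 0), (5, 4)]

/-- Paths through `kRelC`. -/
def kRelC_P : Bool → Bool → Bool → Fin 3 → List Cfg
  | _, false, _, 0 => [[(4, 0), (4, 4), (5, 4)],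
      [(4, 0), (4, 1), (5, 4)]]
  | _, _, _, _ => []

theorem closed_kRelC : kRelC.Closed :=
  closed_of_ok kRelC kRelC_P (by decide +kernel) (by decide +kernel) (by decide +kernel)
    (by decide +kernel) (by decide +kernel)

/-- Rest configurations of `kRelA`. -/
def kRelA_Z : List (List Cell) :=
  [[(0, 4), (1, 0)]]

/-- Active configurations of `kRelA`, entry `false`. -/
def kRelA_A0 : List (List Cell) :=
  [[(0, 4), (1, 0), (1, 4)],
  [(0, 4), (1, 0), (5, 4)],
  [(0, 4), (1, 3), (1, 4)],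
  [(1, 0), (4, 4), (5, 4)]]

/-- The relay of an anticlockwise wire. -/
def kRelA : KData where
  Z := fun _ => kRelA_Z
  A := fun _ e => bif e then [] else kRelA_A0
  ent := fun e => !e
  w := fun _ => (5, 4)
  x := fun _ => (1, 1)
  rel := fun s e s' k => !e && (s == s') && k == 0
  cz := fun _ => [(0, 4), (1, 0)]

/-- Paths through `kRelA`. -/
def kRelA_P : Bool → Bool → Bool → Fin 3 → List Cfg
  | _, false, _, 0 => [[(0, 4), (1, 0), (1, 4)],
      [(0, 4), (1, 0), (1, 1)]]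
  | _, _, _, _ => []

theorem closed_kRelA : kRelA.Closed :=
  closed_of_ok kRelA kRelA_P (by decide +kernel) (by decide +kernel) (by decide +kernel)
    (by decide +kernel) (by decide +kernel)

/-- Rest configurations of `kSink`. -/
def kSink_Z : List (List Cell) :=
  [[]]

/-- Active configurations of `kSink`, entry `false`. -/
def kSink_A0 : List (List Cell) :=
  [[(0, 0)]]

/-- The empty component: a traveller without any neighbour. -/
def kSink : KData where
  Z := fun _ => kSink_Z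
  A := fun _ e => bif e then [] else kSink_A0
  ent := fun e => !e
  w := fun _ => (0, 0)
  x := fun _ => (0, 0)
  rel := fun _ _ _ _ => false
  cz := fun _ => []

theorem closed_kSink : kSink.Closed :=
  closed_of_ok kSink (fun _ _ _ _ => []) (by decide +kernel) (by decide +kernel) (by decide +kernel)
    (by decide +kernel) (by decide +kernel)

end Pool.Agent.Lunar
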