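import Mathlib.Logic.Relation
import Mathlib.Data.List.Basic
import Mathlib.Logic.Function.Basic

/-!
# Nets of cells and merges

The abstract interface between the logic side (polynomial space machines) and the physical side
(Lunar Lockout boards). One anonymous traveller walks through a net of components.
-/

namespace Pool.Agent.Lunar

/-- Target of a wire: nothing, the goal, or in-port `b` of component `g`. -/
inductive Tgt : Type
  | dead
  | goal
  | port (g : ℕ) (b : Bool)
  deriving DecidableEq

/-- A component: a two-state cell with out-ports `er`, `el`, `v` and in-ports `false` (dock P) and
`true` (dock M), or a merge with two in-ports and one out-port. -/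
inductive Comp : Type
  | cell (er el v : Tgt)
  | merge (out : Tgt)
  deriving DecidableEq

/-- State of a net: the place of the traveller and the states of the cells (`false` = R,
`true` = L). -/
abbrev CSt : Type := Tgt × (ℕ → Bool)

/-- One step of a net. A cell in state `b` is entered through the dock `b`; the traveller leaves
through `er` (new state R) or `el` (new state L). The other dock leads to `v`. -/
inductive CStep (N : List Comp) : CSt → CSt → Prop
  | er {g : ℕ} {b : Bool} {s : ℕ → Bool} {er el v : Tgt} (h : N[g]? = some (.cell er el v))
      (hs : s g = b) : CStep N (.port g b, s) (er, Function.update s g false)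
  | el {g : ℕ} {b : Bool} {s : ℕ → Bool} {er el v : Tgt} (h : N[g]? = some (.cell er el v))
      (hs : s g = b) : CStep N (.port g b, s) (el, Function.update s g true)
  | v {g : ℕ} {b : Bool} {s : ℕ → Bool} {er el v : Tgt} (h : N[g]? = some (.cell er el v))
      (hs : s g ≠ b) : CStep N (.port g b, s) (v, s)
  | merge {g : ℕ} {b : Bool} {s : ℕ → Bool} {o : Tgt} (h : N[g]? = some (.merge o)) :
      CStep N (.port g b, s) (o, s)

/-- The goal is reachable from in-port `false` of component `0`, all cells being in state R. -/
def CReach (N : List Comp) : Prop :=
  ∃ s, Relation.ReflTransGen (CStep N) (.port 0 false, fun _ => false) (.goal, s)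

/-- Wire number `k` of component `g` (for a cell: `er`, `el`, `v`; for a merge: the out-port). -/
def wire (N : List Comp) (g k : ℕ) : Tgt :=
  match N[g]?, k with
  | some (.cell er _ _), 0 => er
  | some (.cell _ el _), 1 => el
  | some (.cell _ _ v), 2 => v
  | some (.merge o), 0 => o
  | _, _ => .dead

/-- A net in normal form: every in-port and the goal is the target of at most one wire, in-port
`false` of component `0` (the start) of none, and all targets exist. -/
structure Normal (N : List Comp) : Prop where
  inj : ∀ g k g' k', wire N g k = wire N g' k' → wire N g k ≠ .dead → g = g' ∧ k = k'
  start : ∀ g k, wire N g k ≠ .port 0 false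
  range : ∀ g k g' b, wire N g k = .port g' b → g' < N.length
  pos : 0 < N.length

end Pool.Agent.Lunar
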