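import Pool.Agent.Lunar.Defs
import Pool.Agent.Lunar.Net
import Mathlib.Data.List.Range

/-!
# The board of a net

A net is first turned into a list of blocks (`physNet`): one block for every component, one
converter for every wire, a start block and a goal block. Every block has up to three exits; the
exit `1` turns clockwise and leads to the entry `false` of a block, the exits `0` and `2` turn
anticlockwise and lead to the entry `true`. Then all tokens are given by explicit formulas.
-/

namespace Pool.Agent.Lunar

/-- Kinds of blocks. -/
inductive Kind : Type
  | cell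
  | mergeA
  | mergeC
  | start
  | goal
  deriving DecidableEq

/-- A block: its kind and the targets of its three exits. -/
structure Blk : Type where
  kind : Kind
  t0 : Option ℕ
  t1 : Option ℕ
  t2 : Option ℕ
  deriving DecidableEq

/-- The target of the exit `k`. -/
def Blk.t (b : Blk) : ℕ → Option ℕ
  | 0 => b.t0
  | 1 => b.t1
  | _ => b.t2

/-- The tokens inside a block, in local coordinates. -/
def Kind.loc : Kind → List Cell
  | .cell => [(25, 15), (26, 15), (27, 15), (13, 16), (27, 16), (12, 9), (28, 5), (0, 14), (1, 0),
      (7, 1)]
  | .mergeA => [(14, 5), (12, 9), (13, 14), (0, 13), (1, 0), (7, 1)]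
  | .mergeC => [(14, 5), (12, 9), (13, 14), (28, 13), (27, 0), (15, 1)]
  | .start => []
  | .goal => [(12, 9)]

/-- The exits of a block. -/
def Kind.ex : Kind → List ℕ
  | .cell => [0, 1, 2]
  | .mergeA => [2]
  | .mergeC => [1]
  | .start => [1]
  | .goal => []

/-- Local columns of the exits. -/
def xcol : ℕ → ℕ
  | 0 => 24
  | 1 => 16
  | _ => 6

/-- First column of the block `β` on a board for `m` blocks. -/
def bx (m β : ℕ) : ℕ := 9 * m + 1 + 30 * β

/-- First row of the block `β`. -/
def by' (β : ℕ) : ℕ := 17 * β

/-- First of the three columns of the wire leaving the block `β` through the exit `k`. -/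
def wx (m β k : ℕ) : ℕ := if k = 1 then 39 * m + 2 + 9 * β + 3 * k else 9 * β + 3 * k

/-- First of the three rows of the wire leaving the block `β` through the exit `k`. -/
def wy (m β k : ℕ) : ℕ := 17 * m + 1 + 9 * β + 3 * k

/-- The exit cell. -/
def exitCell (m β k : ℕ) : Cell := (bx m β + xcol k, wy m β k + 1)

/-- The token above the exit cell. -/
def exitTok (m β k : ℕ) : Cell := (bx m β + xcol k, wy m β k + 2)

/-- The two tokens of the wire leaving the block `β` through the exit `k` with target `γ`. -/
def wireToks (m β k γ : ℕ) : List Cell :=
  if k = 1 then [(wx m β k + 2, wy m β k + 1), (wx m β k + 1, by' γ + 8)]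
  else [(wx m β k, wy m β k + 1), (wx m β k + 1, by' γ + 4)]

/-- The tokens of the block `β` and of the wires leaving it. -/
def blkToks (m β : ℕ) (b : Blk) : List Cell :=
  b.kind.loc.map (fun p => (bx m β + p.1, by' β + p.2)) ++
    b.kind.ex.flatMap fun k => exitTok m β k :: match b.t k with
      | none => []
      | some γ => wireToks m β k γ

/-- All tokens of a list of blocks. -/
def toks (B : List Blk) : List Cell :=
  B.zipIdx.flatMap fun z => blkToks B.length z.2 z.1

/-- Wire number `k` of a component. -/
def Comp.wire : Comp → ℕ → Tgt
  | .cell er _ _, 0 => er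
  | .cell _ el _, 1 => el
  | .cell _ _ v, 2 => v
  | .merge o, 0 => o
  | _, _ => .dead

/-- The block of the component number `g` in a net with `n` components. -/
def mainBlk (n g : ℕ) : Comp → Blk
  | .cell _ _ _ => ⟨.cell, some (n + 3 * g), some (n + 3 * g + 1), some (n + 3 * g + 2)⟩
  | .merge _ => ⟨.mergeA, none, none, some (n + 3 * g)⟩

/-- The converter of a wire with the given target. -/
def convBlk (n : ℕ) : Tgt → Blk
  | .dead => ⟨.mergeA, none, none, none⟩
  | .goal => ⟨.mergeC, none, some (4 * n + 1), none⟩
  | .port g false => ⟨.mergeC, none, some g, none⟩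
  | .port g true => ⟨.mergeA, none, none, some g⟩

/-- The blocks of a net: the components `g`, the converters `n + 3 * g + k`, the start block
`4 * n` and the goal block `4 * n + 1`. -/
def physNet (N : List Comp) : List Blk :=
  N.zipIdx.map (fun z => mainBlk N.length z.2 z.1) ++
    (N.flatMap fun c =>
      [convBlk N.length (c.wire 0), convBlk N.length (c.wire 1), convBlk N.length (c.wire 2)]) ++
    [⟨.start, none, some 0, none⟩, ⟨.goal, none, none, none⟩]

/-- The number of blocks. -/
def nBlk (N : List Comp) : ℕ := 4 * N.length + 2

/-- The initial cell of the traveller: the exit cell of the start block. -/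
def agentCell (N : List Comp) : Cell := exitCell (nBlk N) (4 * N.length) 1

/-- The cell of the target token. -/
def targetCell (N : List Comp) : Cell :=
  (bx (nBlk N) (4 * N.length + 1) + 13, by' (4 * N.length + 1) + 13)

/-- The goal cell. -/
def goalCell (N : List Comp) : Cell :=
  (bx (nBlk N) (4 * N.length + 1) + 13, by' (4 * N.length + 1) + 10)

/-- All tokens but the target token. -/
def others (N : List Comp) : List Cell := agentCell N :: toks (physNet N)

/-- The position of a net. -/
def netPos (N : List Comp) : Pos := ⟨targetCell N, (others N).toFinset⟩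

/-- The board of the net fits into a square with this side length. -/
def side (N : List Comp) : ℕ := 48 * nBlk N + 5

/-- The physical theorem. -/
def Stmt_Phys : Prop :=
  ∀ N : List Comp, Normal N → (Solvable (netPos N) (goalCell N) ↔ CReach N)

end Pool.Agent.Lunar
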