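import Pool.Agent.Lunar.Sys
import Pool.Agent.Lunar.Layout
import Pool.Agent.Lunar.Kinds
import Mathlib.Data.Fintype.Sum
import Mathlib.Data.Fintype.Prod

/-!
# The system of components of a list of blocks
-/

namespace Pool.Agent.Lunar

/-- Canonical data of a kind of blocks. -/
def Kind.dat : Kind → KData
  | .cell => kCell
  | .mergeA => kMergeA
  | .mergeC => kMergeC
  | .start => kStart
  | .goal => kGoal

/-- The entry to which the exit `k` leads. -/
def entOf (k : ℕ) : Bool := decide (k ≠ 1)

/-- The block `β` has the exit `k`. -/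
def HasEx (B : List Blk) (β k : ℕ) : Prop := ∃ b, B[β]? = some b ∧ k ∈ b.kind.ex

/-- The target of the exit `k` of the block `β`. -/
def tg (B : List Blk) (β k : ℕ) : Option ℕ :=
  match B[β]? with
  | none => none
  | some b => if k ∈ b.kind.ex then b.t k else none

/-- Regularity of a list of blocks. -/
structure BNormal (B : List Blk) : Prop where
  range : ∀ β k γ, tg B β k = some γ → γ < B.length
  ent : ∀ β k γ b, tg B β k = some γ → B[γ]? = some b → b.kind.dat.ent (entOf k) = true
  inj : ∀ β k β' k' γ, tg B β k = some γ → tg B β' k' = some γ → entOf k = entOf k' →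
    β = β' ∧ k = k'

/-- Wires. -/
abbrev Wr (B : List Blk) : Type := Fin B.length × Fin 3

/-- Components: blocks and wires. -/
abbrev Ix (B : List Blk) : Type := Fin B.length ⊕ Wr B

/-- The target of a wire. -/
def tw (B : List Blk) (ω : Wr B) : Option ℕ := tg B ω.1 ω.2

/-- Data of a component. -/
def kd (B : List Blk) : Ix B → KData
  | .inl β => (B.get β).kind.dat
  | .inr ω => match tw B ω with
    | none => kSink
    | some _ => if ω.2.1 = 1 then kRelC else kRelA

/-- The component `i` may be entered through the wire `ω`. -/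
def act (B : List Blk) : Ix B → Wr B → Prop
  | .inl β, ω => tw B ω = some β.1
  | .inr ω', ω => ω' = ω ∧ HasEx B ω.1 ω.2

/-- The local name of the entry. -/
def en (B : List Blk) : Ix B → Wr B → Bool
  | .inl _, ω => entOf ω.2
  | .inr _, _ => false

/-- Column map of a block; `a` and `b` are the first columns of the wires from the left and from
the right. -/
def mapB (a c b x : ℕ) : ℕ := if x ≤ 3 then a + x else if x ≤ 34 then c + (x - 4) else b + (x - 35)

/-- Piecewise map with one break. -/
def map2 (a b k x : ℕ) : ℕ := if x < k then a + x else b + (x - k)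

/-- Column maps of the components. -/
def fx (B : List Blk) : Ix B → Wr B → ℕ → ℕ
  | .inl β, ω => mapB (if ω.2.1 = 1 then 0 else wx B.length ω.1 ω.2) (bx B.length β)
      (if ω.2.1 = 1 then wx B.length ω.1 ω.2 else 39 * B.length + 2)
  | .inr (β, k), _ => match tg B β k with
    | none => fun x => bx B.length β + xcol k + x
    | some _ =>
      if k.1 = 1 then map2 (bx B.length β + xcol k) (wx B.length β k) 3
      else map2 (wx B.length β k) (bx B.length β + xcol k - 1) 4

/-- Row maps of the components. -/
def gy (B : List Blk) : Ix B → ℕ → ℕ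
  | .inl β => map2 (by' β) (17 * B.length + 1 + 9 * β) 18
  | .inr (β, k) => match tg B β k with
    | none => fun y => wy B.length β k + 1 + y
    | some γ => map2 (by' γ + (if k.1 = 1 then 8 else 4)) (wy B.length β k) 3

/-- Cell of a component, from canonical coordinates. -/
def cel (B : List Blk) (i : Ix B) (ω : Wr B) (p : Cell) : Cell := (fx B i ω p.1, gy B i p.2)

/-- Configuration of a component, from canonical coordinates. -/
def im (B : List Blk) (i : Ix B) (ω : Wr B) (c : List Cell) : Finset Cell :=
  img (fx B i ω) (gy B i) c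

/-- The system of a list of blocks. -/
def bSys (B : List Blk) : Sys (Ix B) Bool (Wr B) (Fin 3) where
  Z i s := {c | ∃ d ∈ (kd B i).Z s, ∀ ω, c = im B i ω d}
  A i s ω := {c | act B i ω ∧ ∃ d ∈ (kd B i).A s (en B i ω), c = im B i ω d}
  rel i s ω s' k := act B i ω ∧ (kd B i).rel s (en B i ω) s' k = true
  w i ω := cel B i ω ((kd B i).w (en B i ω))
  x i k := match i with
    | .inl β => exitCell B.length β k
    | .inr (β, j) => match tg B β j with
      | none => (0, 0)
      | some γ => (wx B.length β j + 1, by' γ + (if j.1 = 1 then 9 else 5))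
  nx i k := match i with
    | .inl β => (.inr (β, k), (β, k))
    | .inr ω => match tw B ω with
      | none => (.inr ω, ω)
      | some γ => if h : γ < B.length then (.inl ⟨γ, h⟩, ω) else (.inr ω, ω)

/-- Clean rest configurations. -/
def bCz (B : List Blk) (i : Ix B) (s : Bool) : Finset Cell :=
  match i with
  | .inl β => im B (.inl β) (β, 0) ((kd B (.inl β)).cz s)
  | .inr ω => im B (.inr ω) ω ((kd B (.inr ω)).cz s)

/-- Rest configurations have all their cells in the common part of the column maps. -/
def Stmt_BImZ : Prop := ∀ B : List Blk, ∀ i s d, d ∈ (kd B i).Z s → ∀ ω ω', im B i ω d = im B i ω' d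

/-- Module OK: all fields of `Sys.Ok` but the apartness. -/
def Stmt_BOk : Prop := ∀ B : List Blk, BNormal B →
  (∀ i s d T, d ∈ (bSys B).Z i s → Step d T → T ∈ (bSys B).Z i s) ∧
  (∀ i s e s' o, (bSys B).rel i s e s' o →
    (bSys B).w ((bSys B).nx i o).1 ((bSys B).nx i o).2 = (bSys B).x i o) ∧
  (∀ i s e s' o, (bSys B).rel i s e s' o → ∀ r d, d ∈ (bSys B).Z ((bSys B).nx i o).1 r →
    insert ((bSys B).x i o) d ∈ (bSys B).A ((bSys B).nx i o).1 r ((bSys B).nx i o).2) ∧
  (∀ i s e c T, c ∈ (bSys B).A i s e → Step c T → T ∈ (bSys B).A i s e ∨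
    ∃ s' o d, (bSys B).rel i s e s' o ∧ d ∈ (bSys B).Z i s' ∧ T = insert ((bSys B).x i o) d) ∧
  (∀ i s e s' o, (bSys B).rel i s e s' o → ((bSys B).nx i o).1 ≠ i)

/-- Module APARTZ. -/
def Stmt_BApartZ : Prop := ∀ B : List Blk, BNormal B →
  ∀ i j, i ≠ j → ∀ s s' d d', d ∈ (bSys B).Z i s → d' ∈ (bSys B).Z j s' →
    ∀ p ∈ d, ∀ q ∈ d', Apart p q

/-- Module APARTA. -/
def Stmt_BApartA : Prop := ∀ B : List Blk, BNormal B →
  ∀ i j, i ≠ j → ∀ s s' e d c, d ∈ (bSys B).Z i s → c ∈ (bSys B).A j s' e →
    ∀ p ∈ d, ∀ q ∈ c, Apart p q ∨ (q = (bSys B).w j e ∧ Adj p q)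

/-- Module FULL. -/
def Stmt_BFull : Prop := ∀ B : List Blk, BNormal B → (bSys B).Full (bCz B)

/-- Module NORM. -/
def Stmt_PhysNormal : Prop := ∀ N : List Comp, Normal N → BNormal (physNet N)

/-- Index of the start wire of `physNet N`. -/
def startWr (N : List Comp) (h : (physNet N).length = nBlk N) : Wr (physNet N) :=
  (⟨4 * N.length, by rw [h]; unfold nBlk; omega⟩, 1)

/-- Index of the goal block. -/
def goalIx (N : List Comp) (h : (physNet N).length = nBlk N) : Ix (physNet N) :=
  .inl ⟨4 * N.length + 1, by rw [h]; unfold nBlk; omega⟩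

/-- The initial abstract state: the traveller is on the start wire. -/
def startSt (N : List Comp) (h : (physNet N).length = nBlk N) : Sys.ASt (Ix (physNet N)) Bool
    (Wr (physNet N)) := (fun _ => false, .inr (startWr N h), startWr N h)

/-- Module LEN. -/
def Stmt_PhysLen : Prop := ∀ N : List Comp, (physNet N).length = nBlk N

/-- Module SIM: the abstract system of blocks simulates the net and conversely. -/
def Stmt_Sim : Prop := ∀ (N : List Comp) (h : (physNet N).length = nBlk N), Normal N →
  ((∃ b, Relation.ReflTransGen (bSys (physNet N)).AStep (startSt N h) b ∧ b.2.1 = goalIx N h) ↔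
    CReach N)

/-- Module BOARD: the board of the net is the clean board of the initial abstract state. -/
def Stmt_Board : Prop := ∀ (N : List Comp) (h : (physNet N).length = nBlk N), Normal N →
  targetCell N ∉ (others N).toFinset ∧
  insert (targetCell N) (others N).toFinset = (bSys (physNet N)).brd (bCz (physNet N)) (startSt N h)

end Pool.Agent.Lunar
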