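import Pool.Agent.Lunar.Ret

/-!
# Block programs
-/

namespace Pool.Agent.Lunar

open Relation Function

/-- One run of a block that does not lead to the goal. -/
def BStep (Bl : List Block) (M M' : ℕ → Bool) : Prop :=
  ∃ k ∈ Bl, k.goal = false ∧ execOps k.ops M = some M'

/-- The marking after the initial puts. -/
def initM (I : List ℕ) : ℕ → Bool := fun p => decide (p ∈ I)

/-- A goal block can be executed in a reachable marking. -/
def BReach (I : List ℕ) (Bl : List Block) : Prop :=
  ∃ M, ReflTransGen (BStep Bl) (initM I) M ∧ ∃ k ∈ Bl, k.goal = true ∧ (execOps k.ops M).isSome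

namespace Blk

variable {I : List ℕ} {Bl : List Block}

theorem exec_append (l₁ l₂ : List (Bool × ℕ)) : ∀ M : ℕ → Bool,
    execOps (l₁ ++ l₂) M = (execOps l₁ M).bind (execOps l₂) := by
  induction l₁ with
  | nil => intro M; rfl
  | cons a l ih =>
    intro M
    obtain ⟨b, p⟩ := a
    cases b
    · simp only [List.cons_append, execOps]
      by_cases h : M p = true
      · rw [if_pos h, if_pos h, ih]
      · rw [if_neg h, if_neg h]; rfl
    · simp only [List.cons_append, execOps, ih]

theorem code_len (base B b : ℕ) (k : Block) (hk : k.ops.length = 7) :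
    (blockCode base B b k).length = 8 := by
  simp [blockCode, hk]

theorem init_len (I : List ℕ) :
    (I.zipIdx.map fun z => Ins.put z.1 (z.2 + 1)).length = I.length := by simp

theorem prog_len (hB : ∀ k ∈ Bl, k.ops.length = 7) :
    (blockProg I Bl).length = I.length + 8 * Bl.length := by
  unfold blockProg
  rw [List.length_append, init_len, length_flatMap_const (k := 8)]
  · rw [List.length_zipIdx]
  · intro z hz
    exact code_len _ _ _ _ (hB _ (List.fst_mem_of_mem_zipIdx hz))

theorem get_init {i : ℕ} (hi : i < I.length) :
    (blockProg I Bl)[i]? = some (.put I[i] (i + 1)) := by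
  unfold blockProg
  rw [List.getElem?_append_left (by rw [init_len]; exact hi)]
  simp [hi]

theorem get_block (hB : ∀ k ∈ Bl, k.ops.length = 7) {b j : ℕ} {k : Block} (hb : Bl[b]? = some k)
    (hj : j < 8) :
    (blockProg I Bl)[I.length + 8 * b + j]? = (blockCode I.length Bl.length b k)[j]? := by
  unfold blockProg
  rw [List.getElem?_append_right (by rw [init_len]; omega), init_len,
    show I.length + 8 * b + j - I.length = 8 * b + j by omega,
    getElem?_flatMap_const hj (by
      intro z hz
      exact code_len _ _ _ _ (hB _ (List.fst_mem_of_mem_zipIdx hz))),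
    List.getElem?_zipIdx, hb]
  simp

theorem get_choose (hB : ∀ k ∈ Bl, k.ops.length = 7) {b : ℕ} {k : Block}
    (hb : Bl[b]? = some k) :
    (blockProg I Bl)[I.length + 8 * b]? = some (.choose (I.length + 8 * b + 1)
      (if b + 1 < Bl.length then I.length + 8 * (b + 1) else I.length)) := by
  have := get_block (I := I) hB hb (j := 0) (by norm_num)
  rw [Nat.add_zero] at this
  rw [this]
  rfl

theorem get_op (hB : ∀ k ∈ Bl, k.ops.length = 7) {b j : ℕ} {k : Block} {o : Bool × ℕ}
    (hb : Bl[b]? = some k) (ho : k.ops[j]? = some o) :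
    (blockProg I Bl)[I.length + 8 * b + 1 + j]? = some (opIns o
      (if j < 6 then I.length + 8 * b + 2 + j else if k.goal then I.length + 8 * Bl.length
        else I.length)) := by
  have hj : j < 7 := by
    have := (List.getElem?_eq_some_iff.mp ho).1
    rwa [hB k (List.mem_of_getElem? hb)] at this
  have := get_block (I := I) hB hb (j := j + 1) (by omega)
  rw [show I.length + 8 * b + 1 + j = I.length + 8 * b + (j + 1) by omega, this]
  simp only [blockCode, List.getElem?_cons_succ, List.getElem?_map, List.getElem?_zipIdx, ho,
    Option.map_some]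
  simp

/-- The invariant: what the program has done. -/
inductive Inv (I : List ℕ) (Bl : List Block) : ℕ × (ℕ → Bool) → Prop
  | init {i : ℕ} (hi : i < I.length) : Inv I Bl (i, fun p => decide (p ∈ I.take i))
  | base {b : ℕ} {M : ℕ → Bool} (hb : b < Bl.length)
      (hM : ReflTransGen (BStep Bl) (initM I) M) : Inv I Bl (I.length + 8 * b, M)
  | mid {b j : ℕ} {k : Block} {M M' : ℕ → Bool} (hb : Bl[b]? = some k)
      (hM : ReflTransGen (BStep Bl) (initM I) M) (hj : j < 7)
      (hM' : execOps (k.ops.take j) M = some M') : Inv I Bl (I.length + 8 * b + 1 + j, M')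
  | goal {b : ℕ} {k : Block} {M M' : ℕ → Bool} (hb : Bl[b]? = some k)
      (hM : ReflTransGen (BStep Bl) (initM I) M) (hk : k.goal = true)
      (hM' : execOps k.ops M = some M') : Inv I Bl (I.length + 8 * Bl.length, M')

theorem update_take {i : ℕ} (hi : i < I.length) :
    update (fun p => decide (p ∈ I.take i)) I[i] true = fun p => decide (p ∈ I.take (i + 1)) := by
  funext p
  by_cases hp : p = I[i]
  · subst hp
    rw [update_self, eq_comm, decide_eq_true_iff, List.take_succ_eq_append_getElem hi]
    exact List.mem_append_right _ (List.mem_singleton_self _)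
  · rw [update_of_ne hp]
    congr 1
    rw [List.take_succ_eq_append_getElem hi, List.mem_append, List.mem_singleton]
    simp [hp]

theorem exec_one {o : Bool × ℕ} {n : ℕ} {Q : List Ins} {pc : ℕ} {M : ℕ → Bool}
    {y : ℕ × (ℕ → Bool)} (hg : Q[pc]? = some (opIns o n)) (h : PStep Q (pc, M) y) :
    y.1 = n ∧ execOps [o] M = some y.2 := by
  obtain ⟨b, p⟩ := o
  cases b
  · rw [opIns, if_neg (by simp)] at hg
    cases h with
    | fst h => rw [hg] at h; simp at h
    | snd h => rw [hg] at h; simp at h
    | put h => rw [hg] at h; simp at h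
    | take h hM =>
      rw [hg, Option.some.injEq, Ins.take.injEq] at h
      obtain ⟨h1, h2⟩ := h
      simp only at h1
      subst h1 h2
      exact ⟨rfl, by simp only [execOps, if_pos hM]⟩
  · rw [opIns, if_pos rfl] at hg
    cases h with
    | fst h => rw [hg] at h; simp at h
    | snd h => rw [hg] at h; simp at h
    | take h => rw [hg] at h; simp at h
    | put h =>
      rw [hg, Option.some.injEq, Ins.put.injEq] at h
      obtain ⟨h1, h2⟩ := h
      simp only at h1
      subst h1 h2
      exact ⟨rfl, rfl⟩

theorem one_exec {o : Bool × ℕ} {n : ℕ} {Q : List Ins} {pc : ℕ} {M M' : ℕ → Bool}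
    (hg : Q[pc]? = some (opIns o n)) (h : execOps [o] M = some M') :
    PStep Q (pc, M) (n, M') := by
  obtain ⟨b, p⟩ := o
  cases b
  · rw [opIns, if_neg (by simp)] at hg
    simp only [execOps] at h
    by_cases hM : M p = true
    · rw [if_pos hM, Option.some.injEq] at h
      subst h
      exact .take hg hM
    · rw [if_neg hM] at h
      simp at h
  · rw [opIns, if_pos rfl] at hg
    simp only [execOps, Option.some.injEq] at h
    subst h
    exact .put hg

theorem inv_step (hB : ∀ k ∈ Bl, k.ops.length = 7) (hpos : 0 < Bl.length)
    {x y : ℕ × (ℕ → Bool)} (hx : Inv I Bl x) (h : PStep (blockProg I Bl) x y) : Inv I Bl y := by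
  cases hx with
  | @init i hi =>
    have hg := get_init (Bl := Bl) hi
    cases h with
    | fst h => rw [hg] at h; simp at h
    | snd h => rw [hg] at h; simp at h
    | take h => rw [hg] at h; simp at h
    | put h =>
      rw [hg, Option.some.injEq, Ins.put.injEq] at h
      obtain ⟨h1, h2⟩ := h
      subst h1 h2
      rw [update_take hi]
      by_cases h3 : i + 1 < I.length
      · exact .init h3
      · have h4 : i + 1 = I.length := by omega
        rw [h4, List.take_length]
        have := Inv.base (I := I) (Bl := Bl) (b := 0) hpos .refl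
        rwa [Nat.mul_zero, Nat.add_zero] at this
  | @base b M hb hM =>
    obtain ⟨k, hk⟩ : ∃ k, Bl[b]? = some k := ⟨Bl[b], List.getElem?_eq_getElem hb⟩
    have hg := get_choose (I := I) hB hk
    cases h with
    | put h => rw [hg] at h; simp at h
    | take h => rw [hg] at h; simp at h
    | fst h =>
      rw [hg, Option.some.injEq, Ins.choose.injEq] at h
      rw [← h.1]
      have := Inv.mid (I := I) (j := 0) hk hM (by norm_num) (M' := M) rfl
      rwa [Nat.add_zero] at this
    | snd h =>
      rw [hg, Option.some.injEq, Ins.choose.injEq] at h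
      rw [← h.2]
      by_cases h3 : b + 1 < Bl.length
      · rw [if_pos h3]; exact .base h3 hM
      · rw [if_neg h3]
        have := Inv.base (I := I) (Bl := Bl) (b := 0) hpos hM
        rwa [Nat.mul_zero, Nat.add_zero] at this
  | @mid b j k M M' hb hM hj hM' =>
    have hlen := hB k (List.mem_of_getElem? hb)
    obtain ⟨o, ho⟩ : ∃ o, k.ops[j]? = some o := ⟨k.ops[j], List.getElem?_eq_getElem (by omega)⟩
    have hg := get_op (I := I) hB hb ho
    obtain ⟨h1, h2⟩ := exec_one hg h
    obtain ⟨y1, y2⟩ := y
    simp only at h1 h2
    have h3 : execOps (k.ops.take (j + 1)) M = some y2 := by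
      rw [List.take_add_one, ho, exec_append, hM']
      exact h2
    by_cases h6 : j < 6
    · rw [if_pos h6] at h1
      subst h1
      have := Inv.mid (I := I) (j := j + 1) hb hM (by omega) h3
      rwa [show I.length + 8 * b + 1 + (j + 1) = I.length + 8 * b + 2 + j by omega] at this
    · rw [if_neg h6] at h1
      have h7 : k.ops.take (j + 1) = k.ops := by
        apply List.take_of_length_le; omega
      rw [h7] at h3
      by_cases hg2 : k.goal = true
      · rw [if_pos hg2] at h1
        subst h1
        exact .goal hb hM hg2 h3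
      · rw [if_neg hg2] at h1
        subst h1
        have := Inv.base (I := I) (Bl := Bl) (b := 0) hpos
          (hM.tail ⟨k, List.mem_of_getElem? hb, by simpa using hg2, h3⟩)
        rwa [Nat.mul_zero, Nat.add_zero] at this
  | @goal b k M M' hb hM hk hM' =>
    exfalso
    have hg : (blockProg I Bl)[I.length + 8 * Bl.length]? = none := by
      rw [List.getElem?_eq_none_iff, prog_len hB]
    cases h with
    | fst h => rw [hg] at h; simp at h
    | snd h => rw [hg] at h; simp at h
    | put h => rw [hg] at h; simp at h
    | take h => rw [hg] at h; simp at h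

theorem init_steps : ∀ i, i ≤ I.length →
    ReflTransGen (PStep (blockProg I Bl)) (0, fun _ => false)
      (i, fun p => decide (p ∈ I.take i)) := by
  intro i
  induction i with
  | zero =>
    intro _
    have : (fun p => decide (p ∈ I.take 0)) = (fun _ => false : ℕ → Bool) := by
      funext p; simp
    rw [this]
  | succ i ih =>
    intro hi
    refine (ih (by omega)).tail ?_
    have hi' : i < I.length := by omega
    rw [← update_take hi']
    exact .put (get_init hi')

theorem scan_steps (hB : ∀ k ∈ Bl, k.ops.length = 7) (M : ℕ → Bool) : ∀ b, b < Bl.length →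
    ReflTransGen (PStep (blockProg I Bl)) (I.length, M) (I.length + 8 * b, M) := by
  intro b
  induction b with
  | zero => intro _; rw [Nat.mul_zero, Nat.add_zero]
  | succ b ih =>
    intro hb
    refine (ih (by omega)).tail ?_
    obtain ⟨k, hk⟩ : ∃ k, Bl[b]? = some k := ⟨Bl[b], List.getElem?_eq_getElem (by omega)⟩
    have hg := get_choose (I := I) hB hk
    rw [if_pos hb] at hg
    exact .snd hg

theorem run_ops (hB : ∀ k ∈ Bl, k.ops.length = 7) {b : ℕ} {k : Block} (hb : Bl[b]? = some k)
    {M M' : ℕ → Bool} (h : execOps k.ops M = some M') : ∀ d, d ≤ 7 → ∀ M'' : ℕ → Bool,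
      execOps (k.ops.take (7 - d)) M = some M'' →
      ReflTransGen (PStep (blockProg I Bl)) (if d = 0 then (if k.goal then
        I.length + 8 * Bl.length else I.length) else I.length + 8 * b + 1 + (7 - d), M'')
      (if k.goal then I.length + 8 * Bl.length else I.length, M') := by
  have hlen := hB k (List.mem_of_getElem? hb)
  intro d
  induction d with
  | zero =>
    intro _ M'' hM''
    rw [if_pos rfl]
    rw [Nat.sub_zero, List.take_of_length_le (by omega), h, Option.some.injEq] at hM''
    rw [hM'']
  | succ d ih =>
    intro hd M'' hM''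
    rw [if_neg (by omega)]
    obtain ⟨o, ho⟩ : ∃ o, k.ops[7 - (d + 1)]? = some o :=
      ⟨k.ops[7 - (d + 1)], List.getElem?_eq_getElem (by omega)⟩
    have h7 : 7 - (d + 1) + 1 = 7 - d := by omega
    -- the state after this operation
    have hsplit : execOps (k.ops.take (7 - d)) M = execOps [o] M'' := by
      rw [← h7, List.take_add_one, ho, exec_append, hM'']
      rfl
    obtain ⟨M₃, hM₃⟩ : ∃ M₃, execOps (k.ops.take (7 - d)) M = some M₃ := by
      have h8 : execOps (k.ops.take (7 - d) ++ k.ops.drop (7 - d)) M = some M' := by
        rw [List.take_append_drop]; exact h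
      rw [exec_append] at h8
      cases h9 : execOps (k.ops.take (7 - d)) M with
      | none => rw [h9] at h8; simp at h8
      | some M₃ => exact ⟨M₃, rfl⟩
    have hg := get_op (I := I) hB hb ho
    have hs := one_exec hg (hsplit ▸ hM₃)
    refine ReflTransGen.head hs ?_
    have := ih (by omega) M₃ hM₃
    by_cases hd0 : d = 0
    · subst hd0
      rw [if_pos rfl] at this
      rw [if_neg (by omega)]
      exact this
    · rw [if_neg hd0] at this
      rw [if_pos (by omega)]
      rwa [show I.length + 8 * b + 2 + (7 - (d + 1)) = I.length + 8 * b + 1 + (7 - d) by omega]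

theorem run_block (hB : ∀ k ∈ Bl, k.ops.length = 7) {k : Block} (hk : k ∈ Bl)
    {M M' : ℕ → Bool} (h : execOps k.ops M = some M') :
    ReflTransGen (PStep (blockProg I Bl)) (I.length, M)
      (if k.goal then I.length + 8 * Bl.length else I.length, M') := by
  obtain ⟨b, hb, hbk⟩ := List.mem_iff_getElem.mp hk
  have hb' : Bl[b]? = some k := by rw [List.getElem?_eq_getElem hb, hbk]
  refine (scan_steps hB M b hb).trans (ReflTransGen.head (.fst (get_choose (I := I) hB hb')) ?_)
  have := run_ops (I := I) hB hb' h 7 le_rfl M rfl
  rw [if_neg (by norm_num), Nat.sub_self, Nat.add_zero] at this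
  exact this

end Blk

/-- A block program reaches its end iff a goal block can be executed. -/
theorem blockProg_reach {I : List ℕ} {Bl : List Block} (hB : ∀ k ∈ Bl, k.ops.length = 7)
    (hpos : 0 < Bl.length) (hI : 0 < I.length) : PReach (blockProg I Bl) ↔ BReach I Bl := by
  constructor
  · rintro ⟨i, M, h, hi⟩
    have h0 : Blk.Inv I Bl (0, fun _ => false) := by
      have := Blk.Inv.init (I := I) (Bl := Bl) hI
      have h1 : (fun p => decide (p ∈ I.take 0)) = (fun _ => false : ℕ → Bool) := by
        funext p; simp
      rwa [h1] at this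
    have key : ∀ y, ReflTransGen (PStep (blockProg I Bl)) (0, fun _ => false) y →
        Blk.Inv I Bl y := by
      intro y hy
      induction hy with
      | refl => exact h0
      | tail _ h ih => exact Blk.inv_step hB hpos ih h
    have hx := key _ h
    rw [Blk.prog_len hB] at hi
    generalize hy : ((i, M) : ℕ × (ℕ → Bool)) = y at hx
    cases hx with
    | init hi' => rw [Prod.mk.injEq] at hy; omega
    | base hb => rw [Prod.mk.injEq] at hy; omega
    | mid hb _ hj =>
      have := (List.getElem?_eq_some_iff.mp hb).1
      rw [Prod.mk.injEq] at hy; omega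
    | @goal b k M₀ M' hb hM hk hM' =>
      exact ⟨M₀, hM, k, List.mem_of_getElem? hb, hk, by rw [hM']; rfl⟩
  · rintro ⟨M, hM, k, hk, hkg, hs⟩
    obtain ⟨M', hM'⟩ := Option.isSome_iff_exists.mp hs
    have h1 := Blk.init_steps (I := I) (Bl := Bl) I.length le_rfl
    rw [List.take_length] at h1
    have h2 : ∀ N, ReflTransGen (BStep Bl) (initM I) N →
        ReflTransGen (PStep (blockProg I Bl)) (0, fun _ => false) (I.length, N) := by
      intro N hN
      induction hN with
      | refl => exact h1
      | tail _ h ih =>
        obtain ⟨k, hk, hkg, he⟩ := h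
        have := Blk.run_block (I := I) hB hk he
        rw [if_neg (by rw [hkg]; simp)] at this
        exact ih.trans this
    have h3 := Blk.run_block (I := I) hB hk hM'
    rw [if_pos hkg] at h3
    exact ⟨_, _, (h2 M hM).trans h3, by rw [Blk.prog_len hB]⟩

end Pool.Agent.Lunar
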