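import Pool.Agent.Lunar.Defs
import Pool.Agent.SetPS.Defs

/-!
# The decision problem LUNAR LOCKOUT as a language

An instance is written down as a picture: the `n` rows of the `n × n` board one after the other,
each row followed by a separator; every cell of the board is described by its contents and by
a mark telling whether it is the goal cell.
-/

namespace Pool.Agent.Lunar

/-- The input alphabet: the description of a cell (contents: `0` empty, `1` a token which is not
the target token, `2` the target token; the Boolean marks the goal cell), and the separator
`none` written at the end of each row. -/
abbrev Sy : Type := Option (Fin 3 × Bool)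

/-- The description of the cell `c` when the target token is in the cell `t`, the other tokens
occupy the set `S` and the goal cell is `g`. -/
def cellSym (S : Finset Cell) (t g c : Cell) : Fin 3 × Bool :=
  (if c = t then 2 else if c ∈ S then 1 else 0, decide (c = g))

/-- The picture of the `n × n` board. -/
def encodeBoard (n : ℕ) (S : Finset Cell) (t g : Cell) : List Sy :=
  (List.range n).flatMap fun y =>
    ((List.range n).map fun x => some (cellSym S t g (x, y))) ++ [none]

/-- The tokens and the goal cell lie on the `n × n` board, and the target token does not share its
cell with another token. -/
structure OnBoard (n : ℕ) (S : Finset Cell) (t g : Cell) : Prop where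
  others : ∀ c ∈ S, c.1 < n ∧ c.2 < n
  target : t.1 < n ∧ t.2 < n
  goal : g.1 < n ∧ g.2 < n
  free : t ∉ S

/-- LUNAR LOCKOUT: given the picture of an `n × n` board with tokens, one of them the target
token, and a goal cell, can the target token be brought to the goal cell? -/
def LUNAR : Set (List Sy) :=
  {w | ∃ (n : ℕ) (S : Finset Cell) (t g : Cell), OnBoard n S t g ∧ w = encodeBoard n S t g ∧
    Solvable ⟨t, S⟩ g}

end Pool.Agent.Lunar
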