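import Pool.Agent.Lunar.Layout
import Pool.Agent.Lunar.Lang

/-!
# The board of a net is a legal instance
-/

namespace Pool.Agent.Lunar

theorem loc_le {k : Kind} {p : Cell} (h : p ∈ k.loc) : p.1 ≤ 28 ∧ p.2 ≤ 16 := by
  cases k <;> simp only [Kind.loc, List.mem_cons, List.not_mem_nil, or_false] at h
  · rcases h with h | h | h | h | h | h | h | h | h | h <;> subst h <;> decide
  · rcases h with h | h | h | h | h | h <;> subst h <;> decide
  · rcases h with h | h | h | h | h | h <;> subst h <;> decide
  · subst h; decide

theorem ex_le {b : Kind} {k : ℕ} (h : k ∈ b.ex) : k ≤ 2 := by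
  cases b <;> simp [Kind.ex] at h <;> omega

theorem physNet_length (N : List Comp) : (physNet N).length = nBlk N := by
  unfold physNet nBlk
  have h : ∀ l : List Comp, (l.flatMap fun c =>
      [convBlk N.length (c.wire 0), convBlk N.length (c.wire 1),
        convBlk N.length (c.wire 2)]).length = 3 * l.length := by
    intro l
    induction l with
    | nil => rfl
    | cons c l ih => rw [List.flatMap_cons, List.length_append, ih]; simp; ring
  simp only [List.length_append, List.length_map, List.length_zipIdx, h, List.length_cons,
    List.length_nil]
  omega

theorem wire_eq {N : List Comp} {g : ℕ} {c : Comp} (h : N[g]? = some c) (k : ℕ) (hk : k < 3) :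
    wire N g k = c.wire k := by
  unfold wire
  rw [h]
  have : k = 0 ∨ k = 1 ∨ k = 2 := by omega
  rcases this with rfl | rfl | rfl <;> cases c <;> rfl

theorem physNet_t {N : List Comp} (hN : Normal N) {b : Blk} (hb : b ∈ physNet N) {k γ : ℕ}
    (h : b.t k = some γ) : γ < nBlk N := by
  have hpos := hN.pos
  unfold nBlk
  have conv : ∀ c ∈ N, ∀ j < 3, b = convBlk N.length (c.wire j) → γ < 4 * N.length + 2 := by
    intro c hc j hj hbe
    obtain ⟨g, hg⟩ := List.mem_iff_getElem?.1 hc
    have hw := wire_eq hg j hj
    subst hbe
    cases hcw : c.wire j with
    | dead =>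
      rw [hcw] at h
      rcases k with _ | _ | k <;> simp [convBlk, Blk.t] at h
    | goal =>
      rw [hcw] at h
      rcases k with _ | _ | k <;> simp [convBlk, Blk.t] at h
      omega
    | port g' b' =>
      rw [hcw] at h hw
      have := hN.range _ _ _ _ hw
      cases b' <;> rcases k with _ | _ | k <;> simp [convBlk, Blk.t] at h <;> omega
  unfold physNet at hb
  rcases List.mem_append.1 hb with hb | hb
  · rcases List.mem_append.1 hb with hb | hb
    · obtain ⟨⟨c, g⟩, hz, rfl⟩ := List.mem_map.1 hb
      have hg : g < N.length := by
        have := List.mem_zipIdx hz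
        omega
      cases c <;> rcases k with _ | _ | k <;> simp [mainBlk, Blk.t] at h <;> omega
    · obtain ⟨c, hc, hb⟩ := List.mem_flatMap.1 hb
      simp only [List.mem_cons, List.not_mem_nil, or_false] at hb
      rcases hb with hb | hb | hb
      · exact conv c hc 0 (by omega) hb
      · exact conv c hc 1 (by omega) hb
      · exact conv c hc 2 (by omega) hb
  · simp only [List.mem_cons, List.not_mem_nil, or_false] at hb
    rcases hb with rfl | rfl <;> rcases k with _ | _ | k <;> simp [Blk.t] at h
    omega

theorem xcol_le (k : ℕ) : xcol k ≤ 24 := by
  rcases k with _ | _ | k <;> simp [xcol]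

/-- Cases for a token of a block. -/
theorem mem_blkToks {m β : ℕ} {b : Blk} {c : Cell} (h : c ∈ blkToks m β b) :
    (∃ p ∈ b.kind.loc, c = (bx m β + p.1, by' β + p.2)) ∨
    (∃ k ∈ b.kind.ex, c = exitTok m β k ∨ ∃ γ, b.t k = some γ ∧ c ∈ wireToks m β k γ) := by
  unfold blkToks at h
  rcases List.mem_append.1 h with h | h
  · obtain ⟨p, hp, rfl⟩ := List.mem_map.1 h
    exact Or.inl ⟨p, hp, rfl⟩
  · obtain ⟨k, hk, h⟩ := List.mem_flatMap.1 h
    right
    refine ⟨k, hk, ?_⟩
    rcases List.mem_cons.1 h with h | h
    · exact Or.inl h
    · right
      cases ht : b.t k with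
      | none => rw [ht] at h; simp at h
      | some γ => rw [ht] at h; exact ⟨γ, rfl, h⟩

theorem mem_toks {N : List Comp} {c : Cell} (h : c ∈ toks (physNet N)) :
    ∃ β b, β < nBlk N ∧ b ∈ physNet N ∧ (physNet N)[β]? = some b ∧ c ∈ blkToks (nBlk N) β b := by
  unfold toks at h
  obtain ⟨⟨b, β⟩, hz, h⟩ := List.mem_flatMap.1 h
  rw [physNet_length] at h
  have h1 := List.mem_zipIdx_iff_getElem?.1 hz
  refine ⟨β, b, ?_, List.mem_of_getElem? h1, h1, h⟩
  have h2 := (List.getElem?_eq_some_iff.1 h1).1
  rwa [physNet_length] at h2

theorem last_goal {N : List Comp} {b : Blk} (h : (physNet N)[4 * N.length + 1]? = some b) :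
    b.kind = .goal := by
  have hl := physNet_length N
  unfold nBlk at hl
  unfold physNet at h hl
  rw [List.length_append] at hl
  simp only [List.length_cons, List.length_nil] at hl
  rw [List.getElem?_append_right (by omega)] at h
  rw [show 4 * N.length + 1 - _ = 1 from by omega] at h
  simp only [List.getElem?_cons_succ, List.getElem?_cons_zero, Option.some.injEq] at h
  rw [← h]

/-- The board of a net in normal form is a legal instance. -/
theorem onBoard_net {N : List Comp} (hN : Normal N) :
    OnBoard (side N) (others N).toFinset (targetCell N) (goalCell N) := by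
  have hm : nBlk N = 4 * N.length + 2 := rfl
  refine ⟨?_, ?_, ?_, ?_⟩
  · intro c hc
    rw [List.mem_toFinset] at hc
    unfold others at hc
    rcases List.mem_cons.1 hc with rfl | hc
    · simp only [agentCell, exitCell, side, bx, wy, xcol, hm]
      omega
    · obtain ⟨β, b, hβ, hb, -, hc⟩ := mem_toks hc
      rcases mem_blkToks hc with ⟨p, hp, rfl⟩ | ⟨k, hk, rfl | ⟨γ, hγ, hc⟩⟩
      · have := loc_le hp
        simp only [side, bx, by']
        omega
      · have h1 := ex_le hk
        have h2 := xcol_le k
        simp only [exitTok, side, bx, wy]
        omega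
      · have h1 := ex_le hk
        have h2 := physNet_t hN hb hγ
        unfold wireToks at hc
        by_cases hk1 : k = 1
        · simp only [hk1, if_true, List.mem_cons, List.not_mem_nil, or_false] at hc
          rcases hc with rfl | rfl
          · simp only [side, wx, wy, if_true]
            omega
          · simp only [side, wx, by', if_true]
            omega
        · simp only [hk1, if_false, List.mem_cons, List.not_mem_nil, or_false] at hc
          rcases hc with rfl | rfl
          · simp only [side, wx, wy, hk1, if_false]
            omega
          · simp only [side, wx, by', hk1, if_false]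
            omega
  · simp only [targetCell, side, bx, by', hm]
    omega
  · simp only [goalCell, side, bx, by', hm]
    omega
  · intro hc
    rw [List.mem_toFinset] at hc
    unfold others at hc
    rcases List.mem_cons.1 hc with hc | hc
    · have := congrArg Prod.snd hc
      simp only [targetCell, agentCell, exitCell, by', wy, hm] at this
      omega
    · obtain ⟨β, b, hβ, hb, hbe, hc⟩ := mem_toks hc
      rcases mem_blkToks hc with ⟨p, hp, hc⟩ | ⟨k, hk, hc | ⟨γ, hγ, hc⟩⟩
      · have h1 := loc_le hp
        have h2 := congrArg Prod.fst hc
        have h3 := congrArg Prod.snd hc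
        simp only [targetCell, bx, by', hm] at h2 h3
        have h4 : β = 4 * N.length + 1 := by omega
        subst h4
        have h5 := last_goal hbe
        rw [h5] at hp
        simp only [Kind.loc, List.mem_cons, List.not_mem_nil, or_false] at hp
        subst hp
        simp only at h2
        omega
      · have := congrArg Prod.snd hc
        simp only [targetCell, exitTok, by', wy, hm] at this
        omega
      · unfold wireToks at hc
        by_cases hk1 : k = 1
        · simp only [hk1, if_true, List.mem_cons, List.not_mem_nil, or_false] at hc
          rcases hc with hc | hc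
          · have := congrArg Prod.snd hc
            simp only [targetCell, by', wy, hm] at this
            omega
          · have := congrArg Prod.snd hc
            simp only [targetCell, by', hm] at this
            omega
        · simp only [hk1, if_false, List.mem_cons, List.not_mem_nil, or_false] at hc
          rcases hc with hc | hc
          · have := congrArg Prod.snd hc
            simp only [targetCell, by', wy, hm] at this
            omega
          · have := congrArg Prod.snd hc
            simp only [targetCell, by', hm] at this
            omega

end Pool.Agent.Lunar
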