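import Pool.Agent.Lunar.BOk
import Pool.Agent.Lunar.Bounds

/-!
# The board of a net is the clean board of the initial abstract state
-/

namespace Pool.Agent.Lunar

namespace Board

theorem cz_main (κ : Kind) : (κ.dat.cz false).toFinset =
    (κ.loc.map (fun p : Cell => ((p.1 + 4, p.2) : Cell)) ++
      κ.ex.map (fun k => ((xcol k + 4, 20 + 3 * k) : Cell)) ++
      (if κ = Kind.goal then [((17, 13) : Cell)] else [])).toFinset := by
  cases κ <;> decide +kernel

variable {B : List Blk}

theorem mem_im {i : Ix B} {ω : Wr B} {c : List Cell} {p : Cell} :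
    p ∈ im B i ω c ↔ ∃ q ∈ c, cel B i ω q = p := by
  simp [im, img, cel]

theorem mem_cz_inl {β : Fin B.length} {p : Cell} :
    p ∈ bCz B (.inl β) false ↔
      (∃ q ∈ (B.get β).kind.loc, p = (bx B.length β + q.1, by' β + q.2)) ∨
      (∃ k ∈ (B.get β).kind.ex, p = exitTok B.length β k) ∨
      ((B.get β).kind = .goal ∧ p = (bx B.length β + 13, by' β + 13)) := by
  have hm : ∀ c : Cell, c ∈ (B.get β).kind.dat.cz false ↔
      (∃ q ∈ (B.get β).kind.loc, (q.1 + 4, q.2) = c) ∨
      (∃ k ∈ (B.get β).kind.ex, (xcol k + 4, 20 + 3 * k) = c) ∨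
      ((B.get β).kind = .goal ∧ c = (17, 13)) := by
    intro c
    rw [← List.mem_toFinset, cz_main, List.mem_toFinset, List.mem_append, List.mem_append,
      List.mem_map, List.mem_map, or_assoc]
    refine or_congr Iff.rfl (or_congr Iff.rfl ?_)
    split_ifs with h
    · rw [List.mem_singleton]
      exact ⟨fun h' => ⟨h, h'⟩, fun h' => h'.2⟩
    · exact ⟨fun h' => absurd h' List.not_mem_nil, fun h' => absurd h'.1 h⟩
  rw [show bCz B (.inl β) false = im B (.inl β) (β, 0) ((B.get β).kind.dat.cz false) from rfl,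
    mem_im]
  constructor
  · rintro ⟨c, hc, rfl⟩
    rcases (hm c).1 hc with ⟨q, hq, rfl⟩ | ⟨k, hk, rfl⟩ | ⟨hg, rfl⟩
    · left
      refine ⟨q, hq, ?_⟩
      have := loc_le hq
      simp only [cel, fx, gy, mapB, map2, Prod.mk.injEq]
      constructor
      · split_ifs <;> omega
      · rw [if_pos (by omega)]
    · right; left
      refine ⟨k, hk, ?_⟩
      have := xcol_le k
      simp only [cel, fx, gy, mapB, map2, exitTok, wy, Prod.mk.injEq]
      constructor
      · split_ifs <;> omega
      · rw [if_neg (by omega)]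
        omega
    · right; right
      exact ⟨hg, by simp [cel, fx, gy, mapB, map2]⟩
  · rintro (⟨q, hq, rfl⟩ | ⟨k, hk, rfl⟩ | ⟨hg, rfl⟩)
    · refine ⟨_, (hm _).2 (Or.inl ⟨q, hq, rfl⟩), ?_⟩
      have := loc_le hq
      simp only [cel, fx, gy, mapB, map2, Prod.mk.injEq]
      constructor
      · split_ifs <;> omega
      · rw [if_pos (by omega)]
    · refine ⟨_, (hm _).2 (Or.inr (Or.inl ⟨k, hk, rfl⟩)), ?_⟩
      have := xcol_le k
      simp only [cel, fx, gy, mapB, map2, exitTok, wy, Prod.mk.injEq]
      constructor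
      · split_ifs <;> omega
      · rw [if_neg (by omega)]
        omega
    · exact ⟨_, (hm _).2 (Or.inr (Or.inr ⟨hg, rfl⟩)), by simp [cel, fx, gy, mapB, map2]⟩

theorem mem_cz_inr {ω : Wr B} {p : Cell} :
    p ∈ bCz B (.inr ω) false ↔
      ∃ γ, tg B ω.1 ω.2 = some γ ∧ p ∈ wireToks B.length ω.1 ω.2 γ := by
  obtain ⟨β, k⟩ := ω
  rw [show bCz B (.inr (β, k)) false =
    im B (.inr (β, k)) (β, k) ((kd B (.inr (β, k))).cz false) from rfl, mem_im]
  have h4 := xcol_le k
  cases hT : tg B β k with
  | none => simp [kd, tw, hT, kSink]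
  | some γ =>
    simp only [kd, tw, hT, cel, fx, gy]
    by_cases hk : k.1 = 1
    · simp [hk, kRelC, map2, wireToks, or_comm, eq_comm]
    · simp [hk, kRelA, map2, wireToks, or_comm, eq_comm]

theorem mem_toks_iff {p : Cell} :
    p ∈ toks B ↔ ∃ β : Fin B.length, p ∈ blkToks B.length β (B.get β) := by
  unfold toks
  rw [List.mem_flatMap]
  constructor
  · rintro ⟨⟨b, β⟩, hz, h⟩
    have h1 := List.mem_zipIdx_iff_getElem?.1 hz
    simp only at h1 h
    obtain ⟨hlt, hb⟩ := List.getElem?_eq_some_iff.1 h1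
    exact ⟨⟨β, hlt⟩, by simpa [hb] using h⟩
  · rintro ⟨β, h⟩
    exact ⟨(B.get β, β.1), List.mem_zipIdx_iff_getElem?.2 (by simp), h⟩

theorem mem_blk_iff {β : Fin B.length} {p : Cell} :
    p ∈ blkToks B.length β (B.get β) ↔
      (∃ q ∈ (B.get β).kind.loc, p = (bx B.length β + q.1, by' β + q.2)) ∨
      (∃ k ∈ (B.get β).kind.ex, p = exitTok B.length β k) ∨
      (∃ k : Fin 3, ∃ γ, tg B β k = some γ ∧ p ∈ wireToks B.length β k γ) := by
  unfold blkToks
  rw [List.mem_append, List.mem_map, List.mem_flatMap]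
  have htg : ∀ k : ℕ, tg B β k = if k ∈ (B.get β).kind.ex then (B.get β).t k else none := by
    intro k
    simp [tg]
  constructor
  · rintro (⟨q, hq, rfl⟩ | ⟨k, hk, h⟩)
    · exact Or.inl ⟨q, hq, rfl⟩
    · rcases List.mem_cons.1 h with rfl | h
      · exact Or.inr (Or.inl ⟨k, hk, rfl⟩)
      · right; right
        have hk2 := ex_le hk
        refine ⟨⟨k, by omega⟩, ?_⟩
        rw [htg, if_pos hk]
        simp only
        cases ht : (B.get β).t k with
        | none => rw [ht] at h; simp at h
        | some γ => rw [ht] at h; exact ⟨γ, rfl, h⟩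
  · rintro (⟨q, hq, rfl⟩ | ⟨k, hk, rfl⟩ | ⟨k, γ, h, hp⟩)
    · exact Or.inl ⟨q, hq, rfl⟩
    · exact Or.inr ⟨k, hk, List.mem_cons_self⟩
    · rw [htg] at h
      split_ifs at h with hk
      refine Or.inr ⟨k.1, hk, List.mem_cons_of_mem _ ?_⟩
      rw [h]
      exact hp

theorem biUnion_eq {p : Cell} :
    p ∈ (Finset.univ.biUnion fun i : Ix B => bCz B i false) ↔
      p ∈ toks B ∨ ∃ β : Fin B.length, (B.get β).kind = .goal ∧
        p = (bx B.length β + 13, by' β + 13) := by
  simp only [Finset.mem_biUnion, Finset.mem_univ, true_and, Sum.exists, mem_cz_inl, mem_cz_inr,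
    mem_toks_iff, mem_blk_iff, Prod.exists]
  constructor
  · rintro (⟨β, h | h | h⟩ | ⟨β, k, h⟩)
    · exact Or.inl ⟨β, Or.inl h⟩
    · exact Or.inl ⟨β, Or.inr (Or.inl h)⟩
    · exact Or.inr ⟨β, h⟩
    · exact Or.inl ⟨β, Or.inr (Or.inr ⟨k, h⟩)⟩
  · rintro (⟨β, h | h | h⟩ | ⟨β, h⟩)
    · exact Or.inl ⟨β, Or.inl h⟩
    · exact Or.inl ⟨β, Or.inr (Or.inl h)⟩
    · exact Or.inr ⟨β, h⟩
    · exact Or.inl ⟨β, Or.inr (Or.inr h)⟩

theorem goal_idx {N : List Comp} {β : ℕ} {b : Blk} (h : (physNet N)[β]? = some b)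
    (hb : b.kind = .goal) : β = 4 * N.length + 1 := by
  have hl := physNet_length N
  unfold nBlk at hl
  unfold physNet at h hl
  set L := (N.zipIdx.map (fun z => mainBlk N.length z.2 z.1) ++ N.flatMap fun c =>
      [convBlk N.length (c.wire 0), convBlk N.length (c.wire 1),
        convBlk N.length (c.wire 2)]) with hL
  rw [List.length_append] at hl
  simp only [List.length_cons, List.length_nil] at hl
  have hconv : ∀ t, (convBlk N.length t).kind ≠ .goal := by
    intro t
    cases t with
    | dead => simp [convBlk]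
    | goal => simp [convBlk]
    | port g b => cases b <;> simp [convBlk]
  by_cases hlt : β < L.length
  · rw [List.getElem?_append_left hlt] at h
    exfalso
    have hm := List.mem_of_getElem? h
    rw [hL, List.mem_append] at hm
    rcases hm with hm | hm
    · obtain ⟨z, -, rfl⟩ := List.mem_map.1 hm
      revert hb
      cases z.1 <;> simp [mainBlk]
    · obtain ⟨c, -, hc⟩ := List.mem_flatMap.1 hm
      simp only [List.mem_cons, List.not_mem_nil, or_false] at hc
      rcases hc with rfl | rfl | rfl <;> exact hconv _ hb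
  · rw [List.getElem?_append_right (by omega)] at h
    have h3 : β - L.length = 0 ∨ β - L.length = 1 ∨ 2 ≤ β - L.length := by omega
    rcases h3 with h3 | h3 | h3
    · rw [h3] at h
      simp at h
      subst h
      simp at hb
    · omega
    · rw [List.getElem?_eq_none (by simpa using h3)] at h
      simp at h

theorem w_inr (ω : Wr B) : (bSys B).w (.inr ω) ω = exitCell B.length ω.1 ω.2 := by
  obtain ⟨β, o⟩ := ω
  have h4 := xcol_le o
  have h5 : 0 < xcol o := by unfold xcol; split <;> omega
  simp only [bSys, cel, fx, gy, kd, en, exitCell, tw]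
  cases hT : tg B β o with
  | none => simp [kSink]
  | some γ =>
    simp only
    split
    · simp [kRelC, map2]
    · simp [kRelA, map2]
      omega

end Board

open Board

theorem board_proof : Stmt_Board := by
  intro N h hN
  refine ⟨(onBoard_net hN).free, ?_⟩
  ext p
  unfold Sys.brd
  simp only [startSt, Finset.mem_insert]
  rw [biUnion_eq, w_inr]
  have hag : exitCell (physNet N).length (startWr N h).1 (startWr N h).2 = agentCell N := by
    change exitCell (physNet N).length (4 * N.length) 1 = _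
    rw [h]
    rfl
  rw [hag, List.mem_toFinset]
  unfold others
  rw [List.mem_cons]
  have hgoal : (∃ β : Fin (physNet N).length, ((physNet N).get β).kind = .goal ∧
      p = (bx (physNet N).length β + 13, by' β + 13)) ↔ p = targetCell N := by
    constructor
    · rintro ⟨β, hk, rfl⟩
      have := goal_idx (N := N) (β := β.1) (b := (physNet N).get β) (by simp) hk
      rw [this, h]
      rfl
    · rintro rfl
      have hlt : 4 * N.length + 1 < (physNet N).length := by rw [h]; unfold nBlk; omega
      refine ⟨⟨4 * N.length + 1, hlt⟩, last_goal (N := N) (by simp), ?_⟩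
      change targetCell N = (bx (physNet N).length (4 * N.length + 1) + 13,
        by' (4 * N.length + 1) + 13)
      rw [h]
      rfl
  rw [hgoal]
  tauto

end Pool.Agent.Lunar
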