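import Pool.Agent.Lunar.Sys

/-!
# Composition of components

Proofs of `Stmt_Sound`, `Stmt_Static`, `Stmt_Complete`.
-/

namespace Pool.Agent.Lunar

theorem Apart.symm {p q : Cell} (h : Apart p q) : Apart q p := ⟨Ne.symm h.1, Ne.symm h.2⟩

theorem Adj.symm {p q : Cell} (h : Adj p q) : Adj q p := by
  unfold Adj at *
  omega

theorem Apart.ne {p q : Cell} (h : Apart p q) : p ≠ q := fun e => h.1 (by rw [e])

theorem Adj.ne {p q : Cell} (h : Adj p q) : p ≠ q := by
  rintro rfl
  unfold Adj at h
  omega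

/-- A slide on the board is trivial or a slide inside the component. -/
theorem slide_local {c G : Finset Cell} {p q : Cell} (hc : c ⊆ G)
    (h : ∀ b ∈ G, b ∉ c → Apart b p ∨ Adj b p) (hs : Slide (G.erase p) p q) :
    q = p ∨ Slide (c.erase p) p q := by
  cases hs with
  | @right x y z hz hx hf =>
    by_cases hm : (z + 1, y) ∈ c
    · right
      refine Slide.right (Finset.mem_erase.2 ⟨(Finset.mem_erase.1 hz).1, hm⟩) hx ?_
      intro w h1 h2 h3
      exact hf w h1 h2 (Finset.mem_erase.2 ⟨(Finset.mem_erase.1 h3).1, hc (Finset.mem_erase.1 h3).2⟩)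
    · left
      rcases h _ (Finset.mem_erase.1 hz).2 hm with h1 | h1
      · exact absurd rfl h1.2
      · simp only [Adj] at h1
        have : z = x := by omega
        rw [this]
  | @left x y z hz hx hf =>
    by_cases hm : (z, y) ∈ c
    · right
      refine Slide.left (Finset.mem_erase.2 ⟨(Finset.mem_erase.1 hz).1, hm⟩) hx ?_
      intro w h1 h2 h3
      exact hf w h1 h2 (Finset.mem_erase.2 ⟨(Finset.mem_erase.1 h3).1, hc (Finset.mem_erase.1 h3).2⟩)
    · left
      rcases h _ (Finset.mem_erase.1 hz).2 hm with h1 | h1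
      · exact absurd rfl h1.2
      · simp only [Adj] at h1
        have : z + 1 = x := by omega
        rw [this]
  | @up x y z hz hx hf =>
    by_cases hm : (x, z + 1) ∈ c
    · right
      refine Slide.up (Finset.mem_erase.2 ⟨(Finset.mem_erase.1 hz).1, hm⟩) hx ?_
      intro w h1 h2 h3
      exact hf w h1 h2 (Finset.mem_erase.2 ⟨(Finset.mem_erase.1 h3).1, hc (Finset.mem_erase.1 h3).2⟩)
    · left
      rcases h _ (Finset.mem_erase.1 hz).2 hm with h1 | h1
      · exact absurd rfl h1.1
      · simp only [Adj] at h1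
        have : z = y := by omega
        rw [this]
  | @down x y z hz hx hf =>
    by_cases hm : (x, z) ∈ c
    · right
      refine Slide.down (Finset.mem_erase.2 ⟨(Finset.mem_erase.1 hz).1, hm⟩) hx ?_
      intro w h1 h2 h3
      exact hf w h1 h2 (Finset.mem_erase.2 ⟨(Finset.mem_erase.1 h3).1, hc (Finset.mem_erase.1 h3).2⟩)
    · left
      rcases h _ (Finset.mem_erase.1 hz).2 hm with h1 | h1
      · exact absurd rfl h1.1
      · simp only [Adj] at h1
        have : z + 1 = y := by omega
        rw [this]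

/-- A slide inside the component is a slide on the board. -/
theorem slide_global {c G : Finset Cell} {p q : Cell} (hc : c ⊆ G)
    (h : ∀ b ∈ G, b ∉ c → ∀ s ∈ c, s ≠ p →
      (b.1 = p.1 ∧ b.1 = s.1) ∨ (b.2 = p.2 ∧ b.2 = s.2) → False)
    (hs : Slide (c.erase p) p q) : Slide (G.erase p) p q := by
  have key : ∀ s, s ∈ c.erase p → s ∈ G.erase p := fun s hs =>
    Finset.mem_erase.2 ⟨(Finset.mem_erase.1 hs).1, hc (Finset.mem_erase.1 hs).2⟩
  cases hs with
  | @right x y z hz hx hf =>
    refine Slide.right (key _ hz) hx ?_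
    intro w h1 h2 h3
    by_cases hm : (w, y) ∈ c
    · exact hf w h1 h2 (Finset.mem_erase.2 ⟨(Finset.mem_erase.1 h3).1, hm⟩)
    · exact h _ (Finset.mem_erase.1 h3).2 hm _ (Finset.mem_erase.1 hz).2 (Finset.mem_erase.1 hz).1
        (Or.inr ⟨rfl, rfl⟩)
  | @left x y z hz hx hf =>
    refine Slide.left (key _ hz) hx ?_
    intro w h1 h2 h3
    by_cases hm : (w, y) ∈ c
    · exact hf w h1 h2 (Finset.mem_erase.2 ⟨(Finset.mem_erase.1 h3).1, hm⟩)
    · exact h _ (Finset.mem_erase.1 h3).2 hm _ (Finset.mem_erase.1 hz).2 (Finset.mem_erase.1 hz).1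
        (Or.inr ⟨rfl, rfl⟩)
  | @up x y z hz hx hf =>
    refine Slide.up (key _ hz) hx ?_
    intro w h1 h2 h3
    by_cases hm : (x, w) ∈ c
    · exact hf w h1 h2 (Finset.mem_erase.2 ⟨(Finset.mem_erase.1 h3).1, hm⟩)
    · exact h _ (Finset.mem_erase.1 h3).2 hm _ (Finset.mem_erase.1 hz).2 (Finset.mem_erase.1 hz).1
        (Or.inl ⟨rfl, rfl⟩)
  | @down x y z hz hx hf =>
    refine Slide.down (key _ hz) hx ?_
    intro w h1 h2 h3
    by_cases hm : (x, w) ∈ c
    · exact hf w h1 h2 (Finset.mem_erase.2 ⟨(Finset.mem_erase.1 h3).1, hm⟩)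
    · exact h _ (Finset.mem_erase.1 h3).2 hm _ (Finset.mem_erase.1 hz).2 (Finset.mem_erase.1 hz).1
        (Or.inl ⟨rfl, rfl⟩)

section glue

variable {I : Type} [Fintype I] [DecidableEq I]

/-- Moving one token of the part `k`. -/
theorem glue_move (cfg : I → Finset Cell) (k : I) (p q : Cell)
    (hp : ∀ l, l ≠ k → p ∉ cfg l) :
    insert q ((Finset.univ.biUnion cfg).erase p) =
      Finset.univ.biUnion (Function.update cfg k (insert q ((cfg k).erase p))) := by
  ext b
  simp only [Finset.mem_insert, Finset.mem_erase, Finset.mem_biUnion, Finset.mem_univ, true_and]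
  constructor
  · rintro (rfl | ⟨hb, l, hl⟩)
    · exact ⟨k, by simp⟩
    · by_cases hlk : l = k
      · subst hlk
        exact ⟨l, by simp [hb, hl]⟩
      · exact ⟨l, by simp [hlk, hl]⟩
  · rintro ⟨l, hl⟩
    by_cases hlk : l = k
    · subst hlk
      simp only [Function.update_self, Finset.mem_insert, Finset.mem_erase] at hl
      rcases hl with hl | hl
      · exact Or.inl hl
      · exact Or.inr ⟨hl.1, l, hl.2⟩
    · rw [Function.update_of_ne hlk] at hl
      refine Or.inr ⟨?_, l, hl⟩
      rintro rfl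
      exact hp l hlk hl

/-- Handing a token over. -/
theorem glue_hand (cfg : I → Finset Cell) (k m : I) (hkm : m ≠ k) (x : Cell) (d : Finset Cell) :
    Finset.univ.biUnion (Function.update cfg k (insert x d)) =
      Finset.univ.biUnion (Function.update (Function.update cfg k d) m (insert x (cfg m))) := by
  ext b
  simp only [Finset.mem_biUnion, Finset.mem_univ, true_and]
  constructor
  · rintro ⟨l, hl⟩
    by_cases hlk : l = k
    · subst hlk
      simp only [Function.update_self, Finset.mem_insert] at hl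
      rcases hl with hl | hl
      · exact ⟨m, by simp [hl]⟩
      · exact ⟨l, by simp [Function.update_of_ne (Ne.symm hkm), hl]⟩
    · rw [Function.update_of_ne hlk] at hl
      by_cases hlm : l = m
      · subst hlm
        exact ⟨l, by simp [hl]⟩
      · exact ⟨l, by simp [Function.update_of_ne hlm, Function.update_of_ne hlk, hl]⟩
  · rintro ⟨l, hl⟩
    by_cases hlm : l = m
    · subst hlm
      simp only [Function.update_self, Finset.mem_insert] at hl
      rcases hl with hl | hl
      · exact ⟨k, by simp [hl]⟩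
      · exact ⟨l, by simp [Function.update_of_ne hkm, hl]⟩
    · rw [Function.update_of_ne hlm] at hl
      by_cases hlk : l = k
      · subst hlk
        simp only [Function.update_self] at hl
        exact ⟨l, by simp [hl]⟩
      · rw [Function.update_of_ne hlk] at hl
        exact ⟨l, by simp [Function.update_of_ne hlk, hl]⟩

end glue

namespace Sys

variable {I S E O : Type} [Fintype I] [DecidableEq I] {Y : Sys I S E O}

/-- Configurations of a board in the abstract state `a`. -/
structure Cfg (Y : Sys I S E O) (cfg : I → Finset Cell) (a : ASt I S E) : Prop where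
  rest : ∀ k, k ≠ a.2.1 → cfg k ∈ Y.Z k (a.1 k)
  act : cfg a.2.1 ∈ Y.A a.2.1 (a.1 a.2.1) a.2.2

omit [Fintype I] in
theorem Cfg.near (hY : Y.Ok) {cfg : I → Finset Cell} {a : ASt I S E} (h : Y.Cfg cfg a)
    {k l : I} (hkl : l ≠ k) {p b : Cell} (hp : p ∈ cfg k) (hb : b ∈ cfg l) :
    Apart b p ∨ Adj b p := by
  by_cases hk : k = a.2.1
  · subst hk
    rcases hY.apartA l a.2.1 hkl _ _ _ _ _ (h.rest l hkl) h.act b hb p hp with h1 | h1
    · exact Or.inl h1
    · exact Or.inr h1.2
  · by_cases hl : l = a.2.1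
    · subst hl
      rcases hY.apartA k a.2.1 hk _ _ _ _ _ (h.rest k hk) h.act p hp b hb with h1 | h1
      · exact Or.inl h1.symm
      · exact Or.inr h1.2.symm
    · exact Or.inl (hY.apartZ l k hkl _ _ _ _ (h.rest l hl) (h.rest k hk) b hb p hp)

omit [Fintype I] in
theorem Cfg.not_mem (hY : Y.Ok) {cfg : I → Finset Cell} {a : ASt I S E} (h : Y.Cfg cfg a)
    {k l : I} (hkl : l ≠ k) {p : Cell} (hp : p ∈ cfg k) : p ∉ cfg l := by
  intro hb
  rcases h.near hY hkl hp hb with h1 | h1
  · exact h1.ne rfl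
  · exact h1.ne rfl

theorem Cfg.slide (hY : Y.Ok) {cfg : I → Finset Cell} {a : ASt I S E} (h : Y.Cfg cfg a)
    {k : I} {p q : Cell} (hp : p ∈ cfg k)
    (hs : Slide ((Finset.univ.biUnion cfg).erase p) p q) :
    q = p ∨ Slide ((cfg k).erase p) p q := by
  refine slide_local (Finset.subset_biUnion_of_mem cfg (Finset.mem_univ k)) ?_ hs
  intro b hb hbk
  simp only [Finset.mem_biUnion, Finset.mem_univ, true_and] at hb
  obtain ⟨l, hl⟩ := hb
  refine h.near hY (k := k) (l := l) ?_ hp hl
  rintro rfl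
  exact hbk hl

theorem sound (hY : Y.Ok) {G T : Finset Cell} {a : ASt I S E} (hG : Y.Inv G a)
    (hst : Step G T) : ∃ b, Y.Inv T b ∧ (b = a ∨ Y.AStep a b) := by
  obtain ⟨cfg, h1, h2, rfl⟩ := hG
  have h : Y.Cfg cfg a := ⟨h1, h2⟩
  obtain ⟨p, hp, q, hs, rfl⟩ := hst
  have hp0 := hp
  simp only [Finset.mem_biUnion, Finset.mem_univ, true_and] at hp
  obtain ⟨k, hk⟩ := hp
  rcases h.slide hY hk hs with rfl | hloc
  · refine ⟨a, ?_, Or.inl rfl⟩
    rw [Finset.insert_erase hp0]
    exact ⟨cfg, h1, h2, rfl⟩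
  · have hstep : Step (cfg k) (insert q ((cfg k).erase p)) := ⟨p, hk, q, hloc, rfl⟩
    rw [glue_move cfg k p q (fun l hl => h.not_mem hY hl hk)]
    by_cases hka : k = a.2.1
    · subst hka
      rcases hY.astep _ _ _ _ _ h2 hstep with hA | ⟨s', o, d, hrel, hd, heq⟩
      · refine ⟨a, ⟨_, ?_, ?_, rfl⟩, Or.inl rfl⟩
        · intro l hl
          rw [Function.update_of_ne hl]
          exact h1 l hl
        · rw [Function.update_self]
          exact hA
      · have hne := hY.ne _ _ _ _ _ hrel
        refine ⟨(Function.update a.1 a.2.1 s', Y.nx a.2.1 o), ?_, Or.inr ⟨s', o, hrel, rfl⟩⟩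
        rw [heq, glue_hand cfg a.2.1 (Y.nx a.2.1 o).1 hne]
        refine ⟨_, ?_, ?_, rfl⟩
        · intro l hl
          simp only at hl ⊢
          rw [Function.update_of_ne hl]
          by_cases hla : l = a.2.1
          · subst hla
            rw [Function.update_self, Function.update_self]
            exact hd
          · rw [Function.update_of_ne hla, Function.update_of_ne hla]
            exact h1 l hla
        · simp only [Function.update_self]
          rw [Function.update_of_ne hne]
          exact hY.enter _ _ _ _ _ hrel _ _ (h1 _ hne)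
    · refine ⟨a, ⟨_, ?_, ?_, rfl⟩, Or.inl rfl⟩
      · intro l hl
        by_cases hlk : l = k
        · subst hlk
          rw [Function.update_self]
          exact hY.zstep _ _ _ _ (h1 l hl) hstep
        · rw [Function.update_of_ne hlk]
          exact h1 l hl
      · rw [Function.update_of_ne (Ne.symm hka)]
        exact h2

theorem static (hY : Y.Ok) (γ : I) (t : Cell)
    (ht : ∀ s, ∀ d ∈ Y.Z γ s, t ∈ d ∧ ∀ q, Slide (d.erase t) t q → q = t)
    {G : Finset Cell} {a : ASt I S E} (hG : Y.Inv G a) (ha : a.2.1 ≠ γ) :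
    t ∈ G ∧ ∀ q, Slide (G.erase t) t q → q = t := by
  obtain ⟨cfg, h1, h2, rfl⟩ := hG
  have h : Y.Cfg cfg a := ⟨h1, h2⟩
  obtain ⟨h3, h4⟩ := ht _ _ (h1 γ (Ne.symm ha))
  refine ⟨Finset.mem_biUnion.2 ⟨γ, Finset.mem_univ _, h3⟩, ?_⟩
  intro q hq
  rcases h.slide hY h3 hq with h5 | h5
  · exact h5
  · exact h4 q h5

/-- A local move of the active component, on the board. -/
theorem Cfg.lift (hY : Y.Ok) {cfg : I → Finset Cell} {a : ASt I S E} (h : Y.Cfg cfg a)
    {γ : I} {t : Cell} (hγ : γ ≠ a.2.1) (ht : t ∈ cfg γ) {c' : Finset Cell}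
    (hs : Step (cfg a.2.1) c') :
    StepOff t (Finset.univ.biUnion cfg)
      (Finset.univ.biUnion (Function.update cfg a.2.1 c')) := by
  obtain ⟨p, hp, q, hq, rfl⟩ := hs
  have hsub : cfg a.2.1 ⊆ Finset.univ.biUnion cfg :=
    Finset.subset_biUnion_of_mem cfg (Finset.mem_univ _)
  refine ⟨p, hsub hp, ?_, q, slide_global hsub ?_ hq,
    (glue_move cfg a.2.1 p q (fun l hl => h.not_mem hY hl hp)).symm⟩
  · rintro rfl
    exact h.not_mem hY hγ hp ht
  · intro b hb hbc s hs hsp hbps
    simp only [Finset.mem_biUnion, Finset.mem_univ, true_and] at hb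
    obtain ⟨l, hl⟩ := hb
    have hla : l ≠ a.2.1 := by
      rintro rfl
      exact hbc hl
    rcases hY.apartA l a.2.1 hla _ _ _ _ _ (h.rest l hla) h.act b hl p hp with h1 | h1
    · rcases hbps with h3 | h3
      · exact h1.1 h3.1
      · exact h1.2 h3.1
    · rcases hY.apartA l a.2.1 hla _ _ _ _ _ (h.rest l hla) h.act b hl s hs with h2 | h2
      · rcases hbps with h3 | h3
        · exact h2.1 h3.2
        · exact h2.2 h3.2
      · exact hsp (h2.1.trans h1.1.symm)

/-- Lifting a path inside the active component. -/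
theorem lift_path (hY : Y.Ok) {cfg : I → Finset Cell} {a : ASt I S E}
    (hrest : ∀ k, k ≠ a.2.1 → cfg k ∈ Y.Z k (a.1 k))
    {γ : I} {t : Cell} (hγ : γ ≠ a.2.1) (ht : t ∈ cfg γ) {c c' : Finset Cell}
    (hp : Relation.ReflTransGen (fun c c' => c ∈ Y.A a.2.1 (a.1 a.2.1) a.2.2 ∧ Step c c') c c') :
    Relation.ReflTransGen (StepOff t) (Finset.univ.biUnion (Function.update cfg a.2.1 c))
      (Finset.univ.biUnion (Function.update cfg a.2.1 c')) := by
  induction hp with
  | refl => exact Relation.ReflTransGen.refl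
  | @tail b d _ hbd ih =>
    refine ih.tail ?_
    have hC : Y.Cfg (Function.update cfg a.2.1 b) a := by
      refine ⟨?_, ?_⟩
      · intro k hk
        rw [Function.update_of_ne hk]
        exact hrest k hk
      · rw [Function.update_self]
        exact hbd.1
    have := hC.lift hY (γ := γ) (t := t) hγ (by rw [Function.update_of_ne hγ]; exact ht) (c' := d)
      (by rw [Function.update_self]; exact hbd.2)
    rwa [Function.update_idem] at this

theorem brd_eq (cz : I → S → Finset Cell) (a : ASt I S E) :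
    Y.brd cz a = Finset.univ.biUnion (Function.update (fun k => cz k (a.1 k)) a.2.1
      (insert (Y.w a.2.1 a.2.2) (cz a.2.1 (a.1 a.2.1)))) := by
  ext b
  simp only [brd, Finset.mem_insert, Finset.mem_biUnion, Finset.mem_univ, true_and]
  constructor
  · rintro (rfl | ⟨l, hl⟩)
    · exact ⟨a.2.1, by simp⟩
    · by_cases hla : l = a.2.1
      · subst hla
        exact ⟨a.2.1, by simp [hl]⟩
      · exact ⟨l, by simp [Function.update_of_ne hla, hl]⟩
  · rintro ⟨l, hl⟩
    by_cases hla : l = a.2.1
    · subst hla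
      simp only [Function.update_self, Finset.mem_insert] at hl
      rcases hl with hl | hl
      · exact Or.inl hl
      · exact Or.inr ⟨_, hl⟩
    · rw [Function.update_of_ne hla] at hl
      exact Or.inr ⟨l, hl⟩

theorem complete_one {cz : I → S → Finset Cell} (hY : Y.Ok) (hF : Y.Full cz) (γ : I) (t : Cell)
    (hγ : ∀ s e s' o, ¬ Y.rel γ s e s' o) (ht : ∀ s, t ∈ cz γ s) {a b : ASt I S E}
    (ha : insert (Y.w a.2.1 a.2.2) (cz a.2.1 (a.1 a.2.1)) ∈ Y.A a.2.1 (a.1 a.2.1) a.2.2)
    (hab : Y.AStep a b) :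
    Relation.ReflTransGen (StepOff t) (Y.brd cz a) (Y.brd cz b) ∧
      insert (Y.w b.2.1 b.2.2) (cz b.2.1 (b.1 b.2.1)) ∈ Y.A b.2.1 (b.1 b.2.1) b.2.2 := by
  obtain ⟨s', o, hrel, rfl⟩ := hab
  have hga : γ ≠ a.2.1 := by
    rintro rfl
    exact hγ _ _ _ _ hrel
  have hne := hY.ne _ _ _ _ _ hrel
  have hlink := hY.link _ _ _ _ _ hrel
  constructor
  · have hpath := lift_path hY (a := a) (cfg := fun k => cz k (a.1 k))
      (fun k _ => hF.mem k (a.1 k)) hga (ht (a.1 γ)) (hF.path _ _ _ _ _ hrel ha)
    rw [brd_eq]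
    have hE : Y.brd cz (Function.update a.1 a.2.1 s', Y.nx a.2.1 o) =
        Finset.univ.biUnion (Function.update (fun k => cz k (a.1 k)) a.2.1
          (insert (Y.x a.2.1 o) (cz a.2.1 s'))) := by
      ext z
      simp only [brd, Finset.mem_insert, Finset.mem_biUnion, Finset.mem_univ, true_and]
      constructor
      · rintro (rfl | ⟨l, hl⟩)
        · exact ⟨a.2.1, by simp [hlink]⟩
        · by_cases hla : l = a.2.1
          · subst hla
            rw [Function.update_self] at hl
            exact ⟨a.2.1, by simp [hl]⟩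
          · rw [Function.update_of_ne hla] at hl
            exact ⟨l, by simp [Function.update_of_ne hla, hl]⟩
      · rintro ⟨l, hl⟩
        by_cases hla : l = a.2.1
        · subst hla
          simp only [Function.update_self, Finset.mem_insert] at hl
          rcases hl with hl | hl
          · exact Or.inl (hl.trans hlink.symm)
          · exact Or.inr ⟨a.2.1, by rw [Function.update_self]; exact hl⟩
        · rw [Function.update_of_ne hla] at hl
          exact Or.inr ⟨l, by rw [Function.update_of_ne hla]; exact hl⟩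
    rw [hE]
    exact hpath
  · simp only
    rw [Function.update_of_ne hne, hlink]
    exact hY.enter _ _ _ _ _ hrel _ _ (hF.mem _ _)

theorem complete {cz : I → S → Finset Cell} (hY : Y.Ok) (hF : Y.Full cz) (γ : I) (t : Cell)
    (hγ : ∀ s e s' o, ¬ Y.rel γ s e s' o) (ht : ∀ s, t ∈ cz γ s) {a b : ASt I S E}
    (ha : insert (Y.w a.2.1 a.2.2) (cz a.2.1 (a.1 a.2.1)) ∈ Y.A a.2.1 (a.1 a.2.1) a.2.2)
    (hab : Relation.ReflTransGen Y.AStep a b) :
    Relation.ReflTransGen (StepOff t) (Y.brd cz a) (Y.brd cz b) ∧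
      insert (Y.w b.2.1 b.2.2) (cz b.2.1 (b.1 b.2.1)) ∈ Y.A b.2.1 (b.1 b.2.1) b.2.2 := by
  induction hab with
  | refl => exact ⟨Relation.ReflTransGen.refl, ha⟩
  | tail _ hbc ih =>
    have := complete_one hY hF γ t hγ ht ih.2 hbc
    exact ⟨ih.1.trans this.1, this.2⟩

end Sys

theorem sound_proof : Stmt_Sound := by
  intro I S E O _ _ Y hY G T a hG hs
  exact Sys.sound hY hG hs

theorem static_proof : Stmt_Static := by
  intro I S E O _ _ Y hY γ t ht G a hG ha
  exact Sys.static hY γ t ht hG ha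

theorem complete_proof : Stmt_Complete := by
  intro I S E O _ _ Y cz hY hF γ t hγ ht a b ha hab
  exact (Sys.complete hY hF γ t hγ ht ha hab).1

end Pool.Agent.Lunar
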