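import Mathlib.Data.Finset.Basic
import Mathlib.Data.Finset.Insert
import Mathlib.Data.Finset.Erase
import Mathlib.Data.Set.Basic
import Mathlib.Logic.Relation
import Mathlib.Data.List.Basic

/-!
# Lunar Lockout

Cells of the board are pairs of natural numbers (column, row). A token slides in one of the four
axis directions until it is stopped by another token; the edge of the board never stops a slide.
-/

namespace Pool.Agent.Lunar

/-- A cell of the grid: column and row. -/
abbrev Cell : Type := ℕ × ℕ

/-- `Slide S p q`: when the other tokens occupy the set `S`, a token in the cell `p` may slide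
along a row or a column and it then stops in the cell `q`, the cell immediately before the first
token it meets. -/
inductive Slide (S : Finset Cell) : Cell → Cell → Prop
  | right {x y z : ℕ} (hz : (z + 1, y) ∈ S) (hx : x ≤ z)
      (h : ∀ w, x < w → w ≤ z → (w, y) ∉ S) : Slide S (x, y) (z, y)
  | left {x y z : ℕ} (hz : (z, y) ∈ S) (hx : z < x)
      (h : ∀ w, z < w → w < x → (w, y) ∉ S) : Slide S (x, y) (z + 1, y)
  | up {x y z : ℕ} (hz : (x, z + 1) ∈ S) (hy : y ≤ z)
      (h : ∀ w, y < w → w ≤ z → (x, w) ∉ S) : Slide S (x, y) (x, z)
  | down {x y z : ℕ} (hz : (x, z) ∈ S) (hy : z < y)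
      (h : ∀ w, z < w → w < y → (x, w) ∉ S) : Slide S (x, y) (x, z + 1)

/-- A position of the game: the cell of the target token and the cells of the other tokens. -/
structure Pos where
  /-- the cell of the target token -/
  target : Cell
  /-- the cells of the other tokens -/
  others : Finset Cell

/-- A legal move: some token slides, all other tokens stay. -/
inductive Move : Pos → Pos → Prop
  | target {t q : Cell} {S : Finset Cell} (h : Slide S t q) : Move ⟨t, S⟩ ⟨q, S⟩
  | other {t p q : Cell} {S : Finset Cell} (hp : p ∈ S) (h : Slide (insert t (S.erase p)) p q) :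
      Move ⟨t, S⟩ ⟨t, insert q (S.erase p)⟩

/-- The position `P` is solvable for the goal cell `g`: some finite sequence of legal moves brings
the target token to `g`. -/
def Solvable (P : Pos) (g : Cell) : Prop :=
  ∃ Q : Pos, Relation.ReflTransGen Move P Q ∧ Q.target = g

/-! ### The anonymous game -/

/-- One move of the game in which tokens are not distinguished. -/
def Step (S T : Finset Cell) : Prop :=
  ∃ p ∈ S, ∃ q, Slide (S.erase p) p q ∧ T = insert q (S.erase p)

end Pool.Agent.Lunar
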