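import Pool.Agent.Lunar.Compose

/-!
# The end game

The target token rests in the goal component until the traveller enters that component; then it
slides to the goal cell.
-/

namespace Pool.Agent.Lunar

theorem slide_not_mem {S : Finset Cell} {p q : Cell} (h : Slide S p q) (hp : p ∉ S) : q ∉ S := by
  cases h with
  | @right x y z hz hx hf =>
    rcases Nat.eq_or_lt_of_le hx with h1 | h1
    · rw [← h1]
      exact hp
    · exact hf z h1 le_rfl
  | @left x y z hz hx hf =>
    rcases Nat.eq_or_lt_of_le (Nat.succ_le_of_lt hx) with h1 | h1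
    · rw [show z + 1 = x from h1]
      exact hp
    · exact hf (z + 1) (Nat.lt_succ_self z) h1
  | @up x y z hz hx hf =>
    rcases Nat.eq_or_lt_of_le hx with h1 | h1
    · rw [← h1]
      exact hp
    · exact hf z h1 le_rfl
  | @down x y z hz hx hf =>
    rcases Nat.eq_or_lt_of_le (Nat.succ_le_of_lt hx) with h1 | h1
    · rw [show z + 1 = y from h1]
      exact hp
    · exact hf (z + 1) (Nat.lt_succ_self z) h1

/-- Steps off `t` are moves of other tokens. -/
theorem move_of_stepOff {t : Cell} {S G' : Finset Cell} (ht : t ∉ S)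
    (h : StepOff t (insert t S) G') :
    ∃ S', t ∉ S' ∧ G' = insert t S' ∧ Move ⟨t, S⟩ ⟨t, S'⟩ := by
  obtain ⟨p, hp, hpt, q, hq, rfl⟩ := h
  have hpS : p ∈ S := by
    rcases Finset.mem_insert.1 hp with h | h
    · exact absurd h hpt
    · exact h
  have he : (insert t S).erase p = insert t (S.erase p) := by
    rw [Finset.erase_insert_of_ne (Ne.symm hpt)]
  rw [he] at hq ⊢
  have hq' : q ∉ insert t (S.erase p) :=
    slide_not_mem hq (by
      rw [Finset.mem_insert]
      rintro (h | h)
      · exact hpt h
      · exact (Finset.mem_erase.1 h).1 rfl)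
  refine ⟨insert q (S.erase p), ?_, ?_, Move.other hpS hq⟩
  · rw [Finset.mem_insert]
    rintro (h | h)
    · exact hq' (by rw [← h]; exact Finset.mem_insert_self _ _)
    · exact ht (Finset.mem_erase.1 h).2
  · rw [Finset.insert_comm]

theorem moves_of_stepOff {t : Cell} {G' : Finset Cell} {S : Finset Cell} (ht : t ∉ S)
    (h : Relation.ReflTransGen (StepOff t) (insert t S) G') :
    ∃ S', t ∉ S' ∧ G' = insert t S' ∧ Relation.ReflTransGen Move ⟨t, S⟩ ⟨t, S'⟩ := by
  induction h with
  | refl => exact ⟨S, ht, rfl, Relation.ReflTransGen.refl⟩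
  | tail _ hb ih =>
    obtain ⟨S1, h1, rfl, h3⟩ := ih
    obtain ⟨S2, h4, h5, h6⟩ := move_of_stepOff h1 hb
    exact ⟨S2, h4, h5, h3.tail h6⟩

namespace Sys

variable {I S E O : Type} [Fintype I] [DecidableEq I] {Y : Sys I S E O}

omit [DecidableEq I] in
/-- A slide of a token of the active component, on the board. -/
theorem Cfg.slide_up (hY : Y.Ok) {cfg : I → Finset Cell} {a : ASt I S E} (h : Y.Cfg cfg a)
    {p q : Cell} (hp : p ∈ cfg a.2.1) (hq : Slide ((cfg a.2.1).erase p) p q) :
    Slide ((Finset.univ.biUnion cfg).erase p) p q := by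
  have hsub : cfg a.2.1 ⊆ Finset.univ.biUnion cfg :=
    Finset.subset_biUnion_of_mem cfg (Finset.mem_univ _)
  refine slide_global hsub ?_ hq
  intro b hb hbc s hs hsp hbps
  simp only [Finset.mem_biUnion, Finset.mem_univ, true_and] at hb
  obtain ⟨l, hl⟩ := hb
  have hla : l ≠ a.2.1 := by
    rintro rfl
    exact hbc hl
  rcases hY.apartA l a.2.1 hla _ _ _ _ _ (h.rest l hla) h.act b hl p hp with h1 | h1
  · rcases hbps with h3 | h3
    · exact h1.1 h3.1
    · exact h1.2 h3.1
  · rcases hY.apartA l a.2.1 hla _ _ _ _ _ (h.rest l hla) h.act b hl s hs with h2 | h2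
    · rcases hbps with h3 | h3
      · exact h2.1 h3.2
      · exact h2.2 h3.2
    · exact hsp (h2.1.trans h1.1.symm)

/-- A local step off `t` of the active component, on the board. -/
theorem Cfg.liftOff (hY : Y.Ok) {cfg : I → Finset Cell} {a : ASt I S E} (h : Y.Cfg cfg a)
    {t : Cell} {c' : Finset Cell} (hs : StepOff t (cfg a.2.1) c') :
    StepOff t (Finset.univ.biUnion cfg)
      (Finset.univ.biUnion (Function.update cfg a.2.1 c')) := by
  obtain ⟨p, hp, hpt, q, hq, rfl⟩ := hs
  have hsub : cfg a.2.1 ⊆ Finset.univ.biUnion cfg :=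
    Finset.subset_biUnion_of_mem cfg (Finset.mem_univ _)
  exact ⟨p, hsub hp, hpt, q, h.slide_up hY hp hq,
    (glue_move cfg a.2.1 p q (fun l hl => h.not_mem hY hl hp)).symm⟩

/-- Lifting a path off `t` inside the active component. -/
theorem lift_pathOff (hY : Y.Ok) {cfg : I → Finset Cell} {a : ASt I S E}
    (hrest : ∀ k, k ≠ a.2.1 → cfg k ∈ Y.Z k (a.1 k)) {t : Cell} {c c' : Finset Cell}
    (hp : Relation.ReflTransGen
      (fun c c' => c ∈ Y.A a.2.1 (a.1 a.2.1) a.2.2 ∧ StepOff t c c') c c') :
    Relation.ReflTransGen (StepOff t) (Finset.univ.biUnion (Function.update cfg a.2.1 c))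
      (Finset.univ.biUnion (Function.update cfg a.2.1 c')) := by
  induction hp with
  | refl => exact Relation.ReflTransGen.refl
  | @tail b d _ hbd ih =>
    refine ih.tail ?_
    have hC : Y.Cfg (Function.update cfg a.2.1 b) a := by
      refine ⟨?_, ?_⟩
      · intro k hk
        rw [Function.update_of_ne hk]
        exact hrest k hk
      · rw [Function.update_self]
        exact hbd.1
    have := hC.liftOff hY (t := t) (c' := d) (by rw [Function.update_self]; exact hbd.2)
    rwa [Function.update_idem] at this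

/-- The end game. -/
theorem endgame {cz : I → S → Finset Cell} (hY : Y.Ok) (hF : Y.Full cz) (γ : I) (t g : Cell)
    (hgt : g ≠ t) (a0 : ASt I S E) (ha0 : a0.2.1 ≠ γ) (hγ : ∀ s e s' o, ¬ Y.rel γ s e s' o)
    (ht : ∀ s, ∀ d ∈ Y.Z γ s, t ∈ d ∧ ∀ q, Slide (d.erase t) t q → q = t)
    (hact : insert (Y.w a0.2.1 a0.2.2) (cz a0.2.1 (a0.1 a0.2.1)) ∈ Y.A a0.2.1 (a0.1 a0.2.1) a0.2.2)
    (S0 : Finset Cell) (htS : t ∉ S0) (hS0 : insert t S0 = Y.brd cz a0)
    (hgoal : ∀ s e, insert (Y.w γ e) (cz γ s) ∈ Y.A γ s e → ∃ c,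
      Relation.ReflTransGen (fun c c' => c ∈ Y.A γ s e ∧ StepOff t c c')
        (insert (Y.w γ e) (cz γ s)) c ∧ c ∈ Y.A γ s e ∧ Slide (c.erase t) t g) :
    Solvable ⟨t, S0⟩ g ↔ ∃ b, Relation.ReflTransGen Y.AStep a0 b ∧ b.2.1 = γ := by
  constructor
  · rintro ⟨Q, hQ, hQg⟩
    by_contra hno
    have hno' : ∀ b, Relation.ReflTransGen Y.AStep a0 b → b.2.1 ≠ γ := fun b hb hbγ =>
      hno ⟨b, hb, hbγ⟩
    have key : ∀ P : Pos, Relation.ReflTransGen Move ⟨t, S0⟩ P → P.target = t ∧ t ∉ P.others ∧
        ∃ a, Relation.ReflTransGen Y.AStep a0 a ∧ Y.Inv (insert t P.others) a := by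
      intro P hP
      induction hP with
      | refl =>
        refine ⟨rfl, htS, a0, Relation.ReflTransGen.refl, ?_⟩
        rw [hS0, brd_eq]
        refine ⟨_, ?_, ?_, rfl⟩
        · intro k hk
          rw [Function.update_of_ne hk]
          exact hF.mem _ _
        · rw [Function.update_self]
          exact hact
      | @tail P P' _ hm ih =>
        obtain ⟨h1, h2, a, h3, h4⟩ := ih
        cases hm with
        | @target t' q S hs =>
          simp only at h1 h2 h4 ⊢
          subst h1
          have h5 := (static hY γ t' ht h4 (hno' a h3)).2 q (by rwa [Finset.erase_insert h2])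
          subst h5
          exact ⟨rfl, h2, a, h3, h4⟩
        | @other t' p q S hp hs =>
          simp only at h1 h2 h4 ⊢
          subst h1
          have hpt : p ≠ t' := by
            rintro rfl
            exact h2 hp
          have he : (insert t' S).erase p = insert t' (S.erase p) := by
            rw [Finset.erase_insert_of_ne (Ne.symm hpt)]
          have hq' : q ∉ insert t' (S.erase p) :=
            slide_not_mem hs (by
              rw [Finset.mem_insert]
              rintro (h | h)
              · exact hpt h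
              · exact (Finset.mem_erase.1 h).1 rfl)
          have hstep : Step (insert t' S) (insert q (insert t' (S.erase p))) :=
            ⟨p, Finset.mem_insert_of_mem hp, q, by rw [he]; exact hs, by rw [he]⟩
          obtain ⟨b, hb, hb'⟩ := sound hY h4 hstep
          refine ⟨rfl, ?_, b, ?_, ?_⟩
          · rw [Finset.mem_insert]
            rintro (h | h)
            · exact hq' (by rw [← h]; exact Finset.mem_insert_self _ _)
            · exact h2 (Finset.mem_erase.1 h).2
          · rcases hb' with rfl | hb'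
            · exact h3
            · exact h3.tail hb'
          · rw [Finset.insert_comm]
            exact hb
    exact hgt (hQg.symm.trans (key Q hQ).1)
  · rintro ⟨b, hb, rfl⟩
    have htcz : ∀ s, t ∈ cz b.2.1 s := fun s => (ht s _ (hF.mem _ s)).1
    obtain ⟨hp1, hA⟩ := complete hY hF b.2.1 t hγ htcz hact hb
    obtain ⟨c, hc1, hc2, hc3⟩ := hgoal _ _ hA
    have hp2 := lift_pathOff hY (a := b) (cfg := fun k => cz k (b.1 k))
      (fun k _ => hF.mem k (b.1 k)) hc1
    rw [← brd_eq] at hp2
    have hC : Y.Cfg (Function.update (fun k => cz k (b.1 k)) b.2.1 c) b := by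
      refine ⟨?_, ?_⟩
      · intro k hk
        rw [Function.update_of_ne hk]
        exact hF.mem _ _
      · rw [Function.update_self]
        exact hc2
    have hp := hp1.trans hp2
    rw [← hS0] at hp
    obtain ⟨S', h1, h2, h3⟩ := moves_of_stepOff htS hp
    refine ⟨⟨g, S'⟩, h3.tail (Move.target ?_), rfl⟩
    by_cases htc : t ∈ c
    · have h4 := hC.slide_up hY (p := t) (q := g) (by rw [Function.update_self]; exact htc)
        (by rw [Function.update_self]; exact hc3)
      rw [h2, Finset.erase_insert h1] at h4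
      exact h4
    · exfalso
      have : ∀ c', Relation.ReflTransGen
          (fun c c' => c ∈ Y.A b.2.1 (b.1 b.2.1) b.2.2 ∧ StepOff t c c')
          (insert (Y.w b.2.1 b.2.2) (cz b.2.1 (b.1 b.2.1))) c' → t ∈ c' := by
        intro c' hc'
        induction hc' with
        | refl => exact Finset.mem_insert_of_mem (htcz _)
        | tail _ hst ih =>
          obtain ⟨_, p, _, hpt, q, _, rfl⟩ := hst
          exact Finset.mem_insert_of_mem (Finset.mem_erase.2 ⟨Ne.symm hpt, ih⟩)
      exact htc (this c hc1)

end Sys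

end Pool.Agent.Lunar
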