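import Pool.Agent.Lunar.Kinds

/-!
# The goal component

The target token rests in the canonical cell `(17, 13)`; it cannot move before the traveller
arrives. The traveller then slides to `(17, 9)` and the target token slides to `(17, 10)`.
-/

namespace Pool.Agent.Lunar

theorem kGoal_static (f g : ℕ → ℕ) (hf : StrictMono f) (hg : StrictMono g) :
    ∀ s, ∀ d ∈ kGoal.Z s, (f 17, g 13) ∈ img f g d ∧
      ∀ q, Slide ((img f g d).erase (f 17, g 13)) (f 17, g 13) q → q = (f 17, g 13) := by
  intro s d hd
  have e : d = [(16, 9), (17, 13)] := by simpa [kGoal, kGoal_Z] using hd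
  subst e
  refine ⟨by simp [img], ?_⟩
  intro q hq
  have h1 : f 17 ≠ f 16 := fun h => by have := hf.injective h; omega
  have h2 : g 13 ≠ g 9 := fun h => by have := hg.injective h; omega
  cases hq with
  | right hz _ _ => simp [img, h2] at hz
  | left hz _ _ => simp [img, h2] at hz
  | up hz _ _ => simp [img, h1] at hz
  | down hz _ _ => simp [img, h1] at hz

theorem kGoal_path (f g : ℕ → ℕ) (hf : UnitOn f (kGoal.cells.map Prod.fst))
    (hg : UnitOn g (kGoal.cells.map Prod.snd)) :
    ∀ s e, kGoal.ent e = true → ∃ l ∈ kGoal.A s e,
      StepOff (f 17, g 13) (insert (f (kGoal.w e).1, g (kGoal.w e).2) (img f g (kGoal.cz s)))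
        (img f g l) ∧
      Slide ((img f g l).erase (f 17, g 13)) (f 17, g 13) (f 17, g 10) := by
  intro s e he
  have he' : e = false := by cases e <;> simp_all [kGoal]
  subst he'
  have fi : ∀ a b, a < b → f a ≠ f b := fun a b h e => by have := hf.mono h; omega
  have gi : ∀ a b, a < b → g a ≠ g b := fun a b h e => by have := hg.mono h; omega
  have u1 : f 17 = f 16 + 1 := hf.unit 16 (by decide) (by decide)
  have u2 : g 10 = g 9 + 1 := hg.unit 9 (by decide) (by decide)
  have m1 : f 17 < f 36 := hf.mono (by omega)
  have m2 : g 10 < g 13 := hg.mono (by omega)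
  refine ⟨[(16, 9), (17, 9), (17, 13)], by simp [kGoal, kGoal_A0], ?_, ?_⟩
  · refine ⟨(f 36, g 9), by simp [kGoal], ?_, (f 17, g 9), ?_, ?_⟩
    · intro h; simp only [Prod.mk.injEq] at h; omega
    · rw [u1]
      refine Slide.left ?_ (by omega) ?_
      · simp only [kGoal, img, List.map_cons, List.map_nil, List.toFinset_cons,
          List.toFinset_nil, Finset.mem_erase, Finset.mem_insert, Prod.mk.injEq]
        simp
        omega
      · intro w hw1 hw2
        simp only [kGoal, img, List.map_cons, List.map_nil, List.toFinset_cons,
          List.toFinset_nil, Finset.mem_erase, Finset.mem_insert, Prod.mk.injEq]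
        simp
        omega
    · ext ⟨a, b⟩
      simp only [kGoal, img, List.map_cons, List.map_nil, List.toFinset_cons, List.toFinset_nil,
        Finset.mem_erase, Finset.mem_insert, Prod.mk.injEq]
      simp
      omega
  · rw [u2]
    refine Slide.down ?_ (by omega) ?_
    · simp only [img, List.map_cons, List.map_nil, List.toFinset_cons, List.toFinset_nil,
        Finset.mem_erase, Finset.mem_insert, Prod.mk.injEq]
      simp
      omega
    · intro w hw1 hw2
      simp only [img, List.map_cons, List.map_nil, List.toFinset_cons, List.toFinset_nil,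
        Finset.mem_erase, Finset.mem_insert, Prod.mk.injEq]
      simp
      omega

end Pool.Agent.Lunar
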