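import Pool.Agent.Lunar.Ret

/-!
# Doors and choices made of cells
-/

set_option linter.unusedSectionVars false

namespace Pool.Agent.Lunar

open Relation Function

namespace Scd

variable {N : List Node}

theorem nodeCells_len (g : ℕ) (nd : Node) : (nodeCells g nd).length = 3 := by
  obtain ⟨d, t0, t1⟩ := nd
  cases d <;> rfl

theorem get_cell {g j : ℕ} (hj : j < 3) :
    (cellNet N)[3 * g + j]? = (N[g]?).bind fun nd => (nodeCells g nd)[j]? := by
  unfold cellNet
  rw [getElem?_flatMap_const hj (fun z _ => nodeCells_len _ _), List.getElem?_zipIdx]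
  cases N[g]? <;> simp

theorem get0 {g : ℕ} : (cellNet N)[3 * g]? = (N[g]?).bind fun nd => (nodeCells g nd)[0]? :=
  get_cell (j := 0) (by norm_num)

theorem get1 {g : ℕ} : (cellNet N)[3 * g + 1]? = (N[g]?).bind fun nd => (nodeCells g nd)[1]? :=
  get_cell (by norm_num)

theorem get2 {g : ℕ} : (cellNet N)[3 * g + 2]? = (N[g]?).bind fun nd => (nodeCells g nd)[2]? :=
  get_cell (by norm_num)

theorem door0 {g : ℕ} {t0 t1 : Tgt} (h : N[g]? = some ⟨true, t0, t1⟩) :
    (cellNet N)[3 * g]? = some (.cell (cellTgt t0) (.port (3 * g + 1) false) (cellTgt t1)) := by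
  rw [get0, h]; rfl

theorem door1 {g : ℕ} {t0 t1 : Tgt} (h : N[g]? = some ⟨true, t0, t1⟩) :
    (cellNet N)[3 * g + 1]? = some (.cell (.port (3 * g) true) (.port (3 * g + 2) false) .dead) := by
  rw [get1, h]; rfl

theorem door2 {g : ℕ} {t0 t1 : Tgt} (h : N[g]? = some ⟨true, t0, t1⟩) :
    (cellNet N)[3 * g + 2]? = some (.cell (.port (3 * g) true) (.port (3 * g + 1) true) .dead) := by
  rw [get2, h]; rfl

theorem choice0 {g : ℕ} {t0 t1 : Tgt} (h : N[g]? = some ⟨false, t0, t1⟩) :
    (cellNet N)[3 * g]? = some (.cell (cellTgt t0) (cellTgt t1) (.port (3 * g) true)) := by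
  rw [get0, h]; rfl

theorem choice2 {g : ℕ} {t0 t1 : Tgt} (h : N[g]? = some ⟨false, t0, t1⟩) :
    (cellNet N)[3 * g + 2]? = some (.cell .dead .dead .dead) := by
  rw [get2, h]; rfl

/-- The three cells of node `g` are at rest and represent the state `o g` of the door (the third
possibility is a door that stays closed for ever). -/
def Rest (s o : ℕ → Bool) (g : ℕ) : Prop :=
  s (3 * g) = false ∧ ((s (3 * g + 1) = false ∧ s (3 * g + 2) = false ∧ o g = false) ∨
    (s (3 * g + 1) = false ∧ s (3 * g + 2) = true ∧ o g = true) ∨
    (s (3 * g + 1) = true ∧ s (3 * g + 2) = false ∧ o g = false))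

/-- All doors except possibly those with `ok g` are at rest. -/
def RelX (N : List Node) (s o : ℕ → Bool) (x : ℕ → Prop) : Prop :=
  ∀ g t0 t1, N[g]? = some ⟨true, t0, t1⟩ → ¬ x g → Rest s o g

/-- The invariant of the simulation. -/
inductive Inv (N : List Node) (R : CSt → Prop) : CSt → Prop
  | rest {t : Tgt} {s o : ℕ → Bool} (hR : R (t, o)) (h : RelX N s o fun _ => False) :
      Inv N R (cellTgt t, s)
  | p1 {g : ℕ} {t0 t1 : Tgt} {s o : ℕ → Bool} (hg : N[g]? = some ⟨true, t0, t1⟩)
      (hR : R (.port g false, o)) (h : RelX N s o (· = g)) (h0 : s (3 * g) = true)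
      (h1 : s (3 * g + 1) = false) (h2 : s (3 * g + 2) = false → o g = false) :
      Inv N R (.port (3 * g + 1) false, s)
  | p2 {g : ℕ} {t0 t1 : Tgt} {s o : ℕ → Bool} (hg : N[g]? = some ⟨true, t0, t1⟩)
      (hR : R (.port g false, o)) (h : RelX N s o (· = g)) (h0 : s (3 * g) = true)
      (h1 : s (3 * g + 1) = true) (h2 : s (3 * g + 2) = false → o g = false) :
      Inv N R (.port (3 * g + 2) false, s)
  | m0 {g : ℕ} {t0 t1 : Tgt} {s o : ℕ → Bool} (hg : N[g]? = some ⟨true, t0, t1⟩)
      (hR : R (.port g false, o)) (h : RelX N s o (· = g)) (h0 : s (3 * g) = true)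
      (h1 : s (3 * g + 1) = true → s (3 * g + 2) = false)
      (h2 : s (3 * g + 2) = false → o g = false) :
      Inv N R (.port (3 * g) true, s)
  | m1 {g : ℕ} {t0 t1 : Tgt} {s o : ℕ → Bool} (hg : N[g]? = some ⟨true, t0, t1⟩)
      (hR : R (.port g false, o)) (h : RelX N s o (· = g)) (h0 : s (3 * g) = true)
      (h1 : s (3 * g + 1) = true) (h2 : s (3 * g + 2) = true) :
      Inv N R (.port (3 * g + 1) true, s)
  | d1 {g : ℕ} {t0 t1 : Tgt} {s : ℕ → Bool} {b : Bool} (hg : N[g]? = some ⟨true, t0, t1⟩)
      (h1 : s (3 * g + 1) ≠ b) : Inv N R (.port (3 * g + 1) b, s)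
  | d2 {g : ℕ} {t0 t1 : Tgt} {s : ℕ → Bool} {b : Bool} (hg : N[g]? = some ⟨true, t0, t1⟩)
      (h1 : s (3 * g + 2) ≠ b) : Inv N R (.port (3 * g + 2) b, s)
  | tm {g : ℕ} {t0 t1 : Tgt} {s o : ℕ → Bool} (hg : N[g]? = some ⟨true, t0, t1⟩)
      (hR : R (.port g true, o)) (ho : o g = true) (h : RelX N s o (· = g))
      (h0 : s (3 * g) = false) (h1 : s (3 * g + 1) = false) (h2 : s (3 * g + 2) = false) :
      Inv N R (.port (3 * g) true, s)
  | ch {g : ℕ} {t0 t1 : Tgt} {s o : ℕ → Bool} (hg : N[g]? = some ⟨false, t0, t1⟩)
      (hR : R (.port g false, o)) (h : RelX N s o fun _ => False) (h0 : s (3 * g) = true) :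
      Inv N R (.port (3 * g) true, s)
  | dead {s : ℕ → Bool} : Inv N R (.dead, s)

/-- Updating cells of node `g` does not disturb the other nodes. -/
theorem relX_upd {s s' o o' : ℕ → Bool} {g : ℕ} (h : RelX N s o (· = g))
    (hs : ∀ i, i ≠ 3 * g → i ≠ 3 * g + 1 → i ≠ 3 * g + 2 → s' i = s i)
    (ho : ∀ i, i ≠ g → o' i = o i) : RelX N s' o' (· = g) := by
  intro g' t0 t1 hg' hne
  have := h g' t0 t1 hg' hne
  unfold Rest at this ⊢
  rw [hs (3 * g') (by omega) (by omega) (by omega), hs (3 * g' + 1) (by omega) (by omega)
    (by omega), hs (3 * g' + 2) (by omega) (by omega) (by omega), ho g' hne]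
  exact this

theorem relX_all {s o : ℕ → Bool} {g : ℕ} (h : RelX N s o (· = g)) (hg : Rest s o g) :
    RelX N s o fun _ => False := by
  intro g' t0 t1 hg' _
  by_cases hne : g' = g
  · subst hne; exact hg
  · exact h g' t0 t1 hg' hne

theorem relX_mono {s o : ℕ → Bool} {g : ℕ} (h : RelX N s o fun _ => False) :
    RelX N s o (· = g) := fun g' t0 t1 hg' _ => h g' t0 t1 hg' (fun h => h)

/-- For a choice node only the cells of the node change. -/
theorem relX_choice {s s' o : ℕ → Bool} {g : ℕ} {t0 t1 : Tgt}
    (hg : N[g]? = some ⟨false, t0, t1⟩) (h : RelX N s o fun _ => False)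
    (hs : ∀ i, i ≠ 3 * g → i ≠ 3 * g + 1 → i ≠ 3 * g + 2 → s' i = s i) :
    RelX N s' o fun _ => False := by
  intro g' a b hg' _
  have hne : g' ≠ g := by
    rintro rfl
    rw [hg] at hg'
    simp at hg'
  have := h g' a b hg' (fun h => h)
  unfold Rest at this ⊢
  rw [hs (3 * g') (by omega) (by omega) (by omega), hs (3 * g' + 1) (by omega) (by omega)
    (by omega), hs (3 * g' + 2) (by omega) (by omega) (by omega)]
  exact this

theorem cell_inj {a b c a' b' c' : Tgt} {x : Option Comp} (h : x = some (.cell a b c))
    (h' : x = some (.cell a' b' c')) : a = a' ∧ b = b' ∧ c = c' := by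
  rw [h, Option.some.injEq, Comp.cell.injEq] at h'
  exact h'

theorem inv_step {R : CSt → Prop} (hR : ∀ x y, R x → DStep N x y → R y) {x y : CSt}
    (hx : Inv N R x) (h : CStep (cellNet N) x y) : Inv N R y := by
  cases hx with
  | @rest t s o hRt hrel =>
    cases t with
    | dead => cases h
    | goal => cases h
    | port g b =>
      cases b with
      | false =>
        simp only [cellTgt] at h
        cases hN : N[g]? with
        | none =>
          have hnone : (cellNet N)[3 * g]? = none := by rw [get0, hN]; rfl
          cases h with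
          | er h _ => rw [hnone] at h; simp at h
          | el h _ => rw [hnone] at h; simp at h
          | v h _ => rw [hnone] at h; simp at h
          | merge h => rw [hnone] at h; simp at h
        | some nd =>
          obtain ⟨d, t0, t1⟩ := nd
          cases d with
          | true =>
            have hc := door0 hN
            have hrest := hrel g t0 t1 hN (fun h => h)
            cases h with
            | er h hs =>
              obtain ⟨rfl, -, -⟩ := cell_inj hc h
              refine .rest (hR _ _ hRt (.pass hN)) ?_
              have : update s (3 * g) false = s := by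
                rw [← hs, update_eq_self]
              rw [this]; exact hrel
            | el h hs =>
              obtain ⟨-, rfl, -⟩ := cell_inj hc h
              rcases hrest with ⟨h0, ⟨h1, h2, h3⟩ | ⟨h1, h2, h3⟩ | ⟨h1, h2, h3⟩⟩
              · refine .p1 hN hRt (relX_upd (relX_mono hrel) (fun i hi _ _ => update_of_ne hi _ _)
                  (fun _ _ => rfl)) (update_self _ _ _) ?_ (fun _ => h3)
                rw [update_of_ne (by omega)]; exact h1
              · refine .p1 hN hRt (relX_upd (relX_mono hrel) (fun i hi _ _ => update_of_ne hi _ _)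
                  (fun _ _ => rfl)) (update_self _ _ _) ?_ (fun h4 => ?_)
                · rw [update_of_ne (by omega)]; exact h1
                · rw [update_of_ne (by omega), h2] at h4; simp at h4
              · refine .d1 hN ?_
                rw [update_of_ne (by omega), h1]; simp
            | v h hs => exact absurd hrest.1 hs
            | merge h => rw [hc] at h; simp at h
          | false =>
            have hc := choice0 hN
            cases h with
            | er h hs =>
              obtain ⟨rfl, -, -⟩ := cell_inj hc h
              exact .rest (hR _ _ hRt (.fst hN)) (relX_choice hN hrel fun i hi _ _ =>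
                update_of_ne hi _ _)
            | el h hs =>
              obtain ⟨-, rfl, -⟩ := cell_inj hc h
              exact .rest (hR _ _ hRt (.snd hN)) (relX_choice hN hrel fun i hi _ _ =>
                update_of_ne hi _ _)
            | v h hs =>
              obtain ⟨-, -, rfl⟩ := cell_inj hc h
              exact .ch hN hRt hrel (by simpa using hs)
            | merge h => rw [hc] at h; simp at h
      | true =>
        simp only [cellTgt] at h
        cases hN : N[g]? with
        | none =>
          have hnone : (cellNet N)[3 * g + 2]? = none := by rw [get2, hN]; rfl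
          cases h with
          | er h _ => rw [hnone] at h; simp at h
          | el h _ => rw [hnone] at h; simp at h
          | v h _ => rw [hnone] at h; simp at h
          | merge h => rw [hnone] at h; simp at h
        | some nd =>
          obtain ⟨d, t0, t1⟩ := nd
          cases d with
          | true =>
            have hc := door2 hN
            have hrest := hrel g t0 t1 hN (fun h => h)
            cases h with
            | er h hs =>
              obtain ⟨rfl, -, -⟩ := cell_inj hc h
              rcases hrest with ⟨h0, ⟨h1, h2, h3⟩ | ⟨h1, h2, h3⟩ | ⟨h1, h2, h3⟩⟩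
              · rw [h2] at hs; simp at hs
              · refine .tm hN hRt h3 (relX_upd (relX_mono hrel) (fun i _ _ hi =>
                  update_of_ne hi _ _) (fun _ _ => rfl)) ?_ ?_ (update_self _ _ _)
                · rw [update_of_ne (by omega)]; exact h0
                · rw [update_of_ne (by omega)]; exact h1
              · rw [h2] at hs; simp at hs
            | el h hs =>
              obtain ⟨-, rfl, -⟩ := cell_inj hc h
              rcases hrest with ⟨h0, ⟨h1, h2, h3⟩ | ⟨h1, h2, h3⟩ | ⟨h1, h2, h3⟩⟩
              · rw [h2] at hs; simp at hs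
              · refine .d1 hN ?_
                rw [update_of_ne (by omega), h1]; simp
              · rw [h2] at hs; simp at hs
            | v h hs =>
              obtain ⟨-, -, rfl⟩ := cell_inj hc h
              exact .dead
            | merge h => rw [hc] at h; simp at h
          | false =>
            have hc := choice2 hN
            cases h with
            | er h hs => obtain ⟨rfl, -, -⟩ := cell_inj hc h; exact .dead
            | el h hs => obtain ⟨-, rfl, -⟩ := cell_inj hc h; exact .dead
            | v h hs => obtain ⟨-, -, rfl⟩ := cell_inj hc h; exact .dead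
            | merge h => rw [hc] at h; simp at h
  | @p1 g t0 t1 s o hg hRt hrel h0 h1 h2 =>
    have hc := door1 hg
    cases h with
    | er h hs =>
      obtain ⟨rfl, -, -⟩ := cell_inj hc h
      refine .m0 hg hRt (relX_upd hrel (fun i _ hi _ => update_of_ne hi _ _) (fun _ _ => rfl))
        ?_ (fun h3 => ?_) (fun h3 => ?_)
      · rw [update_of_ne (by omega)]; exact h0
      · rw [update_self] at h3; simp at h3
      · rw [update_of_ne (by omega)] at h3; exact h2 h3
    | el h hs =>
      obtain ⟨-, rfl, -⟩ := cell_inj hc h
      refine .p2 hg hRt (relX_upd hrel (fun i _ hi _ => update_of_ne hi _ _) (fun _ _ => rfl))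
        ?_ (update_self _ _ _) (fun h3 => ?_)
      · rw [update_of_ne (by omega)]; exact h0
      · rw [update_of_ne (by omega)] at h3; exact h2 h3
    | v h hs =>
      obtain ⟨-, -, rfl⟩ := cell_inj hc h
      exact .dead
    | merge h => rw [hc] at h; simp at h
  | @p2 g t0 t1 s o hg hRt hrel h0 h1 h2 =>
    have hc := door2 hg
    cases h with
    | er h hs =>
      obtain ⟨rfl, -, -⟩ := cell_inj hc h
      refine .m0 hg hRt (relX_upd hrel (fun i _ _ hi => update_of_ne hi _ _) (fun _ _ => rfl))
        ?_ (fun h3 => update_self _ _ _) (fun _ => h2 hs)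
      rw [update_of_ne (by omega)]; exact h0
    | el h hs =>
      obtain ⟨-, rfl, -⟩ := cell_inj hc h
      refine .m1 hg hRt (relX_upd hrel (fun i _ _ hi => update_of_ne hi _ _) (fun _ _ => rfl))
        ?_ ?_ (update_self _ _ _)
      · rw [update_of_ne (by omega)]; exact h0
      · rw [update_of_ne (by omega)]; exact h1
    | v h hs =>
      obtain ⟨-, -, rfl⟩ := cell_inj hc h
      exact .dead
    | merge h => rw [hc] at h; simp at h
  | @m0 g t0 t1 s o hg hRt hrel h0 h1 h2 =>
    have hc := door0 hg
    cases h with
    | er h hs =>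
      obtain ⟨rfl, -, -⟩ := cell_inj hc h
      cases h4 : s (3 * g + 2) with
      | false =>
        refine .rest (hR _ _ hRt (.pass hg)) (relX_all (relX_upd hrel (fun i hi _ _ =>
          update_of_ne hi _ _) (fun _ _ => rfl)) ⟨update_self _ _ _, ?_⟩)
        rw [update_of_ne (by omega), update_of_ne (by omega), h4, h2 h4]
        cases s (3 * g + 1) <;> simp
      | true =>
        refine .rest (hR _ _ hRt (.opn hg)) (relX_all (relX_upd hrel (fun i hi _ _ =>
          update_of_ne hi _ _) (fun i hi => update_of_ne hi _ _)) ⟨update_self _ _ _, ?_⟩)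
        rw [update_of_ne (by omega), update_of_ne (by omega), h4, update_self]
        have h5 : s (3 * g + 1) = false := by
          by_contra hcon
          have := h1 (by simpa using hcon)
          rw [h4] at this; simp at this
        rw [h5]; simp
    | el h hs =>
      obtain ⟨-, rfl, -⟩ := cell_inj hc h
      have hupd : update s (3 * g) true = s := by rw [← h0, update_eq_self]
      rw [hupd]
      cases h5 : s (3 * g + 1) with
      | false => exact .p1 hg hRt hrel h0 h5 h2
      | true => exact .d1 hg (by rw [h5]; simp)
    | v h hs => exact absurd h0 hs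
    | merge h => rw [hc] at h; simp at h
  | @m1 g t0 t1 s o hg hRt hrel h0 h1 h2 =>
    have hc := door1 hg
    cases h with
    | er h hs =>
      obtain ⟨rfl, -, -⟩ := cell_inj hc h
      refine .m0 hg hRt (relX_upd hrel (fun i _ hi _ => update_of_ne hi _ _) (fun _ _ => rfl))
        ?_ (fun h3 => ?_) (fun h3 => ?_)
      · rw [update_of_ne (by omega)]; exact h0
      · rw [update_self] at h3; simp at h3
      · rw [update_of_ne (by omega), h2] at h3; simp at h3
    | el h hs =>
      obtain ⟨-, rfl, -⟩ := cell_inj hc h
      refine .d2 hg ?_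
      rw [update_of_ne (by omega), h2]; simp
    | v h hs =>
      obtain ⟨-, -, rfl⟩ := cell_inj hc h
      exact .dead
    | merge h => rw [hc] at h; simp at h
  | @d1 g t0 t1 s b hg h1 =>
    have hc := door1 hg
    cases h with
    | er h hs => exact absurd hs h1
    | el h hs => exact absurd hs h1
    | v h hs =>
      obtain ⟨-, -, rfl⟩ := cell_inj hc h
      exact .dead
    | merge h => rw [hc] at h; simp at h
  | @d2 g t0 t1 s b hg h1 =>
    have hc := door2 hg
    cases h with
    | er h hs => exact absurd hs h1
    | el h hs => exact absurd hs h1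
    | v h hs =>
      obtain ⟨-, -, rfl⟩ := cell_inj hc h
      exact .dead
    | merge h => rw [hc] at h; simp at h
  | @tm g t0 t1 s o hg hRt ho hrel h0 h1 h2 =>
    have hc := door0 hg
    cases h with
    | er h hs => rw [h0] at hs; simp at hs
    | el h hs => rw [h0] at hs; simp at hs
    | v h hs =>
      obtain ⟨-, -, rfl⟩ := cell_inj hc h
      refine .rest (hR _ _ hRt (.thru hg ho)) (relX_all (relX_upd hrel (fun _ _ _ _ => rfl)
        (fun i hi => update_of_ne hi _ _)) ⟨h0, Or.inl ⟨h1, h2, update_self _ _ _⟩⟩)
    | merge h => rw [hc] at h; simp at h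
  | @ch g t0 t1 s o hg hRt hrel h0 =>
    have hc := choice0 hg
    cases h with
    | er h hs =>
      obtain ⟨rfl, -, -⟩ := cell_inj hc h
      exact .rest (hR _ _ hRt (.fst hg)) (relX_choice hg hrel fun i hi _ _ =>
        update_of_ne hi _ _)
    | el h hs =>
      obtain ⟨-, rfl, -⟩ := cell_inj hc h
      exact .rest (hR _ _ hRt (.snd hg)) (relX_choice hg hrel fun i hi _ _ =>
        update_of_ne hi _ _)
    | v h hs => exact absurd h0 hs
    | merge h => rw [hc] at h; simp at h
  | dead => cases h

/-- Exact representation of the states of the doors. -/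
def Exact (N : List Node) (s o : ℕ → Bool) : Prop :=
  ∀ g t0 t1, N[g]? = some ⟨true, t0, t1⟩ →
    s (3 * g) = false ∧ s (3 * g + 1) = false ∧ s (3 * g + 2) = o g

theorem exact_upd {s s' o o' : ℕ → Bool} {g : ℕ} (h : Exact N s o)
    (hs : ∀ i, i ≠ 3 * g → i ≠ 3 * g + 1 → i ≠ 3 * g + 2 → s' i = s i)
    (ho : ∀ i, i ≠ g → o' i = o i)
    (hg : s' (3 * g) = false ∧ s' (3 * g + 1) = false ∧ s' (3 * g + 2) = o' g) :
    Exact N s' o' := by
  intro g' t0 t1 hg'
  by_cases hne : g' = g
  · subst hne; exact hg
  · have := h g' t0 t1 hg'
    rw [hs (3 * g') (by omega) (by omega) (by omega), hs (3 * g' + 1) (by omega) (by omega)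
      (by omega), hs (3 * g' + 2) (by omega) (by omega) (by omega), ho g' hne]
    exact this

theorem exact_choice {s s' o : ℕ → Bool} {g : ℕ} {t0 t1 : Tgt}
    (hg : N[g]? = some ⟨false, t0, t1⟩) (h : Exact N s o)
    (hs : ∀ i, i ≠ 3 * g → s' i = s i) : Exact N s' o := by
  intro g' a b hg'
  have hne : g' ≠ g := by
    rintro rfl
    rw [hg] at hg'
    simp at hg'
  have := h g' a b hg'
  rw [hs (3 * g') (by omega), hs (3 * g' + 1) (by omega), hs (3 * g' + 2) (by omega)]
  exact this

theorem sim_step {t t' : Tgt} {o o' s : ℕ → Bool} (h : DStep N (t, o) (t', o'))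
    (hs : Exact N s o) : ∃ s', ReflTransGen (CStep (cellNet N)) (cellTgt t, s) (cellTgt t', s') ∧
      Exact N s' o' := by
  cases h with
  | @fst g s' t0 t1 h =>
    have hc := choice0 h
    cases h0 : s (3 * g) with
    | false =>
      exact ⟨_, .single (.er hc h0), exact_choice h hs fun i hi => update_of_ne hi _ _⟩
    | true =>
      refine ⟨_, .head (.v hc (by rw [h0]; simp)) (.single (.er hc h0)),
        exact_choice h hs fun i hi => update_of_ne hi _ _⟩
  | @snd g s' t0 t1 h =>
    have hc := choice0 h
    cases h0 : s (3 * g) with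
    | false =>
      exact ⟨_, .single (.el hc h0), exact_choice h hs fun i hi => update_of_ne hi _ _⟩
    | true =>
      refine ⟨_, .head (.v hc (by rw [h0]; simp)) (.single (.el hc h0)),
        exact_choice h hs fun i hi => update_of_ne hi _ _⟩
  | @pass g s' t0 t1 h =>
    obtain ⟨h0, h1, h2⟩ := hs _ _ _ h
    refine ⟨_, .single (.er (door0 h) h0), ?_⟩
    have : update s (3 * g) false = s := by rw [← h0, update_eq_self]
    rw [this]; exact hs
  | @opn g s' t0 t1 h =>
    obtain ⟨h0, h1, h2⟩ := hs _ _ _ h
    cases ho : o g with
    | true =>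
      refine ⟨_, .single (.er (door0 h) h0), ?_⟩
      have h3 : update s (3 * g) false = s := by rw [← h0, update_eq_self]
      have h4 : update o g true = o := by rw [← ho, update_eq_self]
      rw [h3, h4]; exact hs
    | false =>
      rw [ho] at h2
      have e1 : CStep (cellNet N) (.port (3 * g) false, s)
          (.port (3 * g + 1) false, update s (3 * g) true) := .el (door0 h) h0
      have e2 : CStep (cellNet N) (.port (3 * g + 1) false, update s (3 * g) true)
          (.port (3 * g + 2) false, update (update s (3 * g) true) (3 * g + 1) true) :=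
        .el (door1 h) (by rw [update_of_ne (by omega)]; exact h1)
      have e3 : CStep (cellNet N)
          (.port (3 * g + 2) false, update (update s (3 * g) true) (3 * g + 1) true)
          (.port (3 * g + 1) true, update (update (update s (3 * g) true) (3 * g + 1) true)
            (3 * g + 2) true) :=
        .el (door2 h) (by rw [update_of_ne (by omega), update_of_ne (by omega)]; exact h2)
      have e4 : CStep (cellNet N)
          (.port (3 * g + 1) true, update (update (update s (3 * g) true) (3 * g + 1) true)
            (3 * g + 2) true)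
          (.port (3 * g) true, update (update (update (update s (3 * g) true) (3 * g + 1) true)
            (3 * g + 2) true) (3 * g + 1) false) :=
        .er (door1 h) (by rw [update_of_ne (by omega), update_self])
      have e5 : CStep (cellNet N)
          (.port (3 * g) true, update (update (update (update s (3 * g) true) (3 * g + 1) true)
            (3 * g + 2) true) (3 * g + 1) false)
          (cellTgt t', update (update (update (update (update s (3 * g) true)
            (3 * g + 1) true) (3 * g + 2) true) (3 * g + 1) false) (3 * g) false) :=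
        .er (door0 h) (by
          rw [update_of_ne (by omega), update_of_ne (by omega), update_of_ne (by omega),
            update_self])
      refine ⟨_, .head e1 (.head e2 (.head e3 (.head e4 (.single e5)))),
        exact_upd hs (g := g) (fun i h1 h2 h3 => ?_) (fun i hi => update_of_ne hi _ _)
          ⟨update_self _ _ _, ?_, ?_⟩⟩
      · rw [update_of_ne h1, update_of_ne h2, update_of_ne h3, update_of_ne h2, update_of_ne h1]
      · rw [update_of_ne (by omega), update_self]
      · rw [update_of_ne (by omega), update_of_ne (by omega), update_self, update_self]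
  | @thru g s' t0 t1 h ho =>
    obtain ⟨h0, h1, h2⟩ := hs _ _ _ h
    rw [ho] at h2
    have e1 : CStep (cellNet N) (.port (3 * g + 2) true, s)
        (.port (3 * g) true, update s (3 * g + 2) false) := .er (door2 h) h2
    have e2 : CStep (cellNet N) (.port (3 * g) true, update s (3 * g + 2) false)
        (cellTgt t', update s (3 * g + 2) false) :=
      .v (door0 h) (by rw [update_of_ne (by omega), h0]; simp)
    refine ⟨_, .head e1 (.single e2),
      exact_upd hs (g := g) (fun i h1 h2 h3 => ?_) (fun i hi => update_of_ne hi _ _) ⟨?_, ?_, ?_⟩⟩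
    · rw [update_of_ne h3]
    · rw [update_of_ne (by omega)]; exact h0
    · rw [update_of_ne (by omega)]; exact h1
    · rw [update_self, update_self]

end Scd

/-- The net of cells simulates the net of doors and choices. -/
theorem cellNet_reach (N : List Node) : CReach (cellNet N) ↔ DReach N := by
  constructor
  · rintro ⟨s, hs⟩
    have hR : ∀ x y, ReflTransGen (DStep N) (.port 0 false, fun _ => false) x → DStep N x y →
        ReflTransGen (DStep N) (.port 0 false, fun _ => false) y := fun x y hx hy => hx.tail hy
    have h0 : Scd.Inv N (ReflTransGen (DStep N) (.port 0 false, fun _ => false))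
        (.port 0 false, fun _ => false) :=
      Scd.Inv.rest (t := .port 0 false) (o := fun _ => false) .refl
        (fun g t0 t1 _ _ => ⟨rfl, Or.inl ⟨rfl, rfl, rfl⟩⟩)
    have key : ∀ y, ReflTransGen (CStep (cellNet N)) (.port 0 false, fun _ => false) y →
        Scd.Inv N (ReflTransGen (DStep N) (.port 0 false, fun _ => false)) y := by
      intro y hy
      induction hy with
      | refl => exact h0
      | tail _ h ih => exact Scd.inv_step hR ih h
    have hI := key _ hs
    generalize hx : ((Tgt.goal, s) : CSt) = x at hI
    cases hI with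
    | @rest t s' o hRt hrel =>
      cases t with
      | dead => simp [cellTgt] at hx
      | goal => exact ⟨o, hRt⟩
      | port g b => cases b <;> simp [cellTgt] at hx
    | p1 => simp at hx
    | p2 => simp at hx
    | m0 => simp at hx
    | m1 => simp at hx
    | d1 => simp at hx
    | d2 => simp at hx
    | tm => simp at hx
    | ch => simp at hx
    | dead => simp at hx
  · rintro ⟨o, ho⟩
    have key : ∀ y : CSt, ReflTransGen (DStep N) (.port 0 false, fun _ => false) y →
        ∃ s, ReflTransGen (CStep (cellNet N)) (.port 0 false, fun _ => false)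
          (cellTgt y.1, s) ∧ Scd.Exact N s y.2 := by
      intro y hy
      induction hy with
      | refl => exact ⟨_, .refl, fun g t0 t1 _ => ⟨rfl, rfl, rfl⟩⟩
      | @tail b c _ h ih =>
        obtain ⟨s, h1, h2⟩ := ih
        obtain ⟨s', h3, h4⟩ := Scd.sim_step (t := b.1) (t' := c.1) (o := b.2) (o' := c.2) h h2
        exact ⟨s', h1.trans h3, h4⟩
    obtain ⟨s, h1, -⟩ := key _ ho
    exact ⟨s, h1⟩

end Pool.Agent.Lunar
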