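import Pool.Agent.Lunar.Blk

/-!
# Simple machines as block programs
-/

set_option linter.unusedSectionVars false

namespace Pool.Agent.Lunar

open Relation Function Pool.Agent.IsoImp

namespace Umb

/-! ### Executing takes and puts -/

theorem exec_puts (U : List ℕ) : ∀ M : ℕ → Bool,
    execOps (U.map (Prod.mk true)) M = some (fun p => decide (p ∈ U) || M p) := by
  induction U with
  | nil => intro M; simp [execOps]
  | cons a U ih =>
    intro M
    rw [List.map_cons, execOps, ih]
    congr 1
    funext p
    by_cases hp : p = a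
    · subst hp; simp
    · rw [update_of_ne hp]; simp [hp]

theorem exec_takes (T : List ℕ) (hT : T.Nodup) : ∀ M : ℕ → Bool,
    execOps (T.map (Prod.mk false)) M =
      if ∀ p ∈ T, M p = true then some (fun p => M p && !decide (p ∈ T)) else none := by
  induction T with
  | nil => intro M; simp [execOps]
  | cons a T ih =>
    intro M
    rw [List.nodup_cons] at hT
    rw [List.map_cons, execOps]
    by_cases ha : M a = true
    · rw [if_pos ha, ih hT.2]
      by_cases hall : ∀ p ∈ T, M p = true
      · rw [if_pos, if_pos]
        · congr 1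
          funext p
          by_cases hp : p = a
          · subst hp; simp
          · rw [update_of_ne hp]; simp [hp]
        · intro p hp
          rcases List.mem_cons.mp hp with h | h
          · rw [h]; exact ha
          · exact hall p h
        · intro p hp
          rw [update_of_ne (by rintro rfl; exact hT.1 hp)]
          exact hall p hp
      · rw [if_neg, if_neg]
        · intro h
          exact hall fun p hp => h p (List.mem_cons_of_mem _ hp)
        · intro h
          refine hall fun p hp => ?_
          have := h p hp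
          rwa [update_of_ne (by rintro rfl; exact hT.1 hp)] at this
    · rw [if_neg ha, if_neg]
      intro h
      exact ha (h a (by simp))

theorem exec_both {T U : List ℕ} (hT : T.Nodup) (M : ℕ → Bool) :
    execOps (T.map (Prod.mk false) ++ U.map (Prod.mk true)) M =
      if ∀ p ∈ T, M p = true then some (fun p => decide (p ∈ U) || (M p && !decide (p ∈ T)))
      else none := by
  rw [Blk.exec_append, exec_takes T hT]
  by_cases h : ∀ p ∈ T, M p = true
  · rw [if_pos h, if_pos h, Option.bind_some, exec_puts]
  · rw [if_neg h, if_neg h]; rfl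

/-! ### Places -/

section

variable {C K Sg : Type} [Fintype C] [DecidableEq C] [Fintype K] [DecidableEq K]
  [Fintype Sg] [DecidableEq Sg]

theorem pl_inj {d d' : PK C K Sg} {i i' : ℕ} (h : pl d i = pl d' i') : d = d' ∧ i = i' := by
  unfold pl kap at h
  have h1 := (Fintype.equivFin (PK C K Sg) d).2
  have h2 := (Fintype.equivFin (PK C K Sg) d').2
  have hi : i = i' := by
    rcases lt_trichotomy i i' with hlt | heq | hgt
    · exfalso
      have : (Fintype.card (PK C K Sg) + 1) * (i + 1) ≤ (Fintype.card (PK C K Sg) + 1) * i' :=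
        Nat.mul_le_mul_left _ hlt
      rw [Nat.mul_succ] at this
      omega
    · exact heq
    · exfalso
      have : (Fintype.card (PK C K Sg) + 1) * (i' + 1) ≤ (Fintype.card (PK C K Sg) + 1) * i :=
        Nat.mul_le_mul_left _ hgt
      rw [Nat.mul_succ] at this
      omega
  subst hi
  refine ⟨(Fintype.equivFin (PK C K Sg)).injective (Fin.ext ?_), rfl⟩
  omega

theorem pl_pos (d : PK C K Sg) (i : ℕ) : pl d i ≠ 0 := by
  unfold pl; omega

theorem pl_lt (d : PK C K Sg) {i W : ℕ} (h : i < W) : pl d i < kap C K Sg * W := by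
  unfold pl kap
  have h1 := (Fintype.equivFin (PK C K Sg) d).2
  have : (Fintype.card (PK C K Sg) + 1) * (i + 1) ≤ (Fintype.card (PK C K Sg) + 1) * W :=
    Nat.mul_le_mul_left _ h
  rw [Nat.mul_succ] at this
  omega

@[simp] theorem plC_plC {c c' : C} : plC K Sg c = plC K Sg c' ↔ c = c' := by
  refine ⟨fun h => ?_, fun h => by rw [h]⟩
  have := (pl_inj h).1
  simpa using this

@[simp] theorem plH_plH {k k' : K} {h h' : ℕ} :
    plH C Sg k h = plH C Sg k' h' ↔ k = k' ∧ h = h' := by
  refine ⟨fun e => ?_, fun e => by rw [e.1, e.2]⟩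
  have := pl_inj e
  simpa using this

@[simp] theorem plS_plS {k k' : K} {a a' : Sg} {i i' : ℕ} :
    plS C k a i = plS C k' a' i' ↔ k = k' ∧ a = a' ∧ i = i' := by
  refine ⟨fun e => ?_, fun e => by rw [e.1, e.2.1, e.2.2]⟩
  have := pl_inj e
  simpa [and_assoc] using this

@[simp] theorem plC_plH {c : C} {k : K} {h : ℕ} : plC K Sg c ≠ plH C Sg k h := by
  intro e; have := (pl_inj e).1; simp at this

@[simp] theorem plH_plC {c : C} {k : K} {h : ℕ} : plH C Sg k h ≠ plC K Sg c := by
  intro e; have := (pl_inj e).1; simp at this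

@[simp] theorem plC_plS {c : C} {k : K} {a : Sg} {i : ℕ} : plC K Sg c ≠ plS C k a i := by
  intro e; have := (pl_inj e).1; simp at this

@[simp] theorem plS_plC {c : C} {k : K} {a : Sg} {i : ℕ} : plS C k a i ≠ plC K Sg c := by
  intro e; have := (pl_inj e).1; simp at this

@[simp] theorem plH_plS {k k' : K} {h : ℕ} {a : Sg} {i : ℕ} :
    plH C Sg k h ≠ plS C k' a i := by
  intro e; have := (pl_inj e).1; simp at this

@[simp] theorem plS_plH {k k' : K} {h : ℕ} {a : Sg} {i : ℕ} :
    plS C k' a i ≠ plH C Sg k h := by
  intro e; have := (pl_inj e).1; simp at this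

@[simp] theorem plC_zero {c : C} : plC K Sg c ≠ 0 := pl_pos _ _
@[simp] theorem plH_zero {k : K} {h : ℕ} : plH C Sg k h ≠ 0 := pl_pos _ _
@[simp] theorem plS_zero {k : K} {a : Sg} {i : ℕ} : plS C k a i ≠ 0 := pl_pos _ _

/-! ### The marking of a configuration -/

/-- The places marked in a configuration. -/
inductive E (x : C × (K → List Sg)) : ℕ → Prop
  | ctl : E x (plC K Sg x.1)
  | ht (k : K) : E x (plH C Sg k (x.2 k).length)
  | sym (k : K) (a : Sg) (i : ℕ) (h : (x.2 k).reverse[i]? = some a) : E x (plS C k a i)

theorem E_C {x : C × (K → List Sg)} {c : C} : E x (plC K Sg c) ↔ c = x.1 := by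
  constructor
  · intro h
    generalize hp : plC K Sg c = p at h
    cases h with
    | ctl => simpa using hp
    | ht k => simp at hp
    | sym k a i h => simp at hp
  · rintro rfl; exact .ctl

theorem E_H {x : C × (K → List Sg)} {k : K} {h : ℕ} :
    E x (plH C Sg k h) ↔ h = (x.2 k).length := by
  constructor
  · intro e
    generalize hp : plH C Sg k h = p at e
    cases e with
    | ctl => simp at hp
    | ht k' => rw [plH_plH] at hp; rw [hp.1]; exact hp.2
    | sym k a i h => simp at hp
  · rintro rfl; exact .ht k

theorem E_S {x : C × (K → List Sg)} {k : K} {a : Sg} {i : ℕ} :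
    E x (plS C k a i) ↔ (x.2 k).reverse[i]? = some a := by
  constructor
  · intro e
    generalize hp : plS C k a i = p at e
    cases e with
    | ctl => simp at hp
    | ht k' => simp at hp
    | sym k' a' i' h => rw [plS_plS] at hp; rw [hp.1, hp.2.1, hp.2.2]; exact h
  · exact .sym k a i

/-- Soundness and completeness of a block: the marking of the next configuration. -/
def Good (x y : C × (K → List Sg)) (T U : List ℕ) : Prop :=
  (∀ p ∈ T, E x p) ∧ ∀ p, E y p ↔ p ∈ U ∨ (E x p ∧ p ∉ T)

theorem good_sound {x y : C × (K → List Sg)} {T U : List ℕ} (h : Good x y T U) {M : ℕ → Bool}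
    (hM : ∀ p, M p = true → p = 0 ∨ E x p) {m : ℕ} : ∀ p,
    (decide (p ∈ U ++ List.replicate m 0) || (M p && !decide (p ∈ T))) = true →
      p = 0 ∨ E y p := by
  intro p hp
  simp only [List.mem_append, List.mem_replicate, Bool.or_eq_true, decide_eq_true_eq,
    Bool.and_eq_true, Bool.not_eq_true', decide_eq_false_iff_not] at hp
  rcases hp with (hp | hp) | ⟨hp1, hp2⟩
  · exact Or.inr ((h.2 p).mpr (Or.inl hp))
  · exact Or.inl hp.2
  · rcases hM p hp1 with h0 | h0
    · exact Or.inl h0
    · exact Or.inr ((h.2 p).mpr (Or.inr ⟨h0, hp2⟩))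

theorem good_complete {x y : C × (K → List Sg)} {T U : List ℕ} (h : Good x y T U)
    {M : ℕ → Bool} (hM : ∀ p, E x p → M p = true) {m : ℕ} :
    (∀ p ∈ T, M p = true) ∧ ∀ p, E y p →
      (decide (p ∈ U ++ List.replicate m 0) || (M p && !decide (p ∈ T))) = true := by
  refine ⟨fun p hp => hM p (h.1 p hp), fun p hp => ?_⟩
  simp only [List.mem_append, List.mem_replicate, Bool.or_eq_true, decide_eq_true_eq,
    Bool.and_eq_true, Bool.not_eq_true', decide_eq_false_iff_not]
  rcases (h.2 p).mp hp with h1 | ⟨h1, h2⟩
  · exact Or.inl (Or.inl h1)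
  · exact Or.inr ⟨hM p h1, h2⟩

/-- A stack operation, seen on the places. -/
theorem good_upd {x : C × (K → List Sg)} {c' : C} {k : K} {l' : List Sg} {T U : List ℕ}
    (hT : ∀ p ∈ T, E x p) (hTC : plC K Sg x.1 ∈ T) (hTH : plH C Sg k (x.2 k).length ∈ T)
    (hT' : ∀ p ∈ T, p = plC K Sg x.1 ∨ p = plH C Sg k (x.2 k).length ∨
      ∃ (a : Sg) (i : ℕ), p = plS C k a i)
    (hUC : plC K Sg c' ∈ U) (hUH : plH C Sg k l'.length ∈ U)
    (hU' : ∀ p ∈ U, p = plC K Sg c' ∨ p = plH C Sg k l'.length ∨
      ∃ (a : Sg) (i : ℕ), l'.reverse[i]? = some a ∧ p = plS C k a i)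
    (hS : ∀ a i, l'.reverse[i]? = some a ↔ plS C k a i ∈ U ∨
      ((x.2 k).reverse[i]? = some a ∧ plS C k a i ∉ T)) :
    Good x (c', update x.2 k l') T U := by
  refine ⟨hT, fun p => ⟨fun h => ?_, fun h => ?_⟩⟩
  · cases h with
    | ctl => exact Or.inl hUC
    | ht k' =>
      by_cases hk : k' = k
      · subst hk
        simp only [update_self]
        exact Or.inl hUH
      · simp only [update_of_ne hk]
        refine Or.inr ⟨.ht k', fun hmem => ?_⟩
        rcases hT' _ hmem with h | h | ⟨a, i, h⟩
        · simp at h
        · rw [plH_plH] at h; exact hk h.1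
        · simp at h
    | sym k' a i h =>
      by_cases hk : k' = k
      · subst hk
        simp only [update_self] at h
        rcases (hS a i).mp h with h1 | ⟨h1, h2⟩
        · exact Or.inl h1
        · exact Or.inr ⟨.sym k' a i h1, h2⟩
      · simp only [update_of_ne hk] at h
        refine Or.inr ⟨.sym k' a i h, fun hmem => ?_⟩
        rcases hT' _ hmem with h | h | ⟨a', i', h⟩
        · simp at h
        · simp at h
        · rw [plS_plS] at h; exact hk h.1
  · rcases h with h | ⟨h, hn⟩
    · rcases hU' p h with h | h | ⟨a, i, h1, h⟩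
      · rw [h]; exact .ctl
      · rw [h, E_H]; simp
      · rw [h, E_S]; simpa using h1
    · cases h with
      | ctl => exact absurd hTC hn
      | ht k' =>
        by_cases hk : k' = k
        · subst hk; exact absurd hTH hn
        · rw [E_H]; simp [update_of_ne hk]
      | sym k' a i h =>
        by_cases hk : k' = k
        · subst hk
          rw [E_S]
          simp only [update_self]
          exact (hS a i).mpr (Or.inr ⟨h, hn⟩)
        · rw [E_S]; simpa [update_of_ne hk] using h

/-- The takes and puts of a block with empty stack. -/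
noncomputable def T0 (M : UM C K Sg) (c : C) : List ℕ := [plC K Sg c, plH C Sg (M.kk c) 0]

noncomputable def U0 (M : UM C K Sg) (c : C) : List ℕ :=
  plC K Sg (M.nx c none) ::
    match M.ac c with
    | .keep => [plH C Sg (M.kk c) 0]
    | .pop => [plH C Sg (M.kk c) 0]
    | .push b => [plH C Sg (M.kk c) 1, plS C (M.kk c) b 0]

noncomputable def T1 (M : UM C K Sg) (c : C) (a : Sg) (i : ℕ) : List ℕ :=
  [plC K Sg c, plH C Sg (M.kk c) (i + 1), plS C (M.kk c) a i]

noncomputable def U1 (M : UM C K Sg) (c : C) (a : Sg) (i : ℕ) : List ℕ :=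
  plC K Sg (M.nx c (some a)) ::
    match M.ac c with
    | .keep => [plH C Sg (M.kk c) (i + 1), plS C (M.kk c) a i]
    | .pop => [plH C Sg (M.kk c) i]
    | .push b => [plH C Sg (M.kk c) (i + 2), plS C (M.kk c) a i, plS C (M.kk c) b (i + 1)]

theorem ops0 (M : UM C K Sg) (c : C) : ∃ m, (blk0 M c).ops =
    (T0 M c).map (Prod.mk false) ++ (U0 M c ++ List.replicate m 0).map (Prod.mk true) := by
  unfold blk0 T0 U0
  cases M.ac c with
  | keep => exact ⟨3, rfl⟩
  | pop => exact ⟨3, rfl⟩
  | push b => exact ⟨2, rfl⟩

theorem ops1 (M : UM C K Sg) (c : C) (a : Sg) (i : ℕ) : ∃ m, (blk1 M c a i).ops =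
    (T1 M c a i).map (Prod.mk false) ++ (U1 M c a i ++ List.replicate m 0).map (Prod.mk true) := by
  unfold blk1 T1 U1
  cases M.ac c with
  | keep => exact ⟨1, rfl⟩
  | pop => exact ⟨2, rfl⟩
  | push b => exact ⟨0, rfl⟩

theorem T0_nodup (M : UM C K Sg) (c : C) : (T0 M c).Nodup := by simp [T0]

theorem T1_nodup (M : UM C K Sg) (c : C) (a : Sg) (i : ℕ) : (T1 M c a i).Nodup := by
  simp [T1]

theorem good0 (M : UM C K Sg) (x : C × (K → List Sg)) (h : x.2 (M.kk x.1) = []) :
    Good x (M.step x) (T0 M x.1) (U0 M x.1) := by
  have hstep : M.step x = (M.nx x.1 none, update x.2 (M.kk x.1) ((M.ac x.1).app [])) := by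
    unfold UM.step; rw [h]; rfl
  rw [hstep]
  apply good_upd
  · intro p hp
    simp only [T0, List.mem_cons, List.not_mem_nil, or_false] at hp
    rcases hp with rfl | rfl
    · exact .ctl
    · rw [E_H, h]; rfl
  · simp [T0]
  · simp [T0, h]
  · intro p hp
    simp only [T0, List.mem_cons, List.not_mem_nil, or_false] at hp
    rcases hp with rfl | rfl
    · exact Or.inl rfl
    · exact Or.inr (Or.inl (by rw [h]; rfl))
  · simp [U0]
  · unfold U0; cases M.ac x.1 <;> simp [Act.app]
  · intro p hp
    unfold U0 at hp
    cases hac : M.ac x.1 with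
    | keep => rw [hac] at hp; simpa [Act.app] using hp
    | pop => rw [hac] at hp; simpa [Act.app] using hp
    | push b =>
      rw [hac] at hp
      simp only [List.mem_cons, List.not_mem_nil, or_false] at hp
      rcases hp with hp | hp | hp
      · exact Or.inl hp
      · exact Or.inr (Or.inl (by simpa [Act.app] using hp))
      · exact Or.inr (Or.inr ⟨b, 0, by simp [Act.app], hp⟩)
  · intro a i
    rw [h]
    unfold U0
    cases M.ac x.1 with
    | keep => simp [Act.app]
    | pop => simp [Act.app]
    | push b =>
      simp only [Act.app, List.reverse_cons, List.reverse_nil, List.nil_append, List.mem_cons,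
        plS_plC, plS_plH, plS_plS, true_and, List.not_mem_nil, or_false, false_or,
        List.getElem?_nil, reduceCtorEq, false_and]
      rcases i with _ | i
      · simp [eq_comm]
      · simp

theorem good1 (M : UM C K Sg) (x : C × (K → List Sg)) {a : Sg} {l : List Sg}
    (h : x.2 (M.kk x.1) = a :: l) :
    Good x (M.step x) (T1 M x.1 a l.length) (U1 M x.1 a l.length) := by
  have hstep : M.step x =
      (M.nx x.1 (some a), update x.2 (M.kk x.1) ((M.ac x.1).app (a :: l))) := by
    unfold UM.step; rw [h]; rfl
  have hlt : ∀ {i : ℕ} {b : Sg}, (l.reverse ++ [a])[i]? = some b → i ≠ l.length →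
      l.reverse[i]? = some b ∧ i < l.length := by
    intro i b hi hne
    have hlen : i < (l.reverse ++ [a]).length := (List.getElem?_eq_some_iff.mp hi).1
    rw [List.length_append, List.length_reverse, List.length_singleton] at hlen
    have h1 : i < l.length := by omega
    rw [List.getElem?_append_left (by rw [List.length_reverse]; exact h1)] at hi
    exact ⟨hi, h1⟩
  have htop : ∀ {b : Sg}, (l.reverse ++ [a])[l.length]? = some b ↔ b = a := by
    intro b
    rw [List.getElem?_append_right (by simp), List.length_reverse, Nat.sub_self]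
    simp [eq_comm]
  rw [hstep]
  apply good_upd
  · intro p hp
    simp only [T1, List.mem_cons, List.not_mem_nil, or_false] at hp
    rcases hp with rfl | rfl | rfl
    · exact .ctl
    · rw [E_H, h]; simp
    · rw [E_S, h, List.reverse_cons, htop]
  · simp [T1]
  · simp [T1, h]
  · intro p hp
    simp only [T1, List.mem_cons, List.not_mem_nil, or_false] at hp
    rcases hp with rfl | rfl | rfl
    · exact Or.inl rfl
    · exact Or.inr (Or.inl (by rw [h]; simp))
    · exact Or.inr (Or.inr ⟨_, _, rfl⟩)
  · simp [U1]
  · unfold U1; cases M.ac x.1 <;> simp [Act.app]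
  · intro p hp
    unfold U1 at hp
    cases hac : M.ac x.1 with
    | keep =>
      rw [hac] at hp
      simp only [List.mem_cons, List.not_mem_nil, or_false] at hp
      rcases hp with hp | hp | hp
      · exact Or.inl hp
      · exact Or.inr (Or.inl (by simpa [Act.app] using hp))
      · refine Or.inr (Or.inr ⟨a, l.length, ?_, hp⟩)
        rw [Act.app, List.reverse_cons, htop]
    | pop =>
      rw [hac] at hp
      simp only [List.mem_cons, List.not_mem_nil, or_false] at hp
      rcases hp with hp | hp
      · exact Or.inl hp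
      · exact Or.inr (Or.inl (by simpa [Act.app] using hp))
    | push b =>
      rw [hac] at hp
      simp only [List.mem_cons, List.not_mem_nil, or_false] at hp
      rcases hp with hp | hp | hp | hp
      · exact Or.inl hp
      · exact Or.inr (Or.inl (by simpa [Act.app] using hp))
      · refine Or.inr (Or.inr ⟨a, l.length, ?_, hp⟩)
        rw [Act.app, List.reverse_cons, List.reverse_cons, List.getElem?_append_left (by simp),
          htop]
      · refine Or.inr (Or.inr ⟨b, l.length + 1, ?_, hp⟩)
        rw [Act.app, List.reverse_cons, List.reverse_cons, List.getElem?_append_right (by simp)]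
        simp
  · intro b i
    rw [h, List.reverse_cons]
    unfold U1 T1
    cases M.ac x.1 with
    | keep =>
      simp only [Act.app, List.reverse_cons, List.mem_cons, plS_plC, plS_plH, plS_plS, true_and,
        List.not_mem_nil, or_false, false_or]
      by_cases hi : i = l.length
      · subst hi; rw [htop]; tauto
      · constructor
        · intro h1; exact Or.inr ⟨h1, fun h2 => hi h2.2⟩
        · rintro (h1 | h1)
          · exact absurd h1.2 hi
          · exact h1.1
    | pop =>
      simp only [Act.app, List.tail_cons, List.mem_cons, plS_plC, plS_plH, plS_plS,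
        true_and, List.not_mem_nil, or_false, false_or]
      by_cases hi : i = l.length
      · subst hi
        rw [htop, List.getElem?_eq_none (by simp)]
        simp
      · constructor
        · intro h1
          have h2 : i < l.length := by
            have := (List.getElem?_eq_some_iff.mp h1).1
            simpa using this
          refine ⟨?_, fun h3 => hi h3.2⟩
          rw [List.getElem?_append_left (by simpa using h2)]
          exact h1
        · rintro ⟨h1, -⟩
          exact (hlt h1 hi).1
    | push d =>
      simp only [Act.app, List.reverse_cons, List.mem_cons, plS_plC, plS_plH, plS_plS, true_and,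
        List.not_mem_nil, or_false, false_or]
      by_cases hi : i = l.length
      · subst hi
        rw [List.getElem?_append_left (by simp), htop]
        constructor
        · intro h1; exact Or.inl (Or.inl ⟨h1, rfl⟩)
        · rintro ((h1 | h1) | h1)
          · exact h1.1
          · omega
          · exact h1.1
      · by_cases hi2 : i = l.length + 1
        · subst hi2
          rw [List.getElem?_append_right (by simp)]
          constructor
          · intro h1
            refine Or.inl (Or.inr ⟨?_, rfl⟩)
            simpa [eq_comm] using h1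
          · rintro ((h1 | h1) | h1)
            · omega
            · simp [h1.1]
            · have := (List.getElem?_eq_some_iff.mp h1.1).1
              simp at this
        · constructor
          · intro h1
            have h2 : i < (l.reverse ++ [a]).length := by
              have := (List.getElem?_eq_some_iff.mp h1).1
              simp only [List.length_append, List.length_reverse, List.length_cons,
                List.length_nil] at this ⊢
              omega
            rw [List.getElem?_append_left h2] at h1
            exact Or.inr ⟨h1, fun h3 => hi h3.2⟩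
          · rintro ((h1 | h1) | h1)
            · exact absurd h1.2 hi
            · exact absurd h1.2 hi2
            · have h2 := (List.getElem?_eq_some_iff.mp h1.1).1
              rw [List.getElem?_append_left h2]
              exact h1.1

/-! ### All blocks -/

theorem mem_blocks {M : UM C K Sg} {k₁ : K} {acc : Sg} {hc : C → Bool} {W : ℕ} {b : Block} :
    b ∈ umBlocks M k₁ acc hc W ↔ (∃ c, b = blk0 M c) ∨ (∃ i < W, ∃ c a, b = blk1 M c a i) ∨
      ∃ i < W, ∃ c, hc c = true ∧ b = blkG k₁ acc c i := by
  unfold umBlocks
  simp only [List.mem_append, List.mem_map, Finset.mem_toList, Finset.mem_univ, true_and,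
    List.mem_flatMap, List.mem_range, List.mem_filter, Prod.exists]
  constructor
  · rintro ((⟨c, h⟩ | ⟨i, hi, c, a, h⟩) | ⟨i, hi, c, hc', h⟩)
    · exact Or.inl ⟨c, h.symm⟩
    · exact Or.inr (Or.inl ⟨i, hi, c, a, h.symm⟩)
    · exact Or.inr (Or.inr ⟨i, hi, c, hc', h.symm⟩)
  · rintro (⟨c, h⟩ | ⟨i, hi, c, a, h⟩ | ⟨i, hi, c, hc', h⟩)
    · exact Or.inl (Or.inl ⟨c, h.symm⟩)
    · exact Or.inl (Or.inr ⟨i, hi, c, a, h.symm⟩)
    · exact Or.inr ⟨i, hi, c, hc', h.symm⟩

theorem blocks_len {M : UM C K Sg} {k₁ : K} {acc : Sg} {hc : C → Bool} {W : ℕ} {b : Block}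
    (h : b ∈ umBlocks M k₁ acc hc W) : b.ops.length = 7 := by
  rcases mem_blocks.mp h with ⟨c, rfl⟩ | ⟨i, -, c, a, rfl⟩ | ⟨i, -, c, -, rfl⟩
  · unfold blk0 pad; cases M.ac c <;> rfl
  · unfold blk1 pad; cases M.ac c <;> rfl
  · rfl

/-- One block, soundness. -/
theorem block_sound {M : UM C K Sg} {k₁ : K} {acc : Sg} {hc : C → Bool} {W : ℕ} {b : Block}
    (hb : b ∈ umBlocks M k₁ acc hc W) (hg : b.goal = false) {x : C × (K → List Sg)}
    {N N' : ℕ → Bool} (hN : ∀ p, N p = true → p = 0 ∨ E x p) (he : execOps b.ops N = some N') :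
    ∀ p, N' p = true → p = 0 ∨ E (M.step x) p := by
  rcases mem_blocks.mp hb with ⟨c, rfl⟩ | ⟨i, -, c, a, rfl⟩ | ⟨i, -, c, -, rfl⟩
  · obtain ⟨m, hm⟩ := ops0 M c
    rw [hm, exec_both (T0_nodup M c)] at he
    by_cases hall : ∀ p ∈ T0 M c, N p = true
    · rw [if_pos hall, Option.some.injEq] at he
      have h1 : c = x.1 := by
        rcases hN _ (hall (plC K Sg c) (by simp [T0])) with h | h
        · exact absurd h (by simp)
        · exact E_C.mp h
      have h2 : x.2 (M.kk x.1) = [] := by
        rcases hN _ (hall (plH C Sg (M.kk c) 0) (by simp [T0])) with h | h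
        · exact absurd h (by simp)
        · have := E_H.mp h
          rw [h1] at this
          exact List.eq_nil_of_length_eq_zero this.symm
      subst h1
      rw [← he]
      exact good_sound (good0 M x h2) hN
    · rw [if_neg hall] at he; simp at he
  · obtain ⟨m, hm⟩ := ops1 M c a i
    rw [hm, exec_both (T1_nodup M c a i)] at he
    by_cases hall : ∀ p ∈ T1 M c a i, N p = true
    · rw [if_pos hall, Option.some.injEq] at he
      have h1 : c = x.1 := by
        rcases hN _ (hall (plC K Sg c) (by simp [T1])) with h | h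
        · exact absurd h (by simp)
        · exact E_C.mp h
      subst h1
      have h2 : i + 1 = (x.2 (M.kk x.1)).length := by
        rcases hN _ (hall (plH C Sg (M.kk x.1) (i + 1)) (by simp [T1])) with h | h
        · exact absurd h (by simp)
        · exact E_H.mp h
      have h3 : (x.2 (M.kk x.1)).reverse[i]? = some a := by
        rcases hN _ (hall (plS C (M.kk x.1) a i) (by simp [T1])) with h | h
        · exact absurd h (by simp)
        · exact E_S.mp h
      obtain ⟨a', l, hl⟩ : ∃ a' l, x.2 (M.kk x.1) = a' :: l := by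
        cases hx : x.2 (M.kk x.1) with
        | nil => rw [hx] at h2; simp at h2
        | cons a' l => exact ⟨a', l, rfl⟩
      rw [hl, List.length_cons] at h2
      have h4 : i = l.length := by omega
      subst h4
      rw [hl, List.reverse_cons, List.getElem?_append_right (by simp), List.length_reverse,
        Nat.sub_self] at h3
      have h5 : a' = a := by simpa using h3
      subst h5
      rw [← he]
      exact good_sound (good1 M x hl) hN
    · rw [if_neg hall] at he; simp at he
  · simp [blkG] at hg

/-- One block, completeness. -/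
theorem block_complete {M : UM C K Sg} {k₁ : K} {acc : Sg} {hc : C → Bool} {W : ℕ}
    {x : C × (K → List Sg)} (hW : ∀ k, (x.2 k).length ≤ W) {N : ℕ → Bool}
    (hN : ∀ p, E x p → N p = true) :
    ∃ N', BStep (umBlocks M k₁ acc hc W) N N' ∧ ∀ p, E (M.step x) p → N' p = true := by
  cases hx : x.2 (M.kk x.1) with
  | nil =>
    obtain ⟨m, hm⟩ := ops0 M x.1
    obtain ⟨h1, h2⟩ := good_complete (good0 M x hx) hN (m := m)
    refine ⟨_, ⟨blk0 M x.1, mem_blocks.mpr (Or.inl ⟨_, rfl⟩), rfl, ?_⟩, h2⟩
    rw [hm, exec_both (T0_nodup M x.1), if_pos h1]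
  | cons a l =>
    obtain ⟨m, hm⟩ := ops1 M x.1 a l.length
    obtain ⟨h1, h2⟩ := good_complete (good1 M x hx) hN (m := m)
    have hlt : l.length < W := by
      have := hW (M.kk x.1)
      rw [hx, List.length_cons] at this
      omega
    refine ⟨_, ⟨blk1 M x.1 a l.length, mem_blocks.mpr (Or.inr (Or.inl ⟨_, hlt, _, _, rfl⟩)),
      rfl, ?_⟩, h2⟩
    rw [hm, exec_both (T1_nodup M x.1 a l.length), if_pos h1]

/-- A goal block, soundness. -/
theorem goal_sound {M : UM C K Sg} {k₁ : K} {acc : Sg} {hc : C → Bool} {W : ℕ} {b : Block}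
    (hb : b ∈ umBlocks M k₁ acc hc W) (hg : b.goal = true) {x : C × (K → List Sg)}
    {N : ℕ → Bool} (hN : ∀ p, N p = true → p = 0 ∨ E x p) (he : (execOps b.ops N).isSome) :
    hc x.1 = true ∧ (x.2 k₁)[0]? = some acc := by
  rcases mem_blocks.mp hb with ⟨c, rfl⟩ | ⟨i, -, c, a, rfl⟩ | ⟨i, -, c, hc', rfl⟩
  · simp [blk0] at hg
  · simp [blk1] at hg
  · have hops : (blkG k₁ acc c i : Block).ops =
        ([plC K Sg c, plH C Sg k₁ (i + 1), plS C k₁ acc i]).map (Prod.mk false) ++
          (List.replicate 4 0).map (Prod.mk true) := rfl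
    rw [hops, exec_both (by simp)] at he
    by_cases hall : ∀ p ∈ [plC K Sg c, plH C Sg k₁ (i + 1), plS C k₁ acc i], N p = true
    · have h1 : c = x.1 := by
        rcases hN _ (hall (plC K Sg c) (by simp)) with h | h
        · exact absurd h (by simp)
        · exact E_C.mp h
      have h2 : i + 1 = (x.2 k₁).length := by
        rcases hN _ (hall (plH C Sg k₁ (i + 1)) (by simp)) with h | h
        · exact absurd h (by simp)
        · exact E_H.mp h
      have h3 : (x.2 k₁).reverse[i]? = some acc := by
        rcases hN _ (hall (plS C k₁ acc i) (by simp)) with h | h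
        · exact absurd h (by simp)
        · exact E_S.mp h
      refine ⟨h1 ▸ hc', ?_⟩
      cases hl : x.2 k₁ with
      | nil => rw [hl] at h2; simp at h2
      | cons a' l =>
        rw [hl, List.length_cons] at h2
        have h4 : i = l.length := by omega
        subst h4
        rw [hl, List.reverse_cons, List.getElem?_append_right (by simp), List.length_reverse,
          Nat.sub_self] at h3
        simpa using h3
    · rw [if_neg hall] at he; simp at he

/-- A goal block, completeness. -/
theorem goal_complete {M : UM C K Sg} {k₁ : K} {acc : Sg} {hc : C → Bool} {W : ℕ}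
    {x : C × (K → List Sg)} (hW : ∀ k, (x.2 k).length ≤ W) {N : ℕ → Bool}
    (hN : ∀ p, E x p → N p = true) (h1 : hc x.1 = true) (h2 : (x.2 k₁)[0]? = some acc) :
    ∃ b ∈ umBlocks M k₁ acc hc W, b.goal = true ∧ (execOps b.ops N).isSome := by
  cases hl : x.2 k₁ with
  | nil => rw [hl] at h2; simp at h2
  | cons a l =>
    rw [hl] at h2
    have ha : a = acc := by simpa using h2
    subst ha
    have hlt : l.length < W := by
      have := hW k₁
      rw [hl, List.length_cons] at this
      omega
    refine ⟨blkG k₁ a x.1 l.length, mem_blocks.mpr (Or.inr (Or.inr ⟨_, hlt, _, h1, rfl⟩)),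
      rfl, ?_⟩
    have hops : (blkG k₁ a x.1 l.length : Block).ops =
        ([plC K Sg x.1, plH C Sg k₁ (l.length + 1), plS C k₁ a l.length]).map (Prod.mk false) ++
          (List.replicate 4 0).map (Prod.mk true) := rfl
    rw [hops, exec_both (by simp), if_pos]
    · rfl
    · intro p hp
      simp only [List.mem_cons, List.not_mem_nil, or_false] at hp
      rcases hp with rfl | rfl | rfl
      · exact hN _ .ctl
      · refine hN _ (E_H.mpr ?_)
        rw [hl]; rfl
      · refine hN _ (E_S.mpr ?_)
        rw [hl, List.reverse_cons, List.getElem?_append_right (by simp)]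
        simp

theorem mem_init {Γ : Type} {c0 : C} {k₀ : K} {inX : Γ → Sg} {x : List Γ} {p : ℕ} :
    p ∈ umInit c0 k₀ inX x ↔
      E (c0, fun k => if k = k₀ then x.map inX else ([] : List Sg)) p := by
  unfold umInit
  simp only [List.mem_cons, List.mem_append, List.mem_map, Finset.mem_toList, Finset.mem_univ,
    true_and, Prod.exists, List.mem_zipIdx_iff_getElem?]
  constructor
  · rintro (h | ⟨k, h⟩ | ⟨a, i, h1, h⟩)
    · rw [h]; exact .ctl
    · rw [← h, E_H]
      by_cases hk : k = k₀ <;> simp [hk]
    · rw [← h, E_S]
      simp only [if_true, ← List.map_reverse, List.getElem?_map, h1, Option.map_some]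
  · intro h
    cases h with
    | ctl => exact Or.inl rfl
    | ht k =>
      refine Or.inr (Or.inl ⟨k, ?_⟩)
      by_cases hk : k = k₀ <;> simp [hk]
    | sym k a i h =>
      by_cases hk : k = k₀
      · subst hk
        simp only [if_true, ← List.map_reverse, List.getElem?_map, Option.map_eq_some_iff] at h
        obtain ⟨a', h1, h2⟩ := h
        exact Or.inr (Or.inr ⟨a', i, h1, by rw [h2]⟩)
      · simp [hk] at h

end

end Umb

section

variable {C K Sg : Type} [Fintype C] [DecidableEq C] [Fintype K] [DecidableEq K]
  [Fintype Sg] [DecidableEq Sg]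

/-- The block program of a machine reaches a goal block iff the machine accepts. -/
theorem um_breach {Γ : Type} (M : UM C K Sg) (c0 : C) (k₀ k₁ : K) (inX : Γ → Sg) (acc : Sg)
    (hc : C → Bool) (W : ℕ) (x : List Γ)
    (hW : ∀ t k, ((M.step^[t] (c0, fun k => if k = k₀ then x.map inX else [])).2 k).length ≤ W) :
    BReach (umInit c0 k₀ inX x) (umBlocks M k₁ acc hc W) ↔
      ∃ t, hc (M.step^[t] (c0, fun k => if k = k₀ then x.map inX else [])).1 = true ∧
        ((M.step^[t] (c0, fun k => if k = k₀ then x.map inX else [])).2 k₁)[0]? = some acc := by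
  set x₀ : C × (K → List Sg) := (c0, fun k => if k = k₀ then x.map inX else []) with hx₀
  constructor
  · rintro ⟨N, hN, b, hb, hg, he⟩
    have key : ∀ N, ReflTransGen (BStep (umBlocks M k₁ acc hc W))
        (initM (umInit c0 k₀ inX x)) N →
        ∃ t, ∀ p, N p = true → p = 0 ∨ Umb.E (M.step^[t] x₀) p := by
      intro N hN
      induction hN with
      | refl =>
        refine ⟨0, fun p hp => Or.inr ?_⟩
        exact Umb.mem_init.mp (by simpa [initM] using hp)
      | tail _ h ih =>
        obtain ⟨t, ht⟩ := ih
        obtain ⟨k, hk, hkg, hke⟩ := h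
        refine ⟨t + 1, ?_⟩
        rw [iterate_succ_apply']
        exact Umb.block_sound hk hkg ht hke
    obtain ⟨t, ht⟩ := key N hN
    exact ⟨t, Umb.goal_sound hb hg ht he⟩
  · rintro ⟨t, h1, h2⟩
    have key : ∀ t, ∃ N, ReflTransGen (BStep (umBlocks M k₁ acc hc W))
        (initM (umInit c0 k₀ inX x)) N ∧ ∀ p, Umb.E (M.step^[t] x₀) p → N p = true := by
      intro t
      induction t with
      | zero =>
        refine ⟨_, .refl, fun p hp => ?_⟩
        simpa [initM] using Umb.mem_init.mpr hp
      | succ t ih =>
        obtain ⟨N, hN, hE⟩ := ih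
        obtain ⟨N', h, h'⟩ := Umb.block_complete (M := M) (k₁ := k₁) (acc := acc) (hc := hc)
          (hW t) hE
        refine ⟨N', hN.tail h, ?_⟩
        rw [iterate_succ_apply']
        exact h'
    obtain ⟨N, hN, hE⟩ := key t
    exact ⟨N, hN, Umb.goal_complete (M := M) (hW t) hE h1 h2⟩

/-- The program of a machine reaches its end iff the machine accepts. -/
theorem umProg_reach {Γ : Type} (M : UM C K Sg) (c0 : C) (k₀ k₁ : K) (inX : Γ → Sg) (acc : Sg)
    (hc : C → Bool) (W : ℕ) (x : List Γ)
    (hW : ∀ t k, ((M.step^[t] (c0, fun k => if k = k₀ then x.map inX else [])).2 k).length ≤ W) :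
    PReach (umProg M c0 k₀ k₁ inX acc hc W x) ↔
      ∃ t, hc (M.step^[t] (c0, fun k => if k = k₀ then x.map inX else [])).1 = true ∧
        ((M.step^[t] (c0, fun k => if k = k₀ then x.map inX else [])).2 k₁)[0]? = some acc := by
  unfold umProg
  rw [blockProg_reach (fun k hk => Umb.blocks_len hk), um_breach M c0 k₀ k₁ inX acc hc W x hW]
  · apply List.length_pos_of_mem
    exact Umb.mem_blocks.mpr (Or.inl ⟨c0, rfl⟩)
  · simp [umInit]

end

end Pool.Agent.Lunar
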