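import Pool.Agent.Lunar.Nf
import Pool.Agent.Lunar.Scd
import Pool.Agent.Lunar.Umb

/-!
# The net of a machine

`umNet_normal` : the net is in normal form; `umNet_reach` : its goal is reachable iff the machine
accepts.
-/

set_option linter.unusedSectionVars false

namespace Pool.Agent.Lunar

open Relation Function Pool.Agent.IsoImp

namespace Lgc

/-- All targets of the nodes exist. -/
def NodesIn (N : List Node) : Prop :=
  ∀ nd ∈ N, ∀ (g : ℕ) (b : Bool), (nd.t0 = Tgt.port g b ∨ nd.t1 = Tgt.port g b) → g < N.length

theorem cellNet_len (N : List Node) : (cellNet N).length = 3 * N.length := by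
  unfold cellNet
  rw [length_flatMap_const (k := 3) (fun a _ => Scd.nodeCells_len a.2 a.1), List.length_zipIdx]

theorem mem_cellNet {N : List Node} {c : Comp} (h : c ∈ cellNet N) :
    ∃ nd ∈ N, ∃ g, g < N.length ∧ c ∈ nodeCells g nd := by
  unfold cellNet at h
  rw [List.mem_flatMap] at h
  obtain ⟨⟨nd, g⟩, h1, h2⟩ := h
  rw [List.mem_zipIdx_iff_getElem?] at h1
  simp only at h1 h2
  exact ⟨nd, List.mem_of_getElem? h1, g, (List.getElem?_eq_some_iff.mp h1).1, h2⟩

theorem cellNet_cells (N : List Node) : Nf.AllCells (cellNet N) := by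
  intro c hc
  obtain ⟨⟨d, t0, t1⟩, -, g, -, h⟩ := mem_cellNet hc
  cases d
  · simp only [nodeCells, List.mem_cons, List.not_mem_nil, or_false] at h
    rcases h with rfl | rfl | rfl <;> exact ⟨_, _, _, rfl⟩
  · simp only [nodeCells, List.mem_cons, List.not_mem_nil, or_false] at h
    rcases h with rfl | rfl | rfl <;> exact ⟨_, _, _, rfl⟩

theorem cellTgt_lt {t : Tgt} {L : ℕ} (ht : ∀ (g : ℕ) (b : Bool), t = Tgt.port g b → g < L)
    {g : ℕ} {b : Bool} (h : cellTgt t = .port g b) : g < 3 * L := by
  cases t with
  | dead => simp [cellTgt] at h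
  | goal => simp [cellTgt] at h
  | port a c =>
    have := ht a c rfl
    cases c <;> · simp only [cellTgt, Tgt.port.injEq] at h; omega

theorem cellNet_range {N : List Node} (hN : NodesIn N) : Nf.InRange (cellNet N) := by
  intro i er el v hc g' b' hor
  obtain ⟨⟨d, t0, t1⟩, hmem, g, hg, h⟩ := mem_cellNet (List.mem_of_getElem? hc)
  rw [cellNet_len]
  have h0 : ∀ (g : ℕ) (b : Bool), t0 = Tgt.port g b → g < N.length :=
    fun g b e => hN _ hmem g b (Or.inl e)
  have h1 : ∀ (g : ℕ) (b : Bool), t1 = Tgt.port g b → g < N.length :=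
    fun g b e => hN _ hmem g b (Or.inr e)
  cases d
  · simp only [nodeCells, List.mem_cons, List.not_mem_nil, or_false, Comp.cell.injEq] at h
    rcases h with ⟨rfl, rfl, rfl⟩ | ⟨rfl, rfl, rfl⟩ | ⟨rfl, rfl, rfl⟩
    · rcases hor with e | e | e
      · exact cellTgt_lt h0 e
      · exact cellTgt_lt h1 e
      · rw [Tgt.port.injEq] at e; omega
    · simp at hor
    · simp at hor
  · simp only [nodeCells, List.mem_cons, List.not_mem_nil, or_false, Comp.cell.injEq] at h
    rcases h with ⟨rfl, rfl, rfl⟩ | ⟨rfl, rfl, rfl⟩ | ⟨rfl, rfl, rfl⟩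
    · rcases hor with e | e | e
      · exact cellTgt_lt h0 e
      · rw [Tgt.port.injEq] at e; omega
      · exact cellTgt_lt h1 e
    · rcases hor with e | e | e
      · rw [Tgt.port.injEq] at e; omega
      · rw [Tgt.port.injEq] at e; omega
      · simp at e
    · rcases hor with e | e | e
      · rw [Tgt.port.injEq] at e; omega
      · rw [Tgt.port.injEq] at e; omega
      · simp at e

theorem doorNet_len (Q : List Ins) (P : ℕ) : (doorNet Q P).length = 2 * Q.length + P := by
  unfold doorNet
  rw [List.length_append, Ret.len_front, List.length_replicate]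

theorem entry_port {n j g : ℕ} {b : Bool} (h : entry n j = .port g b) : g < 2 * n := by
  unfold entry at h
  by_cases hj : j < n
  · rw [if_pos hj, Tgt.port.injEq] at h; omega
  · rw [if_neg hj] at h; simp at h

theorem doorNet_in {Q : List Ins} {P : ℕ} (hP : Ret.PlacesLT Q P) (hQ : 0 < Q.length) :
    NodesIn (doorNet Q P) := by
  intro nd hnd g b hor
  rw [doorNet_len]
  unfold doorNet at hnd
  rw [List.mem_append] at hnd
  rcases hnd with hnd | hnd
  · rw [List.mem_flatMap] at hnd
    obtain ⟨⟨ins, i⟩, h1, h2⟩ := hnd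
    rw [List.mem_zipIdx_iff_getElem?] at h1
    simp only at h1 h2
    have hi : i < Q.length := (List.getElem?_eq_some_iff.mp h1).1
    simp only [List.mem_cons, List.not_mem_nil, or_false] at h2
    rcases h2 with rfl | rfl
    · cases ins with
      | choose a c =>
        rcases hor with h | h
        · have := entry_port h; omega
        · have := entry_port h; omega
      | put p m =>
        rcases hor with h | h
        · simp only [locNode, Tgt.port.injEq] at h
          have := hP i _ h1 p m (Or.inl rfl)
          omega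
        · have := entry_port h; omega
      | take p m =>
        rcases hor with h | h
        · simp only [locNode, Tgt.port.injEq] at h
          have := hP i _ h1 p m (Or.inr rfl)
          omega
        · have := entry_port h; omega
    · have key : ∀ {g : ℕ} {b : Bool},
          (if i + 1 < Q.length then Tgt.port (2 * i + 3) false else .dead) = .port g b →
          g < 2 * Q.length := by
        intro g b h
        by_cases hi' : i + 1 < Q.length
        · rw [if_pos hi', Tgt.port.injEq] at h; omega
        · rw [if_neg hi'] at h; simp at h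
      cases ins with
      | choose a c =>
        rcases hor with h | h
        · simp [retNode] at h
        · have := key h; omega
      | put p m =>
        rcases hor with h | h
        · simp only [retNode, Tgt.port.injEq] at h; omega
        · have := key h; omega
      | take p m =>
        rcases hor with h | h
        · simp only [retNode, Tgt.port.injEq] at h; omega
        · have := key h; omega
  · rw [List.eq_of_mem_replicate hnd] at hor
    rcases hor with h | h
    · simp only [Tgt.port.injEq] at h; omega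
    · simp only [Tgt.port.injEq] at h; omega

theorem blockProg_places {I : List ℕ} {Bl : List Block} {P : ℕ} (hI : ∀ p ∈ I, p < P)
    (hB : ∀ k ∈ Bl, ∀ o ∈ k.ops, o.2 < P) : Ret.PlacesLT (blockProg I Bl) P := by
  intro i ins hins p n hor
  have hmem := List.mem_of_getElem? hins
  unfold blockProg at hmem
  rw [List.mem_append] at hmem
  rcases hmem with hmem | hmem
  · rw [List.mem_map] at hmem
    obtain ⟨⟨q, j⟩, h1, h2⟩ := hmem
    rw [List.mem_zipIdx_iff_getElem?] at h1
    simp only at h1 h2
    rw [← h2] at hor
    rcases hor with h | h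
    · rw [Ins.put.injEq] at h
      rw [← h.1]
      exact hI _ (List.mem_of_getElem? h1)
    · simp at h
  · rw [List.mem_flatMap] at hmem
    obtain ⟨⟨k, b⟩, h1, h2⟩ := hmem
    rw [List.mem_zipIdx_iff_getElem?] at h1
    simp only at h1 h2
    unfold blockCode at h2
    rw [List.mem_cons] at h2
    rcases h2 with h2 | h2
    · rw [h2] at hor; simp at hor
    · rw [List.mem_map] at h2
      obtain ⟨⟨o, j⟩, h3, h4⟩ := h2
      rw [List.mem_zipIdx_iff_getElem?] at h3
      simp only at h3 h4
      have ho := hB _ (List.mem_of_getElem? h1) _ (List.mem_of_getElem? h3)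
      rw [← h4] at hor
      unfold opIns at hor
      cases hb : o.1
      · rw [hb] at hor
        simp only [Bool.false_eq_true, if_false] at hor
        rcases hor with h | h
        · simp at h
        · rw [Ins.take.injEq] at h
          rw [← h.1]; exact ho
      · rw [hb] at hor
        simp only [if_true] at hor
        rcases hor with h | h
        · rw [Ins.put.injEq] at h
          rw [← h.1]; exact ho
        · simp at h

theorem pad_lt {l : List (Bool × ℕ)} {P : ℕ} (hP : 0 < P) (h : ∀ o ∈ l, o.2 < P) :
    ∀ o ∈ pad l, o.2 < P := by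
  intro o ho
  unfold pad at ho
  rw [List.mem_append] at ho
  rcases ho with ho | ho
  · exact h o ho
  · rw [List.eq_of_mem_replicate ho]; exact hP

section

variable {C K Sg : Type} [Fintype C] [DecidableEq C] [Fintype K] [DecidableEq K]
  [Fintype Sg] [DecidableEq Sg]

theorem kap_pos : 0 < kap C K Sg := Nat.succ_pos _

theorem init_lt {Γ : Type} {c0 : C} {k₀ : K} {inX : Γ → Sg} {x : List Γ} {W : ℕ}
    (hx : x.length ≤ W) : ∀ p ∈ umInit c0 k₀ inX x, p < kap C K Sg * (W + 2) := by
  intro p hp
  unfold umInit at hp
  simp only [List.mem_cons, List.mem_append, List.mem_map, Finset.mem_toList, Finset.mem_univ,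
    true_and, Prod.exists, List.mem_zipIdx_iff_getElem?] at hp
  rcases hp with rfl | ⟨k, rfl⟩ | ⟨a, i, h1, rfl⟩
  · exact Umb.pl_lt _ (by omega)
  · refine Umb.pl_lt _ ?_
    by_cases hk : k = k₀
    · rw [if_pos hk]; omega
    · rw [if_neg hk]; omega
  · have h2 := (List.getElem?_eq_some_iff.mp h1).1
    rw [List.length_reverse] at h2
    exact Umb.pl_lt _ (by omega)

theorem blocks_lt {M : UM C K Sg} {k₁ : K} {acc : Sg} {hc : C → Bool} {W : ℕ} :
    ∀ k ∈ umBlocks M k₁ acc hc W, ∀ o ∈ k.ops, o.2 < kap C K Sg * (W + 2) := by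
  intro k hk
  have hpos : 0 < kap C K Sg * (W + 2) := Nat.mul_pos kap_pos (by omega)
  have hC : ∀ c : C, plC K Sg c < kap C K Sg * (W + 2) := fun c => Umb.pl_lt _ (by omega)
  have hH : ∀ (k : K) (h : ℕ), h < W + 2 → plH C Sg k h < kap C K Sg * (W + 2) :=
    fun k h hh => Umb.pl_lt _ hh
  have hS : ∀ (k : K) (a : Sg) (h : ℕ), h < W + 2 → plS C k a h < kap C K Sg * (W + 2) :=
    fun k a h hh => Umb.pl_lt _ hh
  rcases Umb.mem_blocks.mp hk with ⟨c, rfl⟩ | ⟨i, hi, c, a, rfl⟩ | ⟨i, hi, c, -, rfl⟩
  · refine pad_lt hpos fun o ho => ?_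
    cases hac : M.ac c <;>
      simp only [hac, List.mem_append, List.mem_cons, List.not_mem_nil, or_false] at ho
    · rcases ho with (rfl | rfl | rfl) | rfl
      · exact hC _
      · exact hH _ _ (by omega)
      · exact hC _
      · exact hH _ _ (by omega)
    · rcases ho with (rfl | rfl | rfl) | rfl | rfl
      · exact hC _
      · exact hH _ _ (by omega)
      · exact hC _
      · exact hH _ _ (by omega)
      · exact hS _ _ _ (by omega)
    · rcases ho with (rfl | rfl | rfl) | rfl
      · exact hC _
      · exact hH _ _ (by omega)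
      · exact hC _
      · exact hH _ _ (by omega)
  · refine pad_lt hpos fun o ho => ?_
    cases hac : M.ac c <;>
      simp only [hac, List.mem_append, List.mem_cons, List.not_mem_nil, or_false] at ho
    · rcases ho with (rfl | rfl | rfl | rfl) | rfl | rfl
      · exact hC _
      · exact hH _ _ (by omega)
      · exact hS _ _ _ (by omega)
      · exact hC _
      · exact hH _ _ (by omega)
      · exact hS _ _ _ (by omega)
    · rcases ho with (rfl | rfl | rfl | rfl) | rfl | rfl | rfl
      · exact hC _
      · exact hH _ _ (by omega)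
      · exact hS _ _ _ (by omega)
      · exact hC _
      · exact hH _ _ (by omega)
      · exact hS _ _ _ (by omega)
      · exact hS _ _ _ (by omega)
    · rcases ho with (rfl | rfl | rfl | rfl) | rfl
      · exact hC _
      · exact hH _ _ (by omega)
      · exact hS _ _ _ (by omega)
      · exact hC _
      · exact hH _ _ (by omega)
  · refine pad_lt hpos fun o ho => ?_
    simp only [List.mem_cons, List.not_mem_nil, or_false] at ho
    rcases ho with rfl | rfl | rfl
    · exact hC _
    · exact hH _ _ (by omega)
    · exact hS _ _ _ (by omega)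

theorem prog_places {Γ : Type} (M : UM C K Sg) (c0 : C) (k₀ k₁ : K) (inX : Γ → Sg) (acc : Sg)
    (hc : C → Bool) {W : ℕ} {x : List Γ} (hx : x.length ≤ W) :
    Ret.PlacesLT (umProg M c0 k₀ k₁ inX acc hc W x) (kap C K Sg * (W + 2)) :=
  blockProg_places (init_lt hx) blocks_lt

theorem prog_pos {Γ : Type} (M : UM C K Sg) (c0 : C) (k₀ k₁ : K) (inX : Γ → Sg) (acc : Sg)
    (hc : C → Bool) (W : ℕ) (x : List Γ) :
    0 < (umProg M c0 k₀ k₁ inX acc hc W x).length := by
  unfold umProg blockProg umInit
  simp

end

end Lgc

section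

variable {C K Sg : Type} [Fintype C] [DecidableEq C] [Fintype K] [DecidableEq K]
  [Fintype Sg] [DecidableEq Sg]

/-- The net of a machine is in normal form. -/
theorem umNet_normal {Γ : Type} (M : UM C K Sg) (c0 : C) (k₀ k₁ : K) (inX : Γ → Sg) (acc : Sg)
    (hc : C → Bool) {W : ℕ} {x : List Γ} (hx : x.length ≤ W) :
    Normal (umNet M c0 k₀ k₁ inX acc hc W x) := by
  refine normalNet_normal (Lgc.cellNet_range (Lgc.doorNet_in (Lgc.prog_places M c0 k₀ k₁ inX acc
    hc hx) (Lgc.prog_pos M c0 k₀ k₁ inX acc hc W x))) (Lgc.cellNet_cells _) ?_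
  rw [Lgc.cellNet_len, Lgc.doorNet_len]
  have := Lgc.prog_pos M c0 k₀ k₁ inX acc hc W x
  omega

/-- The goal of the net of a machine is reachable iff the machine accepts. -/
theorem umNet_reach {Γ : Type} (M : UM C K Sg) (c0 : C) (k₀ k₁ : K) (inX : Γ → Sg) (acc : Sg)
    (hc : C → Bool) (W : ℕ) (x : List Γ)
    (hW : ∀ t k, ((M.step^[t] (c0, fun k => if k = k₀ then x.map inX else [])).2 k).length ≤ W) :
    CReach (umNet M c0 k₀ k₁ inX acc hc W x) ↔
      ∃ t, hc (M.step^[t] (c0, fun k => if k = k₀ then x.map inX else [])).1 = true ∧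
        ((M.step^[t] (c0, fun k => if k = k₀ then x.map inX else [])).2 k₁)[0]? = some acc := by
  have hx : x.length ≤ W := by
    have := hW 0 k₀
    simpa using this
  have hP := Lgc.prog_places M c0 k₀ k₁ inX acc hc hx
  have hpos := Lgc.prog_pos M c0 k₀ k₁ inX acc hc W x
  unfold umNet
  rw [normalNet_reach (Lgc.cellNet_range (Lgc.doorNet_in hP hpos)) (Lgc.cellNet_cells _)
    (by rw [Lgc.cellNet_len, Lgc.doorNet_len]; omega), cellNet_reach, doorNet_reach hP hpos,
    umProg_reach M c0 k₀ k₁ inX acc hc W x hW]

end

end Pool.Agent.Lunar
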