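import Pool.Agent.Lunar.MemDefs

/-!
# Membership of LUNAR LOCKOUT in PSPACE: correctness of the Boolean versions
-/

namespace Pool.Agent.Lunar.Mem

open Relation

theorem slideB_iff {n : ℕ} {occ : Cell → Bool} {S : Finset Cell}
    (hocc : ∀ c, occ c = true ↔ c ∈ S) (hS : ∀ c ∈ S, c.1 < n ∧ c.2 < n) {p q : Cell}
    (hp : p.1 < n ∧ p.2 < n) : slideB n occ p q = true ↔ Slide S p q := by
  obtain ⟨a, b⟩ := p
  obtain ⟨c, d⟩ := q
  simp only at hp
  simp only [slideB, Bool.or_eq_true, Bool.and_eq_true, decide_eq_true_eq, List.all_eq_true,
    List.mem_range, Bool.not_eq_true', Bool.and_eq_false_iff, decide_eq_false_iff_not, hocc,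
    not_lt, not_le]
  have hocc' : ∀ c, occ c = false ↔ c ∉ S := by
    intro c
    rw [← hocc c]
    simp
  simp only [hocc']
  constructor
  · rintro ((⟨rfl, h1, h2, h3⟩ | ⟨rfl, h1, h0, h2, h3⟩) | (⟨rfl, h1, h2, h3⟩ | ⟨rfl, h1, h0, h2, h3⟩))
    · refine Slide.right h2 h1 fun w hw1 hw2 => ?_
      have := (hS _ h2).1
      simp only at this
      rcases h3 w (by omega) with h | h | h
      · omega
      · omega
      · exact h
    · obtain ⟨z, rfl⟩ : ∃ z, c = z + 1 := ⟨c - 1, by omega⟩
      refine Slide.left (by simpa using h2) (by omega) fun w hw1 hw2 => ?_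
      rcases h3 w (by omega) with h | h | h
      · omega
      · omega
      · exact h
    · refine Slide.up h2 h1 fun w hw1 hw2 => ?_
      have := (hS _ h2).2
      simp only at this
      rcases h3 w (by omega) with h | h | h
      · omega
      · omega
      · exact h
    · obtain ⟨z, rfl⟩ : ∃ z, d = z + 1 := ⟨d - 1, by omega⟩
      refine Slide.down (by simpa using h2) (by omega) fun w hw1 hw2 => ?_
      rcases h3 w (by omega) with h | h | h
      · omega
      · omega
      · exact h
  · intro h
    cases h with
    | right hz hx h =>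
      left; left
      refine ⟨rfl, hx, hz, fun w _ => ?_⟩
      by_cases h1 : w ≤ a
      · exact Or.inl h1
      · by_cases h2 : c < w
        · exact Or.inr (Or.inl h2)
        · exact Or.inr (Or.inr (h w (by omega) (by omega)))
    | @left _ _ z hz hx h =>
      left; right
      refine ⟨rfl, hx, by omega, by simpa using hz, fun w _ => ?_⟩
      by_cases h1 : w < z + 1
      · exact Or.inl h1
      · by_cases h2 : a ≤ w
        · exact Or.inr (Or.inl h2)
        · exact Or.inr (Or.inr (h w (by omega) (by omega)))
    | up hz hy h =>
      right; left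
      refine ⟨rfl, hy, hz, fun w _ => ?_⟩
      by_cases h1 : w ≤ b
      · exact Or.inl h1
      · by_cases h2 : d < w
        · exact Or.inr (Or.inl h2)
        · exact Or.inr (Or.inr (h w (by omega) (by omega)))
    | @down _ _ z hz hy h =>
      right; right
      refine ⟨rfl, hy, by omega, by simpa using hz, fun w _ => ?_⟩
      by_cases h1 : w < z + 1
      · exact Or.inl h1
      · by_cases h2 : b ≤ w
        · exact Or.inr (Or.inl h2)
        · exact Or.inr (Or.inr (h w (by omega) (by omega)))

/-- The tokens lie on the board and in different cells. -/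
structure OnB (n : ℕ) (P : Pos) : Prop where
  others : ∀ c ∈ P.others, c.1 < n ∧ c.2 < n
  target : P.target.1 < n ∧ P.target.2 < n
  free : P.target ∉ P.others

theorem slide_on {n : ℕ} {S : Finset Cell} {p q : Cell} (h : Slide S p q)
    (hS : ∀ c ∈ S, c.1 < n ∧ c.2 < n) (hp : p.1 < n ∧ p.2 < n) : q.1 < n ∧ q.2 < n := by
  cases h with
  | right hz hx h =>
    have := hS _ hz
    simp only at *
    omega
  | left hz hx h =>
    simp only at *
    omega
  | up hz hy h =>
    have := hS _ hz
    simp only at *
    omega
  | down hz hy h =>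
    simp only at *
    omega

theorem slide_free {S : Finset Cell} {p q : Cell} (h : Slide S p q) (hp : p ∉ S) : q ∉ S := by
  cases h with
  | @right x y z hz hx h =>
    by_cases h1 : x < z
    · exact h z h1 le_rfl
    · have : x = z := by omega
      subst this
      exact hp
  | @left x y z hz hx h =>
    by_cases h1 : z + 1 < x
    · exact h (z + 1) (by omega) h1
    · have : x = z + 1 := by omega
      subst this
      exact hp
  | @up x y z hz hy h =>
    by_cases h1 : y < z
    · exact h z h1 le_rfl
    · have : y = z := by omega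
      subst this
      exact hp
  | @down x y z hz hy h =>
    by_cases h1 : z + 1 < y
    · exact h (z + 1) (by omega) h1
    · have : y = z + 1 := by omega
      subst this
      exact hp

theorem OnB.move {n : ℕ} {P Q : Pos} (hP : OnB n P) (h : Move P Q) : OnB n Q := by
  cases h with
  | target h => exact ⟨hP.others, slide_on h hP.others hP.target, slide_free h hP.free⟩
  | @other t p q S hp h =>
    have hS : ∀ c ∈ insert t (S.erase p), c.1 < n ∧ c.2 < n := by
      intro c hc
      rcases Finset.mem_insert.1 hc with rfl | hc
      · exact hP.target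
      · exact hP.others c (Finset.mem_of_mem_erase hc)
    have hq := slide_on h hS (hP.others p hp)
    have hp' : p ∉ insert t (S.erase p) := by
      intro hc
      rcases Finset.mem_insert.1 hc with rfl | hc
      · exact hP.free hp
      · exact Finset.notMem_erase p S hc
    have hq' := slide_free h hp'
    refine ⟨?_, hP.target, ?_⟩
    · intro c hc
      rcases Finset.mem_insert.1 hc with rfl | hc
      · exact hq
      · exact hP.others c (Finset.mem_of_mem_erase hc)
    · intro hc
      rcases Finset.mem_insert.1 hc with h1 | h1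
      · have h1' : t = q := h1
        exact hq' (by rw [← h1']; exact Finset.mem_insert_self _ _)
      · exact hP.free (Finset.mem_of_mem_erase h1)

theorem bit_append {n : ℕ} {f g : Cell → Bool} (hf : ∀ c, f c = true → c.1 < n ∧ c.2 < n)
    (c : Cell) : bit n 0 ((cells n).map f ++ (cells n).map g) c = f c := by
  obtain ⟨x, y⟩ := c
  unfold bit
  by_cases h : x < n ∧ y < n
  · obtain ⟨hx, hy⟩ := h
    have h1 := cells_get hx hy
    have h2 : x + n * y < (cells n).length := by
      by_contra hcon
      rw [List.getElem?_eq_none (by omega)] at h1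
      exact absurd h1 (by simp)
    rw [Nat.zero_add, List.getElem?_append_left (by simpa using h2), List.getElem?_map, h1]
    simp [hx, hy]
  · have h1 : f (x, y) = false := by
      by_contra hcon
      exact h (hf _ (by simpa using hcon))
    rw [h1]
    by_cases hx : x < n
    · have hy : ¬ y < n := fun hy => h ⟨hx, hy⟩
      simp [hy]
    · simp [hx]

theorem bit_append' {n : ℕ} {f g : Cell → Bool} (hg : ∀ c, g c = true → c.1 < n ∧ c.2 < n)
    (c : Cell) : bit n (n * n) ((cells n).map f ++ (cells n).map g) c = g c := by
  obtain ⟨x, y⟩ := c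
  unfold bit
  by_cases h : x < n ∧ y < n
  · obtain ⟨hx, hy⟩ := h
    have h1 := cells_get hx hy
    rw [List.getElem?_append_right (by simp [cells_length]), List.length_map, cells_length,
      Nat.add_sub_cancel_left, List.getElem?_map, h1]
    simp [hx, hy]
  · have h1 : g (x, y) = false := by
      by_contra hcon
      exact h (hg _ (by simpa using hcon))
    rw [h1]
    by_cases hx : x < n
    · have hy : ¬ y < n := fun hy => h ⟨hx, hy⟩
      simp [hy]
    · simp [hx]

theorem bit_others {n : ℕ} {P : Pos} (hP : OnB n P) (c : Cell) :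
    bit n 0 (pic n P) c = decide (c ∈ P.others) :=
  bit_append (fun c hc => hP.others c (by simpa using hc)) c

theorem bit_target {n : ℕ} {P : Pos} (hP : OnB n P) (c : Cell) :
    bit n (n * n) (pic n P) c = decide (c = P.target) :=
  bit_append' (fun c hc => by
    have : c = P.target := by simpa using hc
    rw [this]
    exact hP.target) c

theorem pic_length (n : ℕ) (P : Pos) : (pic n P).length = n * n + n * n := by
  simp [pic, cells_length]

theorem moveB_iff {n : ℕ} {P : Pos} (hP : OnB n P) (v : List Bool) :
    moveB n (pic n P) v = true ↔ ∃ Q, Move P Q ∧ v = pic n Q := by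
  obtain ⟨t, S⟩ := P
  have hS := hP.others
  have ht := hP.target
  have hf := hP.free
  simp only at hS ht hf
  have hO : ∀ p q : Cell, p ∈ S → mvO n (pic n ⟨t, S⟩) p q = pic n ⟨t, insert q (S.erase p)⟩ := by
    intro p q _
    unfold mvO
    rw [show pic n ⟨t, insert q (S.erase p)⟩ =
      ((cells n).map fun c => decide (c ∈ insert q (S.erase p))) ++
        ((cells n).map fun c => decide (c = t)) from rfl]
    congr 1
    · apply List.map_congr_left
      intro c _
      rw [bit_others hP]
      simp only [Finset.mem_insert, Finset.mem_erase]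
      by_cases h1 : c = q <;> by_cases h2 : c ∈ S <;> by_cases h3 : c = p <;> simp [h1, h2, h3]
    · apply List.map_congr_left
      intro c _
      rw [bit_target hP]
  have hT : ∀ q : Cell, mvT n (pic n ⟨t, S⟩) q = pic n ⟨q, S⟩ := by
    intro q
    unfold mvT
    rw [show pic n ⟨q, S⟩ = ((cells n).map fun c => decide (c ∈ S)) ++
        ((cells n).map fun c => decide (c = q)) from rfl]
    congr 1
    apply List.map_congr_left
    intro c _
    rw [bit_others hP]
  have hocc : ∀ p c : Cell, occB n (pic n ⟨t, S⟩) p c = true ↔ (c ∈ S ∨ c = t) ∧ c ≠ p := by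
    intro p c
    unfold occB
    rw [bit_others hP, bit_target hP]
    simp
  have hsT : ∀ q : Cell, slideB n (occB n (pic n ⟨t, S⟩) t) t q = true ↔ Slide S t q := by
    intro q
    refine slideB_iff (fun c => ?_) hS ht
    rw [hocc]
    constructor
    · rintro ⟨h1 | h1, h2⟩
      · exact h1
      · exact absurd h1 h2
    · intro h
      exact ⟨Or.inl h, fun e => hf (e ▸ h)⟩
  have hsO : ∀ p q : Cell, p ∈ S → (slideB n (occB n (pic n ⟨t, S⟩) p) p q = true ↔
      Slide (insert t (S.erase p)) p q) := by
    intro p q hp
    refine slideB_iff (fun c => ?_) ?_ (hS p hp)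
    · rw [hocc, Finset.mem_insert, Finset.mem_erase]
      constructor
      · rintro ⟨h1 | h1, h2⟩
        · exact Or.inr ⟨h2, h1⟩
        · exact Or.inl h1
      · rintro (h1 | ⟨h1, h2⟩)
        · exact ⟨Or.inr h1, fun e => hf (by rw [← h1, e]; exact hp)⟩
        · exact ⟨Or.inl h2, h1⟩
    · intro c hc
      rcases Finset.mem_insert.1 hc with rfl | hc
      · exact ht
      · exact hS c (Finset.mem_of_mem_erase hc)
  unfold moveB
  simp only [List.any_eq_true, Bool.and_eq_true, Bool.or_eq_true, decide_eq_true_eq, mem_cells,
    bit_others hP, bit_target hP]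
  constructor
  · rintro ⟨p, hp, q, hq, h1, ⟨h2, rfl⟩ | ⟨h2, rfl⟩⟩
    · exact ⟨_, Move.other h2 ((hsO p q h2).1 h1), hO p q h2⟩
    · subst h2
      exact ⟨_, Move.target ((hsT q).1 h1), hT q⟩
  · rintro ⟨Q, h, rfl⟩
    cases h with
    | target h =>
      rename_i q
      exact ⟨t, ht, q, slide_on h hS ht, (hsT q).2 h, Or.inr ⟨rfl, (hT q).symm⟩⟩
    | other hp h =>
      rename_i p q
      have hS' : ∀ c ∈ insert t (S.erase p), c.1 < n ∧ c.2 < n := by
        intro c hc
        rcases Finset.mem_insert.1 hc with rfl | hc
        · exact ht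
        · exact hS c (Finset.mem_of_mem_erase hc)
      exact ⟨p, hS p hp, q, slide_on h hS' (hS p hp), (hsO p q hp).2 h, Or.inl ⟨hp, (hO p q hp).symm⟩⟩

/-! ### The input -/

theorem size_encodeBoard (n : ℕ) (S : Finset Cell) (t g : Cell) :
    size (encodeBoard n S t g) = n := by
  unfold size encodeBoard
  have key : ∀ m : ℕ, (((List.range m).flatMap fun y =>
      ((List.range n).map fun x => some (cellSym S t g (x, y))) ++ [none]).filter
        fun a : Sy => decide (a = none)).length = m := by
    intro m
    induction m with
    | zero => rfl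
    | succ m ih =>
      rw [List.range_succ, List.flatMap_append, List.filter_append, List.length_append, ih]
      have h1 : (((List.range n).map fun x => (some (cellSym S t g (x, m)) : Sy)).filter
          fun a : Sy => decide (a = none)) = [] := by
        rw [List.filter_eq_nil_iff]
        intro a ha
        obtain ⟨x, _, rfl⟩ := List.mem_map.1 ha
        simp
      simp only [List.flatMap_cons, List.flatMap_nil, List.append_nil, List.filter_append, h1,
        List.nil_append]
      rfl
  exact key n

theorem sy_encodeBoard {n : ℕ} {S : Finset Cell} {t g c : Cell} (hc : c.1 < n ∧ c.2 < n) :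
    sy n (encodeBoard n S t g) c = some (some (cellSym S t g c)) := by
  obtain ⟨x, y⟩ := c
  exact encodeBoard_get hc.1 hc.2

theorem sym_fst {S : Finset Cell} {t g c : Cell} {k : Fin 3} :
    (decide ((some (some (cellSym S t g c)) : Option Sy) = some (some (k, false))) ||
      decide ((some (some (cellSym S t g c)) : Option Sy) = some (some (k, true)))) =
    decide ((if c = t then (2 : Fin 3) else if c ∈ S then 1 else 0) = k) := by
  unfold cellSym
  by_cases h : c = g
  · by_cases h2 : (if c = t then (2 : Fin 3) else if c ∈ S then 1 else 0) = k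
    · simp [h]
    · simp [h]
  · by_cases h2 : (if c = t then (2 : Fin 3) else if c ∈ S then 1 else 0) = k
    · simp [h, h2]
    · simp [h, h2]

theorem valid_iff (x : List Sy) : valid x = true ↔
    ∃ (n : ℕ) (S : Finset Cell) (t g : Cell), OnBoard n S t g ∧ x = encodeBoard n S t g := by
  unfold valid
  simp only [List.any_eq_true, decide_eq_true_eq, mem_cells]
  constructor
  · rintro ⟨t, ht, g, hg, h⟩
    refine ⟨size x, (cells (size x)).toFinset.filter fun c => c ≠ t ∧
      (decide (sy (size x) x c = some (some (1, false))) ||
      decide (sy (size x) x c = some (some (1, true)))) = true, t, g, ⟨?_, ht, hg, ?_⟩, ?_⟩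
    · intro c hc
      rw [Finset.mem_filter, List.mem_toFinset, mem_cells] at hc
      exact hc.1
    · intro hc
      rw [Finset.mem_filter] at hc
      exact hc.2.1 rfl
    · conv_lhs => rw [h]
      unfold reenc encodeBoard
      refine congrArg List.flatten (List.map_congr_left fun y hy => ?_)
      congr 1
      apply List.map_congr_left
      intro z hz
      rw [List.mem_range] at hy hz
      congr 1
      unfold cellSym
      congr 1
      by_cases h1 : (z, y) = t
      · rw [if_pos h1, if_pos h1]
      · rw [if_neg h1, if_neg h1]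
        have e : ((z, y) ∈ (cells (size x)).toFinset.filter fun c => c ≠ t ∧
            (decide (sy (size x) x c = some (some (1, false))) ||
            decide (sy (size x) x c = some (some (1, true)))) = true) ↔
            (decide (sy (size x) x (z, y) = some (some (1, false))) ||
            decide (sy (size x) x (z, y) = some (some (1, true)))) = true := by
          rw [Finset.mem_filter, List.mem_toFinset, mem_cells]
          constructor
          · rintro ⟨_, _, h⟩
            exact h
          · intro h
            exact ⟨⟨hz, hy⟩, h1, h⟩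
        simp only [e]
  · rintro ⟨n, S, t, g, h, rfl⟩
    rw [size_encodeBoard]
    refine ⟨t, h.target, g, h.goal, ?_⟩
    conv_lhs => unfold encodeBoard
    unfold reenc
    refine congrArg List.flatten (List.map_congr_left fun y hy => ?_)
    congr 1
    apply List.map_congr_left
    intro z hz
    rw [List.mem_range] at hy hz
    rw [sy_encodeBoard (c := (z, y)) ⟨hz, hy⟩, sym_fst]
    unfold cellSym
    congr 2
    by_cases h1 : (z, y) = t
    · rw [if_pos h1, if_pos h1]
    · rw [if_neg h1, if_neg h1]
      by_cases h2 : (z, y) ∈ S <;> simp [h1, h2]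

theorem start_encodeBoard {n : ℕ} {S : Finset Cell} {t g : Cell} (h : OnBoard n S t g) :
    start (encodeBoard n S t g) = pic n ⟨t, S⟩ := by
  unfold start pic
  rw [size_encodeBoard]
  congr 1
  · apply List.map_congr_left
    intro c hc
    rw [mem_cells] at hc
    rw [sy_encodeBoard hc, sym_fst]
    by_cases h1 : c = t
    · have : c ∉ S := fun h2 => h.free (h1 ▸ h2)
      simp [h1, h.free]
    · by_cases h2 : c ∈ S <;> simp [h1, h2]
  · apply List.map_congr_left
    intro c hc
    rw [mem_cells] at hc
    rw [sy_encodeBoard hc, sym_fst]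
    by_cases h1 : c = t
    · simp [h1]
    · by_cases h2 : c ∈ S <;> simp [h1, h2]

theorem winB_iff {n : ℕ} {S : Finset Cell} {t g : Cell} (h : OnBoard n S t g) {P : Pos}
    (hP : OnB n P) : winB (encodeBoard n S t g) (pic n P) = true ↔ P.target = g := by
  unfold winB
  rw [size_encodeBoard]
  simp only [List.any_eq_true, Bool.and_eq_true, bit_target hP, decide_eq_true_eq, mem_cells,
    Bool.or_eq_true]
  constructor
  · rintro ⟨c, hc, rfl, h1⟩
    rw [sy_encodeBoard hc] at h1
    unfold cellSym at h1
    simp only [Option.some.injEq, Prod.mk.injEq, decide_eq_true_eq] at h1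
    tauto
  · intro h1
    refine ⟨g, h.goal, h1.symm, ?_⟩
    rw [sy_encodeBoard h.goal]
    unfold cellSym
    simp only [Option.some.injEq, Prod.mk.injEq, decide_true, and_true]
    by_cases h2 : g = t
    · simp [h2]
    · by_cases h3 : g ∈ S <;> simp [h2, h3]

/-- The graph of positions. -/
theorem reach_some {n : ℕ} {S : Finset Cell} {t g : Cell} (h : OnBoard n S t g)
    (w : Option (List Bool)) :
    ReflTransGen (fun u v => adj (encodeBoard n S t g, (u, v)) = true)
      (some (start (encodeBoard n S t g))) w ↔
    (∃ Q, ReflTransGen Move ⟨t, S⟩ Q ∧ OnB n Q ∧ w = some (pic n Q)) ∨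
      (w = none ∧ ∃ Q, ReflTransGen Move ⟨t, S⟩ Q ∧ Q.target = g) := by
  have hv : valid (encodeBoard n S t g) = true := (valid_iff _).2 ⟨n, S, t, g, h, rfl⟩
  have h0 : OnB n ⟨t, S⟩ := ⟨h.others, h.target, h.free⟩
  constructor
  · intro hr
    induction hr with
    | refl => exact Or.inl ⟨_, .refl, h0, by rw [start_encodeBoard h]⟩
    | @tail u v _ huv ih =>
      rcases ih with ⟨Q, h1, h2, rfl⟩ | ⟨rfl, _⟩
      · cases v with
        | none =>
          right
          unfold adj at huv
          simp only [hv, Bool.true_and] at huv
          exact ⟨rfl, Q, h1, (winB_iff h h2).1 huv⟩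
        | some v =>
          left
          unfold adj at huv
          simp only [hv, Bool.true_and, size_encodeBoard] at huv
          obtain ⟨Q', h3, rfl⟩ := (moveB_iff h2 v).1 huv
          exact ⟨Q', h1.tail h3, h2.move h3, rfl⟩
      · exact absurd huv (by simp [adj])
  · have key : ∀ Q, ReflTransGen Move ⟨t, S⟩ Q → OnB n Q ∧
        ReflTransGen (fun u v => adj (encodeBoard n S t g, (u, v)) = true)
          (some (start (encodeBoard n S t g))) (some (pic n Q)) := by
      intro Q hQ
      induction hQ with
      | refl => exact ⟨h0, by rw [start_encodeBoard h]⟩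
      | @tail Q Q' _ h3 ih =>
        refine ⟨ih.1.move h3, ih.2.tail ?_⟩
        unfold adj
        simp only [hv, Bool.true_and, size_encodeBoard]
        exact (moveB_iff ih.1 _).2 ⟨Q', h3, rfl⟩
    rintro (⟨Q, h1, _, rfl⟩ | ⟨rfl, Q, h1, h2⟩)
    · exact (key Q h1).2
    · obtain ⟨h3, h4⟩ := key Q h1
      refine h4.tail ?_
      unfold adj
      simp only [hv, Bool.true_and]
      exact (winB_iff h h3).2 h2

theorem reach_invalid {x : List Sy} (hx : valid x = false) {w : Option (List Bool)}
    (h : ReflTransGen (fun u v => adj (x, (u, v)) = true) (some (start x)) w) :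
    w = some (start x) := by
  induction h with
  | refl => rfl
  | @tail u v _ huv ih =>
    subst ih
    cases v <;> simp [adj, hx] at huv

theorem mem_LUNAR_iff (x : List Sy) : x ∈ LUNAR ↔
    ReflTransGen (fun u v => adj (x, (u, v)) = true) (some (start x)) none := by
  constructor
  · rintro ⟨n, S, t, g, h, rfl, Q, h1, h2⟩
    exact (reach_some h none).2 (Or.inr ⟨rfl, Q, h1, h2⟩)
  · intro hr
    by_cases hx : valid x = true
    · obtain ⟨n, S, t, g, h, rfl⟩ := (valid_iff x).1 hx
      rcases (reach_some h none).1 hr with ⟨Q, _, _, h3⟩ | ⟨_, Q, h1, h2⟩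
      · exact absurd h3 (by simp)
      · exact ⟨n, S, t, g, h, rfl, Q, h1, h2⟩
    · exact absurd (reach_invalid (by simpa using hx) hr) (by simp)

theorem reach_code (x : List Sy) (w : Option (List Bool))
    (hr : ReflTransGen (fun u v => adj (x, (u, v)) = true) (some (start x)) w) :
    w = none ∨ ∃ b : List Bool, b.length = size x * size x + size x * size x ∧ some b = w := by
  by_cases hx : valid x = true
  · obtain ⟨n, S, t, g, h, rfl⟩ := (valid_iff x).1 hx
    rcases (reach_some h w).1 hr with ⟨Q, _, _, rfl⟩ | ⟨rfl, _⟩
    · right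
      exact ⟨_, by rw [pic_length, size_encodeBoard], rfl⟩
    · left; rfl
  · right
    rw [reach_invalid (by simpa using hx) hr]
    exact ⟨start x, by simp [start, cells_length], rfl⟩

end Pool.Agent.Lunar.Mem
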