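import Pool.Agent.SetPS.StrPoly

/-!
# Polynomial-time arithmetic (numbers in unary)
-/

namespace Pool.Agent.Lunar

open Pool.Agent.PT81 Pool.Agent.IsoImp Pool.Agent.SetPS Polynomial

variable {E : Env} {γ α β : Type} [Enc E γ] [Enc E α] [Enc E β]

theorem poly_ltN {a b : γ → ℕ} (ha : Poly E a) (hb : Poly E b) :
    Poly E (fun c => decide (a c < b c)) :=
  (Poly.any (f := fun c => List.range (b c)) (g := fun p : γ × ℕ => decide (p.2 = a p.1))
    (Poly.range hb) (Poly.eq Poly.snd (ha.comp Poly.fst))).congr fun c => by
    by_cases h : a c < b c
    · simp [h]
    · simp only [h, decide_false, List.any_eq_false, List.mem_range, decide_eq_true_eq]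
      intro i hi e
      omega

theorem poly_leN {a b : γ → ℕ} (ha : Poly E a) (hb : Poly E b) :
    Poly E (fun c => decide (a c ≤ b c)) :=
  (poly_ltN ha hb.succ).congr fun c => by
    by_cases h : a c ≤ b c
    · simp [h, Nat.lt_succ_of_le h]
    · have : ¬ a c < b c + 1 := by omega
      simp [h, this]

theorem poly_subN {a b : γ → ℕ} (ha : Poly E a) (hb : Poly E b) :
    Poly E (fun c => a c - b c) :=
  (Poly.length (Poly.filter (f := fun c => List.range (a c))
    (g := fun p : γ × ℕ => decide (b p.1 ≤ p.2)) (Poly.range ha)
    (poly_leN (hb.comp Poly.fst) Poly.snd))).congr fun c => by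
    have key : ∀ n m : ℕ, ((List.range n).filter fun i => decide (m ≤ i)).length = n - m := by
      intro n m
      induction n with
      | zero => simp
      | succ n ih =>
        rw [List.range_succ, List.filter_append, List.length_append, ih]
        by_cases h : m ≤ n
        · simp [h]
          omega
        · simp [h]
          omega
    exact key (a c) (b c)

theorem poly_divN {a b : γ → ℕ} (ha : Poly E a) (hb : Poly E b) :
    Poly E (fun c => a c / b c) := by
  refine (Poly.ite (Poly.eq hb (Poly.const 0)) (Poly.const 0)
    (Poly.length (Poly.filter (f := fun c => List.range (a c))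
    (g := fun p : γ × ℕ => decide ((p.2 + 1) * b p.1 ≤ a p.1)) (Poly.range ha)
    (poly_leN (Poly.mul (Poly.succ Poly.snd) (hb.comp Poly.fst)) (ha.comp Poly.fst))))).congr
      fun c => ?_
  by_cases h : b c = 0
  · simp [h]
  · have key : ∀ n m d : ℕ, 0 < d → ((List.range n).filter fun i =>
        decide ((i + 1) * d ≤ m)).length = min n (m / d) := by
      intro n m d hd
      induction n with
      | zero => simp
      | succ n ih =>
        rw [List.range_succ, List.filter_append, List.length_append, ih]
        by_cases h : (n + 1) * d ≤ m
        · have h' : n + 1 ≤ m / d := (Nat.le_div_iff_mul_le hd).2 h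
          simp only [h, decide_true, List.filter_cons_of_pos, List.filter_nil, List.length_cons,
            List.length_nil]
          omega
        · have h' : ¬ n + 1 ≤ m / d := fun hh => h ((Nat.le_div_iff_mul_le hd).1 hh)
          simp only [h, decide_false, Bool.false_eq_true, not_false_eq_true,
            List.filter_cons_of_neg, List.filter_nil, List.length_nil]
          omega
    simp only [h, decide_false, Bool.false_eq_true, if_false]
    rw [key _ _ _ (Nat.pos_of_ne_zero h)]
    exact min_eq_right (Nat.div_le_self _ _)

theorem poly_modN {a b : γ → ℕ} (ha : Poly E a) (hb : Poly E b) :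
    Poly E (fun c => a c % b c) :=
  (poly_subN ha (Poly.mul hb (poly_divN ha hb))).congr fun c => by
    have := Nat.mod_add_div (a c) (b c)
    omega

theorem poly_zipIdx {f : γ → List α} (hf : Poly E f) : Poly E (fun c => (f c).zipIdx) := by
  refine (Poly.filterMap (f := fun c => List.range (f c).length)
    (g := fun p : γ × ℕ => ((f p.1)[p.2]?).map fun a => (a, p.2)) (Poly.range hf.length)
    ?_).congr fun c => ?_
  · exact Poly.optCasesF (f := fun p : γ × ℕ => (f p.1)[p.2]?) (g := fun _ => none)
      (h := fun q : (γ × ℕ) × α => some (q.2, q.1.2)) _
      (IsoImp.Poly.getElem? (f := fun p : γ × ℕ => f p.1) (i := fun p : γ × ℕ => p.2)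
        (hf.comp Poly.fst) Poly.snd) (Poly.const _)
      (Poly.osome (Poly.pair Poly.snd (Poly.snd.comp Poly.fst)))
      (fun c hc => by rw [hc]; rfl) (fun c a hc => by rw [hc]; rfl)
  · have key : ∀ l : List α, (List.range l.length).filterMap (fun i => (l[i]?).map fun a =>
        (a, i)) = l.zipIdx := by
      intro l
      induction l using List.reverseRecOn with
      | nil => rfl
      | append_singleton l a ih =>
        rw [List.length_append, List.length_singleton, List.range_succ, List.filterMap_append,
          List.zipIdx_append]
        congr 1
        · rw [← ih]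
          apply List.filterMap_congr
          intro i hi
          rw [List.mem_range] at hi
          rw [List.getElem?_append_left hi]
        · simp
    exact key (f c)

end Pool.Agent.Lunar
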