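import Pool.Agent.Lunar.LogicDefs
import Pool.Agent.Lunar.PolyArith

/-!
# The net of a machine is computable in polynomial time
-/

set_option linter.unusedSectionVars false

namespace Pool.Agent.Lunar

open Pool.Agent.PT81 Pool.Agent.IsoImp Pool.Agent.SetPS Polynomial

/-! ### Encodings -/

/-- Encoding through an injective map. -/
@[instance_reducible] def encBy {E : Env} {α β : Type} [Enc E β] (c : α → β) (hc : Function.Injective c) : Enc E α where
  enc := fun a => en E (c a)
  inj := fun _ _ h => hc (en_inj h)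

/-- Code of a target. -/
def Tgt.cd : Tgt → Option (Option (ℕ × Bool))
  | .dead => none
  | .goal => some none
  | .port g b => some (some (g, b))

theorem Tgt.cd_inj : Function.Injective Tgt.cd := by
  intro a b h
  cases a <;> cases b <;> simp_all [Tgt.cd]

instance {E : Env} : Enc E Tgt := encBy Tgt.cd Tgt.cd_inj

/-- Code of a component. -/
def Comp.cd : Comp → Option (Tgt × (Tgt × Tgt)) × Tgt
  | .cell er el v => (some (er, (el, v)), .dead)
  | .merge o => (none, o)

theorem Comp.cd_inj : Function.Injective Comp.cd := by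
  intro a b h
  cases a <;> cases b <;> simp_all [Comp.cd]

instance {E : Env} : Enc E Comp := encBy Comp.cd Comp.cd_inj

/-- Code of an instruction. -/
def Ins.cd : Ins → Option Bool × (ℕ × ℕ)
  | .choose a b => (none, (a, b))
  | .put a b => (some true, (a, b))
  | .take a b => (some false, (a, b))

theorem Ins.cd_inj : Function.Injective Ins.cd := by
  intro a b h
  cases a <;> cases b <;> simp_all [Ins.cd]

instance {E : Env} : Enc E Ins := encBy Ins.cd Ins.cd_inj

/-- Code of a node. -/
def Node.cd (n : Node) : Bool × (Tgt × Tgt) := (n.door, (n.t0, n.t1))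

theorem Node.cd_inj : Function.Injective Node.cd := by
  rintro ⟨a, b, c⟩ ⟨a', b', c'⟩ h
  simp_all [Node.cd]

instance {E : Env} : Enc E Node := encBy Node.cd Node.cd_inj

/-- Code of a block. -/
def Block.cd (n : Block) : Bool × List (Bool × ℕ) := (n.goal, n.ops)

theorem Block.cd_inj : Function.Injective Block.cd := by
  rintro ⟨a, b⟩ ⟨a', b'⟩ h
  simp_all [Block.cd]

instance {E : Env} : Enc E Block := encBy Block.cd Block.cd_inj

variable {E : Env} {γ β : Type} [Enc E γ] [Enc E β]

theorem poly_tcd {f : γ → Tgt} (hf : Poly E f) : Poly E (fun x => (f x).cd) :=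
  PT.recode hf fun _ => rfl
theorem poly_ccd {f : γ → Comp} (hf : Poly E f) : Poly E (fun x => (f x).cd) :=
  PT.recode hf fun _ => rfl
theorem poly_icd {f : γ → Ins} (hf : Poly E f) : Poly E (fun x => (f x).cd) :=
  PT.recode hf fun _ => rfl
theorem poly_ncd {f : γ → Node} (hf : Poly E f) : Poly E (fun x => (f x).cd) :=
  PT.recode hf fun _ => rfl
theorem poly_bcd {f : γ → Block} (hf : Poly E f) : Poly E (fun x => (f x).cd) :=
  PT.recode hf fun _ => rfl

/-! ### Constructors -/

theorem poly_port {g : γ → ℕ} {b : γ → Bool} (hg : Poly E g) (hb : Poly E b) :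
    Poly E (fun x => Tgt.port (g x) (b x)) :=
  PT.recode (Poly.osome (Poly.osome (Poly.pair hg hb))) fun _ => rfl

theorem poly_cell {a b c : γ → Tgt} (ha : Poly E a) (hb : Poly E b) (hc : Poly E c) :
    Poly E (fun x => Comp.cell (a x) (b x) (c x)) :=
  PT.recode (Poly.pair (Poly.osome (Poly.pair ha (Poly.pair hb hc))) (Poly.const Tgt.dead))
    fun _ => rfl

theorem poly_merge {a : γ → Tgt} (ha : Poly E a) : Poly E (fun x => Comp.merge (a x)) :=
  PT.recode (Poly.pair (Poly.const (none : Option (Tgt × (Tgt × Tgt)))) ha) fun _ => rfl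

theorem poly_choose {a b : γ → ℕ} (ha : Poly E a) (hb : Poly E b) :
    Poly E (fun x => Ins.choose (a x) (b x)) :=
  PT.recode (Poly.pair (Poly.const (none : Option Bool)) (Poly.pair ha hb)) fun _ => rfl

theorem poly_put {a b : γ → ℕ} (ha : Poly E a) (hb : Poly E b) :
    Poly E (fun x => Ins.put (a x) (b x)) :=
  PT.recode (Poly.pair (Poly.const (some true : Option Bool)) (Poly.pair ha hb)) fun _ => rfl

theorem poly_take {a b : γ → ℕ} (ha : Poly E a) (hb : Poly E b) :
    Poly E (fun x => Ins.take (a x) (b x)) :=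
  PT.recode (Poly.pair (Poly.const (some false : Option Bool)) (Poly.pair ha hb)) fun _ => rfl

theorem poly_node {d : γ → Bool} {a b : γ → Tgt} (hd : Poly E d) (ha : Poly E a)
    (hb : Poly E b) : Poly E (fun x => (⟨d x, a x, b x⟩ : Node)) :=
  PT.recode (Poly.pair hd (Poly.pair ha hb)) fun _ => rfl

theorem poly_block {d : γ → Bool} {a : γ → List (Bool × ℕ)} (hd : Poly E d) (ha : Poly E a) :
    Poly E (fun x => (⟨d x, a x⟩ : Block)) :=
  PT.recode (Poly.pair hd ha) fun _ => rfl

/-! ### Case distinctions -/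

theorem poly_tcases {f : γ → Tgt} {h0 h1 : γ → β} {h2 : γ × (ℕ × Bool) → β} (F : γ → β)
    (hf : Poly E f) (p0 : Poly E h0) (p1 : Poly E h1) (p2 : Poly E h2)
    (e0 : ∀ x, f x = .dead → F x = h0 x) (e1 : ∀ x, f x = .goal → F x = h1 x)
    (e2 : ∀ x g b, f x = .port g b → F x = h2 (x, (g, b))) : Poly E F := by
  refine Poly.optCasesF (f := fun x => (f x).cd) (g := h0)
    (h := fun p : γ × Option (ℕ × Bool) => match p.2 with
      | none => h1 p.1
      | some q => h2 (p.1, q)) F (poly_tcd hf) p0 ?_ ?_ ?_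
  · exact Poly.optCasesF (f := fun p : γ × Option (ℕ × Bool) => p.2) (g := fun p => h1 p.1)
      (h := fun q : (γ × Option (ℕ × Bool)) × (ℕ × Bool) => h2 (q.1.1, q.2)) _ Poly.snd
      (p1.comp Poly.fst) (p2.comp (Poly.pair (Poly.fst.comp Poly.fst) Poly.snd))
      (fun c hc => by rw [hc]) (fun c a hc => by rw [hc])
  · intro x hx
    refine e0 x ?_
    cases h : f x <;> simp_all [Tgt.cd]
  · intro x a hx
    cases h : f x with
    | dead => simp [h, Tgt.cd] at hx
    | goal =>
      simp only [h, Tgt.cd, Option.some.injEq] at hx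
      subst hx
      exact e1 x h
    | port g b =>
      simp only [h, Tgt.cd, Option.some.injEq] at hx
      subst hx
      exact e2 x g b h

theorem poly_icases {f : γ → Ins} {h0 h1 h2 : γ × (ℕ × ℕ) → β} (F : γ → β)
    (hf : Poly E f) (p0 : Poly E h0) (p1 : Poly E h1) (p2 : Poly E h2)
    (e0 : ∀ x a b, f x = .choose a b → F x = h0 (x, (a, b)))
    (e1 : ∀ x a b, f x = .put a b → F x = h1 (x, (a, b)))
    (e2 : ∀ x a b, f x = .take a b → F x = h2 (x, (a, b))) : Poly E F := by
  have hp : Poly E (fun x => (x, (f x).cd.2)) := Poly.pair Poly.id (Poly.snd.comp (poly_icd hf))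
  refine Poly.optCasesF (f := fun x => (f x).cd.1) (g := fun x => h0 (x, (f x).cd.2))
    (h := fun p : γ × Bool => if p.2 then h1 (p.1, (f p.1).cd.2) else h2 (p.1, (f p.1).cd.2))
    F (Poly.fst.comp (poly_icd hf)) (p0.comp hp)
    (Poly.ite Poly.snd (p1.comp (hp.comp Poly.fst)) (p2.comp (hp.comp Poly.fst))) ?_ ?_
  · intro x hx
    cases h : f x with
    | choose a b => simpa [h, Ins.cd] using e0 x a b h
    | put a b => simp [h, Ins.cd] at hx
    | take a b => simp [h, Ins.cd] at hx
  · intro x a hx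
    cases h : f x with
    | choose a b => simp [h, Ins.cd] at hx
    | put a' b' =>
      simp only [h, Ins.cd, Option.some.injEq] at hx
      subst hx
      simpa [h, Ins.cd] using e1 x a' b' h
    | take a' b' =>
      simp only [h, Ins.cd, Option.some.injEq] at hx
      subst hx
      simpa [h, Ins.cd] using e2 x a' b' h

theorem poly_ccases {f : γ → Comp} {h0 : γ × (Tgt × (Tgt × Tgt)) → β} {h1 : γ × Tgt → β}
    (F : γ → β) (hf : Poly E f) (p0 : Poly E h0) (p1 : Poly E h1)
    (e0 : ∀ x a b c, f x = .cell a b c → F x = h0 (x, (a, (b, c))))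
    (e1 : ∀ x a, f x = .merge a → F x = h1 (x, a)) : Poly E F := by
  have hp : Poly E (fun x => (x, (f x).cd.2)) := Poly.pair Poly.id (Poly.snd.comp (poly_ccd hf))
  refine Poly.optCasesF (f := fun x => (f x).cd.1) (g := fun x => h1 (x, (f x).cd.2)) (h := h0)
    F (Poly.fst.comp (poly_ccd hf)) (p1.comp hp) p0 ?_ ?_
  · intro x hx
    cases h : f x with
    | cell a b c => simp [h, Comp.cd] at hx
    | merge a => simpa [h, Comp.cd] using e1 x a h
  · intro x a hx
    cases h : f x with
    | cell a' b' c' =>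
      simp only [h, Comp.cd, Option.some.injEq] at hx
      subst hx
      exact e0 x a' b' c' h
    | merge a => simp [h, Comp.cd] at hx

/-! ### Nets -/

theorem poly_entry {n j : γ → ℕ} (hn : Poly E n) (hj : Poly E j) :
    Poly E (fun x => entry (n x) (j x)) :=
  (Poly.ite (poly_ltN hj hn) (poly_port (Poly.mul (Poly.const 2) hj) (Poly.const false))
    (Poly.const Tgt.goal)).congr fun x => by simp [entry]

theorem poly_locNode {n : γ → ℕ} {i : γ → Ins} (hn : Poly E n) (hi : Poly E i) :
    Poly E (fun x => locNode (n x) (i x)) := by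
  have hn' : Poly E (fun p : γ × (ℕ × ℕ) => n p.1) := hn.comp Poly.fst
  have ha : Poly E (fun p : γ × (ℕ × ℕ) => p.2.1) := Poly.fst.comp Poly.snd
  have hb : Poly E (fun p : γ × (ℕ × ℕ) => p.2.2) := Poly.snd.comp Poly.snd
  refine poly_icases (h0 := fun p => ⟨false, entry (n p.1) p.2.1, entry (n p.1) p.2.2⟩)
    (h1 := fun p => ⟨true, .port (2 * n p.1 + p.2.1) false, entry (n p.1) p.2.2⟩)
    (h2 := fun p => ⟨true, .port (2 * n p.1 + p.2.1) true, entry (n p.1) p.2.2⟩) _ hi
    (poly_node (Poly.const _) (poly_entry hn' ha) (poly_entry hn' hb))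
    (poly_node (Poly.const _) (poly_port (Poly.add (Poly.mul (Poly.const 2) hn') ha)
      (Poly.const _)) (poly_entry hn' hb))
    (poly_node (Poly.const _) (poly_port (Poly.add (Poly.mul (Poly.const 2) hn') ha)
      (Poly.const _)) (poly_entry hn' hb)) ?_ ?_ ?_
  all_goals
    intro x a b h
    rw [h]
    rfl

theorem poly_retNode {n j : γ → ℕ} {i : γ → Ins} (hn : Poly E n) (hj : Poly E j)
    (hi : Poly E i) : Poly E (fun x => retNode (n x) (j x) (i x)) := by
  have hn' : Poly E (fun p : γ × (ℕ × ℕ) => n p.1) := hn.comp Poly.fst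
  have hj' : Poly E (fun p : γ × (ℕ × ℕ) => j p.1) := hj.comp Poly.fst
  have hl : Poly E (fun p : γ × (ℕ × ℕ) =>
      if j p.1 + 1 < n p.1 then Tgt.port (2 * j p.1 + 3) false else .dead) :=
    (Poly.ite (poly_ltN hj'.succ hn') (poly_port (Poly.add (Poly.mul (Poly.const 2) hj')
      (Poly.const 3)) (Poly.const false)) (Poly.const Tgt.dead)).congr fun x => by simp
  have h2 : Poly E (fun p : γ × (ℕ × ℕ) => (⟨false, .port (2 * j p.1) true,
      if j p.1 + 1 < n p.1 then Tgt.port (2 * j p.1 + 3) false else .dead⟩ : Node)) :=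
    poly_node (Poly.const _) (poly_port (Poly.mul (Poly.const 2) hj') (Poly.const _)) hl
  refine poly_icases (h0 := fun p => ⟨false, .dead,
      if j p.1 + 1 < n p.1 then .port (2 * j p.1 + 3) false else .dead⟩)
    (h1 := fun p => ⟨false, .port (2 * j p.1) true,
      if j p.1 + 1 < n p.1 then .port (2 * j p.1 + 3) false else .dead⟩)
    (h2 := fun p => ⟨false, .port (2 * j p.1) true,
      if j p.1 + 1 < n p.1 then .port (2 * j p.1 + 3) false else .dead⟩) _ hi
    (poly_node (Poly.const _) (Poly.const _) hl) h2 h2 ?_ ?_ ?_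
  all_goals
    intro x a b h
    rw [h]
    rfl

theorem poly_doorNet {Q : γ → List Ins} {P : γ → ℕ} (hQ : Poly E Q) (hP : Poly E P) :
    Poly E (fun x => doorNet (Q x) (P x)) := by
  refine Poly.append (Poly.flatMap (g := fun p : γ × (Ins × ℕ) =>
    [locNode (Q p.1).length p.2.1, retNode (Q p.1).length p.2.2 p.2.1]) (poly_zipIdx hQ) ?_)
    (Poly.replicate (g := fun _ => (⟨true, .port 1 false, .port 1 false⟩ : Node)) hP
      (Poly.const _))
  have hn : Poly E (fun p : γ × (Ins × ℕ) => (Q p.1).length) := (hQ.comp Poly.fst).length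
  have hi : Poly E (fun p : γ × (Ins × ℕ) => p.2.1) := Poly.fst.comp Poly.snd
  have hj : Poly E (fun p : γ × (Ins × ℕ) => p.2.2) := Poly.snd.comp Poly.snd
  exact Poly.cons (poly_locNode hn hi) (Poly.cons (poly_retNode hn hj hi) (Poly.const []))

theorem poly_cellTgt {t : γ → Tgt} (ht : Poly E t) : Poly E (fun x => cellTgt (t x)) := by
  have hg : Poly E (fun p : γ × (ℕ × Bool) => p.2.1) := Poly.fst.comp Poly.snd
  have hb : Poly E (fun p : γ × (ℕ × Bool) => p.2.2) := Poly.snd.comp Poly.snd
  have h2 : Poly E (fun p : γ × (ℕ × Bool) => if p.2.2 then Tgt.port (3 * p.2.1 + 2) true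
      else Tgt.port (3 * p.2.1) false) :=
    Poly.ite hb (poly_port (Poly.add (Poly.mul (Poly.const 3) hg) (Poly.const 2))
      (Poly.const true)) (poly_port (Poly.mul (Poly.const 3) hg) (Poly.const false))
  refine poly_tcases (h0 := fun _ => .dead) (h1 := fun _ => .goal) _ ht (Poly.const _)
    (Poly.const _) h2 ?_ ?_ ?_
  · intro x h
    rw [h]
    rfl
  · intro x h
    rw [h]
    rfl
  · intro x g b h
    rw [h]
    cases b <;> rfl

theorem poly_nodeCells {g : γ → ℕ} {n : γ → Node} (hg : Poly E g) (hn : Poly E n) :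
    Poly E (fun x => nodeCells (g x) (n x)) := by
  have hd : Poly E (fun x => (n x).cd.1) := Poly.fst.comp (poly_ncd hn)
  have h0 : Poly E (fun x => cellTgt (n x).cd.2.1) :=
    poly_cellTgt (Poly.fst.comp (Poly.snd.comp (poly_ncd hn)))
  have h1 : Poly E (fun x => cellTgt (n x).cd.2.2) :=
    poly_cellTgt (Poly.snd.comp (Poly.snd.comp (poly_ncd hn)))
  have h3 : Poly E (fun x => 3 * g x) := Poly.mul (Poly.const 3) hg
  have hd0 : Poly E (fun _ : γ => Tgt.dead) := Poly.const _
  refine (Poly.ite hd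
    (Poly.cons (poly_cell h0 (poly_port h3.succ (Poly.const false)) h1)
      (Poly.cons (poly_cell (poly_port h3 (Poly.const true))
        (poly_port h3.succ.succ (Poly.const false)) hd0)
      (Poly.cons (poly_cell (poly_port h3 (Poly.const true)) (poly_port h3.succ (Poly.const true))
        hd0) (Poly.const []))))
    (Poly.cons (poly_cell h0 h1 (poly_port h3 (Poly.const true)))
      (Poly.const [.cell .dead .dead .dead, .cell .dead .dead .dead]))).congr fun x => ?_
  obtain ⟨d, t0, t1⟩ := n x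
  cases d <;> rfl

theorem poly_cellNet {N : γ → List Node} (hN : Poly E N) :
    Poly E (fun x => cellNet (N x)) :=
  Poly.flatMap (g := fun p : γ × (Node × ℕ) => nodeCells p.2.2 p.2.1) (poly_zipIdx hN)
    (poly_nodeCells (Poly.snd.comp Poly.snd) (Poly.fst.comp Poly.snd))

theorem poly_tnum {C : γ → ℕ} {t : γ → Tgt} (hC : Poly E C) (ht : Poly E t) :
    Poly E (fun x => tnum (C x) (t x)) := by
  have hg : Poly E (fun p : γ × (ℕ × Bool) => 2 * p.2.1) :=
    Poly.mul (Poly.const 2) (Poly.fst.comp Poly.snd)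
  have hb : Poly E (fun p : γ × (ℕ × Bool) => p.2.2) := Poly.snd.comp Poly.snd
  refine poly_tcases (h0 := fun _ => 0) (h1 := fun x => 2 * C x)
    (h2 := fun p : γ × (ℕ × Bool) => if p.2.2 then 2 * p.2.1 + 1 else 2 * p.2.1) _ ht
    (Poly.const _) (Poly.mul (Poly.const 2) hC) (Poly.ite hb hg.succ hg) ?_ ?_ ?_
  · intro x h
    rw [h]
    rfl
  · intro x h
    rw [h]
    rfl
  · intro x g b h
    rw [h]
    cases b <;> rfl

theorem poly_newTgt {C u : γ → ℕ} {t : γ → Tgt} (hC : Poly E C) (hu : Poly E u)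
    (ht : Poly E t) : Poly E (fun x => newTgt (C x) (u x) (t x)) := by
  have h1 : Poly E (fun x => Tgt.port (midx (C x) (tnum (C x) (t x)) (u x)) true) :=
    poly_port (Poly.add (Poly.add (Poly.add (Poly.const 1) hC) (Poly.mul (poly_tnum hC ht)
      (Poly.mul (Poly.const 3) hC))) hu) (Poly.const true)
  refine poly_tcases (h0 := fun _ => .dead)
    (h1 := fun x => Tgt.port (midx (C x) (tnum (C x) (t x)) (u x)) true)
    (h2 := fun p => Tgt.port (midx (C p.1) (tnum (C p.1) (t p.1)) (u p.1)) true) _ ht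
    (Poly.const _) h1 (h1.comp Poly.fst) ?_ ?_ ?_
  · intro x h
    rw [h]
    rfl
  · intro x h
    rw [h]
    rfl
  · intro x g b h
    simp only
    rw [h]
    rfl

theorem poly_lastTgt {C v : γ → ℕ} (hC : Poly E C) (hv : Poly E v) :
    Poly E (fun x => lastTgt (C x) (v x)) :=
  (Poly.ite (poly_ltN hv (Poly.mul (Poly.const 2) hC))
    (poly_port (Poly.add (Poly.const 1) (poly_divN hv (Poly.const 2)))
      (Poly.eq (poly_modN hv (Poly.const 2)) (Poly.const 1))) (Poly.const Tgt.goal)).congr
    fun x => by simp only [lastTgt, decide_eq_true_eq]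

theorem poly_mergeComp {C m : γ → ℕ} (hC : Poly E C) (hm : Poly E m) :
    Poly E (fun x => mergeComp (C x) (m x)) := by
  have h3 : Poly E (fun x => 3 * C x) := Poly.mul (Poly.const 3) hC
  exact (Poly.ite (poly_ltN (poly_modN hm h3).succ h3)
    (poly_merge (poly_port (Poly.add (Poly.add (Poly.add (Poly.const 1) hC) hm) (Poly.const 1))
      (Poly.const false))) (poly_merge (poly_lastTgt hC (poly_divN hm h3)))).congr
    fun x => by simp only [mergeComp, decide_eq_true_eq]

theorem poly_newCell {C c : γ → ℕ} {k : γ → Comp} (hC : Poly E C) (hc : Poly E c)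
    (hk : Poly E k) : Poly E (fun x => newCell (C x) (c x) (k x)) := by
  have hC' : Poly E (fun p : γ × (Tgt × (Tgt × Tgt)) => C p.1) := hC.comp Poly.fst
  have hc' : Poly E (fun p : γ × (Tgt × (Tgt × Tgt)) => 3 * c p.1) :=
    Poly.mul (Poly.const 3) (hc.comp Poly.fst)
  refine poly_ccases (h0 := fun p => .cell (newTgt (C p.1) (3 * c p.1) p.2.1)
      (newTgt (C p.1) (3 * c p.1 + 1) p.2.2.1) (newTgt (C p.1) (3 * c p.1 + 2) p.2.2.2))
    (h1 := fun p => .merge p.2) _ hk
    (poly_cell (poly_newTgt hC' hc' (Poly.fst.comp Poly.snd))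
      (poly_newTgt hC' hc'.succ (Poly.fst.comp (Poly.snd.comp Poly.snd)))
      (poly_newTgt hC' hc'.succ.succ (Poly.snd.comp (Poly.snd.comp Poly.snd))))
    (poly_merge Poly.snd) ?_ ?_
  · intro x a b c h
    rw [h]
    rfl
  · intro x a h
    rw [h]
    rfl

theorem poly_normalNet {N : γ → List Comp} (hN : Poly E N) :
    Poly E (fun x => normalNet (N x)) := by
  have hl := hN.length
  refine Poly.cons (poly_merge (poly_port (Poly.add (Poly.const 1) hl) (Poly.const _)))
    (Poly.append ?_ ?_)
  · exact Poly.map (g := fun p : γ × (Comp × ℕ) => newCell (N p.1).length p.2.2 p.2.1)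
      (poly_zipIdx hN) (poly_newCell (hl.comp Poly.fst) (Poly.snd.comp Poly.snd)
        (Poly.fst.comp Poly.snd))
  · exact Poly.map (g := fun p : γ × ℕ => mergeComp (N p.1).length p.2)
      (Poly.range (Poly.mul (Poly.mul (Poly.const 2) hl).succ (Poly.mul (Poly.const 3) hl)))
      (poly_mergeComp (hl.comp Poly.fst) Poly.snd)

/-! ### Programs -/

theorem poly_opIns {o : γ → Bool × ℕ} {n : γ → ℕ} (ho : Poly E o) (hn : Poly E n) :
    Poly E (fun x => opIns (o x) (n x)) :=
  Poly.ite (Poly.fst.comp ho) (poly_put (Poly.snd.comp ho) hn) (poly_take (Poly.snd.comp ho) hn)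

theorem poly_blockCode {base B b : γ → ℕ} {k : γ → Block} (hbase : Poly E base) (hB : Poly E B)
    (hb : Poly E b) (hk : Poly E k) :
    Poly E (fun x => blockCode (base x) (B x) (b x) (k x)) := by
  have h8 : Poly E (fun x => base x + 8 * b x) := Poly.add hbase (Poly.mul (Poly.const 8) hb)
  have h8B : Poly E (fun x => base x + 8 * B x) := Poly.add hbase (Poly.mul (Poly.const 8) hB)
  refine Poly.cons (poly_choose h8.succ ?_) ?_
  · exact (Poly.ite (poly_ltN hb.succ hB) (Poly.add hbase (Poly.mul (Poly.const 8) hb.succ))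
      hbase).congr fun x => by simp only [decide_eq_true_eq]
  · have hops : Poly E (fun x => (k x).cd.2) := Poly.snd.comp (poly_bcd hk)
    have hgoal : Poly E (fun x => (k x).cd.1) := Poly.fst.comp (poly_bcd hk)
    refine Poly.map (g := fun p : γ × ((Bool × ℕ) × ℕ) => opIns p.2.1
      (if p.2.2 < 6 then base p.1 + 8 * b p.1 + 2 + p.2.2 else if (k p.1).goal then
        base p.1 + 8 * B p.1 else base p.1)) (poly_zipIdx hops) ?_
    refine poly_opIns (Poly.fst.comp Poly.snd) ?_
    have hz : Poly E (fun p : γ × ((Bool × ℕ) × ℕ) => p.2.2) := Poly.snd.comp Poly.snd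
    exact (Poly.ite (poly_ltN hz (Poly.const 6)) (Poly.add (Poly.add (h8.comp Poly.fst)
      (Poly.const 2)) hz) (Poly.ite (hgoal.comp Poly.fst) (h8B.comp Poly.fst)
        (hbase.comp Poly.fst))).congr fun x => by simp only [decide_eq_true_eq]; rfl

theorem poly_blockProg {I : γ → List ℕ} {Bl : γ → List Block} (hI : Poly E I)
    (hB : Poly E Bl) : Poly E (fun x => blockProg (I x) (Bl x)) := by
  refine Poly.append ?_ ?_
  · exact Poly.map (g := fun p : γ × (ℕ × ℕ) => Ins.put p.2.1 (p.2.2 + 1)) (poly_zipIdx hI)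
      (poly_put (Poly.fst.comp Poly.snd) (Poly.succ (Poly.snd.comp Poly.snd)))
  · exact Poly.flatMap (g := fun p : γ × (Block × ℕ) =>
      blockCode (I p.1).length (Bl p.1).length p.2.2 p.2.1) (poly_zipIdx hB)
      (poly_blockCode (hI.length.comp Poly.fst) (hB.length.comp Poly.fst)
        (Poly.snd.comp Poly.snd) (Poly.fst.comp Poly.snd))

/-! ### Machines -/

section um

variable {C K Sg : Type} [Fintype C] [DecidableEq C] [Fintype K] [DecidableEq K]
  [Fintype Sg] [DecidableEq Sg]

theorem poly_pl (d : PK C K Sg) {i : γ → ℕ} (hi : Poly E i) : Poly E (fun x => pl d (i x)) :=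
  Poly.add (Poly.mul (Poly.const _) hi) (Poly.const _)

theorem poly_op (b : Bool) {i : γ → ℕ} (hi : Poly E i) : Poly E (fun x => (b, i x)) :=
  Poly.pair (Poly.const b) hi

theorem poly_pad {l : γ → List (Bool × ℕ)} (hl : Poly E l) : Poly E (fun x => pad (l x)) :=
  Poly.append hl (Poly.replicate (g := fun _ => (true, 0))
    (poly_subN (Poly.const 7) hl.length) (Poly.const _))

theorem poly_blk1 (M : UM C K Sg) (c : C) (a : Sg) {i : γ → ℕ} (hi : Poly E i) :
    Poly E (fun x => blk1 M c a (i x)) := by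
  unfold blk1
  refine poly_block (Poly.const _) (poly_pad (Poly.append ?_ ?_))
  · exact Poly.cons (Poly.const _) (Poly.cons (poly_op _ (poly_pl _ hi.succ))
      (Poly.cons (poly_op _ (poly_pl _ hi)) (Poly.const _)))
  · cases M.ac c with
    | keep => exact Poly.cons (poly_op _ (poly_pl _ hi.succ)) (Poly.cons
        (poly_op _ (poly_pl _ hi)) (Poly.const _))
    | push b => exact Poly.cons (poly_op _ (poly_pl _ hi.succ.succ)) (Poly.cons
        (poly_op _ (poly_pl _ hi)) (Poly.cons (poly_op _ (poly_pl _ hi.succ)) (Poly.const _)))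
    | pop => exact Poly.cons (poly_op _ (poly_pl _ hi)) (Poly.const _)

theorem poly_blkG (k₁ : K) (acc : Sg) (c : C) {i : γ → ℕ} (hi : Poly E i) :
    Poly E (fun x => blkG k₁ acc c (i x)) := by
  unfold blkG
  refine poly_block (Poly.const _) (poly_pad ?_)
  exact Poly.cons (Poly.const _) (Poly.cons (poly_op _ (poly_pl _ hi.succ))
    (Poly.cons (poly_op _ (poly_pl _ hi)) (Poly.const _)))

theorem poly_umB1 (M : UM C K Sg) :
    Poly E (fun p : γ × ℕ => (Finset.univ : Finset (C × Sg)).toList.map fun z =>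
      blk1 M z.1 z.2 p.2) := by
  generalize (Finset.univ : Finset (C × Sg)).toList = l
  exact poly_listMap (h := fun (z : C × Sg) (p : γ × ℕ) => blk1 M z.1 z.2 p.2) l
        fun z => poly_blk1 M z.1 z.2 Poly.snd

theorem poly_umB2 (k₁ : K) (acc : Sg) (l : List C) :
    Poly E (fun p : γ × ℕ => l.map fun c => blkG k₁ acc c p.2) :=
  poly_listMap (h := fun (c : C) (p : γ × ℕ) => blkG k₁ acc c p.2) l
        fun z => poly_blkG k₁ acc z Poly.snd

theorem poly_umBlocks (M : UM C K Sg) (k₁ : K) (acc : Sg) (hc : C → Bool) {W : γ → ℕ}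
    (hW : Poly E W) : Poly E (fun x => umBlocks M k₁ acc hc (W x)) := by
  have h0 : Poly E (fun _ : γ => (Finset.univ : Finset C).toList.map (blk0 M)) := Poly.const _
  have h1 : Poly E (fun x => (List.range (W x)).flatMap fun i =>
      (Finset.univ : Finset (C × Sg)).toList.map fun z => blk1 M z.1 z.2 i) :=
    Poly.flatMap (Poly.range hW) (poly_umB1 M)
  have h2 : Poly E (fun x => (List.range (W x)).flatMap fun i =>
      ((Finset.univ : Finset C).toList.filter hc).map fun c => blkG k₁ acc c i) :=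
    Poly.flatMap (Poly.range hW) (poly_umB2 k₁ acc _)
  have h3 := Poly.append (Poly.append h0 h1) h2
  unfold umBlocks
  exact h3

theorem poly_umInit {Γ : Type} [Fintype Γ] [Enc E Γ] (c0 : C) (k₀ : K) (inX : Γ → Sg)
    {x : γ → List Γ} (hx : Poly E x) : Poly E (fun z => umInit c0 k₀ inX (x z)) := by
  refine Poly.cons (Poly.const _) (Poly.append (poly_listMap _ fun k => ?_) ?_)
  · refine poly_pl _ ?_
    by_cases h : k = k₀
    · simp only [h, if_true]
      exact hx.length
    · simp only [h, if_false]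
      exact Poly.const _
  · refine Poly.map (g := fun p : γ × (Γ × ℕ) => plS C k₀ (inX p.2.1) p.2.2)
      (poly_zipIdx hx.reverse) ?_
    refine Poly.add (Poly.mul (Poly.const _) (Poly.snd.comp Poly.snd)) (Poly.succ ?_)
    exact Poly.comp₁ (fun a : Γ => ((Fintype.equivFin (PK C K Sg)
      (.inr (.inr (k₀, inX a)))).1 : ℕ)) (Poly.fst.comp Poly.snd)

/-- The net of a machine is computable in polynomial time. -/
theorem poly_umNet {Γ : Type} [Fintype Γ] [Enc E Γ] (M : UM C K Sg) (c0 : C) (k₀ k₁ : K)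
    (inX : Γ → Sg) (acc : Sg) (hc : C → Bool) (p : ℕ[X]) :
    Poly E (fun x : List Γ => umNet M c0 k₀ k₁ inX acc hc (p.eval x.length) x) := by
  have hx : Poly E (fun x : List Γ => x) := Poly.id
  have hW : Poly E (fun x : List Γ => p.eval x.length) := Poly.polyEval p hx.length
  exact poly_normalNet (poly_cellNet (poly_doorNet (poly_blockProg (poly_umInit c0 k₀ inX hx)
    (poly_umBlocks M k₁ acc hc hW)) (Poly.mul (Poly.const _) (Poly.add hW (Poly.const 2)))))

end um

end Pool.Agent.Lunar
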