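import Pool.Agent.Lunar.Layout
import Pool.Agent.Lunar.Lang
import Pool.Agent.Lunar.PolyNet

/-!
# The board of a net is computable in polynomial time and is a legal instance
-/

set_option linter.unusedSectionVars false

namespace Pool.Agent.Lunar

open Pool.Agent.PT81 Pool.Agent.IsoImp Pool.Agent.SetPS Polynomial

instance : Fintype Kind :=
  ⟨{.cell, .mergeA, .mergeC, .start, .goal}, fun x => by cases x <;> simp⟩

noncomputable instance {E : Env} : Enc E Kind := finEnc E Kind

/-- Code of a block. -/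
def Blk.cd (b : Blk) : Kind × (Option ℕ × (Option ℕ × Option ℕ)) := (b.kind, (b.t0, (b.t1, b.t2)))

theorem Blk.cd_inj : Function.Injective Blk.cd := by
  rintro ⟨a, b, c, d⟩ ⟨a', b', c', d'⟩ h
  simp_all [Blk.cd]

noncomputable instance {E : Env} : Enc E Blk := encBy Blk.cd Blk.cd_inj

variable {E : Env} {γ β : Type} [Enc E γ] [Enc E β]

theorem poly_bkcd {f : γ → Blk} (hf : Poly E f) : Poly E (fun x => (f x).cd) :=
  PT.recode hf fun _ => rfl

theorem poly_blk {k : γ → Kind} {a b c : γ → Option ℕ} (hk : Poly E k) (ha : Poly E a)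
    (hb : Poly E b) (hc : Poly E c) : Poly E (fun x => (⟨k x, a x, b x, c x⟩ : Blk)) :=
  PT.recode (Poly.pair hk (Poly.pair ha (Poly.pair hb hc))) fun _ => rfl

/-! ### Blocks -/

theorem poly_mainBlk {n g : γ → ℕ} {c : γ → Comp} (hn : Poly E n) (hg : Poly E g)
    (hc : Poly E c) : Poly E (fun x => mainBlk (n x) (g x) (c x)) := by
  have h : Poly E (fun x => n x + 3 * g x) := Poly.add hn (Poly.mul (Poly.const 3) hg)
  have h0 : Poly E (fun x => (⟨.cell, some (n x + 3 * g x), some (n x + 3 * g x + 1),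
      some (n x + 3 * g x + 2)⟩ : Blk)) :=
    poly_blk (Poly.const _) (Poly.osome h) (Poly.osome h.succ) (Poly.osome h.succ.succ)
  have h1 : Poly E (fun x => (⟨.mergeA, none, none, some (n x + 3 * g x)⟩ : Blk)) :=
    poly_blk (Poly.const _) (Poly.const _) (Poly.const _) (Poly.osome h)
  refine poly_ccases (h0 := fun p => ⟨.cell, some (n p.1 + 3 * g p.1), some (n p.1 + 3 * g p.1 + 1),
      some (n p.1 + 3 * g p.1 + 2)⟩) (h1 := fun p => ⟨.mergeA, none, none,
      some (n p.1 + 3 * g p.1)⟩) _ hc (h0.comp Poly.fst) (h1.comp Poly.fst) ?_ ?_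
  · intro x a b c h
    rw [h]
    rfl
  · intro x a h
    rw [h]
    rfl

theorem poly_convBlk {n : γ → ℕ} {t : γ → Tgt} (hn : Poly E n) (ht : Poly E t) :
    Poly E (fun x => convBlk (n x) (t x)) := by
  have h2 : Poly E (fun p : γ × (ℕ × Bool) =>
      if p.2.2 then (⟨.mergeA, none, none, some p.2.1⟩ : Blk)
        else ⟨.mergeC, none, some p.2.1, none⟩) :=
    Poly.ite (Poly.snd.comp Poly.snd)
      (poly_blk (Poly.const _) (Poly.const _) (Poly.const _)
        (Poly.osome (Poly.fst.comp Poly.snd)))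
      (poly_blk (Poly.const _) (Poly.const _) (Poly.osome (Poly.fst.comp Poly.snd))
        (Poly.const _))
  refine poly_tcases (h0 := fun _ => ⟨.mergeA, none, none, none⟩)
    (h1 := fun x => ⟨.mergeC, none, some (4 * n x + 1), none⟩) _ ht (Poly.const _)
    (poly_blk (Poly.const _) (Poly.const _)
      (Poly.osome (Poly.succ (Poly.mul (Poly.const 4) hn))) (Poly.const _)) h2 ?_ ?_ ?_
  · intro x h
    rw [h]
    rfl
  · intro x h
    rw [h]
    rfl
  · intro x g b h
    rw [h]
    cases b <;> rfl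

theorem poly_wire {c : γ → Comp} (hc : Poly E c) (k : ℕ) : Poly E (fun x => (c x).wire k) := by
  rcases k with _ | _ | _ | k
  · refine poly_ccases (h0 := fun p => p.2.1) (h1 := fun p => p.2) _ hc
      (Poly.fst.comp Poly.snd) Poly.snd ?_ ?_
    · intro x a b c h
      rw [h]; rfl
    · intro x a h
      rw [h]; rfl
  · refine poly_ccases (h0 := fun p => p.2.2.1) (h1 := fun _ => .dead) _ hc
      (Poly.fst.comp (Poly.snd.comp Poly.snd)) (Poly.const _) ?_ ?_
    · intro x a b c h
      rw [h]; rfl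
    · intro x a h
      rw [h]; rfl
  · refine poly_ccases (h0 := fun p => p.2.2.2) (h1 := fun _ => .dead) _ hc
      (Poly.snd.comp (Poly.snd.comp Poly.snd)) (Poly.const _) ?_ ?_
    · intro x a b c h
      rw [h]; rfl
    · intro x a h
      rw [h]; rfl
  · refine poly_ccases (h0 := fun _ => .dead) (h1 := fun _ => .dead) _ hc
      (Poly.const _) (Poly.const _) ?_ ?_
    · intro x a b c h
      rw [h]; rfl
    · intro x a h
      rw [h]; rfl

theorem poly_physNet {N : γ → List Comp} (hN : Poly E N) : Poly E (fun x => physNet (N x)) := by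
  have hl := hN.length
  refine Poly.append (Poly.append ?_ ?_) (Poly.const _)
  · exact Poly.map (g := fun p : γ × (Comp × ℕ) => mainBlk (N p.1).length p.2.2 p.2.1)
      (poly_zipIdx hN) (poly_mainBlk (hl.comp Poly.fst) (Poly.snd.comp Poly.snd)
        (Poly.fst.comp Poly.snd))
  · refine Poly.flatMap (g := fun p : γ × Comp => [convBlk (N p.1).length (p.2.wire 0),
      convBlk (N p.1).length (p.2.wire 1), convBlk (N p.1).length (p.2.wire 2)]) hN ?_
    have h : ∀ k, Poly E (fun p : γ × Comp => convBlk (N p.1).length (p.2.wire k)) := fun k =>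
      poly_convBlk (hl.comp Poly.fst) (poly_wire Poly.snd k)
    exact Poly.cons (h 0) (Poly.cons (h 1) (Poly.cons (h 2) (Poly.const _)))

/-! ### Tokens -/

theorem poly_xcol {k : γ → ℕ} (hk : Poly E k) : Poly E (fun x => xcol (k x)) :=
  (Poly.ite (Poly.eq hk (Poly.const 0)) (Poly.const 24) (Poly.ite (Poly.eq hk (Poly.const 1))
    (Poly.const 16) (Poly.const 6))).congr fun x => by
    rcases k x with _ | _ | n <;> simp [xcol]

theorem poly_bx {m b : γ → ℕ} (hm : Poly E m) (hb : Poly E b) :
    Poly E (fun x => bx (m x) (b x)) :=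
  Poly.add (Poly.add (Poly.mul (Poly.const 9) hm) (Poly.const 1)) (Poly.mul (Poly.const 30) hb)

theorem poly_by {b : γ → ℕ} (hb : Poly E b) : Poly E (fun x => by' (b x)) :=
  Poly.mul (Poly.const 17) hb

theorem poly_wx {m b k : γ → ℕ} (hm : Poly E m) (hb : Poly E b) (hk : Poly E k) :
    Poly E (fun x => wx (m x) (b x) (k x)) :=
  (Poly.ite (Poly.eq hk (Poly.const 1)) (Poly.add (Poly.add (Poly.add
    (Poly.mul (Poly.const 39) hm) (Poly.const 2)) (Poly.mul (Poly.const 9) hb))
    (Poly.mul (Poly.const 3) hk)) (Poly.add (Poly.mul (Poly.const 9) hb)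
    (Poly.mul (Poly.const 3) hk))).congr fun x => by simp only [wx, decide_eq_true_eq]

theorem poly_wy {m b k : γ → ℕ} (hm : Poly E m) (hb : Poly E b) (hk : Poly E k) :
    Poly E (fun x => wy (m x) (b x) (k x)) :=
  Poly.add (Poly.add (Poly.add (Poly.mul (Poly.const 17) hm) (Poly.const 1))
    (Poly.mul (Poly.const 9) hb)) (Poly.mul (Poly.const 3) hk)

theorem poly_exitCell {m b k : γ → ℕ} (hm : Poly E m) (hb : Poly E b) (hk : Poly E k) :
    Poly E (fun x => exitCell (m x) (b x) (k x)) :=
  Poly.pair (Poly.add (poly_bx hm hb) (poly_xcol hk)) (poly_wy hm hb hk).succ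

theorem poly_exitTok {m b k : γ → ℕ} (hm : Poly E m) (hb : Poly E b) (hk : Poly E k) :
    Poly E (fun x => exitTok (m x) (b x) (k x)) :=
  Poly.pair (Poly.add (poly_bx hm hb) (poly_xcol hk)) (poly_wy hm hb hk).succ.succ

theorem poly_wireToks {m b k g : γ → ℕ} (hm : Poly E m) (hb : Poly E b) (hk : Poly E k)
    (hg : Poly E g) : Poly E (fun x => wireToks (m x) (b x) (k x) (g x)) := by
  have h1 := poly_wx hm hb hk
  have h2 := poly_wy hm hb hk
  have h3 := poly_by hg
  exact (Poly.ite (Poly.eq hk (Poly.const 1))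
    (Poly.cons (Poly.pair h1.succ.succ h2.succ) (Poly.cons (Poly.pair h1.succ
      (Poly.add h3 (Poly.const 8))) (Poly.const [])))
    (Poly.cons (Poly.pair h1 h2.succ) (Poly.cons (Poly.pair h1.succ
      (Poly.add h3 (Poly.const 4))) (Poly.const [])))).congr
    fun x => by simp only [wireToks, decide_eq_true_eq]

theorem poly_blkToks {m b : γ → ℕ} {B : γ → Blk} (hm : Poly E m) (hb : Poly E b)
    (hB : Poly E B) : Poly E (fun x => blkToks (m x) (b x) (B x)) := by
  have hkind : Poly E (fun x => (B x).kind) := Poly.fst.comp (poly_bkcd hB)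
  have ht0 : Poly E (fun x => (B x).t0) := Poly.fst.comp (Poly.snd.comp (poly_bkcd hB))
  have ht1 : Poly E (fun x => (B x).t1) :=
    Poly.fst.comp (Poly.snd.comp (Poly.snd.comp (poly_bkcd hB)))
  have ht2 : Poly E (fun x => (B x).t2) :=
    Poly.snd.comp (Poly.snd.comp (Poly.snd.comp (poly_bkcd hB)))
  refine Poly.append ?_ ?_
  · refine Poly.map (g := fun p : γ × Cell => ((bx (m p.1) (b p.1) + p.2.1,
      by' (b p.1) + p.2.2) : Cell)) (Poly.comp₁ Kind.loc hkind) ?_
    exact Poly.pair (Poly.add ((poly_bx hm hb).comp Poly.fst) (Poly.fst.comp Poly.snd))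
      (Poly.add ((poly_by hb).comp Poly.fst) (Poly.snd.comp Poly.snd))
  · refine Poly.flatMap (g := fun p : γ × ℕ => exitTok (m p.1) (b p.1) p.2 ::
      match (B p.1).t p.2 with
      | none => []
      | some g => wireToks (m p.1) (b p.1) p.2 g) (Poly.comp₁ Kind.ex hkind) ?_
    have hm' : Poly E (fun p : γ × ℕ => m p.1) := hm.comp Poly.fst
    have hb' : Poly E (fun p : γ × ℕ => b p.1) := hb.comp Poly.fst
    refine Poly.cons (poly_exitTok hm' hb' Poly.snd) ?_
    refine Poly.optCasesF (f := fun p : γ × ℕ => (B p.1).t p.2) (g := fun _ => [])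
      (h := fun q : (γ × ℕ) × ℕ => wireToks (m q.1.1) (b q.1.1) q.1.2 q.2) _ ?_ (Poly.const _)
      ?_ ?_ ?_
    · refine (Poly.ite (Poly.eq Poly.snd (Poly.const 0)) (ht0.comp Poly.fst)
        (Poly.ite (Poly.eq Poly.snd (Poly.const 1)) (ht1.comp Poly.fst)
          (ht2.comp Poly.fst))).congr fun p => ?_
      obtain ⟨c, k⟩ := p
      rcases k with _ | _ | k <;> simp [Blk.t]
    · exact poly_wireToks (hm'.comp Poly.fst) (hb'.comp Poly.fst) (Poly.snd.comp Poly.fst)
        Poly.snd
    · intro p hp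
      rw [hp]
    · intro p g hp
      rw [hp]

theorem poly_toks {B : γ → List Blk} (hB : Poly E B) : Poly E (fun x => toks (B x)) :=
  Poly.flatMap (g := fun p : γ × (Blk × ℕ) => blkToks (B p.1).length p.2.2 p.2.1)
    (poly_zipIdx hB) (poly_blkToks (hB.length.comp Poly.fst) (Poly.snd.comp Poly.snd)
      (Poly.fst.comp Poly.snd))

theorem poly_nBlk {N : γ → List Comp} (hN : Poly E N) : Poly E (fun x => nBlk (N x)) :=
  Poly.add (Poly.mul (Poly.const 4) hN.length) (Poly.const 2)

theorem poly_others {N : γ → List Comp} (hN : Poly E N) : Poly E (fun x => others (N x)) :=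
  Poly.cons (poly_exitCell (poly_nBlk hN) (Poly.mul (Poly.const 4) hN.length) (Poly.const 1))
    (poly_toks (poly_physNet hN))

theorem poly_corner {N : γ → List Comp} (hN : Poly E N) (a b : ℕ) :
    Poly E (fun x => ((bx (nBlk (N x)) (4 * (N x).length + 1) + a,
      by' (4 * (N x).length + 1) + b) : Cell)) := by
  have h := Poly.succ (Poly.mul (Poly.const 4) hN.length)
  exact Poly.pair (Poly.add (poly_bx (poly_nBlk hN) h) (Poly.const a))
    (Poly.add (poly_by h) (Poly.const b))

theorem poly_targetCell {N : γ → List Comp} (hN : Poly E N) :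
    Poly E (fun x => targetCell (N x)) := poly_corner hN 13 13

theorem poly_goalCell {N : γ → List Comp} (hN : Poly E N) :
    Poly E (fun x => goalCell (N x)) := poly_corner hN 13 10

theorem poly_side {N : γ → List Comp} (hN : Poly E N) : Poly E (fun x => side (N x)) :=
  Poly.add (Poly.mul (Poly.const 48) (poly_nBlk hN)) (Poly.const 5)

/-! ### The picture -/

theorem poly_encodeBoard [Enc E (Fin 3)] {n : γ → ℕ} {l : γ → List Cell} {t g : γ → Cell}
    (hn : Poly E n) (hl : Poly E l) (ht : Poly E t) (hg : Poly E g) :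
    Poly E (fun x => encodeBoard (n x) (l x).toFinset (t x) (g x)) := by
  refine Poly.flatMap (g := fun p : γ × ℕ => ((List.range (n p.1)).map fun z =>
    (some (cellSym (l p.1).toFinset (t p.1) (g p.1) (z, p.2)) : Sy)) ++ [none])
    (Poly.range hn) ?_
  refine Poly.append (Poly.map (g := fun q : (γ × ℕ) × ℕ =>
    (some (cellSym (l q.1.1).toFinset (t q.1.1) (g q.1.1) (q.2, q.1.2)) : Sy))
    (Poly.range (hn.comp Poly.fst)) ?_) (Poly.const _)
  have hc : Poly E (fun q : (γ × ℕ) × ℕ => ((q.2, q.1.2) : Cell)) :=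
    Poly.pair Poly.snd (Poly.snd.comp Poly.fst)
  have h11 : Poly E (fun q : (γ × ℕ) × ℕ => q.1.1) := Poly.fst.comp Poly.fst
  have hmem : Poly E (fun q : (γ × ℕ) × ℕ => (l q.1.1).any fun c => decide (c = (q.2, q.1.2))) :=
    Poly.any (g := fun r : ((γ × ℕ) × ℕ) × Cell => decide (r.2 = (r.1.2, r.1.1.2)))
      (hl.comp h11) (Poly.eq Poly.snd (hc.comp Poly.fst))
  refine Poly.osome (Poly.pair ?_ (Poly.eq hc (hg.comp h11)))
  refine (Poly.ite (Poly.eq hc (ht.comp h11)) (Poly.const (2 : Fin 3))
    (Poly.ite hmem (Poly.const (1 : Fin 3)) (Poly.const (0 : Fin 3)))).congr fun q => ?_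
  simp only [decide_eq_true_eq, List.any_eq_true, List.mem_toFinset]
  by_cases h1 : (q.2, q.1.2) = t q.1.1
  · simp [h1]
  · by_cases h2 : (q.2, q.1.2) ∈ l q.1.1
    · simp [h1, h2]
    · simp only [h1, h2, if_false]
      rw [if_neg]
      rintro ⟨c, hc, rfl⟩
      exact h2 hc

/-- The board of a net is computable in polynomial time. -/
theorem poly_board [Enc E (Fin 3)] {N : γ → List Comp} (hN : Poly E N) :
    Poly E (fun x => encodeBoard (side (N x)) (others (N x)).toFinset (targetCell (N x))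
      (goalCell (N x))) :=
  poly_encodeBoard (poly_side hN) (poly_others hN) (poly_targetCell hN) (poly_goalCell hN)

end Pool.Agent.Lunar
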