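import Pool.Agent.Lunar.Lang
import Pool.Agent.Lunar.Logic
import Pool.Agent.Lunar.PolyLayout
import Pool.Agent.Lunar.Bounds
import Pool.Agent.Lunar.MemSem
import Pool.Agent.SetPS.PspaceHalt

/-!
# LUNAR LOCKOUT is PSPACE-hard
-/

namespace Pool.Agent.Lunar

open Pool.Agent.PT81 Pool.Agent.IsoImp Pool.Agent.SetPS Polynomial

theorem mem_LUNAR_net (hP : Stmt_Phys) {N : List Comp} (hN : Normal N) :
    encodeBoard (side N) (others N).toFinset (targetCell N) (goalCell N) ∈ LUNAR ↔ CReach N := by
  rw [← hP N hN]
  constructor
  · rintro ⟨n, S, t, g, hb, he, hs⟩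
    have hb' := onBoard_net hN
    have h1 : side N = n := by
      rw [← Mem.size_encodeBoard (side N) (others N).toFinset (targetCell N) (goalCell N), he,
        Mem.size_encodeBoard]
    subst h1
    have h2 : ∀ c : Cell, c.1 < side N ∧ c.2 < side N →
        cellSym (others N).toFinset (targetCell N) (goalCell N) c = cellSym S t g c := by
      intro c hc
      have := Mem.sy_encodeBoard (S := (others N).toFinset) (t := targetCell N)
        (g := goalCell N) hc
      rw [he, Mem.sy_encodeBoard hc] at this
      exact (Option.some.inj (Option.some.inj this)).symm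
    have h3 : targetCell N = t := by
      have h := congrArg Prod.fst (h2 _ hb'.target)
      simp only [cellSym, if_true] at h
      by_contra hne
      rw [if_neg hne] at h
      split at h <;> exact absurd h (by decide)
    have h4 : goalCell N = g := by
      have h := congrArg Prod.snd (h2 _ hb'.goal)
      simp only [cellSym, decide_true] at h
      exact of_decide_eq_true h.symm
    have h5 : (others N).toFinset = S := by
      ext c
      constructor
      · intro hc
        have hc' := hb'.others c hc
        have h := congrArg Prod.fst (h2 c hc')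
        simp only [cellSym] at h
        have hne : c ≠ targetCell N := fun e => hb'.free (e ▸ hc)
        rw [if_neg hne, if_pos hc, if_neg (h3 ▸ hne)] at h
        by_contra hcS
        rw [if_neg hcS] at h
        exact absurd h (by decide)
      · intro hc
        have hc' := hb.others c hc
        have h := congrArg Prod.fst (h2 c hc')
        simp only [cellSym] at h
        have hne : c ≠ t := fun e => hb.free (e ▸ hc)
        rw [if_neg hne, if_pos hc, if_neg (h3 ▸ hne)] at h
        by_contra hcS
        rw [if_neg hcS] at h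
        exact absurd h (by decide)
    subst h3 h4 h5
    exact hs
  · intro hs
    exact ⟨side N, (others N).toFinset, targetCell N, goalCell N, onBoard_net hN, rfl, hs⟩

/-- LUNAR LOCKOUT is PSPACE-hard. -/
theorem lunar_hard (hP : Stmt_Phys) (Γ : Type) [Fintype Γ] (L : Set (List Γ))
    (hL : InPSPACE L) : Pool.Agent.SetPS.PolyReduces L LUNAR := by
  classical
  obtain ⟨C, K, Sg, _, _, _, _, _, _, M, c0, k₀, k₁, inX, acc, hc, p, h⟩ := pspace_um_halt L hL
  refine ⟨fun x => encodeBoard (side (umNet M c0 k₀ k₁ inX acc hc (p.eval x.length) x))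
    (others (umNet M c0 k₀ k₁ inX acc hc (p.eval x.length) x)).toFinset
    (targetCell (umNet M c0 k₀ k₁ inX acc hc (p.eval x.length) x))
    (goalCell (umNet M c0 k₀ k₁ inX acc hc (p.eval x.length) x)), ?_, fun x => ?_⟩
  · let _ : Enc (io Γ Sy) Γ := finEnc _ Γ
    let _ : Enc (io Γ Sy) (Fin 3) := finEnc _ (Fin 3)
    have _ : Inhabited Sy := ⟨none⟩
    exact poly_toTM2 (G₀ := Γ) (G₁ := Sy) (F := fun x =>
      encodeBoard (side (umNet M c0 k₀ k₁ inX acc hc (p.eval x.length) x))
      (others (umNet M c0 k₀ k₁ inX acc hc (p.eval x.length) x)).toFinset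
      (targetCell (umNet M c0 k₀ k₁ inX acc hc (p.eval x.length) x))
      (goalCell (umNet M c0 k₀ k₁ inX acc hc (p.eval x.length) x)))
      (poly_board (poly_umNet M c0 k₀ k₁ inX acc hc p)) _ _ _ (fun _ => rfl)
  · obtain ⟨hlen, hacc⟩ := h x
    have hx : x.length ≤ p.eval x.length := by
      have := hlen 0 k₀
      simpa using this
    rw [mem_LUNAR_net hP (umNet_normal M c0 k₀ k₁ inX acc hc hx),
      umNet_reach M c0 k₀ k₁ inX acc hc _ x hlen, hacc]

end Pool.Agent.Lunar
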