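import Pool.Agent.Lunar.Defs
import Mathlib.Data.Finset.Image

/-!
# Kernel checkable closure certificates for local boards

Configurations are lists of cells in canonical coordinates. The board itself uses the images of
the canonical coordinates under two strictly monotone maps `fx`, `fy`; the predicates `ux`, `uy`
tell where these maps are unit steps. `Good ux uy c` says that all slides of the configuration
`c` end in places where the maps are unit steps; then the steps of the board are exactly the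
images of the canonical steps.
-/

namespace Pool.Agent.Lunar.KD

/-- A configuration of tokens in canonical coordinates. -/
abbrev Cfg : Type := List Cell

/-- The cells occupied on the board by the tokens of the configuration `c`. -/
def img (fx fy : ℕ → ℕ) (c : Cfg) : Finset Cell := (c.map fun p => (fx p.1, fy p.2)).toFinset

/-- Boolean equality of cells. -/
def eqc (p q : Cell) : Bool := Nat.beq p.1 q.1 && Nat.beq p.2 q.2

/-- Boolean lexicographic order of cells. -/
def ltc (p q : Cell) : Bool := Nat.blt p.1 q.1 || (Nat.beq p.1 q.1 && Nat.blt p.2 q.2)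

/-- Boolean equality of configurations. -/
def eqCfg : Cfg → Cfg → Bool
  | [], [] => true
  | p :: c, q :: d => eqc p q && eqCfg c d
  | [], _ :: _ => false
  | _ :: _, [] => false

/-- Membership of a configuration in a list. -/
def memCfg (c : Cfg) : List Cfg → Bool
  | [] => false
  | d :: l => eqCfg c d || memCfg c l

/-- Insertion of a cell. -/
def ins (q : Cell) : Cfg → Cfg
  | [] => [q]
  | a :: l => bif ltc q a then q :: a :: l else a :: ins q l

/-- Removal of a cell. -/
def del (p : Cell) (c : Cfg) : Cfg := c.filter fun b => !(eqc b p)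

/-- Replacement of the cell `p` by the cell `q`. -/
def mv (c : Cfg) (p q : Cell) : Cfg := ins q (del p c)

/-- In the configuration `c` the token `a` is the first one to the right of `p`. -/
def seeR (c : Cfg) (p a : Cell) : Bool :=
  Nat.beq p.2 a.2 && Nat.blt p.1 a.1 &&
    c.all fun b => !(Nat.beq b.2 p.2 && Nat.blt p.1 b.1 && Nat.blt b.1 a.1)

/-- In the configuration `c` the token `a` is the first one above `p`. -/
def seeU (c : Cfg) (p a : Cell) : Bool :=
  Nat.beq p.1 a.1 && Nat.blt p.2 a.2 &&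
    c.all fun b => !(Nat.beq b.1 p.1 && Nat.blt p.2 b.2 && Nat.blt b.2 a.2)

/-- All configurations reached by one step. -/
def succs (c : Cfg) : List Cfg :=
  c.flatMap fun p => c.flatMap fun a =>
    (bif seeR c p a then [mv c p (a.1 - 1, a.2), mv c a (p.1 + 1, p.2)] else []) ++
    (bif seeU c p a then [mv c p (a.1, a.2 - 1), mv c a (p.1, p.2 + 1)] else [])

/-- All slides end in places where the coordinate maps are unit steps. -/
def good (ux uy : ℕ → Bool) (c : Cfg) : Bool :=
  c.all fun p => c.all fun a =>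
    (!(seeR c p a) || (ux (a.1 - 1) && ux p.1)) &&
    (!(seeU c p a) || (uy (a.2 - 1) && uy p.2))

/-- The coordinate map `f` is strictly monotone and a unit step wherever `u` says so. -/
structure Fine (u : ℕ → Bool) (f : ℕ → ℕ) : Prop where
  mono : StrictMono f
  unit : ∀ i, u i = true → f (i + 1) = f i + 1

theorem eqc_iff (p q : Cell) : eqc p q = true ↔ p = q := by
  rcases p with ⟨a, b⟩
  rcases q with ⟨c, d⟩
  simp [eqc]

theorem eqCfg_sound : ∀ c d : Cfg, eqCfg c d = true → c = d
  | [], [], _ => rfl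
  | p :: c, q :: d, h => by
      simp only [eqCfg, Bool.and_eq_true, eqc_iff] at h
      rw [h.1, eqCfg_sound c d h.2]
  | [], _ :: _, h => by simp [eqCfg] at h
  | _ :: _, [], h => by simp [eqCfg] at h

theorem memCfg_sound (c : Cfg) : ∀ l : List Cfg, memCfg c l = true → c ∈ l
  | [], h => by simp [memCfg] at h
  | d :: l, h => by
      simp only [memCfg, Bool.or_eq_true] at h
      rcases h with h | h
      · rw [eqCfg_sound c d h]; exact List.mem_cons_self
      · exact List.mem_cons_of_mem _ (memCfg_sound c l h)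

theorem mem_ins (q b : Cell) : ∀ c : Cfg, b ∈ ins q c ↔ b = q ∨ b ∈ c
  | [] => by simp [ins]
  | a :: l => by
      unfold ins
      cases ltc q a
      · simp only [cond_false, List.mem_cons, mem_ins q b l]
        tauto
      · simp

theorem mem_del (p b : Cell) (c : Cfg) : b ∈ del p c ↔ b ∈ c ∧ b ≠ p := by
  simp [del, List.mem_filter, ← Bool.not_eq_true, eqc_iff]

theorem mem_mv (c : Cfg) (p q b : Cell) : b ∈ mv c p q ↔ b = q ∨ (b ∈ c ∧ b ≠ p) := by
  rw [mv, mem_ins, mem_del]

section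

variable {fx fy : ℕ → ℕ} {ux uy : ℕ → Bool}

/-- The map on cells. -/
def ph (fx fy : ℕ → ℕ) (p : Cell) : Cell := (fx p.1, fy p.2)

theorem mem_img (c : Cfg) (q : Cell) : q ∈ img fx fy c ↔ ∃ p ∈ c, ph fx fy p = q := by
  simp [img, ph]

theorem ph_inj (hx : Fine ux fx) (hy : Fine uy fy) {p q : Cell} (h : ph fx fy p = ph fx fy q) :
    p = q := by
  rcases p with ⟨a, b⟩
  rcases q with ⟨c, d⟩
  simp only [ph, Prod.mk.injEq] at h
  rw [hx.mono.injective h.1, hy.mono.injective h.2]

theorem img_ins (q : Cell) (c : Cfg) : img fx fy (ins q c) = insert (ph fx fy q) (img fx fy c) := by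
  ext b
  simp only [mem_img, Finset.mem_insert, mem_ins]
  constructor
  · rintro ⟨p, rfl | hp, rfl⟩
    · exact Or.inl rfl
    · exact Or.inr ⟨p, hp, rfl⟩
  · rintro (rfl | ⟨p, hp, rfl⟩)
    · exact ⟨q, Or.inl rfl, rfl⟩
    · exact ⟨p, Or.inr hp, rfl⟩

theorem img_del (hx : Fine ux fx) (hy : Fine uy fy) (p : Cell) (c : Cfg) :
    img fx fy (del p c) = (img fx fy c).erase (ph fx fy p) := by
  ext b
  simp only [mem_img, Finset.mem_erase, mem_del]
  constructor
  · rintro ⟨q, ⟨hq, hne⟩, rfl⟩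
    exact ⟨fun h => hne (ph_inj hx hy h), q, hq, rfl⟩
  · rintro ⟨hne, q, hq, rfl⟩
    exact ⟨q, ⟨hq, fun h => hne (by rw [h])⟩, rfl⟩

theorem img_mv (hx : Fine ux fx) (hy : Fine uy fy) (c : Cfg) (p q : Cell) :
    img fx fy (mv c p q) = insert (ph fx fy q) ((img fx fy c).erase (ph fx fy p)) := by
  rw [mv, img_ins, img_del hx hy]

theorem beq_iff (a b : ℕ) : Nat.beq a b = true ↔ a = b := by simp

theorem blt_iff (a b : ℕ) : Nat.blt a b = true ↔ a < b := by
  rw [Nat.blt, Nat.ble_eq]
  exact Nat.succ_le_iff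

theorem seeR_iff (c : Cfg) (p a : Cell) : seeR c p a = true ↔
    p.2 = a.2 ∧ p.1 < a.1 ∧ ∀ b ∈ c, ¬ (b.2 = p.2 ∧ p.1 < b.1 ∧ b.1 < a.1) := by
  simp only [seeR, Bool.and_eq_true, beq_iff, blt_iff, List.all_eq_true,
    Bool.not_eq_true', ← Bool.not_eq_true, and_assoc]

theorem seeU_iff (c : Cfg) (p a : Cell) : seeU c p a = true ↔
    p.1 = a.1 ∧ p.2 < a.2 ∧ ∀ b ∈ c, ¬ (b.1 = p.1 ∧ p.2 < b.2 ∧ b.2 < a.2) := by
  simp only [seeU, Bool.and_eq_true, beq_iff, blt_iff, List.all_eq_true,
    Bool.not_eq_true', ← Bool.not_eq_true, and_assoc]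

theorem good_R {c : Cfg} (hg : good ux uy c = true) {p a : Cell} (hp : p ∈ c) (ha : a ∈ c)
    (h : seeR c p a = true) : ux (a.1 - 1) = true ∧ ux p.1 = true := by
  simp only [good, List.all_eq_true, Bool.and_eq_true, Bool.or_eq_true, Bool.not_eq_true'] at hg
  rcases (hg p hp a ha).1 with h1 | h1
  · rw [h] at h1; cases h1
  · exact h1

theorem good_U {c : Cfg} (hg : good ux uy c = true) {p a : Cell} (hp : p ∈ c) (ha : a ∈ c)
    (h : seeU c p a = true) : uy (a.2 - 1) = true ∧ uy p.2 = true := by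
  simp only [good, List.all_eq_true, Bool.and_eq_true, Bool.or_eq_true, Bool.not_eq_true'] at hg
  rcases (hg p hp a ha).2 with h1 | h1
  · rw [h] at h1; cases h1
  · exact h1

theorem mem_succs (c t : Cfg) : t ∈ succs c ↔ ∃ p ∈ c, ∃ a ∈ c,
    (seeR c p a = true ∧ (t = mv c p (a.1 - 1, a.2) ∨ t = mv c a (p.1 + 1, p.2))) ∨
    (seeU c p a = true ∧ (t = mv c p (a.1, a.2 - 1) ∨ t = mv c a (p.1, p.2 + 1))) := by
  simp only [succs, List.mem_flatMap, List.mem_append]
  constructor
  · rintro ⟨p, hp, a, ha, h⟩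
    refine ⟨p, hp, a, ha, ?_⟩
    rcases h with h | h
    · left
      cases h1 : seeR c p a
      · simp [h1] at h
      · simpa [h1] using h
    · right
      cases h1 : seeU c p a
      · simp [h1] at h
      · simpa [h1] using h
  · rintro ⟨p, hp, a, ha, h⟩
    refine ⟨p, hp, a, ha, ?_⟩
    rcases h with ⟨h1, h⟩ | ⟨h1, h⟩
    · left; simpa [h1] using h
    · right; simpa [h1] using h

/-- Every step of the board is the image of a canonical step. -/
theorem step_sound (hx : Fine ux fx) (hy : Fine uy fy) {c : Cfg} (hg : good ux uy c = true)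
    {T : Finset Cell} (h : Step (img fx fy c) T) : ∃ t ∈ succs c, T = img fx fy t := by
  obtain ⟨p', hp', q, hs, rfl⟩ := h
  obtain ⟨p, hp, rfl⟩ := (mem_img c p').1 hp'
  rcases p with ⟨x0, y0⟩
  have key : ∀ a : Cell, a ∈ c → a ≠ (x0, y0) →
      ph fx fy a ∈ (img fx fy c).erase (ph fx fy (x0, y0)) := fun a ha hne =>
    Finset.mem_erase.2 ⟨fun h => hne (ph_inj hx hy h), (mem_img c _).2 ⟨a, ha, rfl⟩⟩
  simp only [ph] at hs
  generalize hX : fx x0 = X at hs
  generalize hY : fy y0 = Y at hs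
  cases hs with
  | right hz hle hb =>
    rename_i z
    obtain ⟨hz1, hz2⟩ := Finset.mem_erase.1 hz
    obtain ⟨a, ha, haz⟩ := (mem_img c _).1 hz2
    rcases a with ⟨a1, a2⟩
    simp only [ph, Prod.mk.injEq] at haz
    have hrow : a2 = y0 := hy.mono.injective (by rw [haz.2, hY])
    subst hrow
    have hlt : x0 < a1 := hx.mono.lt_iff_lt.1 (by omega)
    have hsee : seeR c (x0, a2) (a1, a2) = true := by
      rw [seeR_iff]
      refine ⟨rfl, hlt, ?_⟩
      rintro ⟨b1, b2⟩ hbc ⟨e1, e2, e3⟩
      simp only at e1 e2 e3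
      subst e1
      have h1 := hx.mono e2
      have h2 := hx.mono e3
      have := key (b1, b2) hbc (by intro h; simp only [Prod.mk.injEq] at h; omega)
      exact hb (fx b1) (by omega) (by omega) (by simpa [ph, hY, hX] using this)
    have hu := (good_R hg hp ha hsee).1
    have hu' := hx.unit (a1 - 1) hu
    have e : a1 - 1 + 1 = a1 := by omega
    rw [e] at hu'
    refine ⟨mv c (x0, a2) (a1 - 1, a2), ?_, ?_⟩
    · rw [mem_succs]
      exact ⟨_, hp, _, ha, Or.inl ⟨hsee, Or.inl rfl⟩⟩
    · rw [img_mv hx hy]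
      have : fx (a1 - 1) = z := by omega
      simp only [ph, this, hY]
  | left hz hle hb =>
    rename_i z
    obtain ⟨hz1, hz2⟩ := Finset.mem_erase.1 hz
    obtain ⟨a, ha, haz⟩ := (mem_img c _).1 hz2
    rcases a with ⟨a1, a2⟩
    simp only [ph, Prod.mk.injEq] at haz
    have hrow : a2 = y0 := hy.mono.injective (by rw [haz.2, hY])
    subst hrow
    have hlt : a1 < x0 := hx.mono.lt_iff_lt.1 (by omega)
    have hsee : seeR c (a1, a2) (x0, a2) = true := by
      rw [seeR_iff]
      refine ⟨rfl, hlt, ?_⟩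
      rintro ⟨b1, b2⟩ hbc ⟨e1, e2, e3⟩
      simp only at e1 e2 e3
      subst e1
      have h1 := hx.mono e2
      have h2 := hx.mono e3
      have := key (b1, b2) hbc (by intro h; simp only [Prod.mk.injEq] at h; omega)
      exact hb (fx b1) (by omega) (by omega) (by simpa [ph, hY, hX] using this)
    have hu := (good_R hg ha hp hsee).2
    have hu' := hx.unit a1 hu
    refine ⟨mv c (x0, a2) (a1 + 1, a2), ?_, ?_⟩
    · rw [mem_succs]
      exact ⟨_, ha, _, hp, Or.inl ⟨hsee, Or.inr rfl⟩⟩
    · rw [img_mv hx hy]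
      have : fx (a1 + 1) = z + 1 := by omega
      simp only [ph, this, hY]
  | up hz hle hb =>
    rename_i z
    obtain ⟨hz1, hz2⟩ := Finset.mem_erase.1 hz
    obtain ⟨a, ha, haz⟩ := (mem_img c _).1 hz2
    rcases a with ⟨a1, a2⟩
    simp only [ph, Prod.mk.injEq] at haz
    have hcol : a1 = x0 := hx.mono.injective (by rw [haz.1, hX])
    subst hcol
    have hlt : y0 < a2 := hy.mono.lt_iff_lt.1 (by omega)
    have hsee : seeU c (a1, y0) (a1, a2) = true := by
      rw [seeU_iff]
      refine ⟨rfl, hlt, ?_⟩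
      rintro ⟨b1, b2⟩ hbc ⟨e1, e2, e3⟩
      simp only at e1 e2 e3
      subst e1
      have h1 := hy.mono e2
      have h2 := hy.mono e3
      have := key (b1, b2) hbc (by intro h; simp only [Prod.mk.injEq] at h; omega)
      exact hb (fy b2) (by omega) (by omega) (by simpa [ph, hY, hX] using this)
    have hu := (good_U hg hp ha hsee).1
    have hu' := hy.unit (a2 - 1) hu
    have e : a2 - 1 + 1 = a2 := by omega
    rw [e] at hu'
    refine ⟨mv c (a1, y0) (a1, a2 - 1), ?_, ?_⟩
    · rw [mem_succs]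
      exact ⟨_, hp, _, ha, Or.inr ⟨hsee, Or.inl rfl⟩⟩
    · rw [img_mv hx hy]
      have : fy (a2 - 1) = z := by omega
      simp only [ph, this, hX]
  | down hz hle hb =>
    rename_i z
    obtain ⟨hz1, hz2⟩ := Finset.mem_erase.1 hz
    obtain ⟨a, ha, haz⟩ := (mem_img c _).1 hz2
    rcases a with ⟨a1, a2⟩
    simp only [ph, Prod.mk.injEq] at haz
    have hcol : a1 = x0 := hx.mono.injective (by rw [haz.1, hX])
    subst hcol
    have hlt : a2 < y0 := hy.mono.lt_iff_lt.1 (by omega)
    have hsee : seeU c (a1, a2) (a1, y0) = true := by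
      rw [seeU_iff]
      refine ⟨rfl, hlt, ?_⟩
      rintro ⟨b1, b2⟩ hbc ⟨e1, e2, e3⟩
      simp only at e1 e2 e3
      subst e1
      have h1 := hy.mono e2
      have h2 := hy.mono e3
      have := key (b1, b2) hbc (by intro h; simp only [Prod.mk.injEq] at h; omega)
      exact hb (fy b2) (by omega) (by omega) (by simpa [ph, hY, hX] using this)
    have hu := (good_U hg ha hp hsee).2
    have hu' := hy.unit a2 hu
    refine ⟨mv c (a1, y0) (a1, a2 + 1), ?_, ?_⟩
    · rw [mem_succs]
      exact ⟨_, ha, _, hp, Or.inr ⟨hsee, Or.inr rfl⟩⟩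
    · rw [img_mv hx hy]
      have : fy (a2 + 1) = z + 1 := by omega
      simp only [ph, this, hX]

/-- The image of a canonical step is a step of the board. -/
theorem step_complete (hx : Fine ux fx) (hy : Fine uy fy) {c t : Cfg}
    (hg : good ux uy c = true) (h : t ∈ succs c) : Step (img fx fy c) (img fx fy t) := by
  rw [mem_succs] at h
  obtain ⟨⟨p1, p2⟩, hp, ⟨a1, a2⟩, ha, h⟩ := h
  rcases h with ⟨hsee, h⟩ | ⟨hsee, h⟩
  · obtain ⟨hu1, hu2⟩ := good_R hg hp ha hsee
    rw [seeR_iff] at hsee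
    obtain ⟨e1, e2, e3⟩ := hsee
    simp only at e1 e2 e3 hu1 hu2
    subst e1
    have h1 := hx.unit _ hu1
    have h2 := hx.unit _ hu2
    have e : a1 - 1 + 1 = a1 := by omega
    rw [e] at h1
    have hlt := hx.mono e2
    have hbet : ∀ w, fx p1 < w → w < fx a1 → (w, fy p2) ∉ img fx fy c := by
      intro w hw1 hw2 hw
      obtain ⟨⟨b1, b2⟩, hb, hbw⟩ := (mem_img c _).1 hw
      simp only [ph, Prod.mk.injEq] at hbw
      have hb2 : b2 = p2 := hy.mono.injective hbw.2
      subst hb2
      have g1 : p1 < b1 := hx.mono.lt_iff_lt.1 (by omega)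
      have g2 : b1 < a1 := hx.mono.lt_iff_lt.1 (by omega)
      exact e3 (b1, b2) hb ⟨rfl, g1, g2⟩
    rcases h with rfl | rfl
    · refine ⟨ph fx fy (p1, p2), (mem_img c _).2 ⟨_, hp, rfl⟩, ph fx fy (a1 - 1, p2), ?_,
        img_mv hx hy _ _ _⟩
      refine Slide.right (z := fx (a1 - 1)) ?_ ?_ ?_
      · rw [← h1]
        refine Finset.mem_erase.2 ⟨?_, (mem_img c _).2 ⟨_, ha, rfl⟩⟩
        intro h; simp only [ph, Prod.mk.injEq] at h; omega
      · have := hx.mono.monotone (show p1 ≤ a1 - 1 by omega)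
        exact this
      · intro w hw1 hw2 hw
        exact hbet w hw1 (by omega) (Finset.mem_of_mem_erase hw)
    · refine ⟨ph fx fy (a1, p2), (mem_img c _).2 ⟨_, ha, rfl⟩, ph fx fy (p1 + 1, p2), ?_,
        img_mv hx hy _ _ _⟩
      simp only [ph]
      rw [h2]
      refine Slide.left ?_ hlt ?_
      · refine Finset.mem_erase.2 ⟨?_, (mem_img c _).2 ⟨_, hp, rfl⟩⟩
        intro h; simp only [Prod.mk.injEq] at h; omega
      · intro w hw1 hw2 hw
        exact hbet w hw1 hw2 (Finset.mem_of_mem_erase hw)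
  · obtain ⟨hu1, hu2⟩ := good_U hg hp ha hsee
    rw [seeU_iff] at hsee
    obtain ⟨e1, e2, e3⟩ := hsee
    simp only at e1 e2 e3 hu1 hu2
    subst e1
    have h1 := hy.unit _ hu1
    have h2 := hy.unit _ hu2
    have e : a2 - 1 + 1 = a2 := by omega
    rw [e] at h1
    have hlt := hy.mono e2
    have hbet : ∀ w, fy p2 < w → w < fy a2 → (fx p1, w) ∉ img fx fy c := by
      intro w hw1 hw2 hw
      obtain ⟨⟨b1, b2⟩, hb, hbw⟩ := (mem_img c _).1 hw
      simp only [ph, Prod.mk.injEq] at hbw
      have hb1 : b1 = p1 := hx.mono.injective hbw.1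
      subst hb1
      have g1 : p2 < b2 := hy.mono.lt_iff_lt.1 (by omega)
      have g2 : b2 < a2 := hy.mono.lt_iff_lt.1 (by omega)
      exact e3 (b1, b2) hb ⟨rfl, g1, g2⟩
    rcases h with rfl | rfl
    · refine ⟨ph fx fy (p1, p2), (mem_img c _).2 ⟨_, hp, rfl⟩, ph fx fy (p1, a2 - 1), ?_,
        img_mv hx hy _ _ _⟩
      refine Slide.up (z := fy (a2 - 1)) ?_ ?_ ?_
      · rw [← h1]
        refine Finset.mem_erase.2 ⟨?_, (mem_img c _).2 ⟨_, ha, rfl⟩⟩
        intro h; simp only [ph, Prod.mk.injEq] at h; omega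
      · have := hy.mono.monotone (show p2 ≤ a2 - 1 by omega)
        exact this
      · intro w hw1 hw2 hw
        exact hbet w hw1 (by omega) (Finset.mem_of_mem_erase hw)
    · refine ⟨ph fx fy (p1, a2), (mem_img c _).2 ⟨_, ha, rfl⟩, ph fx fy (p1, p2 + 1), ?_,
        img_mv hx hy _ _ _⟩
      simp only [ph]
      rw [h2]
      refine Slide.down ?_ hlt ?_
      · refine Finset.mem_erase.2 ⟨?_, (mem_img c _).2 ⟨_, hp, rfl⟩⟩
        intro h; simp only [Prod.mk.injEq] at h; omega
      · intro w hw1 hw2 hw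
        exact hbet w hw1 hw2 (Finset.mem_of_mem_erase hw)

end

end Pool.Agent.Lunar.KD
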