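import Pool.Agent.Lunar.Sys
import Pool.Agent.Lunar.KData
import Mathlib.Tactic.FinCases

/-!
# A boolean checker for `KData.Closed`
-/

namespace Pool.Agent.Lunar.KD

/-- The two booleans. -/
def bools : List Bool := [false, true]

/-- The three exits. -/
def exits : List (Fin 3) := [0, 1, 2]

/-- Membership of a cell in a configuration. -/
def memc (p : Cell) : Cfg → Bool
  | [] => false
  | q :: l => eqc p q || memc p l

/-- Rest configurations are closed. -/
def okZ (K : KData) : Bool :=
  bools.all fun s => (K.Z s).all fun d => (succs d).all fun t => memCfg t (K.Z s)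

/-- A traveller may enter. -/
def okE (K : KData) : Bool :=
  bools.all fun s => bools.all fun e => !(K.ent e) ||
    (K.Z s).all fun d => memCfg (ins (K.w e) d) (K.A s e)

/-- The configuration `t` is a rest configuration with a traveller on an exit cell. -/
def okX (K : KData) (s e : Bool) (t : Cfg) : Bool :=
  bools.any fun s' => exits.any fun k =>
    K.rel s e s' k && memc (K.x k) t && memCfg (del (K.x k) t) (K.Z s')

/-- Active configurations are closed. -/
def okA (K : KData) : Bool :=
  bools.all fun s => bools.all fun e => !(K.ent e) ||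
    (K.A s e).all fun c => (succs c).all fun t => memCfg t (K.A s e) || okX K s e t

/-- The clean rest configurations are rest configurations. -/
def okC (K : KData) : Bool := bools.all fun s => memCfg (K.cz s) (K.Z s)

/-- The list `l` is a path from `c` to `z` inside `As`. -/
def chain (As : List Cfg) (z : Cfg) : Cfg → List Cfg → Bool
  | c, [] => eqCfg c z
  | c, d :: l => memCfg c As && memCfg d (succs c) && chain As z d l

/-- All transitions are realised by the paths `P`. -/
def okP (K : KData) (P : Bool → Bool → Bool → Fin 3 → List Cfg) : Bool :=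
  bools.all fun s => bools.all fun e => bools.all fun s' => exits.all fun k =>
    !(K.ent e) || !(K.rel s e s' k) ||
      chain (K.A s e) (ins (K.x k) (K.cz s')) (ins (K.w e) (K.cz s)) (P s e s' k)

theorem mem_bools (b : Bool) : b ∈ bools := by cases b <;> simp [bools]

theorem mem_exits (k : Fin 3) : k ∈ exits := by
  fin_cases k <;> simp [exits]

theorem memc_sound (p : Cell) : ∀ c : Cfg, memc p c = true → p ∈ c
  | [], h => by simp [memc] at h
  | q :: l, h => by
      simp only [memc, Bool.or_eq_true, eqc_iff] at h
      rcases h with h | h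
      · rw [h]; exact List.mem_cons_self
      · exact List.mem_cons_of_mem _ (memc_sound p l h)

theorem ins_toFinset (q : Cell) (c : Cfg) : (ins q c).toFinset = insert q c.toFinset := by
  ext b
  simp [mem_ins]

theorem del_toFinset (p : Cell) (c : Cfg) (h : p ∈ c) :
    c.toFinset = insert p (del p c).toFinset := by
  ext b
  simp only [List.mem_toFinset, Finset.mem_insert, mem_del]
  by_cases hb : b = p
  · subst hb; simp [h]
  · simp [hb]

theorem fine_id : Fine (fun _ => true) id := ⟨strictMono_id, fun _ _ => rfl⟩

theorem img_id (c : Cfg) : KD.img id id c = c.toFinset := by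
  simp [KD.img]

theorem good_true (c : Cfg) : good (fun _ => true) (fun _ => true) c = true := by
  simp [good]

theorem step_toFinset_sound {c : Cfg} {T : Finset Cell} (h : Step c.toFinset T) :
    ∃ t ∈ succs c, T = t.toFinset := by
  rw [← img_id c] at h
  obtain ⟨t, ht, rfl⟩ := step_sound fine_id fine_id (good_true c) h
  exact ⟨t, ht, img_id t⟩

theorem step_toFinset_complete {c t : Cfg} (h : t ∈ succs c) :
    Step c.toFinset t.toFinset := by
  have := step_complete fine_id fine_id (good_true c) h
  rwa [img_id, img_id] at this

theorem chain_sound (As : List Cfg) (z : Cfg) : ∀ (l : List Cfg) (c : Cfg),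
    chain As z c l = true →
    Relation.ReflTransGen (fun c c' => (∃ l ∈ As, c = l.toFinset) ∧ Step c c')
      c.toFinset z.toFinset
  | [], c, h => by
      rw [eqCfg_sound c z h]
  | d :: l, c, h => by
      simp only [chain, Bool.and_eq_true] at h
      exact Relation.ReflTransGen.head
        ⟨⟨c, memCfg_sound _ _ h.1.1, rfl⟩, step_toFinset_complete (memCfg_sound _ _ h.1.2)⟩
        (chain_sound As z l d h.2)

/-- Soundness of the checker. -/
theorem closed_of_ok (K : KData) (P : Bool → Bool → Bool → Fin 3 → List Cfg)
    (hZ : okZ K = true) (hE : okE K = true) (hA : okA K = true) (hC : okC K = true)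
    (hP : okP K P = true) : K.Closed := by
  refine ⟨?_, ?_, ?_, ?_, ?_⟩
  · intro s d hd T hT
    obtain ⟨t, ht, rfl⟩ := step_toFinset_sound hT
    simp only [okZ, List.all_eq_true] at hZ
    exact ⟨t, memCfg_sound _ _ (hZ s (mem_bools s) d hd t ht), rfl⟩
  · intro s e he d hd
    simp only [okE, List.all_eq_true, Bool.or_eq_true, Bool.not_eq_true'] at hE
    rcases hE s (mem_bools s) e (mem_bools e) with h | h
    · rw [he] at h; cases h
    · exact ⟨_, memCfg_sound _ _ (h d hd), (ins_toFinset _ _).symm⟩
  · intro s e he c hc T hT
    obtain ⟨t, ht, rfl⟩ := step_toFinset_sound hT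
    simp only [okA, List.all_eq_true, Bool.or_eq_true, Bool.not_eq_true'] at hA
    rcases hA s (mem_bools s) e (mem_bools e) with h | h
    · rw [he] at h; cases h
    rcases h c hc t ht with h | h
    · exact Or.inl ⟨t, memCfg_sound _ _ h, rfl⟩
    · right
      simp only [okX, List.any_eq_true, Bool.and_eq_true] at h
      obtain ⟨s', -, k, -, ⟨h1, h2⟩, h3⟩ := h
      exact ⟨s', k, h1, _, memCfg_sound _ _ h3, del_toFinset _ _ (memc_sound _ _ h2)⟩
  · intro s
    simp only [okC, List.all_eq_true] at hC
    exact memCfg_sound _ _ (hC s (mem_bools s))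
  · intro s e s' k he hr
    simp only [okP, List.all_eq_true, Bool.or_eq_true, Bool.not_eq_true'] at hP
    rcases hP s (mem_bools s) e (mem_bools e) s' (mem_bools s') k (mem_exits k) with (h | h) | h
    · rw [he] at h; cases h
    · rw [hr] at h; cases h
    · have := chain_sound _ _ _ _ h
      rwa [ins_toFinset, ins_toFinset] at this

end Pool.Agent.Lunar.KD
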