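import Pool.Agent.Lunar.Net
import Pool.Agent.Lib_MP_a1eae6_lc.Tableau
import Mathlib.Data.Fintype.EquivFin
import Mathlib.Data.Fintype.Sum
import Mathlib.Data.Fintype.Prod

/-!
# The logic layer: from simple machines to nets in normal form

Pipeline: simple machine (`UM`) -> block program -> program of choose / put / take instructions ->
net of doors and choices -> net of cells -> net in normal form (explicit merges).
-/

namespace Pool.Agent.Lunar

open Pool.Agent.IsoImp

/-! ### Programs -/

/-- Instructions: choose the next instruction; put a token on a place; take a token from a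
place. -/
inductive Ins : Type
  | choose (a b : ℕ)
  | put (p n : ℕ)
  | take (p n : ℕ)
  deriving DecidableEq

/-- One step of a program; `M` is the set of marked places. -/
inductive PStep (Q : List Ins) : ℕ × (ℕ → Bool) → ℕ × (ℕ → Bool) → Prop
  | fst {i a b : ℕ} {M : ℕ → Bool} (h : Q[i]? = some (.choose a b)) : PStep Q (i, M) (a, M)
  | snd {i a b : ℕ} {M : ℕ → Bool} (h : Q[i]? = some (.choose a b)) : PStep Q (i, M) (b, M)
  | put {i p n : ℕ} {M : ℕ → Bool} (h : Q[i]? = some (.put p n)) :
      PStep Q (i, M) (n, Function.update M p true)
  | take {i p n : ℕ} {M : ℕ → Bool} (h : Q[i]? = some (.take p n)) (hM : M p = true) :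
      PStep Q (i, M) (n, Function.update M p false)

/-- The program, started with the empty marking at instruction `0`, leaves the list of
instructions. -/
def PReach (Q : List Ins) : Prop :=
  ∃ i M, Relation.ReflTransGen (PStep Q) (0, fun _ => false) (i, M) ∧ Q.length ≤ i

/-! ### Nets of doors and choices -/

/-- A node: a self-closing door (in-port `false` = O leads to `t0` and optionally opens the door,
in-port `true` = T leads through the open door to `t1` and closes it) or a choice (in-port `false`
leads to `t0` or `t1`). -/
structure Node : Type where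
  door : Bool
  t0 : Tgt
  t1 : Tgt
  deriving DecidableEq

/-- One step of a net of doors and choices; `s g = true` means that the door `g` is open. -/
inductive DStep (N : List Node) : CSt → CSt → Prop
  | fst {g : ℕ} {s : ℕ → Bool} {t0 t1 : Tgt} (h : N[g]? = some ⟨false, t0, t1⟩) :
      DStep N (.port g false, s) (t0, s)
  | snd {g : ℕ} {s : ℕ → Bool} {t0 t1 : Tgt} (h : N[g]? = some ⟨false, t0, t1⟩) :
      DStep N (.port g false, s) (t1, s)
  | pass {g : ℕ} {s : ℕ → Bool} {t0 t1 : Tgt} (h : N[g]? = some ⟨true, t0, t1⟩) :
      DStep N (.port g false, s) (t0, s)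
  | opn {g : ℕ} {s : ℕ → Bool} {t0 t1 : Tgt} (h : N[g]? = some ⟨true, t0, t1⟩) :
      DStep N (.port g false, s) (t0, Function.update s g true)
  | thru {g : ℕ} {s : ℕ → Bool} {t0 t1 : Tgt} (h : N[g]? = some ⟨true, t0, t1⟩)
      (hs : s g = true) : DStep N (.port g true, s) (t1, Function.update s g false)

/-- The goal is reachable from in-port `false` of node `0`, all doors being closed. -/
def DReach (N : List Node) : Prop :=
  ∃ s, Relation.ReflTransGen (DStep N) (.port 0 false, fun _ => false) (.goal, s)

/-! ### Programs to nets of doors and choices -/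

/-- Entry of instruction `j` in a program with `n` instructions. -/
def entry (n j : ℕ) : Tgt := if j < n then .port (2 * j) false else .goal

/-- Node `2 * i` of a program with `n` instructions: the choice or the return door of
instruction `i`. -/
def locNode (n : ℕ) : Ins → Node
  | .choose a b => ⟨false, entry n a, entry n b⟩
  | .put p m => ⟨true, .port (2 * n + p) false, entry n m⟩
  | .take p m => ⟨true, .port (2 * n + p) true, entry n m⟩

/-- Node `2 * i + 1`: the return choice of instruction `i`. -/
def retNode (n i : ℕ) : Ins → Node
  | .choose _ _ => ⟨false, .dead, if i + 1 < n then .port (2 * i + 3) false else .dead⟩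
  | _ => ⟨false, .port (2 * i) true, if i + 1 < n then .port (2 * i + 3) false else .dead⟩

/-- The net of a program `Q` with places `0, ..., P - 1`. -/
def doorNet (Q : List Ins) (P : ℕ) : List Node :=
  (Q.zipIdx.flatMap fun z => [locNode Q.length z.1, retNode Q.length z.2 z.1]) ++
    List.replicate P ⟨true, .port 1 false, .port 1 false⟩

/-! ### Nets of doors and choices to nets of cells -/

/-- In-port `false` of a node becomes dock P of its first cell, in-port `true` (of a door) dock M
of its third cell. -/
def cellTgt : Tgt → Tgt
  | .dead => .dead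
  | .goal => .goal
  | .port g false => .port (3 * g) false
  | .port g true => .port (3 * g + 2) true

/-- The three cells `3 * g`, `3 * g + 1`, `3 * g + 2` of node `g`. -/
def nodeCells (g : ℕ) : Node → List Comp
  | ⟨true, t0, t1⟩ =>
    [.cell (cellTgt t0) (.port (3 * g + 1) false) (cellTgt t1),
      .cell (.port (3 * g) true) (.port (3 * g + 2) false) .dead,
      .cell (.port (3 * g) true) (.port (3 * g + 1) true) .dead]
  | ⟨false, t0, t1⟩ =>
    [.cell (cellTgt t0) (cellTgt t1) (.port (3 * g) true),
      .cell .dead .dead .dead, .cell .dead .dead .dead]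

/-- The net of cells of a net of doors and choices. -/
def cellNet (N : List Node) : List Comp :=
  N.zipIdx.flatMap fun z => nodeCells z.2 z.1

/-! ### Normal form -/

/-- Number of a target in a net with `C` cells. -/
def tnum (C : ℕ) : Tgt → ℕ
  | .dead => 0
  | .goal => 2 * C
  | .port g false => 2 * g
  | .port g true => 2 * g + 1

/-- Index of the merge for target number `v` and wire number `u` (there are `3 * C` wires). -/
def midx (C v u : ℕ) : ℕ := 1 + C + v * (3 * C) + u

/-- New target of wire number `u` with old target `t`. -/
def newTgt (C u : ℕ) : Tgt → Tgt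
  | .dead => .dead
  | t => .port (midx C (tnum C t) u) true

/-- Final target of the chain of merges of target number `v`. -/
def lastTgt (C v : ℕ) : Tgt :=
  if v < 2 * C then .port (1 + v / 2) (decide (v % 2 = 1)) else .goal

/-- Merge number `m = v * (3 * C) + u`. -/
def mergeComp (C m : ℕ) : Comp :=
  if m % (3 * C) + 1 < 3 * C then .merge (.port (1 + C + m + 1) false)
  else .merge (lastTgt C (m / (3 * C)))

/-- The cell with number `c`, with new targets. -/
def newCell (C c : ℕ) : Comp → Comp
  | .cell er el v => .cell (newTgt C (3 * c) er) (newTgt C (3 * c + 1) el) (newTgt C (3 * c + 2) v)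
  | .merge o => .merge o

/-- Normal form of a net of `C` cells: component `0` is the start merge, components `1 + c` are
the cells, components `1 + C + m` are the merges. -/
def normalNet (N : List Comp) : List Comp :=
  .merge (.port (1 + N.length) false) ::
    ((N.zipIdx.map fun z => newCell N.length z.2 z.1) ++
      (List.range ((2 * N.length + 1) * (3 * N.length))).map (mergeComp N.length))

/-! ### Block programs -/

/-- A block: a list of puts (`true`) and takes (`false`), and whether it leads to the goal. -/
structure Block : Type where
  goal : Bool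
  ops : List (Bool × ℕ)
  deriving DecidableEq

/-- Execute a list of operations. -/
def execOps : List (Bool × ℕ) → (ℕ → Bool) → Option (ℕ → Bool)
  | [], M => some M
  | (true, p) :: l, M => execOps l (Function.update M p true)
  | (false, p) :: l, M => if M p = true then execOps l (Function.update M p false) else none

/-- Instruction for an operation. -/
def opIns (o : Bool × ℕ) (n : ℕ) : Ins := if o.1 then .put o.2 n else .take o.2 n

/-- Code of block number `b` (of `B` blocks) starting at `base + 8 * b`; the block has seven
operations. -/
def blockCode (base B b : ℕ) (k : Block) : List Ins :=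
  .choose (base + 8 * b + 1) (if b + 1 < B then base + 8 * (b + 1) else base) ::
    k.ops.zipIdx.map fun z => opIns z.1
      (if z.2 < 6 then base + 8 * b + 2 + z.2 else if k.goal then base + 8 * B else base)

/-- Program: put tokens on the places of `I`, then execute blocks for ever. -/
def blockProg (I : List ℕ) (Bl : List Block) : List Ins :=
  (I.zipIdx.map fun z => .put z.1 (z.2 + 1)) ++
    Bl.zipIdx.flatMap fun z => blockCode I.length Bl.length z.2 z.1

/-! ### Simple machines to block programs -/

section um

variable {C K Sg : Type} [Fintype C] [DecidableEq C] [Fintype K] [DecidableEq K]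
  [Fintype Sg] [DecidableEq Sg]

/-- Kinds of places: control, height of a stack, symbol in a stack. -/
abbrev PK (C K Sg : Type) : Type := C ⊕ K ⊕ K × Sg

/-- Number of kinds (kind `0` is the junk kind). -/
noncomputable def kap (C K Sg : Type) [Fintype C] [Fintype K] [Fintype Sg] : ℕ :=
  Fintype.card (PK C K Sg) + 1

/-- Number of a place. -/
noncomputable def pl (d : PK C K Sg) (i : ℕ) : ℕ :=
  kap C K Sg * i + ((Fintype.equivFin (PK C K Sg) d).1 + 1)

/-- Place of a control. -/
noncomputable def plC (K Sg : Type) [Fintype K] [Fintype Sg] (c : C) : ℕ :=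
  pl (.inl c : PK C K Sg) 0

/-- Place of a height. -/
noncomputable def plH (C Sg : Type) [Fintype C] [Fintype Sg] (k : K) (h : ℕ) : ℕ :=
  pl (.inr (.inl k) : PK C K Sg) h

/-- Place of a symbol. -/
noncomputable def plS (C : Type) [Fintype C] (k : K) (a : Sg) (i : ℕ) : ℕ :=
  pl (.inr (.inr (k, a)) : PK C K Sg) i

/-- Pad a list of operations to length seven with puts of the junk place `0`. -/
def pad (l : List (Bool × ℕ)) : List (Bool × ℕ) := l ++ List.replicate (7 - l.length) (true, 0)

/-- Block for control `c` and an empty stack. -/
noncomputable def blk0 (M : UM C K Sg) (c : C) : Block :=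
  ⟨false, pad ([(false, plC K Sg c), (false, plH C Sg (M.kk c) 0),
    (true, plC K Sg (M.nx c none))] ++
    match M.ac c with
    | .keep => [(true, plH C Sg (M.kk c) 0)]
    | .pop => [(true, plH C Sg (M.kk c) 0)]
    | .push b => [(true, plH C Sg (M.kk c) 1), (true, plS C (M.kk c) b 0)])⟩

/-- Block for control `c` and a stack of height `i + 1` with top symbol `a`. -/
noncomputable def blk1 (M : UM C K Sg) (c : C) (a : Sg) (i : ℕ) : Block :=
  ⟨false, pad ([(false, plC K Sg c), (false, plH C Sg (M.kk c) (i + 1)),
    (false, plS C (M.kk c) a i), (true, plC K Sg (M.nx c (some a)))] ++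
    match M.ac c with
    | .keep => [(true, plH C Sg (M.kk c) (i + 1)), (true, plS C (M.kk c) a i)]
    | .pop => [(true, plH C Sg (M.kk c) i)]
    | .push b => [(true, plH C Sg (M.kk c) (i + 2)), (true, plS C (M.kk c) a i),
        (true, plS C (M.kk c) b (i + 1))])⟩

/-- Goal block: control `c`, stack `k₁` of height `i + 1` with top symbol `acc`. -/
noncomputable def blkG (k₁ : K) (acc : Sg) (c : C) (i : ℕ) : Block :=
  ⟨true, pad [(false, plC K Sg c), (false, plH C Sg k₁ (i + 1)), (false, plS C k₁ acc i)]⟩

/-- All blocks for stack heights up to `W`. -/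
noncomputable def umBlocks (M : UM C K Sg) (k₁ : K) (acc : Sg) (hc : C → Bool) (W : ℕ) :
    List Block :=
  ((Finset.univ : Finset C).toList.map (blk0 M)) ++
    ((List.range W).flatMap fun i => (Finset.univ : Finset (C × Sg)).toList.map fun z =>
      blk1 M z.1 z.2 i) ++
    ((List.range W).flatMap fun i => ((Finset.univ : Finset C).toList.filter hc).map fun c =>
      blkG k₁ acc c i)

/-- Initial places. -/
noncomputable def umInit {Γ : Type} (c0 : C) (k₀ : K) (inX : Γ → Sg) (x : List Γ) : List ℕ :=
  plC K Sg c0 :: (((Finset.univ : Finset K).toList.map fun k =>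
    plH C Sg k (if k = k₀ then x.length else 0)) ++
    x.reverse.zipIdx.map fun z => plS C k₀ (inX z.1) z.2)

/-- The program of a machine on the input `x` with height bound `W`. -/
noncomputable def umProg {Γ : Type} (M : UM C K Sg) (c0 : C) (k₀ k₁ : K) (inX : Γ → Sg)
    (acc : Sg) (hc : C → Bool) (W : ℕ) (x : List Γ) : List Ins :=
  blockProg (umInit c0 k₀ inX x) (umBlocks M k₁ acc hc W)

/-- The net of a machine on the input `x` with height bound `W`. -/
noncomputable def umNet {Γ : Type} (M : UM C K Sg) (c0 : C) (k₀ k₁ : K) (inX : Γ → Sg)
    (acc : Sg) (hc : C → Bool) (W : ℕ) (x : List Γ) : List Comp :=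
  normalNet (cellNet (doorNet (umProg M c0 k₀ k₁ inX acc hc W x) (kap C K Sg * (W + 2))))

end um

end Pool.Agent.Lunar
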