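import Pool.Agent.Lunar.Lang
import Mathlib.Data.List.GetD
import Mathlib.Tactic.Ring

/-!
# Membership of LUNAR LOCKOUT in PSPACE: positions as bit strings
-/

namespace Pool.Agent.Lunar.Mem

/-- The cells of the board, row by row. -/
def cells (n : ℕ) : List Cell :=
  (List.range n).flatMap fun y => (List.range n).map fun x => (x, y)

theorem flat_len {α : Type} {m : ℕ} (f : ℕ → List α) (n : ℕ) (hf : ∀ j < n, (f j).length = m) :
    ((List.range n).flatMap f).length = m * n := by
  induction n with
  | zero => simp
  | succ n ih =>
    rw [List.range_succ, List.flatMap_append, List.length_append, ih fun j hj => hf j (by omega)]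
    simp only [List.flatMap_cons, List.flatMap_nil, List.append_nil, hf n (by omega)]
    ring

theorem flat_get {α : Type} {m : ℕ} (f : ℕ → List α) (n : ℕ) (hf : ∀ j < n, (f j).length = m)
    {i j : ℕ} (hi : i < m) (hj : j < n) : ((List.range n).flatMap f)[i + m * j]? = (f j)[i]? := by
  induction n with
  | zero => omega
  | succ n ih =>
    have hl := flat_len f n fun j hj => hf j (by omega)
    rw [List.range_succ, List.flatMap_append]
    by_cases h : j < n
    · rw [List.getElem?_append_left]
      · exact ih (fun j hj => hf j (by omega)) h
      · rw [hl]
        calc i + m * j < m + m * j := by omega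
          _ = m * (j + 1) := by ring
          _ ≤ m * n := Nat.mul_le_mul_left m h
    · have : j = n := by omega
      subst this
      rw [List.getElem?_append_right (by rw [hl]; omega), hl]
      simp

theorem mem_cells {n : ℕ} {c : Cell} : c ∈ cells n ↔ c.1 < n ∧ c.2 < n := by
  obtain ⟨x, y⟩ := c
  simp only [cells, List.mem_flatMap, List.mem_range, List.mem_map, Prod.mk.injEq]
  constructor
  · rintro ⟨y', hy, x', hx, rfl, rfl⟩
    exact ⟨hx, hy⟩
  · rintro ⟨hx, hy⟩
    exact ⟨y, hy, x, hx, rfl, rfl⟩

theorem cells_length (n : ℕ) : (cells n).length = n * n := flat_len _ n fun j _ => by simp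

theorem cells_get {n x y : ℕ} (hx : x < n) (hy : y < n) : (cells n)[x + n * y]? = some (x, y) := by
  unfold cells
  rw [flat_get (m := n) _ n (fun j _ => by simp) hx hy]
  simp [hx]

theorem encodeBoard_get {n : ℕ} {S : Finset Cell} {t g : Cell} {x y : ℕ} (hx : x < n)
    (hy : y < n) : (encodeBoard n S t g)[x + (n + 1) * y]? = some (some (cellSym S t g (x, y))) := by
  unfold encodeBoard
  rw [flat_get (m := n + 1) _ n (fun j _ => by simp) (by omega) hy]
  rw [List.getElem?_append_left (by simpa using hx)]
  simp [hx]

/-! ### Boolean versions -/

/-- The bit of a position string with offset `o` for the cell `c`. -/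
def bit (n o : ℕ) (u : List Bool) (c : Cell) : Bool :=
  decide (c.1 < n) && (decide (c.2 < n) && decide (u[o + (c.1 + n * c.2)]? = some true))

/-- The string of a position. -/
def pic (n : ℕ) (P : Pos) : List Bool :=
  ((cells n).map fun c => decide (c ∈ P.others)) ++ ((cells n).map fun c => decide (c = P.target))

/-- Boolean version of `Slide` on the `n × n` board with occupied cells given by `occ`. -/
def slideB (n : ℕ) (occ : Cell → Bool) (p q : Cell) : Bool :=
  ((decide (p.2 = q.2) && (decide (p.1 ≤ q.1) && (occ (q.1 + 1, q.2) &&
      (List.range n).all fun w => !(decide (p.1 < w) && (decide (w ≤ q.1) && occ (w, p.2)))))) ||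
    (decide (p.2 = q.2) && (decide (q.1 ≤ p.1) && (decide (0 < q.1) && (occ (q.1 - 1, q.2) &&
      (List.range n).all fun w => !(decide (q.1 ≤ w) && (decide (w < p.1) && occ (w, p.2)))))))) ||
  ((decide (p.1 = q.1) && (decide (p.2 ≤ q.2) && (occ (q.1, q.2 + 1) &&
      (List.range n).all fun w => !(decide (p.2 < w) && (decide (w ≤ q.2) && occ (p.1, w)))))) ||
    (decide (p.1 = q.1) && (decide (q.2 ≤ p.2) && (decide (0 < q.2) && (occ (q.1, q.2 - 1) &&
      (List.range n).all fun w => !(decide (q.2 ≤ w) && (decide (w < p.2) && occ (p.1, w))))))))

/-- The string after a move of another token from `p` to `q`. -/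
def mvO (n : ℕ) (u : List Bool) (p q : Cell) : List Bool :=
  ((cells n).map fun c => decide (c = q) || (bit n 0 u c && !(decide (c = p)))) ++
    ((cells n).map fun c => bit n (n * n) u c)

/-- The string after a move of the target token to `q`. -/
def mvT (n : ℕ) (u : List Bool) (q : Cell) : List Bool :=
  ((cells n).map fun c => bit n 0 u c) ++ ((cells n).map fun c => decide (c = q))

/-- Occupied cells, without the cell `p`. -/
def occB (n : ℕ) (u : List Bool) (p c : Cell) : Bool :=
  (bit n 0 u c || bit n (n * n) u c) && !(decide (c = p))

/-- One legal move leads from `u` to `v`. -/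
def moveB (n : ℕ) (u v : List Bool) : Bool :=
  (cells n).any fun p => (cells n).any fun q => slideB n (occB n u p) p q &&
    ((bit n 0 u p && decide (v = mvO n u p q)) || (bit n (n * n) u p && decide (v = mvT n u q)))

/-! ### The input -/

/-- Number of rows. -/
def size (x : List Sy) : ℕ := (x.filter fun a => decide (a = none)).length

/-- The symbol of the cell `c`. -/
def sy (n : ℕ) (x : List Sy) (c : Cell) : Option Sy := x[c.1 + (n + 1) * c.2]?

/-- The picture with given target cell and goal cell and the other tokens as in `x`. -/
def reenc (n : ℕ) (x : List Sy) (t g : Cell) : List Sy :=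
  (List.range n).flatMap fun y => ((List.range n).map fun z =>
    some (if (z, y) = t then 2 else if decide (sy n x (z, y) = some (some (1, false))) ||
      decide (sy n x (z, y) = some (some (1, true))) then 1 else 0, decide ((z, y) = g))) ++ [none]

/-- The input is the picture of a board. -/
def valid (x : List Sy) : Bool :=
  (cells (size x)).any fun t => (cells (size x)).any fun g => decide (x = reenc (size x) x t g)

/-- The initial position. -/
def start (x : List Sy) : List Bool :=
  ((cells (size x)).map fun c => decide (sy (size x) x c = some (some (1, false))) ||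
      decide (sy (size x) x c = some (some (1, true)))) ++
    ((cells (size x)).map fun c => decide (sy (size x) x c = some (some (2, false))) ||
      decide (sy (size x) x c = some (some (2, true))))

/-- The target token is in the goal cell. -/
def winB (x : List Sy) (u : List Bool) : Bool :=
  (cells (size x)).any fun c => bit (size x) (size x * size x) u c &&
    (decide (sy (size x) x c = some (some (0, true))) ||
      (decide (sy (size x) x c = some (some (1, true))) ||
        decide (sy (size x) x c = some (some (2, true)))))

/-- Adjacency of the graph of positions; `none` is the vertex reached when the game is solved. -/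
def adj (p : List Sy × (Option (List Bool) × Option (List Bool))) : Bool :=
  match p.2.1, p.2.2 with
  | some u, some v => valid p.1 && moveB (size p.1) u v
  | some u, none => valid p.1 && winB p.1 u
  | none, _ => false

end Pool.Agent.Lunar.Mem
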