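import Pool.Agent.Lunar.MemSem
import Pool.Agent.Lunar.PolyArith
import Pool.Agent.SetPS.Reach

/-!
# LUNAR LOCKOUT is in PSPACE
-/

namespace Pool.Agent.Lunar.Mem

open Pool.Agent.PT81 Pool.Agent.IsoImp Pool.Agent.SetPS Polynomial

variable {E : Env} [Enc E (Fin 3)] {γ : Type} [Enc E γ]

omit [Enc E (Fin 3)] in
theorem poly_cells {n : γ → ℕ} (hn : Poly E n) : Poly E (fun c => cells (n c)) :=
  Poly.flatMap (g := fun p : γ × ℕ => (List.range (n p.1)).map fun x => (x, p.2)) (Poly.range hn)
    (Poly.map (g := fun q : (γ × ℕ) × ℕ => (q.2, q.1.2)) (Poly.range (hn.comp Poly.fst))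
      (Poly.pair Poly.snd (Poly.snd.comp Poly.fst)))

omit [Enc E (Fin 3)] in
theorem poly_bit {n o : γ → ℕ} {u : γ → List Bool} {c : γ → Cell} (hn : Poly E n) (ho : Poly E o)
    (hu : Poly E u) (hc : Poly E c) : Poly E (fun x => bit (n x) (o x) (u x) (c x)) := by
  have h1 : Poly E (fun x => (c x).1) := Poly.fst.comp hc
  have h2 : Poly E (fun x => (c x).2) := Poly.snd.comp hc
  exact Poly.and (poly_ltN h1 hn) (Poly.and (poly_ltN h2 hn) (Poly.eq
    (IsoImp.Poly.getElem? (f := u) (i := fun x => o x + ((c x).1 + n x * (c x).2)) hu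
      (Poly.add ho (Poly.add h1 (Poly.mul hn h2)))) (Poly.const _)))

omit [Enc E (Fin 3)] in
theorem poly_slideB {n : γ → ℕ} {occ : γ → Cell → Bool} {p q : γ → Cell} (hn : Poly E n)
    (hocc : Poly E (fun z : γ × Cell => occ z.1 z.2)) (hp : Poly E p) (hq : Poly E q) :
    Poly E (fun x => slideB (n x) (occ x) (p x) (q x)) := by
  have hp1 : Poly E (fun x => (p x).1) := Poly.fst.comp hp
  have hp2 : Poly E (fun x => (p x).2) := Poly.snd.comp hp
  have hq1 : Poly E (fun x => (q x).1) := Poly.fst.comp hq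
  have hq2 : Poly E (fun x => (q x).2) := Poly.snd.comp hq
  have ho : ∀ {a : γ → Cell}, Poly E a → Poly E (fun x => occ x (a x)) := fun ha =>
    hocc.comp (Poly.pair Poly.id ha)
  have ho' : ∀ {a : γ × ℕ → Cell}, Poly E a → Poly E (fun x : γ × ℕ => occ x.1 (a x)) :=
    fun ha => hocc.comp (Poly.pair Poly.fst ha)
  have hz : Poly E (fun z : γ × ℕ => z.2) := Poly.snd
  refine Poly.or (Poly.or ?_ ?_) (Poly.or ?_ ?_)
  · refine Poly.and (Poly.eq hp2 hq2) (Poly.and (poly_leN hp1 hq1) (Poly.and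
      (ho (Poly.pair hq1.succ hq2)) ?_))
    exact Poly.all (g := fun z : γ × ℕ => !(decide ((p z.1).1 < z.2) &&
      (decide (z.2 ≤ (q z.1).1) && occ z.1 (z.2, (p z.1).2)))) (Poly.range hn)
      (Poly.not (Poly.and (poly_ltN (hp1.comp Poly.fst) hz) (Poly.and
        (poly_leN hz (hq1.comp Poly.fst)) (ho' (Poly.pair hz (hp2.comp Poly.fst))))))
  · refine Poly.and (Poly.eq hp2 hq2) (Poly.and (poly_leN hq1 hp1) (Poly.and
      (poly_ltN (Poly.const 0) hq1) (Poly.and
      (ho (Poly.pair (poly_subN hq1 (Poly.const 1)) hq2)) ?_)))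
    exact Poly.all (g := fun z : γ × ℕ => !(decide ((q z.1).1 ≤ z.2) &&
      (decide (z.2 < (p z.1).1) && occ z.1 (z.2, (p z.1).2)))) (Poly.range hn)
      (Poly.not (Poly.and (poly_leN (hq1.comp Poly.fst) hz) (Poly.and
        (poly_ltN hz (hp1.comp Poly.fst)) (ho' (Poly.pair hz (hp2.comp Poly.fst))))))
  · refine Poly.and (Poly.eq hp1 hq1) (Poly.and (poly_leN hp2 hq2) (Poly.and
      (ho (Poly.pair hq1 hq2.succ)) ?_))
    exact Poly.all (g := fun z : γ × ℕ => !(decide ((p z.1).2 < z.2) &&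
      (decide (z.2 ≤ (q z.1).2) && occ z.1 ((p z.1).1, z.2)))) (Poly.range hn)
      (Poly.not (Poly.and (poly_ltN (hp2.comp Poly.fst) hz) (Poly.and
        (poly_leN hz (hq2.comp Poly.fst)) (ho' (Poly.pair (hp1.comp Poly.fst) hz)))))
  · refine Poly.and (Poly.eq hp1 hq1) (Poly.and (poly_leN hq2 hp2) (Poly.and
      (poly_ltN (Poly.const 0) hq2) (Poly.and
      (ho (Poly.pair hq1 (poly_subN hq2 (Poly.const 1)))) ?_)))
    exact Poly.all (g := fun z : γ × ℕ => !(decide ((q z.1).2 ≤ z.2) &&
      (decide (z.2 < (p z.1).2) && occ z.1 ((p z.1).1, z.2)))) (Poly.range hn)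
      (Poly.not (Poly.and (poly_leN (hq2.comp Poly.fst) hz) (Poly.and
        (poly_ltN hz (hp2.comp Poly.fst)) (ho' (Poly.pair (hp1.comp Poly.fst) hz)))))

omit [Enc E (Fin 3)] in
theorem poly_moveB {n : γ → ℕ} {u v : γ → List Bool} (hn : Poly E n) (hu : Poly E u)
    (hv : Poly E v) : Poly E (fun x => moveB (n x) (u x) (v x)) := by
  -- quantifiers
  refine Poly.any (g := fun z : γ × Cell => (cells (n z.1)).any fun q =>
    slideB (n z.1) (occB (n z.1) (u z.1) z.2) z.2 q &&
      ((bit (n z.1) 0 (u z.1) z.2 && decide (v z.1 = mvO (n z.1) (u z.1) z.2 q)) ||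
        (bit (n z.1) (n z.1 * n z.1) (u z.1) z.2 && decide (v z.1 = mvT (n z.1) (u z.1) q))))
    (poly_cells hn) ?_
  refine Poly.any (g := fun z : (γ × Cell) × Cell =>
    slideB (n z.1.1) (occB (n z.1.1) (u z.1.1) z.1.2) z.1.2 z.2 &&
      ((bit (n z.1.1) 0 (u z.1.1) z.1.2 && decide (v z.1.1 = mvO (n z.1.1) (u z.1.1) z.1.2 z.2)) ||
        (bit (n z.1.1) (n z.1.1 * n z.1.1) (u z.1.1) z.1.2 &&
          decide (v z.1.1 = mvT (n z.1.1) (u z.1.1) z.2))))
    (poly_cells (hn.comp Poly.fst)) ?_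
  have h11 : Poly E (fun z : (γ × Cell) × Cell => z.1.1) := Poly.fst.comp Poly.fst
  have hp : Poly E (fun z : (γ × Cell) × Cell => z.1.2) := Poly.snd.comp Poly.fst
  have hq : Poly E (fun z : (γ × Cell) × Cell => z.2) := Poly.snd
  have hn' := hn.comp h11
  have hu' := hu.comp h11
  have hv' := hv.comp h11
  have hd : Poly E (fun z : ((γ × Cell) × Cell) × Cell => z.2) := Poly.snd
  have hn'' : Poly E (fun z : ((γ × Cell) × Cell) × Cell => n z.1.1.1) := hn'.comp Poly.fst
  have hu'' : Poly E (fun z : ((γ × Cell) × Cell) × Cell => u z.1.1.1) := hu'.comp Poly.fst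
  have hp'' : Poly E (fun z : ((γ × Cell) × Cell) × Cell => z.1.1.2) := hp.comp Poly.fst
  have hq'' : Poly E (fun z : ((γ × Cell) × Cell) × Cell => z.1.2) := hq.comp Poly.fst
  refine Poly.and (poly_slideB hn' ?_ hp hq) (Poly.or (Poly.and (poly_bit hn' (Poly.const 0) hu' hp)
    (Poly.eq hv' ?_)) (Poly.and (poly_bit hn' (Poly.mul hn' hn') hu' hp) (Poly.eq hv' ?_)))
  · exact Poly.and (Poly.or (poly_bit hn'' (Poly.const 0) hu'' hd)
      (poly_bit hn'' (Poly.mul hn'' hn'') hu'' hd)) (Poly.not (Poly.eq hd hp''))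
  · refine Poly.append ?_ ?_
    · exact Poly.map (g := fun z : ((γ × Cell) × Cell) × Cell => decide (z.2 = z.1.2) ||
        (bit (n z.1.1.1) 0 (u z.1.1.1) z.2 && !(decide (z.2 = z.1.1.2)))) (poly_cells hn')
        (Poly.or (Poly.eq hd hq'') (Poly.and (poly_bit hn'' (Poly.const 0) hu'' hd)
          (Poly.not (Poly.eq hd hp''))))
    · exact Poly.map (g := fun z : ((γ × Cell) × Cell) × Cell =>
        bit (n z.1.1.1) (n z.1.1.1 * n z.1.1.1) (u z.1.1.1) z.2) (poly_cells hn')
        (poly_bit hn'' (Poly.mul hn'' hn'') hu'' hd)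
  · refine Poly.append ?_ ?_
    · exact Poly.map (g := fun z : ((γ × Cell) × Cell) × Cell =>
        bit (n z.1.1.1) 0 (u z.1.1.1) z.2) (poly_cells hn') (poly_bit hn'' (Poly.const 0) hu'' hd)
    · exact Poly.map (g := fun z : ((γ × Cell) × Cell) × Cell => decide (z.2 = z.1.2))
        (poly_cells hn') (Poly.eq hd hq'')

/-! ### The input -/

theorem poly_size {x : γ → List Sy} (hx : Poly E x) : Poly E (fun c => size (x c)) :=
  Poly.length (Poly.filter (g := fun p : γ × Sy => decide (p.2 = none)) hx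
    (Poly.eq Poly.snd (Poly.const _)))

theorem poly_sy {n : γ → ℕ} {x : γ → List Sy} {c : γ → Cell} (hn : Poly E n) (hx : Poly E x)
    (hc : Poly E c) : Poly E (fun z => sy (n z) (x z) (c z)) :=
  IsoImp.Poly.getElem? (f := x) (i := fun z => (c z).1 + (n z + 1) * (c z).2) hx
    (Poly.add (Poly.fst.comp hc) (Poly.mul hn.succ (Poly.snd.comp hc)))

theorem poly_isSy {n : γ → ℕ} {x : γ → List Sy} {c : γ → Cell} (hn : Poly E n) (hx : Poly E x)
    (hc : Poly E c) (k : Fin 3) : Poly E (fun z => decide (sy (n z) (x z) (c z) =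
      some (some (k, false))) || decide (sy (n z) (x z) (c z) = some (some (k, true)))) :=
  Poly.or (Poly.eq (poly_sy hn hx hc) (Poly.const _)) (Poly.eq (poly_sy hn hx hc) (Poly.const _))

theorem poly_reenc {n : γ → ℕ} {x : γ → List Sy} {t g : γ → Cell} (hn : Poly E n) (hx : Poly E x)
    (ht : Poly E t) (hg : Poly E g) : Poly E (fun c => reenc (n c) (x c) (t c) (g c)) := by
  refine Poly.flatMap (g := fun p : γ × ℕ => ((List.range (n p.1)).map fun z =>
    some (if (z, p.2) = t p.1 then 2 else if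
      decide (sy (n p.1) (x p.1) (z, p.2) = some (some (1, false))) ||
      decide (sy (n p.1) (x p.1) (z, p.2) = some (some (1, true))) then 1 else 0,
      decide ((z, p.2) = g p.1))) ++ [none]) (Poly.range hn) ?_
  refine Poly.append (Poly.map (g := fun q : (γ × ℕ) × ℕ =>
    some (if (q.2, q.1.2) = t q.1.1 then (2 : Fin 3) else if
      decide (sy (n q.1.1) (x q.1.1) (q.2, q.1.2) = some (some (1, false))) ||
      decide (sy (n q.1.1) (x q.1.1) (q.2, q.1.2) = some (some (1, true))) then 1 else 0,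
      decide ((q.2, q.1.2) = g q.1.1))) (Poly.range (hn.comp Poly.fst)) ?_) (Poly.const _)
  have hc : Poly E (fun q : (γ × ℕ) × ℕ => ((q.2, q.1.2) : Cell)) :=
    Poly.pair Poly.snd (Poly.snd.comp Poly.fst)
  have h11 : Poly E (fun q : (γ × ℕ) × ℕ => q.1.1) := Poly.fst.comp Poly.fst
  refine Poly.osome (Poly.pair ?_ (Poly.eq hc (hg.comp h11)))
  refine (Poly.ite (Poly.eq hc (ht.comp h11)) (Poly.const (2 : Fin 3))
    (Poly.ite (poly_isSy (hn.comp h11) (hx.comp h11) hc 1) (Poly.const (1 : Fin 3))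
      (Poly.const (0 : Fin 3)))).congr fun q => ?_
  simp only [decide_eq_true_eq]

theorem poly_valid {x : γ → List Sy} (hx : Poly E x) : Poly E (fun c => valid (x c)) := by
  have hn := poly_size hx
  refine Poly.any (g := fun z : γ × Cell => (cells (size (x z.1))).any fun g =>
    decide (x z.1 = reenc (size (x z.1)) (x z.1) z.2 g)) (poly_cells hn) ?_
  refine Poly.any (g := fun z : (γ × Cell) × Cell =>
    decide (x z.1.1 = reenc (size (x z.1.1)) (x z.1.1) z.1.2 z.2))
    (poly_cells (hn.comp Poly.fst)) ?_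
  have h11 : Poly E (fun z : (γ × Cell) × Cell => z.1.1) := Poly.fst.comp Poly.fst
  exact Poly.eq (hx.comp h11) (poly_reenc (hn.comp h11) (hx.comp h11) (Poly.snd.comp Poly.fst)
    Poly.snd)

theorem poly_start {x : γ → List Sy} (hx : Poly E x) : Poly E (fun c => start (x c)) := by
  have hn := poly_size hx
  have hf : Poly E (fun z : γ × Cell => z.1) := Poly.fst
  refine Poly.append ?_ ?_
  · exact Poly.map (g := fun z : γ × Cell =>
      decide (sy (size (x z.1)) (x z.1) z.2 = some (some (1, false))) ||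
      decide (sy (size (x z.1)) (x z.1) z.2 = some (some (1, true)))) (poly_cells hn)
      (poly_isSy (hn.comp hf) (hx.comp hf) Poly.snd 1)
  · exact Poly.map (g := fun z : γ × Cell =>
      decide (sy (size (x z.1)) (x z.1) z.2 = some (some (2, false))) ||
      decide (sy (size (x z.1)) (x z.1) z.2 = some (some (2, true)))) (poly_cells hn)
      (poly_isSy (hn.comp hf) (hx.comp hf) Poly.snd 2)

theorem poly_winB {x : γ → List Sy} {u : γ → List Bool} (hx : Poly E x) (hu : Poly E u) :
    Poly E (fun c => winB (x c) (u c)) := by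
  have hn := poly_size hx
  have hf : Poly E (fun z : γ × Cell => z.1) := Poly.fst
  have hs := poly_sy (hn.comp hf) (hx.comp hf) (Poly.snd (α := γ) (β := Cell) (E := E))
  exact Poly.any (g := fun z : γ × Cell =>
    bit (size (x z.1)) (size (x z.1) * size (x z.1)) (u z.1) z.2 &&
    (decide (sy (size (x z.1)) (x z.1) z.2 = some (some (0, true))) ||
      (decide (sy (size (x z.1)) (x z.1) z.2 = some (some (1, true))) ||
        decide (sy (size (x z.1)) (x z.1) z.2 = some (some (2, true)))))) (poly_cells hn)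
    (Poly.and (poly_bit (hn.comp hf) (Poly.mul (hn.comp hf) (hn.comp hf)) (hu.comp hf) Poly.snd)
      (Poly.or (Poly.eq hs (Poly.const _)) (Poly.or (Poly.eq hs (Poly.const _))
        (Poly.eq hs (Poly.const _)))))

theorem poly_adj : Poly E adj := by
  refine Poly.optCasesF
    (f := fun p : List Sy × (Option (List Bool) × Option (List Bool)) => p.2.1)
    (g := fun _ => false)
    (h := fun q : (List Sy × (Option (List Bool) × Option (List Bool))) × List Bool =>
      adj (q.1.1, (some q.2, q.1.2.2))) _ (Poly.fst.comp Poly.snd) (Poly.const _) ?_ ?_ ?_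
  · refine Poly.optCasesF
      (f := fun q : (List Sy × (Option (List Bool) × Option (List Bool))) × List Bool => q.1.2.2)
      (g := fun q => valid q.1.1 && winB q.1.1 q.2)
      (h := fun r : ((List Sy × (Option (List Bool) × Option (List Bool))) × List Bool) ×
        List Bool => valid r.1.1.1 && moveB (size r.1.1.1) r.1.2 r.2) _
      (Poly.snd.comp (Poly.snd.comp Poly.fst)) ?_ ?_ ?_ ?_
    · have hx : Poly E (fun q : (List Sy × (Option (List Bool) × Option (List Bool))) × List Bool =>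
        q.1.1) := Poly.fst.comp Poly.fst
      exact Poly.and (poly_valid hx) (poly_winB hx Poly.snd)
    · have hx : Poly E (fun r : ((List Sy × (Option (List Bool) × Option (List Bool))) ×
        List Bool) × List Bool => r.1.1.1) := Poly.fst.comp (Poly.fst.comp Poly.fst)
      exact Poly.and (poly_valid hx) (poly_moveB (poly_size hx) (Poly.snd.comp Poly.fst) Poly.snd)
    · rintro ⟨⟨x, u, v⟩, w⟩ h
      simp only at h
      subst h
      rfl
    · rintro ⟨⟨x, u, v⟩, w⟩ a h
      simp only at h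
      subst h
      rfl
  · rintro ⟨x, u, v⟩ h
    simp only at h
    subst h
    rfl
  · rintro ⟨x, u, v⟩ a h
    simp only at h
    subst h
    rfl

end Pool.Agent.Lunar.Mem

namespace Pool.Agent.Lunar

open Pool.Agent.PT81 Pool.Agent.IsoImp Pool.Agent.SetPS Mem

/-- LUNAR LOCKOUT is in PSPACE. -/
theorem lunar_mem : InPSPACE LUNAR := by
  let _ : Enc (io Sy Bool) (Fin 3) := finEnc _ (Fin 3)
  have hx : Poly (io Sy Bool) (fun x : List Sy => x) := Poly.id
  have hn := poly_size hx
  exact inPSPACE_reach LUNAR (fun x => some (start x)) (fun _ => none)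
    (fun x => size x * size x + size x * size x) (fun p => some p.2) adj
    (Poly.osome (poly_start hx)) (Poly.const _) (Poly.add (Poly.mul hn hn) (Poly.mul hn hn))
    (Poly.osome Poly.snd) poly_adj (fun x => by simp) (fun x w h => reach_code x w h)
    (fun x => mem_LUNAR_iff x)

end Pool.Agent.Lunar
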