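import Pool.Agent.Lunar.Ret

/-!
# Normal form: explicit merges
-/

set_option linter.unusedSectionVars false

namespace Pool.Agent.Lunar

open Relation Function

namespace Nf

/-- All components are cells. -/
def AllCells (N : List Comp) : Prop := ∀ c ∈ N, ∃ er el v, c = Comp.cell er el v

/-- All targets exist. -/
def InRange (N : List Comp) : Prop :=
  ∀ (g : ℕ) (er el v : Tgt), N[g]? = some (Comp.cell er el v) → ∀ (g' : ℕ) (b : Bool),
    (er = Tgt.port g' b ∨ el = Tgt.port g' b ∨ v = Tgt.port g' b) → g' < N.length

variable {N : List Comp}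

theorem len : (normalNet N).length = 1 + N.length + (2 * N.length + 1) * (3 * N.length) := by
  unfold normalNet
  simp only [List.length_cons, List.length_append, List.length_map, List.length_zipIdx,
    List.length_range]
  omega

theorem get_zero : (normalNet N)[0]? = some (.merge (.port (1 + N.length) false)) := rfl

theorem get_cell {c : ℕ} {x : Comp} (h : N[c]? = some x) :
    (normalNet N)[1 + c]? = some (newCell N.length c x) := by
  have hc : c < N.length := (List.getElem?_eq_some_iff.mp h).1
  unfold normalNet
  rw [Nat.add_comm 1 c, List.getElem?_cons_succ, List.getElem?_append_left (by simpa using hc),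
    List.getElem?_map, List.getElem?_zipIdx, h]
  simp

theorem get_merge {m : ℕ} (hm : m < (2 * N.length + 1) * (3 * N.length)) :
    (normalNet N)[1 + N.length + m]? = some (mergeComp N.length m) := by
  unfold normalNet
  rw [show 1 + N.length + m = (N.length + m) + 1 by omega, List.getElem?_cons_succ,
    List.getElem?_append_right (by simp)]
  simp [hm]

/-- The shifted target. -/
def shift : Tgt → Tgt
  | .dead => .dead
  | .goal => .goal
  | .port g b => .port (1 + g) b

theorem last_tnum {C : ℕ} {t : Tgt} (h0 : t ≠ .dead) (ht : ∀ g b, t = .port g b → g < C) :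
    lastTgt C (tnum C t) = shift t := by
  cases t with
  | dead => exact absurd rfl h0
  | goal => unfold lastTgt; rw [if_neg (by simp only [tnum]; omega)]; rfl
  | port g b =>
    have hg := ht g b rfl
    cases b with
    | false =>
      have e : tnum C (.port g false) = 2 * g := rfl
      unfold lastTgt
      rw [e, if_pos (by omega), show shift (.port g false) = .port (1 + g) false from rfl,
        Tgt.port.injEq]
      refine ⟨by omega, ?_⟩
      rw [decide_eq_false_iff_not]; omega
    | true =>
      have e : tnum C (.port g true) = 2 * g + 1 := rfl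
      unfold lastTgt
      rw [e, if_pos (by omega), show shift (.port g true) = .port (1 + g) true from rfl,
        Tgt.port.injEq]
      refine ⟨by omega, ?_⟩
      rw [decide_eq_true_iff]; omega

theorem tnum_le {C : ℕ} {t : Tgt} (ht : ∀ g b, t = .port g b → g < C) : tnum C t ≤ 2 * C := by
  cases t with
  | dead => simp [tnum]
  | goal => simp [tnum]
  | port g b =>
    have hg := ht g b rfl
    cases b <;> simp only [tnum] <;> omega

theorem div_eq' {C v u : ℕ} (hu : u < 3 * C) : (v * (3 * C) + u) / (3 * C) = v := by
  rw [Nat.mul_comm, Nat.mul_add_div (by omega), Nat.div_eq_of_lt hu, Nat.add_zero]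

theorem mod_eq' {C v u : ℕ} (hu : u < 3 * C) : (v * (3 * C) + u) % (3 * C) = u := by
  rw [Nat.mul_comm, Nat.mul_add_mod, Nat.mod_eq_of_lt hu]

theorem m_lt {C v u : ℕ} (hv : v ≤ 2 * C) (hu : u < 3 * C) :
    v * (3 * C) + u < (2 * C + 1) * (3 * C) := by
  have : v * (3 * C) ≤ (2 * C) * (3 * C) := Nat.mul_le_mul_right _ hv
  rw [Nat.add_mul, Nat.one_mul]
  omega

/-! ### Simulation of the old net -/

/-- The cell states of the new net. -/
def lift (s : ℕ → Bool) : ℕ → Bool := fun i => if i = 0 then false else s (i - 1)

theorem lift_upd (s : ℕ → Bool) (g : ℕ) (b : Bool) :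
    lift (update s g b) = update (lift s) (1 + g) b := by
  funext i
  unfold lift
  by_cases hi : i = 0
  · subst hi; rw [if_pos rfl, update_of_ne (by omega), if_pos rfl]
  · rw [if_neg hi]
    by_cases h : i = 1 + g
    · subst h
      rw [show 1 + g - 1 = g by omega, update_self, update_self]
    · rw [update_of_ne h, update_of_ne (by omega), if_neg hi]

theorem lift_at (s : ℕ → Bool) (g : ℕ) : lift s (1 + g) = s g := by
  unfold lift
  rw [if_neg (by omega), show 1 + g - 1 = g by omega]

theorem chain {v : ℕ} (hv : v ≤ 2 * N.length) (s : ℕ → Bool) : ∀ d, ∀ u b, u + d + 1 = 3 * N.length →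
    ReflTransGen (CStep (normalNet N)) (.port (midx N.length v u) b, s)
      (lastTgt N.length v, s) := by
  intro d
  induction d with
  | zero =>
    intro u b hu
    have hlt : u < 3 * N.length := by omega
    have h1 := get_merge (N := N) (m_lt hv hlt)
    unfold mergeComp at h1
    rw [mod_eq' hlt, if_neg (by omega), div_eq' hlt] at h1
    have e1 : midx N.length v u = 1 + N.length + (v * (3 * N.length) + u) := by
      unfold midx; omega
    rw [e1]
    exact .single (.merge h1)
  | succ d ih =>
    intro u b hu
    have hlt : u < 3 * N.length := by omega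
    have h1 := get_merge (N := N) (m_lt hv hlt)
    unfold mergeComp at h1
    rw [mod_eq' hlt, if_pos (by omega)] at h1
    have e1 : midx N.length v u = 1 + N.length + (v * (3 * N.length) + u) := by
      unfold midx; omega
    have e2 : midx N.length v (u + 1) = 1 + N.length + (v * (3 * N.length) + u) + 1 := by
      unfold midx; omega
    have h2 := ih (u + 1) false (by omega)
    rw [e2] at h2
    rw [e1]
    exact .head (.merge h1) h2

theorem to_shift {u : ℕ} {t : Tgt} (hu : u < 3 * N.length)
    (ht : ∀ g b, t = .port g b → g < N.length) (s : ℕ → Bool) :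
    ReflTransGen (CStep (normalNet N)) (newTgt N.length u t, s) (shift t, s) := by
  cases t with
  | dead => exact .refl
  | goal =>
    have := chain (N := N) (tnum_le ht) s (3 * N.length - 1 - u) u true (by omega)
    rw [last_tnum (by simp) ht] at this
    exact this
  | port g b =>
    have := chain (N := N) (tnum_le ht) s (3 * N.length - 1 - u) u true (by omega)
    rw [last_tnum (by simp) ht] at this
    exact this

theorem sim_step (hr : InRange N) {t t' : Tgt} {s s' : ℕ → Bool}
    (hN : AllCells N) (h : CStep N (t, s) (t', s')) :
    ReflTransGen (CStep (normalNet N)) (shift t, lift s) (shift t', lift s') := by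
  cases h with
  | @er g b _ _ el v h hs =>
    have hg : g < N.length := (List.getElem?_eq_some_iff.mp h).1
    have hc := get_cell h
    rw [lift_upd]
    exact .head (CStep.er hc (by rw [lift_at]; exact hs)) (to_shift (by omega)
      (fun g' b' h' => hr g _ _ _ h g' b' (Or.inl h')) _)
  | @el g b _ er _ v h hs =>
    have hg : g < N.length := (List.getElem?_eq_some_iff.mp h).1
    have hc := get_cell h
    rw [lift_upd]
    exact .head (CStep.el hc (by rw [lift_at]; exact hs)) (to_shift (by omega)
      (fun g' b' h' => hr g _ _ _ h g' b' (Or.inr (Or.inl h'))) _)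
  | @v g b _ er el _ h hs =>
    have hg : g < N.length := (List.getElem?_eq_some_iff.mp h).1
    have hc := get_cell h
    exact .head (CStep.v hc (by rw [lift_at]; exact hs)) (to_shift (by omega)
      (fun g' b' h' => hr g _ _ _ h g' b' (Or.inr (Or.inr h'))) _)
  | @merge g b _ o h =>
    obtain ⟨er, el, v, hc⟩ := hN _ (List.mem_of_getElem? h)
    simp at hc

/-! ### Soundness -/

/-- The invariant. -/
inductive Inv (N : List Comp) (R : CSt → Prop) : CSt → Prop
  | start {s : ℕ → Bool} (hR : R (.port 0 false, fun g => s (1 + g))) :
      Inv N R (.port 0 false, s)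
  | here {t : Tgt} {s : ℕ → Bool} (hR : R (t, fun g => s (1 + g)))
      (ht : ∀ g b, t = .port g b → g < N.length) : Inv N R (shift t, s)
  | mid {t : Tgt} {m : ℕ} {b : Bool} {s : ℕ → Bool} (hR : R (t, fun g => s (1 + g)))
      (ht : ∀ g b, t = .port g b → g < N.length)
      (hm : m < (2 * N.length + 1) * (3 * N.length))
      (hl : lastTgt N.length (m / (3 * N.length)) = shift t) :
      Inv N R (.port (1 + N.length + m) b, s)

theorem inv_new {R : CSt → Prop} {u : ℕ} {t : Tgt} {s : ℕ → Bool} (hu : u < 3 * N.length)
    (hR : R (t, fun g => s (1 + g))) (ht : ∀ g b, t = .port g b → g < N.length) :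
    Inv N R (newTgt N.length u t, s) := by
  cases t with
  | dead => exact .here hR ht
  | goal =>
    have h1 : newTgt N.length u .goal =
        .port (1 + N.length + (tnum N.length .goal * (3 * N.length) + u)) true := by
      rw [← Nat.add_assoc]; rfl
    rw [h1]
    refine .mid hR ht (m_lt (tnum_le ht) hu) ?_
    rw [div_eq' hu, last_tnum (by simp) ht]
  | port g b =>
    have h1 : newTgt N.length u (.port g b) =
        .port (1 + N.length + (tnum N.length (.port g b) * (3 * N.length) + u)) true := by
      rw [← Nat.add_assoc]; rfl
    rw [h1]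
    refine .mid hR ht (m_lt (tnum_le ht) hu) ?_
    rw [div_eq' hu, last_tnum (by simp) ht]

theorem upd_shift (s : ℕ → Bool) (g : ℕ) (b : Bool) :
    (fun i => update s (1 + g) b (1 + i)) = update (fun i => s (1 + i)) g b := by
  funext i
  by_cases h : i = g
  · subst h; rw [update_self, update_self]
  · rw [update_of_ne h, update_of_ne (by omega)]

theorem inv_step (hr : InRange N) (hN : AllCells N) (h0 : 0 < N.length) {R : CSt → Prop}
    (hR : ∀ x y, R x → CStep N x y → R y) {x y : CSt} (hx : Inv N R x)
    (h : CStep (normalNet N) x y) : Inv N R y := by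
  cases hx with
  | @start s hRs =>
    have hc := get_zero (N := N)
    cases h with
    | er h _ => rw [hc] at h; simp at h
    | el h _ => rw [hc] at h; simp at h
    | v h _ => rw [hc] at h; simp at h
    | merge h =>
      rw [hc, Option.some.injEq, Comp.merge.injEq] at h
      rw [← h]
      have ht : ∀ g b, (Tgt.port 0 false) = .port g b → g < N.length := by
        intro g b hgb
        rw [Tgt.port.injEq] at hgb
        omega
      refine .mid (m := 0) (t := .port 0 false) hRs ht ?_ ?_
      · exact Nat.mul_pos (by omega) (by omega)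
      · rw [Nat.zero_div]
        have := last_tnum (C := N.length) (t := .port 0 false) (by simp) ht
        simpa [tnum] using this
  | @here t s hRt ht =>
    cases t with
    | dead => cases h
    | goal => cases h
    | port g b =>
      have hg := ht g b rfl
      obtain ⟨x, hx⟩ : ∃ x, N[g]? = some x := ⟨N[g], List.getElem?_eq_getElem hg⟩
      obtain ⟨er, el, v, rfl⟩ := hN _ (List.mem_of_getElem? hx)
      have hc := get_cell hx
      simp only [newCell] at hc
      simp only [shift] at h
      cases h with
      | er h hs =>
        rw [hc, Option.some.injEq, Comp.cell.injEq] at h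
        rw [← h.1]
        refine inv_new (by omega) ?_ (fun g' b' h' => hr g _ _ _ hx g' b' (Or.inl h'))
        rw [upd_shift]
        exact hR _ _ hRt (.er hx hs)
      | el h hs =>
        rw [hc, Option.some.injEq, Comp.cell.injEq] at h
        rw [← h.2.1]
        refine inv_new (by omega) ?_ (fun g' b' h' => hr g _ _ _ hx g' b' (Or.inr (Or.inl h')))
        rw [upd_shift]
        exact hR _ _ hRt (.el hx hs)
      | v h hs =>
        rw [hc, Option.some.injEq, Comp.cell.injEq] at h
        rw [← h.2.2]
        refine inv_new (by omega) ?_ (fun g' b' h' => hr g _ _ _ hx g' b' (Or.inr (Or.inr h')))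
        exact hR _ _ hRt (.v hx hs)
      | merge h => rw [hc] at h; simp at h
  | @mid t m b s hRt ht hm hl =>
    have hc := get_merge (N := N) hm
    unfold mergeComp at hc
    by_cases hu : m % (3 * N.length) + 1 < 3 * N.length
    · rw [if_pos hu] at hc
      cases h with
      | er h _ => rw [hc] at h; simp at h
      | el h _ => rw [hc] at h; simp at h
      | v h _ => rw [hc] at h; simp at h
      | merge h =>
        rw [hc, Option.some.injEq, Comp.merge.injEq] at h
        rw [← h, Nat.add_assoc (1 + N.length)]
        have hdm := Nat.div_add_mod m (3 * N.length)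
        have hq : (m + 1) / (3 * N.length) = m / (3 * N.length) := by
          have h1 : m + 1 = (m / (3 * N.length)) * (3 * N.length) + (m % (3 * N.length) + 1) := by
            rw [Nat.mul_comm]; omega
          rw [h1, div_eq' hu]
        refine .mid hRt ht ?_ (by rw [hq]; exact hl)
        have h2 : m / (3 * N.length) < 2 * N.length + 1 :=
          Nat.div_lt_of_lt_mul (by rw [Nat.mul_comm]; exact hm)
        have h3 : m + 1 = (m / (3 * N.length)) * (3 * N.length) + (m % (3 * N.length) + 1) := by
          rw [Nat.mul_comm]; omega
        rw [h3]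
        exact m_lt (by omega) hu
    · rw [if_neg hu, hl] at hc
      cases h with
      | er h _ => rw [hc] at h; simp at h
      | el h _ => rw [hc] at h; simp at h
      | v h _ => rw [hc] at h; simp at h
      | merge h =>
        rw [hc, Option.some.injEq, Comp.merge.injEq] at h
        rw [← h]
        exact .here hRt ht

/-! ### Normal form -/

/-- The possible wires of the new net. -/
theorem wire_cases (hr : InRange N) (hN : AllCells N) {g k : ℕ}
    (h : wire (normalNet N) g k ≠ .dead) :
    (g = 0 ∧ k = 0 ∧ wire (normalNet N) g k = .port (1 + N.length) false) ∨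
    (∃ c t, g = 1 + c ∧ c < N.length ∧ k < 3 ∧ t ≠ .dead ∧
      (∀ g b, t = .port g b → g < N.length) ∧
      wire (normalNet N) g k =
        .port (1 + N.length + (tnum N.length t * (3 * N.length) + (3 * c + k))) true) ∨
    (∃ m, g = 1 + N.length + m ∧ m < (2 * N.length + 1) * (3 * N.length) ∧ k = 0 ∧
      m % (3 * N.length) + 1 < 3 * N.length ∧
      wire (normalNet N) g k = .port (1 + N.length + m + 1) false) ∨
    (∃ m, g = 1 + N.length + m ∧ m < (2 * N.length + 1) * (3 * N.length) ∧ k = 0 ∧
      ¬ (m % (3 * N.length) + 1 < 3 * N.length) ∧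
      wire (normalNet N) g k = lastTgt N.length (m / (3 * N.length))) := by
  have hlen : g < (normalNet N).length := by
    by_contra hcon
    apply h
    unfold wire
    rw [List.getElem?_eq_none (by omega)]
  rw [len] at hlen
  rcases Nat.lt_or_ge g 1 with h1 | h1
  · left
    have hg : g = 0 := by omega
    subst hg
    rcases k with _ | k
    · exact ⟨rfl, rfl, rfl⟩
    · exfalso; apply h; unfold wire; rw [get_zero]; rfl
  · rcases Nat.lt_or_ge g (1 + N.length) with h2 | h2
    · right; left
      obtain ⟨c, rfl⟩ : ∃ c, g = 1 + c := ⟨g - 1, by omega⟩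
      have hc : c < N.length := by omega
      obtain ⟨x, hx⟩ : ∃ x, N[c]? = some x := ⟨N[c], List.getElem?_eq_getElem hc⟩
      obtain ⟨er, el, v, rfl⟩ := hN _ (List.mem_of_getElem? hx)
      have hcell := get_cell hx
      simp only [newCell] at hcell
      have key : ∀ (t : Tgt) (j : ℕ), j < 3 → (∀ g b, t = .port g b → g < N.length) →
          wire (normalNet N) (1 + c) j = newTgt N.length (3 * c + j) t →
          wire (normalNet N) (1 + c) j ≠ .dead →
          ∃ c' t', 1 + c = 1 + c' ∧ c' < N.length ∧ j < 3 ∧ t' ≠ .dead ∧
            (∀ g b, t' = .port g b → g < N.length) ∧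
            wire (normalNet N) (1 + c) j =
              .port (1 + N.length + (tnum N.length t' * (3 * N.length) + (3 * c' + j))) true := by
        intro t j hj ht hw hd
        refine ⟨c, t, rfl, hc, hj, ?_, ht, ?_⟩
        · rintro rfl
          exact hd (by rw [hw]; rfl)
        · rw [hw]
          cases t with
          | dead => exact absurd (by rw [hw]; rfl) hd
          | goal => rw [newTgt, midx, Nat.add_assoc (1 + N.length)]; simp
          | port a b => rw [newTgt, midx, Nat.add_assoc (1 + N.length)]; simp
      rcases k with _ | _ | _ | k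
      · exact key er 0 (by norm_num) (fun g' b' h' => hr c _ _ _ hx g' b' (Or.inl h'))
          (by unfold wire; rw [hcell]; rfl) h
      · exact key el 1 (by norm_num) (fun g' b' h' => hr c _ _ _ hx g' b' (Or.inr (Or.inl h')))
          (by unfold wire; rw [hcell]; rfl) h
      · exact key v 2 (by norm_num) (fun g' b' h' => hr c _ _ _ hx g' b' (Or.inr (Or.inr h')))
          (by unfold wire; rw [hcell]; rfl) h
      · exfalso; apply h; unfold wire; rw [hcell]; rfl
    · right; right
      obtain ⟨m, rfl⟩ : ∃ m, g = 1 + N.length + m := ⟨g - (1 + N.length), by omega⟩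
      have hm : m < (2 * N.length + 1) * (3 * N.length) := by omega
      have hc := get_merge hm
      unfold mergeComp at hc
      by_cases hu : m % (3 * N.length) + 1 < 3 * N.length
      · left
        rw [if_pos hu] at hc
        rcases k with _ | k
        · exact ⟨m, rfl, hm, rfl, hu, by unfold wire; rw [hc]; rfl⟩
        · exfalso; apply h; unfold wire; rw [hc]; rfl
      · right
        rw [if_neg hu] at hc
        rcases k with _ | k
        · exact ⟨m, rfl, hm, rfl, hu, by unfold wire; rw [hc]; rfl⟩
        · exfalso; apply h; unfold wire; rw [hc]; rfl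

theorem lastTgt_cases {C v : ℕ} : lastTgt C v = .goal ∨
    ∃ c b, c < C ∧ lastTgt C v = .port (1 + c) b := by
  unfold lastTgt
  by_cases h : v < 2 * C
  · right
    rw [if_pos h]
    exact ⟨v / 2, _, by omega, rfl⟩
  · left; rw [if_neg h]

theorem lastTgt_inj {C v w : ℕ} (hv : v ≤ 2 * C) (hw : w ≤ 2 * C)
    (h : lastTgt C v = lastTgt C w) : v = w := by
  unfold lastTgt at h
  by_cases h1 : v < 2 * C
  · rw [if_pos h1] at h
    by_cases h2 : w < 2 * C
    · rw [if_pos h2, Tgt.port.injEq] at h
      have h3 := h.2
      rw [decide_eq_decide] at h3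
      have := h.1
      omega
    · rw [if_neg h2] at h; simp at h
  · rw [if_neg h1] at h
    by_cases h2 : w < 2 * C
    · rw [if_pos h2] at h; simp at h
    · omega

end Nf

/-- The net with explicit merges is in normal form. -/
theorem normalNet_normal {N : List Comp} (hr : Nf.InRange N) (hN : Nf.AllCells N)
    (h0 : 0 < N.length) : Normal (normalNet N) := by
  constructor
  · intro g k g' k' he hd
    have hd' : wire (normalNet N) g' k' ≠ .dead := by rw [← he]; exact hd
    rcases Nf.wire_cases hr hN hd with ⟨hg, hk, hw⟩ | ⟨c, t, hg, hc, hk, ht0, ht, hw⟩ |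
        ⟨m, hg, hm, hk, hu, hw⟩ | ⟨m, hg, hm, hk, hu, hw⟩ <;>
      rcases Nf.wire_cases hr hN hd' with ⟨hg', hk', hw'⟩ | ⟨c', t', hg', hc', hk', ht0', ht', hw'⟩ |
        ⟨m', hg', hm', hk', hu', hw'⟩ | ⟨m', hg', hm', hk', hu', hw'⟩ <;>
      rw [hw, hw'] at he
    · exact ⟨by omega, by omega⟩
    · simp at he
    · rw [Tgt.port.injEq] at he; omega
    · rcases Nf.lastTgt_cases (C := N.length) (v := m' / (3 * N.length)) with h | ⟨c, b, hc, h⟩
      · rw [h] at he; simp at he
      · rw [h, Tgt.port.injEq] at he; omega
    · simp at he
    · rw [Tgt.port.injEq] at he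
      have h1 : tnum N.length t * (3 * N.length) + (3 * c + k) =
          tnum N.length t' * (3 * N.length) + (3 * c' + k') := by omega
      have h2 : (tnum N.length t * (3 * N.length) + (3 * c + k)) % (3 * N.length) =
          (tnum N.length t' * (3 * N.length) + (3 * c' + k')) % (3 * N.length) := by rw [h1]
      rw [Nf.mod_eq' (by omega), Nf.mod_eq' (by omega)] at h2
      constructor <;> omega
    · simp at he
    · rcases Nf.lastTgt_cases (C := N.length) (v := m' / (3 * N.length)) with h | ⟨c, b, hc, h⟩
      · rw [h] at he; simp at he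
      · rw [h, Tgt.port.injEq] at he; omega
    · rw [Tgt.port.injEq] at he; omega
    · simp at he
    · rw [Tgt.port.injEq] at he
      exact ⟨by omega, by omega⟩
    · rcases Nf.lastTgt_cases (C := N.length) (v := m' / (3 * N.length)) with h | ⟨c, b, hc, h⟩
      · rw [h] at he; simp at he
      · rw [h, Tgt.port.injEq] at he; omega
    · rcases Nf.lastTgt_cases (C := N.length) (v := m / (3 * N.length)) with h | ⟨c, b, hc, h⟩
      · rw [h] at he; simp at he
      · rw [h, Tgt.port.injEq] at he; omega
    · rcases Nf.lastTgt_cases (C := N.length) (v := m / (3 * N.length)) with h | ⟨c, b, hc, h⟩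
      · rw [h] at he; simp at he
      · rw [h, Tgt.port.injEq] at he; omega
    · rcases Nf.lastTgt_cases (C := N.length) (v := m / (3 * N.length)) with h | ⟨c, b, hc, h⟩
      · rw [h] at he; simp at he
      · rw [h, Tgt.port.injEq] at he; omega
    · have hq : m / (3 * N.length) < 2 * N.length + 1 :=
        Nat.div_lt_of_lt_mul (by rw [Nat.mul_comm]; exact hm)
      have hq' : m' / (3 * N.length) < 2 * N.length + 1 :=
        Nat.div_lt_of_lt_mul (by rw [Nat.mul_comm]; exact hm')
      have h1 := Nf.lastTgt_inj (by omega) (by omega) he
      have h2 := Nat.div_add_mod m (3 * N.length)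
      have h3 := Nat.div_add_mod m' (3 * N.length)
      have h4 := Nat.mod_lt m (show 0 < 3 * N.length by omega)
      have h5 := Nat.mod_lt m' (show 0 < 3 * N.length by omega)
      rw [h1] at h2
      exact ⟨by omega, by omega⟩
  · intro g k he
    have hd : wire (normalNet N) g k ≠ .dead := by rw [he]; simp
    rcases Nf.wire_cases hr hN hd with ⟨hg, hk, hw⟩ | ⟨c, t, hg, hc, hk, ht0, ht, hw⟩ |
        ⟨m, hg, hm, hk, hu, hw⟩ | ⟨m, hg, hm, hk, hu, hw⟩
    · rw [hw, Tgt.port.injEq] at he; omega
    · rw [hw, Tgt.port.injEq] at he; omega
    · rw [hw, Tgt.port.injEq] at he; omega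
    · rcases Nf.lastTgt_cases (C := N.length) (v := m / (3 * N.length)) with h | ⟨c, b, hc, h⟩
      · rw [hw, h] at he; simp at he
      · rw [hw, h, Tgt.port.injEq] at he; omega
  · intro g k g' b he
    have hd : wire (normalNet N) g k ≠ .dead := by rw [he]; simp
    rw [Nf.len]
    have hpos : 0 < (2 * N.length + 1) * (3 * N.length) := Nat.mul_pos (by omega) (by omega)
    rcases Nf.wire_cases hr hN hd with ⟨hg, hk, hw⟩ | ⟨c, t, hg, hc, hk, ht0, ht, hw⟩ |
        ⟨m, hg, hm, hk, hu, hw⟩ | ⟨m, hg, hm, hk, hu, hw⟩
    · rw [hw, Tgt.port.injEq] at he; omega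
    · rw [hw, Tgt.port.injEq] at he
      have h1 := Nf.m_lt (C := N.length) (Nf.tnum_le ht) (u := 3 * c + k) (by omega)
      omega
    · rw [hw, Tgt.port.injEq] at he
      have h2 : m / (3 * N.length) < 2 * N.length + 1 :=
        Nat.div_lt_of_lt_mul (by rw [Nat.mul_comm]; exact hm)
      have h3 : m + 1 = (m / (3 * N.length)) * (3 * N.length) + (m % (3 * N.length) + 1) := by
        have := Nat.div_add_mod m (3 * N.length)
        rw [Nat.mul_comm]; omega
      have h4 := Nf.m_lt (C := N.length) (v := m / (3 * N.length)) (by omega) hu
      omega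
    · rcases Nf.lastTgt_cases (C := N.length) (v := m / (3 * N.length)) with h | ⟨c, b, hc, h⟩
      · rw [hw, h] at he; simp at he
      · rw [hw, h, Tgt.port.injEq] at he; omega
  · rw [Nf.len]; omega

/-- The net with explicit merges simulates the original net. -/
theorem normalNet_reach {N : List Comp} (hr : Nf.InRange N) (hN : Nf.AllCells N)
    (h0 : 0 < N.length) : CReach (normalNet N) ↔ CReach N := by
  constructor
  · rintro ⟨s, hs⟩
    have hR : ∀ x y, ReflTransGen (CStep N) (.port 0 false, fun _ => false) x → CStep N x y →
        ReflTransGen (CStep N) (.port 0 false, fun _ => false) y := fun x y hx hy => hx.tail hy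
    have h00 : Nf.Inv N (ReflTransGen (CStep N) (.port 0 false, fun _ => false))
        (.port 0 false, fun _ => false) := .start .refl
    have key : ∀ y, ReflTransGen (CStep (normalNet N)) (.port 0 false, fun _ => false) y →
        Nf.Inv N (ReflTransGen (CStep N) (.port 0 false, fun _ => false)) y := by
      intro y hy
      induction hy with
      | refl => exact h00
      | tail _ h ih => exact Nf.inv_step hr hN h0 hR ih h
    have hI := key _ hs
    generalize hx : ((Tgt.goal, s) : CSt) = x at hI
    cases hI with
    | start => simp at hx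
    | @here t s' hRt ht =>
      cases t with
      | dead => simp [Nf.shift] at hx
      | goal => exact ⟨_, hRt⟩
      | port g b => simp [Nf.shift] at hx
    | mid => simp at hx
  · rintro ⟨s, hs⟩
    have ht : ∀ g b, (Tgt.port 0 false) = .port g b → g < N.length := by
      intro g b hgb
      rw [Tgt.port.injEq] at hgb
      omega
    have h1 : ReflTransGen (CStep (normalNet N)) (.port 0 false, fun _ => false)
        (.port 1 false, Nf.lift fun _ => false) := by
      have hl : (Nf.lift fun _ => false) = fun _ => false := by
        funext i; unfold Nf.lift; split <;> rfl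
      rw [hl]
      refine .head (.merge Nf.get_zero) ?_
      have := Nf.chain (N := N) (v := 0) (by omega) (fun _ => false) (3 * N.length - 1) 0 false
        (by omega)
      have h2 := Nf.last_tnum (C := N.length) (t := .port 0 false) (by simp) ht
      simp only [tnum, Nat.mul_zero, Nf.shift, Nat.add_zero] at h2
      rw [h2] at this
      simpa [midx] using this
    have key : ∀ y : CSt, ReflTransGen (CStep N) (.port 0 false, fun _ => false) y →
        ReflTransGen (CStep (normalNet N)) (.port 0 false, fun _ => false)
          (Nf.shift y.1, Nf.lift y.2) := by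
      intro y hy
      induction hy with
      | refl => exact h1
      | @tail b c _ h ih => exact ih.trans (Nf.sim_step (t := b.1) (t' := c.1) hr hN h)
    exact ⟨_, key _ hs⟩

end Pool.Agent.Lunar
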