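import Pool.Agent.Lunar.Board
import Pool.Agent.Lunar.EndGame
import Pool.Agent.Lunar.GoalKind

/-!
# The physical theorem: the board of a net is solvable iff the goal of the net is reachable
-/

namespace Pool.Agent.Lunar

open Board BOk

/-- The system of blocks satisfies all geometric conditions. -/
theorem bSys_ok (hZ : Stmt_BApartZ) (hA : Stmt_BApartA) {B : List Blk} (hB : BNormal B) :
    (bSys B).Ok := by
  obtain ⟨h1, h2, h3, h4, h5⟩ := bOk_proof B hB
  exact ⟨h1, h2, h3, h4, h5, hZ B hB, hA B hB⟩

theorem phys_of (hZ : Stmt_BApartZ) (hA : Stmt_BApartA) (hP : Stmt_PhysNormal) (hS : Stmt_Sim) :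
    Stmt_Phys := by
  intro N hN
  have hlen : (physNet N).length = nBlk N := physNet_length N
  have hB : BNormal (physNet N) := hP N hN
  have hY := bSys_ok hZ hA hB
  have hF := bFull_proof (physNet N) hB
  have hgl : 4 * N.length + 1 < (physNet N).length := by rw [hlen]; unfold nBlk; omega
  have hsl : 4 * N.length < (physNet N).length := by omega
  have hgk : ((physNet N).get ⟨4 * N.length + 1, hgl⟩).kind = .goal := last_goal (N := N) (by simp)
  have hsk : ((physNet N).get ⟨4 * N.length, hsl⟩).kind = .start := by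
    have h := hlen
    unfold nBlk at h
    unfold physNet at h ⊢
    rw [List.length_append] at h
    simp only [List.length_cons, List.length_nil] at h
    simp only [List.get_eq_getElem]
    rw [List.getElem_append_right (by omega)]
    have : 4 * N.length - (N.zipIdx.map (fun z => mainBlk N.length z.2 z.1) ++ N.flatMap fun c =>
      [convBlk N.length (c.wire 0), convBlk N.length (c.wire 1),
        convBlk N.length (c.wire 2)]).length = 0 := by omega
    simp only [this, List.getElem_cons_zero]
  have hkd : kd (physNet N) (goalIx N hlen) = kGoal := by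
    change ((physNet N).get ⟨4 * N.length + 1, hgl⟩).kind.dat = kGoal
    rw [hgk]
    rfl
  have hcel : ∀ (ω : Wr (physNet N)) (x y : ℕ), 4 ≤ x → x ≤ 33 → y ≤ 16 →
      (fx (physNet N) (goalIx N hlen) ω x, gy (physNet N) (goalIx N hlen) y) =
        (bx (nBlk N) (4 * N.length + 1) + (x - 4), by' (4 * N.length + 1) + y) := by
    intro ω x y h1 h2 h3
    simp only [goalIx, fx, gy, mapB, map2, Prod.mk.injEq]
    constructor
    · rw [if_neg (by omega), if_pos (by omega), hlen]
    · rw [if_pos (by omega)]
  rw [← hS N hlen hN]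
  obtain ⟨hfree, hbrd⟩ := board_proof N hlen hN
  refine Sys.endgame hY hF (goalIx N hlen) (targetCell N) (goalCell N) ?_ (startSt N hlen) ?_ ?_ ?_
    ?_ _ hfree hbrd ?_
  · simp [goalCell, targetCell]
  · simp [startSt, goalIx]
  · rintro s e s' o ⟨_, h⟩
    rw [hkd] at h
    simp [kGoal] at h
  · rintro s d ⟨l, hl, hd⟩
    have hω : Wr (physNet N) := startWr N hlen
    have hf := fx_unit (goalIx N hlen) hω
    have hg := gy_unit hB (goalIx N hlen)
    rw [hkd] at hl
    have h := kGoal_static _ _ hf.mono hg.mono s l hl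
    rw [hd hω]
    have e1 := hcel hω 17 13 (by omega) (by omega) (by omega)
    rw [e1] at h
    exact h
  · refine ⟨⟨rfl, ?_⟩, ?_⟩
    · refine ⟨(physNet N).get ⟨4 * N.length, hsl⟩, by simp [startSt, startWr], ?_⟩
      rw [hsk]
      change 1 ∈ Kind.start.ex
      decide
    · have hact : act (physNet N) (.inr (startWr N hlen)) (startWr N hlen) := by
        refine ⟨rfl, (physNet N).get ⟨4 * N.length, hsl⟩, by simp [startWr], ?_⟩
        rw [hsk]
        change 1 ∈ Kind.start.ex
        decide
      obtain ⟨c, hc, hc'⟩ := (transport_proof _ (closed_kd (physNet N) (.inr (startWr N hlen))) _ _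
        (fx_unit _ (startWr N hlen)) (gy_unit hB _)).2.1 false _ (kd_ent hB hact)
        ((kd (physNet N) (.inr (startWr N hlen))).cz false) ((closed_kd _ _).cz false)
      exact ⟨c, hc, hc'⟩
  · intro s e hact
    obtain ⟨hac, -⟩ := hact
    have hent := kd_ent hB hac
    have hf := fx_unit (goalIx N hlen) e
    have hg := gy_unit hB (goalIx N hlen)
    rw [hkd] at hent hf hg
    obtain ⟨l, hl, h1, h2⟩ := kGoal_path _ _ hf hg s _ hent
    have e1 := hcel e 17 13 (by omega) (by omega) (by omega)
    have e2 := hcel e 17 10 (by omega) (by omega) (by omega)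
    rw [e1] at h1 h2
    rw [e2] at h2
    have hcz : bCz (physNet N) (goalIx N hlen) s = im (physNet N) (goalIx N hlen) e
        ((kd (physNet N) (goalIx N hlen)).cz s) := by
      rw [bCz_eq]
      exact bImZ_proof _ _ _ _ ((closed_kd _ _).cz s) _ _
    have hA1 : insert ((bSys (physNet N)).w (goalIx N hlen) e) (bCz (physNet N) (goalIx N hlen) s) ∈
        (bSys (physNet N)).A (goalIx N hlen) s e := by
      obtain ⟨c, hc, hc'⟩ := (transport_proof _ (closed_kd (physNet N) (goalIx N hlen)) _ _
        (fx_unit _ e) (gy_unit hB _)).2.1 s _ (kd_ent hB hac)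
        ((kd (physNet N) (goalIx N hlen)).cz s) ((closed_kd _ _).cz s)
      rw [hcz]
      exact ⟨hac, c, hc, hc'⟩
    refine ⟨im (physNet N) (goalIx N hlen) e l, Relation.ReflTransGen.single ⟨hA1, ?_⟩,
      ⟨hac, l, by rw [hkd]; exact hl, rfl⟩, h2⟩
    rw [hcz]
    simp only [bSys, cel, hkd]
    exact h1

end Pool.Agent.Lunar
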