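import Pool.Agent.Lunar.LogicDefs
import Mathlib.Tactic

/-!
# Programs and nets of doors and choices
-/

namespace Pool.Agent.Lunar

open Relation Function

theorem getElem?_flatMap_const {α β : Type*} {k : ℕ} {f : α → List β} {j : ℕ} (hj : j < k) :
    ∀ {l : List α} (_ : ∀ a ∈ l, (f a).length = k) (i : ℕ),
      (l.flatMap f)[k * i + j]? = (l[i]?).bind fun a => (f a)[j]? := by
  intro l
  induction l with
  | nil => intro _ i; simp
  | cons a l ih =>
    intro hf i
    rw [List.flatMap_cons]
    have ha : (f a).length = k := hf a (by simp)
    rcases i with _ | i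
    · rw [List.getElem?_append_left (by rw [ha]; omega)]
      simp
    · rw [List.getElem?_append_right (by rw [ha, Nat.mul_succ]; omega), ha]
      have h1 : k * (i + 1) + j - k = k * i + j := by rw [Nat.mul_succ]; omega
      rw [h1, ih (fun b hb => hf b (by simp [hb])) i]
      simp

theorem length_flatMap_const {α β : Type*} {k : ℕ} {f : α → List β} {l : List α}
    (hf : ∀ a ∈ l, (f a).length = k) : (l.flatMap f).length = k * l.length := by
  induction l with
  | nil => simp
  | cons a l ih =>
    rw [List.flatMap_cons, List.length_append, hf a (by simp), ih (fun b hb => hf b (by simp [hb])),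
      List.length_cons, Nat.mul_succ]
    omega

namespace Ret

/-- All places of the program are smaller than `P`. -/
def PlacesLT (Q : List Ins) (P : ℕ) : Prop :=
  ∀ (i : ℕ) (ins : Ins), Q[i]? = some ins → ∀ p n : ℕ, (ins = Ins.put p n ∨ ins = Ins.take p n) →
    p < P

variable {Q : List Ins} {P : ℕ}

theorem len_front (Q : List Ins) :
    (Q.zipIdx.flatMap fun z => [locNode Q.length z.1, retNode Q.length z.2 z.1]).length =
      2 * Q.length := by
  rw [length_flatMap_const (k := 2) (by intro a _; rfl), List.length_zipIdx]

theorem get_loc {i : ℕ} {ins : Ins} (h : Q[i]? = some ins) (P : ℕ) :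
    (doorNet Q P)[2 * i]? = some (locNode Q.length ins) := by
  have hi : i < Q.length := by
    rw [List.getElem?_eq_some_iff] at h
    exact h.1
  unfold doorNet
  rw [List.getElem?_append_left (by rw [len_front]; omega)]
  have := getElem?_flatMap_const (k := 2) (j := 0) (by norm_num)
    (f := fun z : Ins × ℕ => [locNode Q.length z.1, retNode Q.length z.2 z.1])
    (l := Q.zipIdx) (by intro a _; rfl) i
  rw [Nat.add_zero] at this
  rw [this, List.getElem?_zipIdx, h]
  simp

theorem get_ret {i : ℕ} {ins : Ins} (h : Q[i]? = some ins) (P : ℕ) :
    (doorNet Q P)[2 * i + 1]? = some (retNode Q.length i ins) := by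
  have hi : i < Q.length := by
    rw [List.getElem?_eq_some_iff] at h
    exact h.1
  unfold doorNet
  rw [List.getElem?_append_left (by rw [len_front]; omega)]
  have := getElem?_flatMap_const (k := 2) (j := 1) (by norm_num)
    (f := fun z : Ins × ℕ => [locNode Q.length z.1, retNode Q.length z.2 z.1])
    (l := Q.zipIdx) (by intro a _; rfl) i
  rw [this, List.getElem?_zipIdx, h]
  simp

theorem get_place {p : ℕ} (hp : p < P) :
    (doorNet Q P)[2 * Q.length + p]? = some ⟨true, .port 1 false, .port 1 false⟩ := by
  unfold doorNet
  rw [List.getElem?_append_right (by rw [len_front]; omega), len_front]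
  rw [show 2 * Q.length + p - 2 * Q.length = p by omega, List.getElem?_replicate, if_pos hp]

theorem entry_lt {n j : ℕ} (h : j < n) : entry n j = .port (2 * j) false := if_pos h

theorem entry_ge {n j : ℕ} (h : n ≤ j) : entry n j = .goal := if_neg (by omega)

/-- The invariant of the simulation. -/
inductive Inv (Q : List Ins) (R : ℕ × (ℕ → Bool) → Prop) : CSt → Prop
  | loc {j : ℕ} {M s : ℕ → Bool} (hR : R (j, M)) (h1 : ∀ i < Q.length, s (2 * i) = false)
      (h2 : ∀ p, s (2 * Q.length + p) = true → M p = true) : Inv Q R (entry Q.length j, s)
  | callPut {i p m : ℕ} {M s : ℕ → Bool} (hR : R (i, M)) (hi : Q[i]? = some (.put p m))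
      (h1 : ∀ i' < Q.length, i' ≠ i → s (2 * i') = false)
      (h2 : ∀ p, s (2 * Q.length + p) = true → M p = true) :
      Inv Q R (.port (2 * Q.length + p) false, s)
  | callTake {i p m : ℕ} {M s : ℕ → Bool} (hR : R (i, M)) (hi : Q[i]? = some (.take p m))
      (h1 : ∀ i' < Q.length, i' ≠ i → s (2 * i') = false)
      (h2 : ∀ p, s (2 * Q.length + p) = true → M p = true) :
      Inv Q R (.port (2 * Q.length + p) true, s)
  | chain {i p m k : ℕ} {M s : ℕ → Bool} (hR : R (m, M))
      (hi : Q[i]? = some (.put p m) ∨ Q[i]? = some (.take p m))
      (h1 : ∀ i' < Q.length, i' ≠ i → s (2 * i') = false)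
      (h2 : ∀ p, s (2 * Q.length + p) = true → M p = true) (hk : k < Q.length) :
      Inv Q R (.port (2 * k + 1) false, s)
  | back {i p m k : ℕ} {M s : ℕ → Bool} (hR : R (m, M))
      (hi : Q[i]? = some (.put p m) ∨ Q[i]? = some (.take p m))
      (h1 : ∀ i' < Q.length, i' ≠ i → s (2 * i') = false)
      (h2 : ∀ p, s (2 * Q.length + p) = true → M p = true) (hk : k < Q.length) :
      Inv Q R (.port (2 * k) true, s)
  | dead {s : ℕ → Bool} : Inv Q R (.dead, s)

theorem inv_step (hP : PlacesLT Q P) (hQ : 0 < Q.length) {R : ℕ × (ℕ → Bool) → Prop}
    (hR : ∀ x y, R x → PStep Q x y → R y) {x y : CSt} (hx : Inv Q R x)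
    (h : DStep (doorNet Q P) x y) : Inv Q R y := by
  cases hx with
  | @loc j M s hRj h1 h2 =>
    by_cases hj : j < Q.length
    · rw [entry_lt hj] at h
      obtain ⟨ins, hins⟩ : ∃ ins, Q[j]? = some ins := ⟨Q[j], List.getElem?_eq_getElem hj⟩
      have hg := get_loc hins P
      cases ins with
      | choose a b =>
        cases h with
        | fst h' =>
          rw [hg] at h'; simp only [locNode, Option.some.injEq, Node.mk.injEq] at h'
          rw [← h'.2.1]
          exact .loc (hR _ _ hRj (.fst hins)) h1 h2
        | snd h' =>
          rw [hg] at h'; simp only [locNode, Option.some.injEq, Node.mk.injEq] at h'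
          rw [← h'.2.2]
          exact .loc (hR _ _ hRj (.snd hins)) h1 h2
        | pass h' => rw [hg] at h'; simp [locNode] at h'
        | opn h' => rw [hg] at h'; simp [locNode] at h'
      | put p m =>
        cases h with
        | fst h' => rw [hg] at h'; simp [locNode] at h'
        | snd h' => rw [hg] at h'; simp [locNode] at h'
        | pass h' =>
          rw [hg] at h'; simp only [locNode, Option.some.injEq, Node.mk.injEq] at h'
          rw [← h'.2.1]
          exact .callPut hRj hins (fun i' hi' _ => h1 i' hi') h2
        | opn h' =>
          rw [hg] at h'; simp only [locNode, Option.some.injEq, Node.mk.injEq] at h'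
          rw [← h'.2.1]
          refine .callPut hRj hins (fun i' hi' hne => ?_) (fun p hp => ?_)
          · rw [update_of_ne (by omega)]; exact h1 i' hi'
          · rw [update_of_ne (by omega)] at hp; exact h2 p hp
      | take p m =>
        cases h with
        | fst h' => rw [hg] at h'; simp [locNode] at h'
        | snd h' => rw [hg] at h'; simp [locNode] at h'
        | pass h' =>
          rw [hg] at h'; simp only [locNode, Option.some.injEq, Node.mk.injEq] at h'
          rw [← h'.2.1]
          exact .callTake hRj hins (fun i' hi' _ => h1 i' hi') h2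
        | opn h' =>
          rw [hg] at h'; simp only [locNode, Option.some.injEq, Node.mk.injEq] at h'
          rw [← h'.2.1]
          refine .callTake hRj hins (fun i' hi' hne => ?_) (fun p hp => ?_)
          · rw [update_of_ne (by omega)]; exact h1 i' hi'
          · rw [update_of_ne (by omega)] at hp; exact h2 p hp
    · rw [entry_ge (by omega)] at h
      cases h
  | @callPut i p m M s hRi hi h1 h2 =>
    have hp : p < P := hP i _ hi p m (Or.inl rfl)
    have hg := get_place (Q := Q) hp
    cases h with
    | fst h' => rw [hg] at h'; simp at h'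
    | snd h' => rw [hg] at h'; simp at h'
    | pass h' =>
      rw [hg] at h'; simp only [Option.some.injEq, Node.mk.injEq] at h'
      rw [← h'.2.1]
      refine .chain (k := 0) (hR _ _ hRi (.put hi)) (Or.inl hi) h1 (fun q hq => ?_) hQ
      by_cases hqp : q = p
      · subst hqp; simp
      · rw [update_of_ne hqp]; exact h2 q hq
    | opn h' =>
      rw [hg] at h'; simp only [Option.some.injEq, Node.mk.injEq] at h'
      rw [← h'.2.1]
      refine .chain (k := 0) (hR _ _ hRi (.put hi)) (Or.inl hi) (fun i' hi' hne => ?_)
        (fun q hq => ?_) hQ
      · rw [update_of_ne (by omega)]; exact h1 i' hi' hne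
      · by_cases hqp : q = p
        · subst hqp; simp
        · rw [update_of_ne hqp]
          rw [update_of_ne (by omega)] at hq
          exact h2 q hq
  | @callTake i p m M s hRi hi h1 h2 =>
    have hp : p < P := hP i _ hi p m (Or.inr rfl)
    have hg := get_place (Q := Q) hp
    cases h with
    | thru h' hs =>
      rw [hg] at h'; simp only [Option.some.injEq, Node.mk.injEq] at h'
      rw [← h'.2.2]
      refine .chain (k := 0) (hR _ _ hRi (.take hi (h2 p hs))) (Or.inr hi)
        (fun i' hi' hne => ?_) (fun q hq => ?_) hQ
      · rw [update_of_ne (by omega)]; exact h1 i' hi' hne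
      · by_cases hqp : q = p
        · subst hqp; simp at hq
        · rw [update_of_ne hqp]
          rw [update_of_ne (by omega)] at hq
          exact h2 q hq
  | @chain i p m k M s hRm hi h1 h2 hk =>
    obtain ⟨ins, hins⟩ : ∃ ins, Q[k]? = some ins := ⟨Q[k], List.getElem?_eq_getElem hk⟩
    have hg := get_ret hins P
    have key : ∀ {t0 t1 : Tgt} {d : Bool}, retNode Q.length k ins = ⟨d, t0, t1⟩ →
        d = false ∧ (t0 = .dead ∨ t0 = .port (2 * k) true) ∧
        (t1 = .dead ∨ (k + 1 < Q.length ∧ t1 = .port (2 * (k + 1) + 1) false)) := by
      intro t0 t1 d hd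
      by_cases hk1 : k + 1 < Q.length
      · cases ins <;> simp only [retNode, if_pos hk1, Node.mk.injEq] at hd <;>
          refine ⟨hd.1.symm, ?_, Or.inr ⟨hk1, ?_⟩⟩ <;> first
          | exact Or.inl hd.2.1.symm
          | exact Or.inr hd.2.1.symm
          | (rw [← hd.2.2]; congr 1)
      · cases ins <;> simp only [retNode, if_neg hk1, Node.mk.injEq] at hd <;>
          refine ⟨hd.1.symm, ?_, Or.inl hd.2.2.symm⟩ <;> first
          | exact Or.inl hd.2.1.symm
          | exact Or.inr hd.2.1.symm
    cases h with
    | fst h' =>
      rw [hg, Option.some.injEq] at h'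
      rcases (key h').2.1 with h0 | h0
      · rw [h0]; exact .dead
      · rw [h0]; exact .back hRm hi h1 h2 hk
    | snd h' =>
      rw [hg, Option.some.injEq] at h'
      rcases (key h').2.2 with h0 | ⟨hk1, h0⟩
      · rw [h0]; exact .dead
      · rw [h0]; exact .chain hRm hi h1 h2 hk1
    | pass h' => rw [hg, Option.some.injEq] at h'; exact absurd (key h').1 (by simp)
    | opn h' => rw [hg, Option.some.injEq] at h'; exact absurd (key h').1 (by simp)
  | @back i p m k M s hRm hi h1 h2 hk =>
    cases h with
    | thru h' hs =>
      have hki : k = i := by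
        by_contra hne
        rw [h1 k hk hne] at hs
        exact absurd hs (by simp)
      subst hki
      rcases hi with hi | hi <;>
      · rw [get_loc hi P] at h'
        simp only [locNode, Option.some.injEq, Node.mk.injEq] at h'
        rw [← h'.2.2]
        refine .loc hRm (fun i' hi' => ?_) (fun q hq => ?_)
        · by_cases hne : i' = k
          · subst hne; simp
          · rw [update_of_ne (by omega)]; exact h1 i' hi' hne
        · rw [update_of_ne (by omega)] at hq; exact h2 q hq
  | dead => cases h

/-- The state of the doors for a marking. -/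
def dst (n : ℕ) (M : ℕ → Bool) : ℕ → Bool := fun g => if 2 * n ≤ g then M (g - 2 * n) else false

theorem dst_update (n p : ℕ) (M : ℕ → Bool) (b : Bool) :
    dst n (update M p b) = update (dst n M) (2 * n + p) b := by
  funext g
  unfold dst
  by_cases hg : g = 2 * n + p
  · subst hg
    rw [update_self, if_pos (by omega), show 2 * n + p - 2 * n = p by omega, update_self]
  · rw [update_of_ne hg]
    by_cases h2 : 2 * n ≤ g
    · rw [if_pos h2, if_pos h2, update_of_ne (by omega)]
    · rw [if_neg h2, if_neg h2]

theorem chain_steps {j : ℕ} (hj : j < Q.length) (s : ℕ → Bool) :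
    ∀ k, k ≤ j → ReflTransGen (DStep (doorNet Q P)) (.port (2 * (j - k) + 1) false, s)
      (.port (2 * j + 1) false, s) := by
  intro k
  induction k with
  | zero => intro _; exact .refl
  | succ k ih =>
    intro hk
    refine ReflTransGen.head ?_ (ih (by omega))
    have hlt : j - (k + 1) < Q.length := by omega
    obtain ⟨ins, hins⟩ : ∃ ins, Q[j - (k + 1)]? = some ins :=
      ⟨Q[j - (k + 1)], List.getElem?_eq_getElem hlt⟩
    have hg := get_ret hins P
    have h1 : j - (k + 1) + 1 < Q.length := by omega
    have h2 : 2 * (j - (k + 1)) + 3 = 2 * (j - k) + 1 := by omega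
    cases ins with
    | choose a b =>
      simp only [retNode, if_pos h1, h2] at hg
      exact .snd hg
    | put a b =>
      simp only [retNode, if_pos h1, h2] at hg
      exact .snd hg
    | take a b =>
      simp only [retNode, if_pos h1, h2] at hg
      exact .snd hg

theorem ret_steps {j p m : ℕ} {s : ℕ → Bool}
    (hi : Q[j]? = some (.put p m) ∨ Q[j]? = some (.take p m)) (hs : s (2 * j) = true) :
    ReflTransGen (DStep (doorNet Q P)) (.port 1 false, s)
      (entry Q.length m, update s (2 * j) false) := by
  have hj : j < Q.length := by
    rcases hi with hi | hi <;> exact (List.getElem?_eq_some_iff.mp hi).1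
  have hc := chain_steps (P := P) hj s j le_rfl
  rw [Nat.sub_self] at hc
  refine hc.trans ?_
  rcases hi with hi | hi
  · refine .head (.fst (get_ret hi P)) (.single ?_)
    exact .thru (get_loc hi P) hs
  · refine .head (.fst (get_ret hi P)) (.single ?_)
    exact .thru (get_loc hi P) hs

theorem sim_step (hP : PlacesLT Q P) {x y : ℕ × (ℕ → Bool)} (h : PStep Q x y) :
    ReflTransGen (DStep (doorNet Q P)) (entry Q.length x.1, dst Q.length x.2)
      (entry Q.length y.1, dst Q.length y.2) := by
  cases h with
  | @fst i a b M h =>
    have hj : i < Q.length := (List.getElem?_eq_some_iff.mp h).1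
    simp only [entry_lt hj]
    exact .single (.fst (get_loc h P))
  | @snd i a b M h =>
    have hj : i < Q.length := (List.getElem?_eq_some_iff.mp h).1
    simp only [entry_lt hj]
    exact .single (.snd (get_loc h P))
  | @put i p n M h =>
    have hj : i < Q.length := (List.getElem?_eq_some_iff.mp h).1
    have hp : p < P := hP i _ h p n (Or.inl rfl)
    simp only [entry_lt hj]
    refine .head (.opn (get_loc h P)) (.head (.opn (get_place hp)) ?_)
    refine (ret_steps (Or.inl h) ?_).trans ?_
    · rw [update_of_ne (by omega), update_self]
    · have : update (update (update (dst Q.length M) (2 * i) true) (2 * Q.length + p) true)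
          (2 * i) false = dst Q.length (update M p true) := by
        rw [dst_update]
        funext g
        by_cases hg : g = 2 * i
        · subst hg
          rw [update_self, update_of_ne (by omega)]
          unfold dst
          rw [if_neg (by omega)]
        · rw [update_of_ne hg]
          by_cases hg2 : g = 2 * Q.length + p
          · subst hg2; rw [update_self, update_self]
          · rw [update_of_ne hg2, update_of_ne hg2, update_of_ne hg]
      rw [this]
  | @take i p n M h hM =>
    have hj : i < Q.length := (List.getElem?_eq_some_iff.mp h).1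
    have hp : p < P := hP i _ h p n (Or.inr rfl)
    simp only [entry_lt hj]
    refine .head (.opn (get_loc h P)) (.head (.thru (get_place hp) ?_) ?_)
    · rw [update_of_ne (by omega)]
      unfold dst
      rw [if_pos (by omega), show 2 * Q.length + p - 2 * Q.length = p by omega]
      exact hM
    refine (ret_steps (Or.inr h) ?_).trans ?_
    · rw [update_of_ne (by omega), update_self]
    · have : update (update (update (dst Q.length M) (2 * i) true) (2 * Q.length + p) false)
          (2 * i) false = dst Q.length (update M p false) := by
        rw [dst_update]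
        funext g
        by_cases hg : g = 2 * i
        · subst hg
          rw [update_self, update_of_ne (by omega)]
          unfold dst
          rw [if_neg (by omega)]
        · rw [update_of_ne hg]
          by_cases hg2 : g = 2 * Q.length + p
          · subst hg2; rw [update_self, update_self]
          · rw [update_of_ne hg2, update_of_ne hg2, update_of_ne hg]
      rw [this]

end Ret

/-- A program reaches its end iff its net of doors and choices reaches the goal. -/
theorem doorNet_reach {Q : List Ins} {P : ℕ} (hP : Ret.PlacesLT Q P) (hQ : 0 < Q.length) :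
    DReach (doorNet Q P) ↔ PReach Q := by
  constructor
  · rintro ⟨s, hs⟩
    have hR : ∀ x y, ReflTransGen (PStep Q) (0, fun _ => false) x → PStep Q x y →
        ReflTransGen (PStep Q) (0, fun _ => false) y := fun x y hx hy => hx.tail hy
    have h0 : Ret.Inv Q (ReflTransGen (PStep Q) (0, fun _ => false))
        (.port 0 false, fun _ => false) := by
      have := Ret.Inv.loc (Q := Q) (R := ReflTransGen (PStep Q) (0, fun _ => false)) (j := 0)
        (M := fun _ => false) (s := fun _ => false) .refl (fun _ _ => rfl) (fun _ h => h)
      rwa [Ret.entry_lt hQ] at this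
    have key : ∀ y, ReflTransGen (DStep (doorNet Q P)) (.port 0 false, fun _ => false) y →
        Ret.Inv Q (ReflTransGen (PStep Q) (0, fun _ => false)) y := by
      intro y hy
      induction hy with
      | refl => exact h0
      | tail _ h ih => exact Ret.inv_step hP hQ hR ih h
    have hI := key _ hs
    generalize hx : ((Tgt.goal, s) : CSt) = x at hI
    cases hI with
    | @loc j M s' hRj h1 h2 =>
      refine ⟨j, M, hRj, ?_⟩
      by_contra hlt
      rw [Ret.entry_lt (by omega)] at hx
      simp at hx
    | callPut => simp at hx
    | callTake => simp at hx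
    | chain => simp at hx
    | back => simp at hx
    | dead => simp at hx
  · rintro ⟨i, M, h, hi⟩
    refine ⟨Ret.dst Q.length M, ?_⟩
    have h0 : Ret.dst Q.length (fun _ => false) = fun _ => false := by
      funext g; unfold Ret.dst; split <;> rfl
    have key : ∀ y, ReflTransGen (PStep Q) (0, fun _ => false) y →
        ReflTransGen (DStep (doorNet Q P)) (.port 0 false, fun _ => false)
          (entry Q.length y.1, Ret.dst Q.length y.2) := by
      intro y hy
      induction hy with
      | refl =>
        simp only [Ret.entry_lt hQ, h0]
        exact .refl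
      | tail _ h ih => exact ih.trans (Ret.sim_step hP h)
    have := key _ h
    rwa [Ret.entry_ge hi] at this

end Pool.Agent.Lunar
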