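import Pool.Agent.Lunar.BSys
import Pool.Agent.Lunar.Bounds
import Pool.Agent.Lunar.Ret

/-!
# The list of blocks of a net in normal form is regular
-/

namespace Pool.Agent.Lunar

theorem physLen_proof : Stmt_PhysLen := physNet_length

namespace PN

variable {N : List Comp}

theorem convLen (N : List Comp) : (N.flatMap fun c =>
    [convBlk N.length (c.wire 0), convBlk N.length (c.wire 1),
      convBlk N.length (c.wire 2)]).length = 3 * N.length :=
  length_flatMap_const (k := 3) (by intro a _; rfl)

theorem get_main {g : ℕ} {c : Comp} (h : N[g]? = some c) :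
    (physNet N)[g]? = some (mainBlk N.length g c) := by
  have hg : g < N.length := (List.getElem?_eq_some_iff.1 h).1
  unfold physNet
  rw [List.getElem?_append_left (by simp; omega), List.getElem?_append_left (by simp; omega),
    List.getElem?_map, List.getElem?_zipIdx, h]
  simp

theorem get_conv {g k : ℕ} {c : Comp} (h : N[g]? = some c) (hk : k < 3) :
    (physNet N)[N.length + 3 * g + k]? = some (convBlk N.length (c.wire k)) := by
  have hg : g < N.length := (List.getElem?_eq_some_iff.1 h).1
  unfold physNet
  rw [List.getElem?_append_left (by
      rw [List.length_append, convLen, List.length_map, List.length_zipIdx]; omega),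
    List.getElem?_append_right (by rw [List.length_map, List.length_zipIdx]; omega),
    List.length_map, List.length_zipIdx,
    show N.length + 3 * g + k - N.length = 3 * g + k by omega,
    getElem?_flatMap_const hk (by intro a _; rfl) g, h]
  have : k = 0 ∨ k = 1 ∨ k = 2 := by omega
  rcases this with rfl | rfl | rfl <;> rfl

theorem get_start (N : List Comp) : (physNet N)[4 * N.length]? = some ⟨.start, none, some 0, none⟩ := by
  unfold physNet
  have hl : ((N.zipIdx.map fun z => mainBlk N.length z.2 z.1) ++
    (N.flatMap fun c => [convBlk N.length (c.wire 0), convBlk N.length (c.wire 1),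
      convBlk N.length (c.wire 2)])).length = 4 * N.length := by
    rw [List.length_append, convLen, List.length_map, List.length_zipIdx]; omega
  rw [List.getElem?_append_right (by omega), hl]
  simp

theorem get_goal (N : List Comp) : (physNet N)[4 * N.length + 1]? = some ⟨.goal, none, none, none⟩ := by
  unfold physNet
  have hl : ((N.zipIdx.map fun z => mainBlk N.length z.2 z.1) ++
    (N.flatMap fun c => [convBlk N.length (c.wire 0), convBlk N.length (c.wire 1),
      convBlk N.length (c.wire 2)])).length = 4 * N.length := by
    rw [List.length_append, convLen, List.length_map, List.length_zipIdx]; omega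
  rw [List.getElem?_append_right (by omega), hl]
  simp

/-- Cases for a block. -/
theorem blk_cases {β : ℕ} {b : Blk} (h : (physNet N)[β]? = some b) :
    (∃ c, N[β]? = some c ∧ β < N.length ∧ b = mainBlk N.length β c) ∨
    (∃ g k c, β = N.length + 3 * g + k ∧ k < 3 ∧ N[g]? = some c ∧ g < N.length ∧
      b = convBlk N.length (c.wire k)) ∨
    (β = 4 * N.length ∧ b = ⟨.start, none, some 0, none⟩) ∨
    (β = 4 * N.length + 1 ∧ b = ⟨.goal, none, none, none⟩) := by
  have hβ : β < nBlk N := by
    have := (List.getElem?_eq_some_iff.1 h).1
    rwa [physNet_length] at this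
  unfold nBlk at hβ
  by_cases h1 : β < N.length
  · left
    have h2 : N[β]? = some N[β] := List.getElem?_eq_getElem h1
    refine ⟨_, h2, h1, ?_⟩
    rw [get_main h2] at h
    exact (Option.some.inj h).symm
  · by_cases h3 : β < 4 * N.length
    · right; left
      have hg : (β - N.length) / 3 < N.length := by omega
      have h2 : N[(β - N.length) / 3]? = some N[(β - N.length) / 3] := List.getElem?_eq_getElem hg
      have hk : (β - N.length) % 3 < 3 := Nat.mod_lt _ (by omega)
      have he : β = N.length + 3 * ((β - N.length) / 3) + (β - N.length) % 3 := by omega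
      refine ⟨_, _, _, he, hk, h2, hg, ?_⟩
      rw [he, get_conv h2 hk] at h
      exact (Option.some.inj h).symm
    · by_cases h4 : β = 4 * N.length
      · right; right; left
        subst h4
        rw [get_start] at h
        exact ⟨rfl, (Option.some.inj h).symm⟩
      · right; right; right
        have h5 : β = 4 * N.length + 1 := by omega
        subst h5
        rw [get_goal] at h
        exact ⟨rfl, (Option.some.inj h).symm⟩

/-- Where a wire comes from. -/
inductive Src (N : List Comp) : ℕ → ℕ → ℕ → Prop
  | cell {g k : ℕ} {er el v : Tgt} (h : N[g]? = some (.cell er el v)) (hg : g < N.length)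
      (hk : k < 3) : Src N g k (N.length + 3 * g + k)
  | merge {g : ℕ} {o : Tgt} (h : N[g]? = some (.merge o)) (hg : g < N.length) :
      Src N g 2 (N.length + 3 * g)
  | portF {g k g' : ℕ} {c : Comp} (h : N[g]? = some c) (hg : g < N.length) (hk : k < 3)
      (hw : c.wire k = .port g' false) : Src N (N.length + 3 * g + k) 1 g'
  | portT {g k g' : ℕ} {c : Comp} (h : N[g]? = some c) (hg : g < N.length) (hk : k < 3)
      (hw : c.wire k = .port g' true) : Src N (N.length + 3 * g + k) 2 g'
  | goal {g k : ℕ} {c : Comp} (h : N[g]? = some c) (hg : g < N.length) (hk : k < 3)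
      (hw : c.wire k = .goal) : Src N (N.length + 3 * g + k) 1 (4 * N.length + 1)
  | start : Src N (4 * N.length) 1 0

theorem src_of_tg {β k γ : ℕ} (h : tg (physNet N) β k = some γ) : Src N β k γ := by
  unfold tg at h
  cases hb : (physNet N)[β]? with
  | none => rw [hb] at h; simp at h
  | some b =>
    rw [hb] at h
    simp only at h
    by_cases hk : k ∈ b.kind.ex
    · rw [if_pos hk] at h
      rcases blk_cases hb with ⟨c, hc, hg, rfl⟩ | ⟨g, k', c, rfl, hk', hc, hg, rfl⟩ | ⟨rfl, rfl⟩ |
        ⟨rfl, rfl⟩
      · cases c with
        | cell er el v =>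
          simp only [mainBlk, Kind.ex, List.mem_cons, List.not_mem_nil, or_false] at hk
          rcases hk with rfl | rfl | rfl
          · simp only [mainBlk, Blk.t, Option.some.injEq] at h
            subst h
            exact Src.cell (k := 0) hc hg (by omega)
          · simp only [mainBlk, Blk.t, Option.some.injEq] at h
            subst h
            exact Src.cell (k := 1) hc hg (by omega)
          · simp only [mainBlk, Blk.t, Option.some.injEq] at h
            subst h
            exact Src.cell (k := 2) hc hg (by omega)
        | merge o =>
          simp only [mainBlk, Kind.ex, List.mem_cons, List.not_mem_nil, or_false] at hk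
          subst hk
          simp only [mainBlk, Blk.t, Option.some.injEq] at h
          subst h
          exact Src.merge hc hg
      · cases hw : c.wire k' with
        | dead =>
          rw [hw] at h hk
          simp only [convBlk, Kind.ex, List.mem_cons, List.not_mem_nil, or_false] at hk
          subst hk
          simp [convBlk, Blk.t] at h
        | goal =>
          rw [hw] at h hk
          simp only [convBlk, Kind.ex, List.mem_cons, List.not_mem_nil, or_false] at hk
          subst hk
          simp only [convBlk, Blk.t, Option.some.injEq] at h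
          subst h
          exact Src.goal hc hg hk' hw
        | port g' b' =>
          rw [hw] at h hk
          cases b' with
          | false =>
            simp only [convBlk, Kind.ex, List.mem_cons, List.not_mem_nil, or_false] at hk
            subst hk
            simp only [convBlk, Blk.t, Option.some.injEq] at h
            subst h
            exact Src.portF hc hg hk' hw
          | true =>
            simp only [convBlk, Kind.ex, List.mem_cons, List.not_mem_nil, or_false] at hk
            subst hk
            simp only [convBlk, Blk.t, Option.some.injEq] at h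
            subst h
            exact Src.portT hc hg hk' hw
      · simp only [Kind.ex, List.mem_cons, List.not_mem_nil, or_false] at hk
        subst hk
        simp only [Blk.t, Option.some.injEq] at h
        subst h
        exact Src.start
      · simp [Kind.ex] at hk
    · rw [if_neg hk] at h
      exact absurd h (by simp)

theorem tg_of_src {β k γ : ℕ} (h : Src N β k γ) : tg (physNet N) β k = some γ := by
  unfold tg
  cases h with
  | cell h hg hk =>
    rw [get_main h]
    have : k = 0 ∨ k = 1 ∨ k = 2 := by omega
    rcases this with rfl | rfl | rfl <;> simp [mainBlk, Kind.ex, Blk.t]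
  | merge h hg =>
    rw [get_main h]
    simp [mainBlk, Kind.ex, Blk.t]
  | portF h hg hk hw =>
    rw [get_conv h hk, hw]
    simp [convBlk, Kind.ex, Blk.t]
  | portT h hg hk hw =>
    rw [get_conv h hk, hw]
    simp [convBlk, Kind.ex, Blk.t]
  | goal h hg hk hw =>
    rw [get_conv h hk, hw]
    simp [convBlk, Kind.ex, Blk.t]
  | start =>
    rw [get_start]
    simp [Kind.ex, Blk.t]

theorem convBlk_kind (n : ℕ) (t : Tgt) :
    (convBlk n t).kind = .mergeA ∨ (convBlk n t).kind = .mergeC := by
  cases t with
  | dead => exact Or.inl rfl
  | goal => exact Or.inr rfl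
  | port g b => cases b <;> simp [convBlk]

theorem mainBlk_kind (n g : ℕ) (c : Comp) :
    (mainBlk n g c).kind = .cell ∨ (mainBlk n g c).kind = .mergeA := by
  cases c <;> simp [mainBlk]

theorem ent_all {κ : Kind} (h : κ = .cell ∨ κ = .mergeA ∨ κ = .mergeC) (e : Bool) :
    κ.dat.ent e = true := by
  rcases h with rfl | rfl | rfl <;> rfl

end PN

open PN in
theorem physNormal_proof : Stmt_PhysNormal := by
  intro N hN
  have hpos := hN.pos
  refine ⟨?_, ?_, ?_⟩
  · intro β k γ h
    rw [physNet_length]
    unfold nBlk
    cases src_of_tg h with
    | cell h hg hk => omega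
    | merge h hg => omega
    | portF hh hg hk hw =>
      rw [← wire_eq hh _ hk] at hw
      have := hN.range _ _ _ _ hw
      omega
    | portT hh hg hk hw =>
      rw [← wire_eq hh _ hk] at hw
      have := hN.range _ _ _ _ hw
      omega
    | goal h hg hk hw => omega
    | start => omega
  · intro β k γ b h hb
    cases src_of_tg h with
    | @cell g k' er el v hh hg hk =>
      rw [get_conv hh hk] at hb
      rw [← Option.some.inj hb]
      rcases convBlk_kind N.length ((Comp.cell er el v).wire k) with e | e <;> rw [e] <;> rfl
    | @merge g o hh hg =>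
      have := get_conv hh (k := 0) (by omega)
      rw [Nat.add_zero] at this
      rw [this] at hb
      rw [← Option.some.inj hb]
      rcases convBlk_kind N.length ((Comp.merge o).wire 0) with e | e <;> rw [e] <;> rfl
    | @portF g k' g' c hh hg hk hw =>
      rw [← wire_eq hh _ hk] at hw
      have hg' := hN.range _ _ _ _ hw
      have h2 : N[γ]? = some N[γ] := List.getElem?_eq_getElem hg'
      rw [get_main h2] at hb
      rw [← Option.some.inj hb]
      rcases mainBlk_kind N.length γ N[γ] with e | e <;> rw [e] <;> rfl
    | @portT g k' g' c hh hg hk hw =>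
      rw [← wire_eq hh _ hk] at hw
      have hg' := hN.range _ _ _ _ hw
      have h2 : N[γ]? = some N[γ] := List.getElem?_eq_getElem hg'
      rw [get_main h2] at hb
      rw [← Option.some.inj hb]
      rcases mainBlk_kind N.length γ N[γ] with e | e <;> rw [e] <;> rfl
    | goal hh hg hk hw =>
      rw [get_goal] at hb
      rw [← Option.some.inj hb]
      rfl
    | start =>
      have h2 : N[0]? = some N[0] := List.getElem?_eq_getElem hpos
      rw [get_main h2] at hb
      rw [← Option.some.inj hb]
      rcases mainBlk_kind N.length 0 N[0] with e | e <;> rw [e] <;> rfl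
  · intro β k β' k' γ h h' he
    have key : ∀ {g1 k1 g2 k2 : ℕ} {c1 c2 : Comp} {t : Tgt}, N[g1]? = some c1 → k1 < 3 →
        N[g2]? = some c2 → k2 < 3 → c1.wire k1 = t → c2.wire k2 = t → t ≠ .dead →
        g1 = g2 ∧ k1 = k2 := by
      intro g1 k1 g2 k2 c1 c2 t e1 e2 e3 e4 e5 e6 e7
      rw [← wire_eq e1 _ e2] at e5
      rw [← wire_eq e3 _ e4] at e6
      exact hN.inj _ _ _ _ (e5.trans e6.symm) (by rw [e5]; exact e7)
    have range' : ∀ {g1 k1 g' : ℕ} {c1 : Comp} {b : Bool}, N[g1]? = some c1 → k1 < 3 →
        c1.wire k1 = .port g' b → g' < N.length := by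
      intro g1 k1 g' c1 b e1 e2 e3
      rw [← wire_eq e1 _ e2] at e3
      exact hN.range _ _ _ _ e3
    generalize hγ : γ = γ' at h'
    have s1 := src_of_tg h
    have s2 := src_of_tg h'
    cases s1 with
    | cell h1 hg1 hk1 =>
      cases s2 with
      | cell h2 hg2 hk2 => omega
      | merge h2 hg2 =>
        exfalso
        have : (3 : ℕ) * β + k = 3 * β' := by omega
        have hβ : β = β' := by omega
        subst hβ
        rw [h1] at h2
        exact absurd h2 (by simp)
      | portF h2 hg2 hk2 hw2 => have := range' h2 hk2 hw2; omega
      | portT h2 hg2 hk2 hw2 => have := range' h2 hk2 hw2; omega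
      | goal h2 hg2 hk2 hw2 => omega
      | start => omega
    | merge h1 hg1 =>
      cases s2 with
      | cell h2 hg2 hk2 =>
        exfalso
        have hβ : β = β' := by omega
        subst hβ
        rw [h1] at h2
        exact absurd h2 (by simp)
      | merge h2 hg2 => exact ⟨by omega, rfl⟩
      | portF h2 hg2 hk2 hw2 => have := range' h2 hk2 hw2; omega
      | portT h2 hg2 hk2 hw2 => have := range' h2 hk2 hw2; omega
      | goal h2 hg2 hk2 hw2 => omega
      | start => omega
    | portF h1 hg1 hk1 hw1 =>
      have r1 := range' h1 hk1 hw1
      cases s2 with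
      | cell h2 hg2 hk2 => omega
      | merge h2 hg2 => omega
      | portF h2 hg2 hk2 hw2 =>
        subst hγ
        obtain ⟨rfl, rfl⟩ := key h1 hk1 h2 hk2 hw1 hw2 (by simp)
        exact ⟨rfl, rfl⟩
      | portT h2 hg2 hk2 hw2 => exact absurd he (by decide)
      | goal h2 hg2 hk2 hw2 => omega
      | start =>
        subst hγ
        rw [← wire_eq h1 _ hk1] at hw1
        exact absurd hw1 (hN.start _ _)
    | portT h1 hg1 hk1 hw1 =>
      have r1 := range' h1 hk1 hw1
      cases s2 with
      | cell h2 hg2 hk2 => omega
      | merge h2 hg2 => omega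
      | portF h2 hg2 hk2 hw2 => exact absurd he (by decide)
      | portT h2 hg2 hk2 hw2 =>
        subst hγ
        obtain ⟨rfl, rfl⟩ := key h1 hk1 h2 hk2 hw1 hw2 (by simp)
        exact ⟨rfl, rfl⟩
      | goal h2 hg2 hk2 hw2 => exact absurd he (by decide)
      | start => exact absurd he (by decide)
    | goal h1 hg1 hk1 hw1 =>
      cases s2 with
      | cell h2 hg2 hk2 => omega
      | merge h2 hg2 => omega
      | portF h2 hg2 hk2 hw2 => have := range' h2 hk2 hw2; omega
      | portT h2 hg2 hk2 hw2 => exact absurd he (by decide)
      | goal h2 hg2 hk2 hw2 =>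
        obtain ⟨rfl, rfl⟩ := key h1 hk1 h2 hk2 hw1 hw2 (by simp)
        exact ⟨rfl, rfl⟩
      | start => omega
    | start =>
      cases s2 with
      | cell h2 hg2 hk2 => omega
      | merge h2 hg2 => omega
      | portF h2 hg2 hk2 hw2 =>
        subst hγ
        rw [← wire_eq h2 _ hk2] at hw2
        exact absurd hw2 (hN.start _ _)
      | portT h2 hg2 hk2 hw2 => exact absurd he (by decide)
      | goal h2 hg2 hk2 hw2 => omega
      | start => exact ⟨rfl, rfl⟩

end Pool.Agent.Lunar
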