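import Pool.Agent.Lunar.MemDefs
import Mathlib.Tactic

/-!
# Sanity checks for the definitions of Lunar Lockout
-/

namespace Pool.Agent.Lunar.Sanity

open Relation

/-! ### Slides -/

/-- The cell in which a slide ends is free. -/
theorem slide_free {S : Finset Cell} {p q : Cell} (h : Slide S p q) (hp : p ∉ S) : q ∉ S := by
  cases h with
  | @right x y z hz hx h =>
    rcases Nat.eq_or_lt_of_le hx with e | e
    · rw [← e]; exact hp
    · exact h z e le_rfl
  | @left x y z hz hx h =>
    rcases Nat.eq_or_lt_of_le (show z + 1 ≤ x from hx) with e | e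
    · rw [e]; exact hp
    · exact h (z + 1) (by omega) e
  | @up x y z hz hy h =>
    rcases Nat.eq_or_lt_of_le hy with e | e
    · rw [← e]; exact hp
    · exact h z e le_rfl
  | @down x y z hz hy h =>
    rcases Nat.eq_or_lt_of_le (show z + 1 ≤ y from hy) with e | e
    · rw [e]; exact hp
    · exact h (z + 1) (by omega) e

/-- A slide stays in its row or column and ends next to another token. -/
theorem slide_stop {S : Finset Cell} {p q : Cell} (h : Slide S p q) :
    (p.1 = q.1 ∨ p.2 = q.2) ∧ ∃ c ∈ S, (c.2 = q.2 ∧ (c.1 = q.1 + 1 ∨ q.1 = c.1 + 1)) ∨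
      (c.1 = q.1 ∧ (c.2 = q.2 + 1 ∨ q.2 = c.2 + 1)) := by
  cases h with
  | right hz _ _ => exact ⟨Or.inr rfl, _, hz, Or.inl ⟨rfl, Or.inl rfl⟩⟩
  | left hz _ _ => exact ⟨Or.inr rfl, _, hz, Or.inl ⟨rfl, Or.inr rfl⟩⟩
  | up hz _ _ => exact ⟨Or.inl rfl, _, hz, Or.inr ⟨rfl, Or.inl rfl⟩⟩
  | down hz _ _ => exact ⟨Or.inl rfl, _, hz, Or.inr ⟨rfl, Or.inr rfl⟩⟩

/-- The exact description of the slides to the right. -/
theorem slide_right_iff {S : Finset Cell} {x y z : ℕ} (hxz : x < z) :
    Slide S (x, y) (z, y) ↔ (z + 1, y) ∈ S ∧ ∀ w, x < w → w ≤ z → (w, y) ∉ S := by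
  constructor
  · intro h
    cases h with
    | right hz _ h => exact ⟨hz, h⟩
    | left _ hx _ => omega
    | up _ _ _ => omega
    | down _ _ _ => omega
  · rintro ⟨h1, h2⟩
    exact .right h1 hxz.le h2

/-- The exact description of the slides to the left. -/
theorem slide_left_iff {S : Finset Cell} {x y z : ℕ} (hxz : z + 1 < x) :
    Slide S (x, y) (z + 1, y) ↔ (z, y) ∈ S ∧ ∀ w, z < w → w < x → (w, y) ∉ S := by
  constructor
  · intro h
    generalize hq : ((z + 1, y) : Cell) = q at h
    cases h with
    | right hz hx h => rw [Prod.mk.injEq] at hq; omega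
    | @left _ _ z' hz hx h =>
      rw [Prod.mk.injEq] at hq
      obtain rfl : z = z' := by omega
      exact ⟨hz, h⟩
    | up _ _ _ => rw [Prod.mk.injEq] at hq; omega
    | down _ _ _ => rw [Prod.mk.injEq] at hq; omega
  · rintro ⟨h1, h2⟩
    exact .left h1 (by omega) h2

/-- In each direction a token has at most one move (here: to the right). -/
theorem slide_right_unique {S : Finset Cell} {x y z z' : ℕ} (h : Slide S (x, y) (z, y))
    (h' : Slide S (x, y) (z', y)) (hz : x < z) (hz' : x < z') : z = z' := by
  rw [slide_right_iff hz] at h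
  rw [slide_right_iff hz'] at h'
  rcases lt_trichotomy z z' with e | e | e
  · exact absurd h.1 (h'.2 (z + 1) (by omega) (by omega))
  · exact e
  · exact absurd h'.1 (h.2 (z' + 1) (by omega) (by omega))

/-- A token with no other token in its row and in its column cannot move. -/
theorem slide_needs {S : Finset Cell} {p : Cell} (h : ∀ c ∈ S, c.1 ≠ p.1 ∧ c.2 ≠ p.2) (q : Cell) :
    ¬ Slide S p q := by
  intro hs
  cases hs with
  | right hz _ _ => exact (h _ hz).2 rfl
  | left hz _ _ => exact (h _ hz).2 rfl
  | up hz _ _ => exact (h _ hz).1 rfl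
  | down hz _ _ => exact (h _ hz).1 rfl

/-! ### Moves -/

/-- A move keeps the number of tokens, and tokens never share a cell. -/
theorem move_card {P Q : Pos} (hP : P.target ∉ P.others) (h : Move P Q) :
    Q.target ∉ Q.others ∧ Q.others.card = P.others.card := by
  cases h with
  | target h => exact ⟨slide_free h hP, rfl⟩
  | @other t p q S hp h =>
    have hq : q ∉ insert t (S.erase p) := by
      refine slide_free h ?_
      rw [Finset.mem_insert, not_or]
      refine ⟨?_, by simp⟩
      rintro rfl
      exact hP hp
    rw [Finset.mem_insert, not_or] at hq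
    refine ⟨?_, ?_⟩
    · simp only [Finset.mem_insert, Finset.mem_erase, not_or, not_and]
      exact ⟨fun e => hq.1 e.symm, fun _ => hP⟩
    · simp only
      rw [Finset.card_insert_of_notMem hq.2, Finset.card_erase_of_mem hp]
      have := Finset.card_pos.mpr ⟨p, hp⟩
      omega

/-- The end cell of a slide is on the board. -/
theorem slide_onBoard {n : ℕ} {S : Finset Cell} {p q : Cell} (hS : ∀ c ∈ S, c.1 < n ∧ c.2 < n)
    (hp : p.1 < n ∧ p.2 < n) (h : Slide S p q) : q.1 < n ∧ q.2 < n := by
  cases h with
  | right hz hx _ => have := hS _ hz; simp only at *; omega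
  | left hz hx _ => have := hS _ hz; simp only at *; omega
  | up hz hx _ => have := hS _ hz; simp only at *; omega
  | down hz hx _ => have := hS _ hz; simp only at *; omega

/-- The tokens never leave the board. -/
theorem move_onBoard {n : ℕ} {S S' : Finset Cell} {t t' g : Cell} (h : OnBoard n S t g)
    (hm : Move ⟨t, S⟩ ⟨t', S'⟩) : OnBoard n S' t' g := by
  have hc := (move_card (P := ⟨t, S⟩) h.free hm).1
  cases hm with
  | target hs => exact ⟨h.others, slide_onBoard h.others h.target hs, h.goal, hc⟩
  | @other _ p q _ hp hs =>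
    have h1 : ∀ c ∈ insert t (S.erase p), c.1 < n ∧ c.2 < n := by
      intro c hc
      rcases Finset.mem_insert.mp hc with rfl | hc
      · exact h.target
      · exact h.others c (Finset.mem_of_mem_erase hc)
    have hq := slide_onBoard h1 (h.others p hp) hs
    refine ⟨?_, h.target, h.goal, hc⟩
    intro c hc
    rcases Finset.mem_insert.mp hc with rfl | hc
    · exact hq
    · exact h.others c (Finset.mem_of_mem_erase hc)

/-! ### The encoding -/

theorem encodeBoard_length (n : ℕ) (S : Finset Cell) (t g : Cell) :
    (encodeBoard n S t g).length = n * (n + 1) := by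
  unfold encodeBoard
  rw [Mem.flat_len (m := n + 1) _ n (fun j _ => by simp), Nat.mul_comm]

/-- The picture determines the instance. -/
theorem encodeBoard_inj {n n' : ℕ} {S S' : Finset Cell} {t t' g g' : Cell}
    (h : OnBoard n S t g) (h' : OnBoard n' S' t' g')
    (he : encodeBoard n S t g = encodeBoard n' S' t' g') : n = n' ∧ S = S' ∧ t = t' ∧ g = g' := by
  have hn : n = n' := by
    have hl := congrArg List.length he
    rw [encodeBoard_length, encodeBoard_length] at hl
    rcases lt_trichotomy n n' with e | e | e
    · nlinarith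
    · exact e
    · nlinarith
  subst hn
  have key : ∀ c : Cell, c.1 < n → c.2 < n → cellSym S t g c = cellSym S' t' g' c := by
    rintro ⟨x, y⟩ hx hy
    have h1 := Mem.encodeBoard_get (S := S) (t := t) (g := g) (x := x) (y := y) (n := n) hx hy
    have h2 := Mem.encodeBoard_get (S := S') (t := t') (g := g') (x := x) (y := y) (n := n) hx hy
    rw [he, h2] at h1
    simpa using h1.symm
  have ht : t = t' := by
    have := congrArg Prod.fst (key t h.target.1 h.target.2)
    simp only [cellSym, if_true] at this
    by_contra hne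
    rw [if_neg hne] at this
    split at this <;> simp at this
  subst ht
  have hg : g = g' := by
    have := congrArg Prod.snd (key g h.goal.1 h.goal.2)
    simpa [cellSym] using this
  subst hg
  refine ⟨rfl, ?_, rfl, rfl⟩
  ext c
  constructor
  · intro hc
    have hct : c ≠ t := fun e => h.free (e ▸ hc)
    have := congrArg Prod.fst (key c (h.others c hc).1 (h.others c hc).2)
    simp only [cellSym, if_neg hct, if_pos hc] at this
    by_contra hne
    rw [if_neg hne] at this
    simp at this
  · intro hc
    have hct : c ≠ t := fun e => h'.free (e ▸ hc)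
    have := congrArg Prod.fst (key c (h'.others c hc).1 (h'.others c hc).2)
    simp only [cellSym, if_neg hct, if_pos hc] at this
    by_contra hne
    rw [if_neg hne] at this
    simp at this

/-- The language is the decision problem. -/
theorem mem_LUNAR {n : ℕ} {S : Finset Cell} {t g : Cell} (h : OnBoard n S t g) :
    encodeBoard n S t g ∈ LUNAR ↔ Solvable ⟨t, S⟩ g := by
  constructor
  · rintro ⟨n', S', t', g', h', he, hs⟩
    obtain ⟨rfl, rfl, rfl, rfl⟩ := encodeBoard_inj h h' he
    exact hs
  · intro hs
    exact ⟨n, S, t, g, h, rfl, hs⟩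

/-- The empty word is not an instance. -/
theorem nil_not_mem : ([] : List Sy) ∉ LUNAR := by
  rintro ⟨n, S, t, g, h, he, -⟩
  have := congrArg List.length he
  rw [encodeBoard_length, List.length_nil] at this
  have h1 := h.target.1
  rcases Nat.mul_eq_zero.mp this.symm with e | e <;> omega

/-! ### Small instances -/

/-- Tokens in the cells `(0, 0)` (target) and `(3, 0)`: the target token can be brought to
`(2, 0)`. -/
theorem small_yes : encodeBoard 4 {(3, 0)} (0, 0) (2, 0) ∈ LUNAR := by
  rw [mem_LUNAR ⟨by simp, by simp, by simp, by simp⟩]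
  refine ⟨⟨(2, 0), {(3, 0)}⟩, .single (.target (.right ?_ ?_ ?_)), rfl⟩
  · simp
  · simp
  · intro w h1 h2
    simp only [Finset.mem_singleton, Prod.mk.injEq, not_and]
    omega

theorem slide_one {a x : ℕ} {q : Cell} (h : Slide {(a, 0)} (x, 0) q) :
    (x < a ∧ q = (a - 1, 0)) ∨ (a < x ∧ q = (a + 1, 0)) := by
  generalize hp : ((x, 0) : Cell) = p at h
  cases h with
  | right hz hx h =>
    rw [Prod.mk.injEq] at hp
    simp only [Finset.mem_singleton, Prod.mk.injEq] at hz
    left
    refine ⟨by omega, ?_⟩
    rw [Prod.mk.injEq]; omega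
  | left hz hx h =>
    rw [Prod.mk.injEq] at hp
    simp only [Finset.mem_singleton, Prod.mk.injEq] at hz
    right
    refine ⟨by omega, ?_⟩
    rw [Prod.mk.injEq]; omega
  | up hz hx h =>
    rw [Prod.mk.injEq] at hp
    simp only [Finset.mem_singleton, Prod.mk.injEq] at hz
    omega
  | down hz hx h =>
    rw [Prod.mk.injEq] at hp
    simp only [Finset.mem_singleton, Prod.mk.injEq] at hz
    omega

/-- On the same board the target token cannot be brought to `(1, 0)`. -/
theorem small_no : encodeBoard 4 {(3, 0)} (0, 0) (1, 0) ∉ LUNAR := by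
  rw [mem_LUNAR ⟨by simp, by simp, by simp, by simp⟩]
  rintro ⟨Q, hQ, hg⟩
  have key : ∀ Q : Pos, ReflTransGen Move ⟨(0, 0), {(3, 0)}⟩ Q →
      Q = ⟨(0, 0), {(3, 0)}⟩ ∨ Q = ⟨(2, 0), {(3, 0)}⟩ ∨ Q = ⟨(0, 0), {(1, 0)}⟩ := by
    intro Q hQ
    induction hQ with
    | refl => exact Or.inl rfl
    | tail _ h ih =>
      rcases ih with rfl | rfl | rfl
      · cases h with
        | target hs =>
          rcases slide_one hs with ⟨-, rfl⟩ | ⟨h1, -⟩
          · exact Or.inr (Or.inl rfl)
          · omega
        | @other _ p q _ hp hs =>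
          rw [Finset.mem_singleton] at hp
          subst hp
          have e : insert ((0, 0) : Cell) (({(3, 0)} : Finset Cell).erase (3, 0)) = {(0, 0)} := by
            decide
          rw [e] at hs
          rcases slide_one hs with ⟨h1, -⟩ | ⟨-, rfl⟩
          · omega
          · exact Or.inr (Or.inr (congrArg (Pos.mk _) (by decide)))
      · cases h with
        | target hs =>
          rcases slide_one hs with ⟨-, rfl⟩ | ⟨h1, -⟩
          · exact Or.inr (Or.inl rfl)
          · omega
        | @other _ p q _ hp hs =>
          rw [Finset.mem_singleton] at hp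
          subst hp
          have e : insert ((2, 0) : Cell) (({(3, 0)} : Finset Cell).erase (3, 0)) = {(2, 0)} := by
            decide
          rw [e] at hs
          rcases slide_one hs with ⟨h1, -⟩ | ⟨-, rfl⟩
          · omega
          · exact Or.inr (Or.inl (congrArg (Pos.mk _) (by decide)))
      · cases h with
        | target hs =>
          rcases slide_one hs with ⟨-, rfl⟩ | ⟨h1, -⟩
          · exact Or.inr (Or.inr rfl)
          · omega
        | @other _ p q _ hp hs =>
          rw [Finset.mem_singleton] at hp
          subst hp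
          have e : insert ((0, 0) : Cell) (({(1, 0)} : Finset Cell).erase (1, 0)) = {(0, 0)} := by
            decide
          rw [e] at hs
          rcases slide_one hs with ⟨h1, -⟩ | ⟨-, rfl⟩
          · omega
          · exact Or.inr (Or.inr (congrArg (Pos.mk _) (by decide)))
  rcases key Q hQ with rfl | rfl | rfl <;> simp at hg

end Pool.Agent.Lunar.Sanity
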