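import Pool.Agent.Lunar.PhysNormal

/-!
# The system of blocks simulates the net and conversely
-/

namespace Pool.Agent.Lunar

open Relation Function

namespace SM

variable {N : List Comp}

/-- The target in the net which belongs to an active component. -/
def pos (N : List Comp) : Ix (physNet N) → Wr (physNet N) → Tgt
  | .inl β, ω =>
    if β.1 < N.length then .port β.1 (entOf ω.2)
    else if β.1 < 4 * N.length then wire N ((β.1 - N.length) / 3) ((β.1 - N.length) % 3)
    else if β.1 = 4 * N.length then .port 0 false else .goal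
  | .inr (β, k), _ =>
    if β.1 < N.length then
      (match N[β.1]? with
        | some (.cell er el v) => (Comp.cell er el v).wire k.1
        | some (.merge o) => o
        | none => .dead)
    else if β.1 < 4 * N.length then wire N ((β.1 - N.length) / 3) ((β.1 - N.length) % 3)
    else .port 0 false

/-- The states of the cells. -/
def sts (N : List Comp) (σ : Ix (physNet N) → Bool) (g : ℕ) : Bool :=
  if h : g < (physNet N).length then σ (.inl ⟨g, h⟩) else false

theorem sts_upd_inl (σ : Ix (physNet N) → Bool) (β : Fin (physNet N).length) (b : Bool) :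
    sts N (update σ (.inl β) b) = update (sts N σ) β.1 b := by
  funext g
  unfold sts
  by_cases h : g < (physNet N).length
  · rw [dif_pos h]
    by_cases hg : g = β.1
    · subst hg
      simp
    · rw [update_of_ne hg, update_of_ne, dif_pos h]
      intro he
      exact hg (congrArg Fin.val (Sum.inl.inj he))
  · rw [dif_neg h]
    have hg : g ≠ β.1 := fun e => h (e ▸ β.2)
    rw [update_of_ne hg, dif_neg h]

theorem sts_upd_inr (σ : Ix (physNet N) → Bool) (ω : Wr (physNet N)) (b : Bool) :
    sts N (update σ (.inr ω) b) = sts N σ := by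
  funext g
  unfold sts
  by_cases h : g < (physNet N).length
  · rw [dif_pos h, dif_pos h, update_of_ne (by simp)]
  · rw [dif_neg h, dif_neg h]

theorem kd_inl {B : List Blk} {β : Fin B.length} {b : Blk} (h : B[β.1]? = some b) :
    kd B (.inl β) = b.kind.dat := by
  simp only [kd]
  have : B.get β = b := by
    have h2 := List.getElem?_eq_getElem β.2
    rw [h2] at h
    exact Option.some.inj h
  rw [this]

theorem get_some (β : Fin (physNet N).length) : ∃ b, (physNet N)[β.1]? = some b :=
  ⟨_, List.getElem?_eq_getElem β.2⟩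

theorem relC_rel {s e s' : Bool} {k : Fin 3} : kRelC.rel s e s' k = true ↔
    e = false ∧ s = s' ∧ k = 0 := by
  revert s e s' k; decide

theorem relA_rel {s e s' : Bool} {k : Fin 3} : kRelA.rel s e s' k = true ↔
    e = false ∧ s = s' ∧ k = 0 := by
  revert s e s' k; decide

theorem mergeA_rel {s e s' : Bool} {k : Fin 3} : kMergeA.rel s e s' k = true ↔
    s = s' ∧ k = 2 := by
  revert s e s' k; decide

theorem mergeC_rel {s e s' : Bool} {k : Fin 3} : kMergeC.rel s e s' k = true ↔
    s = s' ∧ k = 1 := by
  revert s e s' k; decide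

theorem cell_rel {s e s' : Bool} {k : Fin 3} : kCell.rel s e s' k = true ↔
    (s = e ∧ ((s' = false ∧ k = 0) ∨ (s' = true ∧ k = 1))) ∨ (s ≠ e ∧ s' = s ∧ k = 2) := by
  revert s e s' k; decide

/-- The data of a wire. -/
theorem wire_rel {B : List Blk} {ω : Wr B} {s e s' : Bool} {k : Fin 3}
    (h : (kd B (.inr ω)).rel s e s' k = true) :
    (∃ γ, tw B ω = some γ) ∧ s = s' := by
  simp only [kd] at h
  cases ht : tw B ω with
  | none => rw [ht] at h; exact absurd h (by simp [kSink])
  | some γ =>
    rw [ht] at h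
    refine ⟨⟨γ, rfl⟩, ?_⟩
    simp only at h
    by_cases h1 : ω.2.1 = 1
    · rw [if_pos h1] at h
      exact (relC_rel.1 h).2.1
    · rw [if_neg h1] at h
      exact (relA_rel.1 h).2.1

theorem wire_rel' {B : List Blk} {ω : Wr B} {γ : ℕ} (h : tw B ω = some γ) (s : Bool) :
    (kd B (.inr ω)).rel s false s 0 = true := by
  simp only [kd]
  rw [h]
  simp only
  by_cases h1 : ω.2.1 = 1
  · rw [if_pos h1]
    exact relC_rel.2 ⟨rfl, rfl, rfl⟩
  · rw [if_neg h1]
    exact relA_rel.2 ⟨rfl, rfl, rfl⟩

/-- One step of the system of blocks is at most one step of the net. -/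
theorem sound_step (hN : Normal N) {a b : Sys.ASt (Ix (physNet N)) Bool (Wr (physNet N))}
    (h : (bSys (physNet N)).AStep a b) :
    (pos N b.2.1 b.2.2 = pos N a.2.1 a.2.2 ∧ sts N b.1 = sts N a.1) ∨
      CStep N (pos N a.2.1 a.2.2, sts N a.1) (pos N b.2.1 b.2.2, sts N b.1) := by
  obtain ⟨σ, i, ω⟩ := a
  obtain ⟨s', k, ⟨hact, hrel⟩, rfl⟩ := h
  simp only at hact hrel ⊢
  cases i with
  | inl β =>
    obtain ⟨bb, hbb⟩ := get_some β
    rw [kd_inl hbb] at hrel
    have hnx : (bSys (physNet N)).nx (.inl β) k = (.inr (β, k), (β, k)) := rfl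
    rw [hnx]
    simp only [sts_upd_inl]
    rcases PN.blk_cases hbb with ⟨c, hc, hg, rfl⟩ | ⟨g, k', c, hβ, hk', hc, hg, rfl⟩ |
      ⟨hβ, rfl⟩ | ⟨hβ, rfl⟩
    · right
      have hp1 : pos N (.inl β) ω = .port β.1 (entOf ω.2) := by
        simp only [pos, hg, if_true]
      have hs : sts N σ β.1 = σ (.inl β) := by
        unfold sts
        rw [dif_pos β.2]
      rw [hp1]
      cases c with
      | cell er el v =>
        have hp2 : pos N (.inr (β, k)) (β, k) = (Comp.cell er el v).wire k.1 := by
          simp only [pos, hg, if_true, hc]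
        rw [hp2]
        have hrel' : kCell.rel (σ (.inl β)) (entOf ω.2) s' k = true := hrel
        rcases cell_rel.1 hrel' with ⟨h1, ⟨h2, h3⟩ | ⟨h2, h3⟩⟩ | ⟨h1, h2, h3⟩
        · subst h3 h2
          exact CStep.er hc (by rw [hs]; exact h1)
        · subst h3 h2
          exact CStep.el hc (by rw [hs]; exact h1)
        · subst h3 h2
          have : update (sts N σ) β.1 (σ (.inl β)) = sts N σ := by
            rw [← hs, update_eq_self]
          rw [this]
          exact CStep.v hc (by rw [hs]; exact h1)
      | merge o =>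
        have hp2 : pos N (.inr (β, k)) (β, k) = o := by
          simp only [pos, hg, if_true, hc]
        rw [hp2]
        have hrel' : kMergeA.rel (σ (.inl β)) (entOf ω.2) s' k = true := hrel
        obtain ⟨h2, -⟩ := mergeA_rel.1 hrel'
        subst h2
        have : update (sts N σ) β.1 (σ (.inl β)) = sts N σ := by
          rw [← hs, update_eq_self]
        rw [this]
        exact CStep.merge hc
    · left
      have hs : sts N σ β.1 = σ (.inl β) := by
        unfold sts
        rw [dif_pos β.2]
      have h1 : σ (.inl β) = s' := by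
        rcases PN.convBlk_kind N.length (c.wire k') with e | e
        · rw [e] at hrel
          exact (mergeA_rel.1 hrel).1
        · rw [e] at hrel
          exact (mergeC_rel.1 hrel).1
      subst h1
      refine ⟨?_, by rw [← hs, update_eq_self]⟩
      have h2 : ¬ β.1 < N.length := by omega
      have h3 : β.1 < 4 * N.length := by omega
      simp only [pos, h2, h3, if_false, if_true]
    · exact absurd hrel (by simp [Kind.dat, kStart])
    · exact absurd hrel (by simp [Kind.dat, kGoal])
  | inr ω' =>
    obtain ⟨rfl, hex⟩ := hact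
    obtain ⟨⟨γ, hγ⟩, h1⟩ := wire_rel hrel
    subst h1
    left
    have hγN : γ < (physNet N).length := (physNormal_proof N hN).range _ _ _ hγ
    have hnx : (bSys (physNet N)).nx (.inr ω') k = (.inl ⟨γ, hγN⟩, ω') := by
      simp only [bSys, hγ, hγN, dif_pos]
    rw [hnx]
    simp only [update_eq_self, and_true]
    obtain ⟨β, j⟩ := ω'
    have hs := PN.src_of_tg hγ
    simp only at hs
    generalize hjj : (j : ℕ) = jj at hs
    generalize hbb : (β : ℕ) = bb at hs
    cases hs with
    | @cell g k' er el v hh hg hk =>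
      have e1 : ¬ N.length + 3 * bb + jj < N.length := by omega
      have e2 : N.length + 3 * bb + jj < 4 * N.length := by omega
      have e3 : (N.length + 3 * bb + jj - N.length) / 3 = bb := by omega
      have e4 : (N.length + 3 * bb + jj - N.length) % 3 = jj := by omega
      simp only [pos, e1, e2, e3, e4, if_false, if_true, hbb, hg, hh, hjj]
      exact wire_eq hh _ hk
    | @merge g o hh hg =>
      have e1 : ¬ N.length + 3 * bb < N.length := by omega
      have e2 : N.length + 3 * bb < 4 * N.length := by omega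
      have e3 : (N.length + 3 * bb - N.length) / 3 = bb := by omega
      have e4 : (N.length + 3 * bb - N.length) % 3 = 0 := by omega
      simp only [pos, e1, e2, e3, e4, if_false, if_true, hbb, hg, hh]
      exact wire_eq hh _ (by omega)
    | @portF g k' g' c hh hg hk hw =>
      have e1 : ¬ N.length + 3 * g + k' < N.length := by omega
      have e2 : N.length + 3 * g + k' < 4 * N.length := by omega
      have e3 : (N.length + 3 * g + k' - N.length) / 3 = g := by omega
      have e4 : (N.length + 3 * g + k' - N.length) % 3 = k' := by omega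
      rw [← wire_eq hh _ hk] at hw
      have e5 := hN.range _ _ _ _ hw
      simp only [pos, hbb, e1, e2, e3, e4, e5, if_false, if_true, hw, hjj]
      rfl
    | @portT g k' g' c hh hg hk hw =>
      have e1 : ¬ N.length + 3 * g + k' < N.length := by omega
      have e2 : N.length + 3 * g + k' < 4 * N.length := by omega
      have e3 : (N.length + 3 * g + k' - N.length) / 3 = g := by omega
      have e4 : (N.length + 3 * g + k' - N.length) % 3 = k' := by omega
      rw [← wire_eq hh _ hk] at hw
      have e5 := hN.range _ _ _ _ hw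
      simp only [pos, hbb, e1, e2, e3, e4, e5, if_false, if_true, hw, hjj]
      rfl
    | @goal g k' c hh hg hk hw =>
      have e1 : ¬ N.length + 3 * g + k' < N.length := by omega
      have e2 : N.length + 3 * g + k' < 4 * N.length := by omega
      have e3 : (N.length + 3 * g + k' - N.length) / 3 = g := by omega
      have e4 : (N.length + 3 * g + k' - N.length) % 3 = k' := by omega
      have e5 : ¬ 4 * N.length + 1 < N.length := by omega
      have e6 : ¬ 4 * N.length + 1 < 4 * N.length := by omega
      have e7 : ¬ 4 * N.length + 1 = 4 * N.length := by omega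
      rw [← wire_eq hh _ hk] at hw
      simp only [pos, hbb, e1, e2, e3, e4, e5, e6, e7, if_false, if_true, hw]
    | start =>
      have hpos := hN.pos
      have e1 : ¬ 4 * N.length < N.length := by omega
      have e2 : ¬ 4 * N.length < 4 * N.length := by omega
      simp only [pos, hbb, e1, e2, hpos, if_false, if_true, hjj]
      rfl

/-- Correspondence of states. -/
def Cor (N : List Comp) (x : CSt) (a : Sys.ASt (Ix (physNet N)) Bool (Wr (physNet N))) : Prop :=
  match x.1 with
  | .dead => True
  | .goal => ∃ β : Fin (physNet N).length, β.1 = 4 * N.length + 1 ∧ a.2.1 = .inl β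
  | .port g b => sts N a.1 = x.2 ∧ ∃ β : Fin (physNet N).length, β.1 = g ∧ a.2.1 = .inl β ∧
      tw (physNet N) a.2.2 = some g ∧ entOf a.2.2.2 = b

theorem hasEx_of_tg {B : List Blk} {β k γ : ℕ} (h : tg B β k = some γ) : HasEx B β k := by
  unfold tg at h
  cases hb : B[β]? with
  | none => rw [hb] at h; simp at h
  | some b =>
    rw [hb] at h
    simp only at h
    by_cases hk : k ∈ b.kind.ex
    · exact ⟨b, hb, hk⟩
    · rw [if_neg hk] at h
      exact absurd h (by simp)

theorem step_wire {B : List Blk} {ω : Wr B} {γ : ℕ} (h : tw B ω = some γ) (hγ : γ < B.length)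
    (σ : Ix B → Bool) : (bSys B).AStep (σ, .inr ω, ω) (σ, .inl ⟨γ, hγ⟩, ω) := by
  refine ⟨σ (.inr ω), 0, ⟨⟨rfl, hasEx_of_tg h⟩, wire_rel' h _⟩, ?_⟩
  have hnx : (bSys B).nx (.inr ω) 0 = (.inl ⟨γ, hγ⟩, ω) := by
    simp only [bSys, h, hγ, dif_pos]
  simp only [hnx, update_eq_self]

theorem step_mergeA {B : List Blk} {β : Fin B.length} {b : Blk} (hb : B[β.1]? = some b)
    (hk : b.kind = .mergeA) {ω : Wr B} (hω : tw B ω = some β.1) (σ : Ix B → Bool) :
    (bSys B).AStep (σ, .inl β, ω) (σ, .inr (β, 2), (β, 2)) := by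
  refine ⟨σ (.inl β), 2, ⟨hω, ?_⟩, ?_⟩
  · simp only
    rw [kd_inl hb, hk]
    exact mergeA_rel.2 ⟨rfl, rfl⟩
  · have hnx : (bSys B).nx (.inl β) 2 = (.inr (β, 2), (β, 2)) := rfl
    simp only [hnx, update_eq_self]

theorem step_mergeC {B : List Blk} {β : Fin B.length} {b : Blk} (hb : B[β.1]? = some b)
    (hk : b.kind = .mergeC) {ω : Wr B} (hω : tw B ω = some β.1) (σ : Ix B → Bool) :
    (bSys B).AStep (σ, .inl β, ω) (σ, .inr (β, 1), (β, 1)) := by
  refine ⟨σ (.inl β), 1, ⟨hω, ?_⟩, ?_⟩
  · simp only
    rw [kd_inl hb, hk]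
    exact mergeC_rel.2 ⟨rfl, rfl⟩
  · have hnx : (bSys B).nx (.inl β) 1 = (.inr (β, 1), (β, 1)) := rfl
    simp only [hnx, update_eq_self]

theorem step_cell {B : List Blk} {β : Fin B.length} {b : Blk} (hb : B[β.1]? = some b)
    (hk : b.kind = .cell) {ω : Wr B} (hω : tw B ω = some β.1) (σ : Ix B → Bool) {s' : Bool}
    {k : Fin 3} (h : kCell.rel (σ (.inl β)) (entOf ω.2) s' k = true) :
    (bSys B).AStep (σ, .inl β, ω) (update σ (.inl β) s', .inr (β, k), (β, k)) := by
  refine ⟨s', k, ⟨hω, ?_⟩, rfl⟩
  simp only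
  rw [kd_inl hb, hk]
  exact h

/-- From an exit of a main block to the next main block. -/
theorem travel (hN : Normal N) {g k : ℕ} {c : Comp} (hc : N[g]? = some c) (hk : k < 3)
    (σ : Ix (physNet N) → Bool) (β : Fin (physNet N).length) (j : Fin 3)
    (hj : PN.Src N β.1 j (N.length + 3 * g + k)) :
    ∃ a, ReflTransGen (bSys (physNet N)).AStep (σ, .inr (β, j), (β, j)) a ∧
      Cor N (c.wire k, sts N σ) a := by
  have hBN := physNormal_proof N hN
  have ht1 : tw (physNet N) (β, j) = some (N.length + 3 * g + k) := PN.tg_of_src hj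
  have hγ1 := hBN.range _ _ _ ht1
  have h1 := step_wire ht1 hγ1 σ
  have hg : g < N.length := (List.getElem?_eq_some_iff.1 hc).1
  have hb := PN.get_conv hc hk
  cases hw : c.wire k with
  | dead => exact ⟨_, .refl, trivial⟩
  | goal =>
    have hs := PN.Src.goal hc hg hk hw
    have ht2 : tw (physNet N) (⟨_, hγ1⟩, 1) = some (4 * N.length + 1) := PN.tg_of_src hs
    have hγ2 := hBN.range _ _ _ ht2
    have h2 := step_mergeC (β := ⟨_, hγ1⟩) hb (by rw [hw]; rfl) ht1 σ
    have h3 := step_wire ht2 hγ2 σ
    exact ⟨_, ((ReflTransGen.single h1).tail h2).tail h3, ⟨_, hγ2⟩, rfl, rfl⟩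
  | port g' b' =>
    cases b' with
    | false =>
      have hs := PN.Src.portF hc hg hk hw
      have ht2 : tw (physNet N) (⟨_, hγ1⟩, 1) = some g' := PN.tg_of_src hs
      have hγ2 := hBN.range _ _ _ ht2
      have h2 := step_mergeC (β := ⟨_, hγ1⟩) hb (by rw [hw]; rfl) ht1 σ
      have h3 := step_wire ht2 hγ2 σ
      exact ⟨_, ((ReflTransGen.single h1).tail h2).tail h3, rfl, ⟨_, hγ2⟩, rfl, rfl, ht2, rfl⟩
    | true =>
      have hs := PN.Src.portT hc hg hk hw
      have ht2 : tw (physNet N) (⟨_, hγ1⟩, 2) = some g' := PN.tg_of_src hs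
      have hγ2 := hBN.range _ _ _ ht2
      have h2 := step_mergeA (β := ⟨_, hγ1⟩) hb (by rw [hw]; rfl) ht1 σ
      have h3 := step_wire ht2 hγ2 σ
      exact ⟨_, ((ReflTransGen.single h1).tail h2).tail h3, rfl, ⟨_, hγ2⟩, rfl, rfl, ht2, rfl⟩

/-- Every step of the net is realised by the system of blocks. -/
theorem complete_step (hN : Normal N) {x y : CSt} (h : CStep N x y)
    {a : Sys.ASt (Ix (physNet N)) Bool (Wr (physNet N))} (ha : Cor N x a) :
    ∃ b, ReflTransGen (bSys (physNet N)).AStep a b ∧ Cor N y b := by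
  obtain ⟨σ, i, ω⟩ := a
  have main : ∀ {g : ℕ} {b : Bool} {s : ℕ → Bool} {c : Comp}, N[g]? = some c →
      Cor N (.port g b, s) (σ, i, ω) → sts N σ = s ∧ ∃ β : Fin (physNet N).length, β.1 = g ∧
        i = .inl β ∧ tw (physNet N) ω = some β.1 ∧ entOf ω.2 = b ∧
        (physNet N)[β.1]? = some (mainBlk N.length g c) ∧ s g = σ (.inl β) := by
    rintro g b s c hc ⟨h1, β, h2, h3, h4, h5⟩
    simp only at h1 h3 h4 h5
    subst h2
    refine ⟨h1, β, rfl, h3, h4, h5, PN.get_main hc, ?_⟩
    rw [← h1]
    unfold sts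
    rw [dif_pos β.2]
  cases h with
  | @er g b s er el v hc hs =>
    obtain ⟨h1, β, h2, rfl, h4, h5, h6, h7⟩ := main hc ha
    have hg : g < N.length := (List.getElem?_eq_some_iff.1 hc).1
    have hst := step_cell (s' := false) (k := 0) h6 rfl h4 σ (cell_rel.2 (Or.inl
      ⟨by rw [← h7, hs, h5], Or.inl ⟨rfl, rfl⟩⟩))
    have hsrc : PN.Src N β.1 ((0 : Fin 3) : ℕ) (N.length + 3 * g + 0) := by
      rw [h2]
      exact PN.Src.cell hc hg (by omega)
    obtain ⟨a, ha1, ha2⟩ := travel hN hc (k := 0) (by omega) (update σ (.inl β) false) β 0 hsrc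
    rw [sts_upd_inl, h1, h2] at ha2
    exact ⟨a, ReflTransGen.head hst ha1, ha2⟩
  | @el g b s er el v hc hs =>
    obtain ⟨h1, β, h2, rfl, h4, h5, h6, h7⟩ := main hc ha
    have hg : g < N.length := (List.getElem?_eq_some_iff.1 hc).1
    have hst := step_cell (s' := true) (k := 1) h6 rfl h4 σ (cell_rel.2 (Or.inl
      ⟨by rw [← h7, hs, h5], Or.inr ⟨rfl, rfl⟩⟩))
    have hsrc : PN.Src N β.1 ((1 : Fin 3) : ℕ) (N.length + 3 * g + 1) := by
      rw [h2]
      exact PN.Src.cell hc hg (by omega)
    obtain ⟨a, ha1, ha2⟩ := travel hN hc (k := 1) (by omega) (update σ (.inl β) true) β 1 hsrc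
    rw [sts_upd_inl, h1, h2] at ha2
    exact ⟨a, ReflTransGen.head hst ha1, ha2⟩
  | @v g b s er el v hc hs =>
    obtain ⟨h1, β, h2, rfl, h4, h5, h6, h7⟩ := main hc ha
    have hg : g < N.length := (List.getElem?_eq_some_iff.1 hc).1
    have hst := step_cell (s' := σ (.inl β)) (k := 2) h6 rfl h4 σ (cell_rel.2 (Or.inr
      ⟨by rw [← h7, h5]; exact hs, rfl, rfl⟩))
    rw [update_eq_self] at hst
    have hsrc : PN.Src N β.1 ((2 : Fin 3) : ℕ) (N.length + 3 * g + 2) := by
      rw [h2]
      exact PN.Src.cell hc hg (by omega)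
    obtain ⟨a, ha1, ha2⟩ := travel hN hc (k := 2) (by omega) σ β 2 hsrc
    rw [h1] at ha2
    exact ⟨a, ReflTransGen.head hst ha1, ha2⟩
  | @merge g b s o hc =>
    obtain ⟨h1, β, h2, rfl, h4, h5, h6, h7⟩ := main hc ha
    have hg : g < N.length := (List.getElem?_eq_some_iff.1 hc).1
    have hst := step_mergeA h6 rfl h4 σ
    have hsrc : PN.Src N β.1 ((2 : Fin 3) : ℕ) (N.length + 3 * g + 0) := by
      rw [h2]
      exact PN.Src.merge hc hg
    obtain ⟨a, ha1, ha2⟩ := travel hN hc (k := 0) (by omega) σ β 2 hsrc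
    rw [h1] at ha2
    exact ⟨a, ReflTransGen.head hst ha1, ha2⟩

end SM

open SM in
theorem sim_proof : Stmt_Sim := by
  intro N h hN
  have hpos := hN.pos
  have hst : tw (physNet N) (startWr N h) = some 0 := PN.tg_of_src (N := N) PN.Src.start
  constructor
  · rintro ⟨b, hb, hg⟩
    have key : ∀ a, ReflTransGen (bSys (physNet N)).AStep (startSt N h) a →
        ReflTransGen (CStep N) (.port 0 false, fun _ => false) (pos N a.2.1 a.2.2, sts N a.1) := by
      intro a ha
      induction ha with
      | refl =>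
        have e1 : ¬ 4 * N.length < N.length := by omega
        have e2 : ¬ 4 * N.length < 4 * N.length := by omega
        have : (pos N (startSt N h).2.1 (startSt N h).2.2, sts N (startSt N h).1) =
            ((.port 0 false, fun _ => false) : CSt) := by
          refine Prod.ext ?_ ?_
          · simp only [startSt, startWr, pos, e1, e2, if_false]
          · funext g
            simp only [startSt, sts]
            split <;> rfl
        rw [this]
      | tail _ h2 ih =>
        rcases sound_step hN h2 with ⟨h3, h4⟩ | h3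
        · rw [h3, h4]
          exact ih
        · exact ih.tail h3
    have h1 := key b hb
    have h2 : pos N b.2.1 b.2.2 = .goal := by
      rw [hg]
      have e1 : ¬ 4 * N.length + 1 < N.length := by omega
      have e2 : ¬ 4 * N.length + 1 < 4 * N.length := by omega
      have e3 : ¬ 4 * N.length + 1 = 4 * N.length := by omega
      simp only [goalIx, pos, e1, e2, e3, if_false]
    rw [h2] at h1
    exact ⟨_, h1⟩
  · rintro ⟨s, hs⟩
    have key : ∀ y, ReflTransGen (CStep N) (.port 0 false, fun _ => false) y →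
        ∃ a, ReflTransGen (bSys (physNet N)).AStep (startSt N h) a ∧ Cor N y a := by
      intro y hy
      induction hy with
      | refl =>
        have h0 : 0 < (physNet N).length := by rw [h]; unfold nBlk; omega
        refine ⟨_, ReflTransGen.single (step_wire hst h0 _), ?_, ⟨0, h0⟩, rfl, rfl, hst, rfl⟩
        funext g
        simp only [startSt, sts]
        split <;> rfl
      | tail _ h2 ih =>
        obtain ⟨a, ha1, ha2⟩ := ih
        obtain ⟨b, hb1, hb2⟩ := complete_step hN h2 ha2
        exact ⟨b, ha1.trans hb1, hb2⟩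
    obtain ⟨a, ha1, β, hβ, ha2⟩ := key _ hs
    refine ⟨a, ha1, ?_⟩
    rw [ha2]
    unfold goalIx
    congr 1
    exact Fin.ext hβ

end Pool.Agent.Lunar
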