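import Pool.Agent.Lunar.Defs
import Mathlib.Data.Finset.Union
import Mathlib.Data.Finset.Image
import Mathlib.Data.Fintype.Basic
import Mathlib.Data.Fintype.Sets
import Mathlib.Logic.Function.Basic
import Mathlib.Order.Monotone.Basic

/-!
# Systems of components

A component has rest configurations `Z i s` and active configurations `A i s e` (one more token,
the traveller, is inside; it came through the entry `e` when the component was in the state `s`).
Different components use different rows and columns; the only exception is the entry cell `w j e`,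
which may be adjacent to a token of the component from which the traveller comes.
-/

namespace Pool.Agent.Lunar

/-- The cells `p` and `q` are neither in one row nor in one column. -/
def Apart (p q : Cell) : Prop := p.1 ≠ q.1 ∧ p.2 ≠ q.2

/-- The cells `p` and `q` are neighbours in a row or in a column. -/
def Adj (p q : Cell) : Prop :=
  (p.1 = q.1 ∧ (p.2 = q.2 + 1 ∨ q.2 = p.2 + 1)) ∨ (p.2 = q.2 ∧ (p.1 = q.1 + 1 ∨ q.1 = p.1 + 1))

/-- A move of a token outside the cell `t`. -/
def StepOff (t : Cell) (S T : Finset Cell) : Prop :=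
  ∃ p ∈ S, p ≠ t ∧ ∃ q, Slide (S.erase p) p q ∧ T = insert q (S.erase p)

/-- A system of components `I` with local states `S`, entries `E` and exits `O`. -/
structure Sys (I S E O : Type) where
  /-- rest configurations -/
  Z : I → S → Set (Finset Cell)
  /-- active configurations (none of them has the traveller on an exit cell) -/
  A : I → S → E → Set (Finset Cell)
  /-- `rel i s e s' o`: entered in state `s` through `e`, the component `i` may be left through `o`
  in state `s'` -/
  rel : I → S → E → S → O → Prop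
  /-- entry cells -/
  w : I → E → Cell
  /-- exit cells -/
  x : I → O → Cell
  /-- the wiring -/
  nx : I → O → I × E

namespace Sys

variable {I S E O : Type}

/-- The geometric conditions. -/
structure Ok (Y : Sys I S E O) : Prop where
  zstep : ∀ i s d T, d ∈ Y.Z i s → Step d T → T ∈ Y.Z i s
  link : ∀ i s e s' o, Y.rel i s e s' o → Y.w (Y.nx i o).1 (Y.nx i o).2 = Y.x i o
  enter : ∀ i s e s' o, Y.rel i s e s' o → ∀ r d, d ∈ Y.Z (Y.nx i o).1 r →
    insert (Y.x i o) d ∈ Y.A (Y.nx i o).1 r (Y.nx i o).2
  astep : ∀ i s e c T, c ∈ Y.A i s e → Step c T → T ∈ Y.A i s e ∨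
    ∃ s' o d, Y.rel i s e s' o ∧ d ∈ Y.Z i s' ∧ T = insert (Y.x i o) d
  ne : ∀ i s e s' o, Y.rel i s e s' o → (Y.nx i o).1 ≠ i
  apartZ : ∀ i j, i ≠ j → ∀ s s' d d', d ∈ Y.Z i s → d' ∈ Y.Z j s' → ∀ p ∈ d, ∀ q ∈ d', Apart p q
  apartA : ∀ i j, i ≠ j → ∀ s s' e d c, d ∈ Y.Z i s → c ∈ Y.A j s' e → ∀ p ∈ d, ∀ q ∈ c,
    Apart p q ∨ (q = Y.w j e ∧ Adj p q)

/-- Abstract state: states of the components, active component, entry. -/
abbrev ASt (I S E : Type) : Type := (I → S) × I × E

/-- Abstract step. -/
def AStep [DecidableEq I] (Y : Sys I S E O) (a b : ASt I S E) : Prop :=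
  ∃ s' o, Y.rel a.2.1 (a.1 a.2.1) a.2.2 s' o ∧ b = (Function.update a.1 a.2.1 s', Y.nx a.2.1 o)

/-- The board `G` belongs to the abstract state `a`. -/
def Inv [Fintype I] (Y : Sys I S E O) (G : Finset Cell) (a : ASt I S E) : Prop :=
  ∃ cfg : I → Finset Cell, (∀ k, k ≠ a.2.1 → cfg k ∈ Y.Z k (a.1 k)) ∧
    cfg a.2.1 ∈ Y.A a.2.1 (a.1 a.2.1) a.2.2 ∧ G = Finset.univ.biUnion cfg

/-- The clean board of an abstract state, for a choice `cz` of rest configurations. -/
def brd [Fintype I] (Y : Sys I S E O) (cz : I → S → Finset Cell) (a : ASt I S E) : Finset Cell :=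
  insert (Y.w a.2.1 a.2.2) (Finset.univ.biUnion fun k => cz k (a.1 k))

/-- All transitions can be realised with the clean rest configurations `cz`. -/
structure Full (Y : Sys I S E O) (cz : I → S → Finset Cell) : Prop where
  mem : ∀ i s, cz i s ∈ Y.Z i s
  path : ∀ i s e s' o, Y.rel i s e s' o → insert (Y.w i e) (cz i s) ∈ Y.A i s e →
    Relation.ReflTransGen (fun c c' => c ∈ Y.A i s e ∧ Step c c')
      (insert (Y.w i e) (cz i s)) (insert (Y.x i o) (cz i s'))

end Sys

/-- Soundness of the composition. -/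
def Stmt_Sound : Prop :=
  ∀ (I S E O : Type) [Fintype I] [DecidableEq I] (Y : Sys I S E O), Y.Ok →
    ∀ G T a, Y.Inv G a → Step G T → ∃ b, Y.Inv T b ∧ (b = a ∨ Y.AStep a b)

/-- A token which cannot move inside its resting component cannot move on the board. -/
def Stmt_Static : Prop :=
  ∀ (I S E O : Type) [Fintype I] [DecidableEq I] (Y : Sys I S E O), Y.Ok →
    ∀ (γ : I) (t : Cell), (∀ s, ∀ d ∈ Y.Z γ s, t ∈ d ∧ ∀ q, Slide (d.erase t) t q → q = t) →
    ∀ G a, Y.Inv G a → a.2.1 ≠ γ → t ∈ G ∧ ∀ q, Slide (G.erase t) t q → q = t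

/-- Completeness of the composition; the token `t` of the component `γ` does not move. -/
def Stmt_Complete : Prop :=
  ∀ (I S E O : Type) [Fintype I] [DecidableEq I] (Y : Sys I S E O) (cz : I → S → Finset Cell),
    Y.Ok → Y.Full cz → ∀ (γ : I) (t : Cell), (∀ s e s' o, ¬ Y.rel γ s e s' o) →
    (∀ s, t ∈ cz γ s) → ∀ a b : Sys.ASt I S E,
    insert (Y.w a.2.1 a.2.2) (cz a.2.1 (a.1 a.2.1)) ∈ Y.A a.2.1 (a.1 a.2.1) a.2.2 →
    Relation.ReflTransGen Y.AStep a b →
    Relation.ReflTransGen (StepOff t) (Y.brd cz a) (Y.brd cz b)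

/-! ### Canonical components and their images -/

/-- Image of a list of cells under a pair of maps. -/
def img (f g : ℕ → ℕ) (c : List Cell) : Finset Cell := (c.map fun p => (f p.1, g p.2)).toFinset

/-- Finite data of a component in canonical coordinates: rest configurations, active
configurations, entry cells, exit cells, transitions, clean rest configurations. All lists of cells
are sorted lexicographically, without repetitions. -/
structure KData where
  Z : Bool → List (List Cell)
  A : Bool → Bool → List (List Cell)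
  /-- the entries that exist -/
  ent : Bool → Bool
  w : Bool → Cell
  x : Fin 3 → Cell
  /-- `rel s e s' k` -/
  rel : Bool → Bool → Bool → Fin 3 → Bool
  cz : Bool → List Cell

/-- The canonical component is closed. -/
structure KData.Closed (K : KData) : Prop where
  zstep : ∀ s, ∀ d ∈ K.Z s, ∀ T, Step d.toFinset T → ∃ d' ∈ K.Z s, T = d'.toFinset
  enter : ∀ s e, K.ent e = true → ∀ d ∈ K.Z s, ∃ c ∈ K.A s e,
    insert (K.w e) d.toFinset = c.toFinset
  astep : ∀ s e, K.ent e = true → ∀ c ∈ K.A s e, ∀ T, Step c.toFinset T →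
    (∃ c' ∈ K.A s e, T = c'.toFinset) ∨
    ∃ s' k, K.rel s e s' k = true ∧ ∃ d ∈ K.Z s', T = insert (K.x k) d.toFinset
  cz : ∀ s, K.cz s ∈ K.Z s
  path : ∀ s e s' k, K.ent e = true → K.rel s e s' k = true →
    Relation.ReflTransGen (fun c c' => (∃ l ∈ K.A s e, c = l.toFinset) ∧ Step c c')
      (insert (K.w e) (K.cz s).toFinset) (insert (K.x k) (K.cz s').toFinset)

/-- All cells occurring in the configurations of `K`, and its entry and exit cells in use. -/
def KData.cells (K : KData) : List Cell :=
  ([false, true].flatMap fun s => (K.Z s).flatten ++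
    [false, true].flatMap fun e => (K.A s e).flatten) ++
  ([false, true].filter K.ent).map K.w ++
  ([0, 1, 2].filter fun k => [false, true].any fun s => [false, true].any fun e =>
    [false, true].any fun s' => K.rel s e s' k).map K.x

/-- `f` is strictly monotone, and `f (a + 1) = f a + 1` if both `a` and `a + 1` are in `U`. -/
structure UnitOn (f : ℕ → ℕ) (U : List ℕ) : Prop where
  mono : StrictMono f
  unit : ∀ a ∈ U, a + 1 ∈ U → f (a + 1) = f a + 1

/-- The image of a closed canonical component is closed. -/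
def Stmt_Transport : Prop :=
  ∀ (K : KData), K.Closed → ∀ f g : ℕ → ℕ, UnitOn f (K.cells.map Prod.fst) →
    UnitOn g (K.cells.map Prod.snd) →
    (∀ s, ∀ d ∈ K.Z s, ∀ T, Step (img f g d) T → ∃ d' ∈ K.Z s, T = img f g d') ∧
    (∀ s e, K.ent e = true → ∀ d ∈ K.Z s, ∃ c ∈ K.A s e,
      insert (f (K.w e).1, g (K.w e).2) (img f g d) = img f g c) ∧
    (∀ s e, K.ent e = true → ∀ c ∈ K.A s e, ∀ T, Step (img f g c) T →
      (∃ c' ∈ K.A s e, T = img f g c') ∨
      ∃ s' k, K.rel s e s' k = true ∧ ∃ d ∈ K.Z s',
        T = insert (f (K.x k).1, g (K.x k).2) (img f g d)) ∧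
    (∀ s e s' k, K.ent e = true → K.rel s e s' k = true →
      Relation.ReflTransGen (fun c c' => (∃ l ∈ K.A s e, c = img f g l) ∧ Step c c')
        (insert (f (K.w e).1, g (K.w e).2) (img f g (K.cz s)))
        (insert (f (K.x k).1, g (K.x k).2) (img f g (K.cz s'))))

end Pool.Agent.Lunar
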